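import Pool.Agent.H66.NCL.Basic

/-!
# Module Contract: the torus contracts lower triangular matrices

`q = nv ϖ`, `0 < q < 1`.

PLAN.
* `IsB_mul`, `IsB_inv`: products of lower triangular matrices, diagonal entries multiply;
  for the inverse: `b i i * b⁻¹ i i = 1`.
* `contract`: the diagonal entries of `b` are `ϖ ^ s i`, those of `b⁻¹` are `ϖ ^ (-s i)`; since
  `nv (ϖ^k) = q^k ≤ q⁻¹^a` forces `-a ≤ k`, we get `|s i| ≤ a`. The entries of
  `w = tor (-(s+t)) * b * tor t` are `ϖ^(-(s i + t i)) * b i j * ϖ^(t j)`, those of `w⁻¹` are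
  `ϖ^(-t i) * b⁻¹ i j * ϖ^(s j + t j)`. For `j < i` the absolute value is at most
  `q^(t j - t i - 2 a) ≤ q^m`.
* `tor_add`, `tor_inv_entry`: trivial.
-/

namespace Pool.Agent.H66.NCL

universe u

variable {D : Type u} [DivisionRing D] {nv : D → ℝ}

theorem tor_add (ϖ : D) (hϖ : ϖ ≠ 0) (n : ℕ) (s t : Fin n → ℤ) :
    tor ϖ hϖ n (s + t) = tor ϖ hϖ n s * tor ϖ hϖ n t := by
  apply Units.ext
  show Matrix.diagonal _ = Matrix.diagonal _ * Matrix.diagonal _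
  rw [Matrix.diagonal_mul_diagonal]
  congr 1
  funext i
  rw [Pi.add_apply, zpow_add₀ hϖ]

theorem Contract_tor_inv (ϖ : D) (hϖ : ϖ ≠ 0) (n : ℕ) (t : Fin n → ℤ) :
    (tor ϖ hϖ n t)⁻¹ = tor ϖ hϖ n (-t) := by
  rw [inv_eq_iff_mul_eq_one, ← tor_add, add_neg_cancel]
  apply Units.ext
  show Matrix.diagonal _ = 1
  rw [← Matrix.diagonal_one]
  congr 1
  funext i
  simp

/-- the diagonal of a product of lower triangular matrices -/
theorem Contract_diag {n : ℕ} {b c : Matrix (Fin n) (Fin n) D}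
    (hb : ∀ i j, i < j → b i j = 0) (hc : ∀ i j, i < j → c i j = 0) (i : Fin n) :
    (b * c) i i = b i i * c i i := by
  rw [Matrix.mul_apply]
  apply Finset.sum_eq_single i
  · intro k _ hk
    rcases lt_or_gt_of_ne hk with h | h
    · rw [hc k i h, mul_zero]
    · rw [hb i k h, zero_mul]
  · intro h
    exact absurd (Finset.mem_univ i) h

theorem Contract_low {n : ℕ} {b c : Matrix (Fin n) (Fin n) D}
    (hb : ∀ i j, i < j → b i j = 0) (hc : ∀ i j, i < j → c i j = 0) (i j : Fin n) (hij : i < j) :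
    (b * c) i j = 0 := by
  rw [Matrix.mul_apply]
  apply Finset.sum_eq_zero
  intro k _
  rcases lt_or_ge i k with h | h
  · rw [hb i k h, zero_mul]
  · rw [hc k j (lt_of_le_of_lt h hij), mul_zero]

theorem IsB_mul {ϖ : D} (hϖ : ϖ ≠ 0) {n : ℕ} {b c : (Matrix (Fin n) (Fin n) D)ˣ}
    (hb : IsB ϖ b) (hc : IsB ϖ c) : IsB ϖ (b * c) := by
  refine ⟨Contract_low hb.1 hc.1, ?_, ?_⟩
  · rw [mul_inv_rev]
    exact Contract_low hc.2.1 hb.2.1
  · intro i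
    obtain ⟨x, hx⟩ := hb.2.2 i
    obtain ⟨y, hy⟩ := hc.2.2 i
    refine ⟨x + y, ?_⟩
    rw [Units.val_mul, Contract_diag hb.1 hc.1, hx, hy, zpow_add₀ hϖ]

theorem Contract_inv_diag {ϖ : D} {n : ℕ} {b : (Matrix (Fin n) (Fin n) D)ˣ}
    (hb : IsB ϖ b) {i : Fin n} {a : ℤ} (ha : b.val i i = ϖ ^ a) : b⁻¹.val i i = ϖ ^ (-a) := by
  have h := Contract_diag hb.1 hb.2.1 i
  rw [← Units.val_mul, mul_inv_cancel, Units.val_one, Matrix.one_apply_eq, ha] at h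
  rw [zpow_neg]
  exact eq_inv_of_mul_eq_one_right h.symm

theorem IsB_inv {ϖ : D} (hϖ : ϖ ≠ 0) {n : ℕ} {b : (Matrix (Fin n) (Fin n) D)ˣ}
    (hb : IsB ϖ b) : IsB ϖ b⁻¹ := by
  refine ⟨hb.2.1, ?_, ?_⟩
  · rw [inv_inv]
    exact hb.1
  · intro i
    obtain ⟨x, hx⟩ := hb.2.2 i
    exact ⟨-x, Contract_inv_diag hb hx⟩

theorem Contract_one (h : IsAbs nv) : nv 1 = 1 := by
  have h1 : nv 1 = nv 1 * nv 1 := by rw [← h.mul, one_mul]
  have h2 : nv 1 ≠ 0 := fun h0 => one_ne_zero ((h.eq_zero 1).1 h0)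
  exact mul_left_cancel₀ h2 (by rw [mul_one]; exact h1.symm)

theorem Contract_zpow (h : IsAbs nv) (x : D) (k : ℤ) : nv (x ^ k) = nv x ^ k := by
  let f : D →*₀ ℝ :=
    { toFun := nv
      map_zero' := (h.eq_zero 0).2 rfl
      map_one' := Contract_one h
      map_mul' := h.mul }
  exact map_zpow₀ f x k

theorem Contract_pos (h : IsAbs nv) {ϖ : D} (hϖ : ϖ ≠ 0) : 0 < nv ϖ :=
  lt_of_le_of_ne (h.nonneg ϖ) fun h0 => hϖ ((h.eq_zero ϖ).1 h0.symm)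

theorem contract (h : IsAbs nv) (ϖ : D) (hϖ : ϖ ≠ 0) (h1 : nv ϖ < 1) (n a : ℕ)
    (b : (Matrix (Fin n) (Fin n) D)ˣ) (hb : IsB ϖ b) (hbU : b ∈ U nv (nv ϖ) n a) :
    ∃ s : Fin n → ℤ, (∀ i, |s i| ≤ a) ∧ ∀ (m : ℕ) (t : Fin n → ℤ),
      (∀ i j, j < i → (m : ℤ) + 2 * a ≤ t j - t i) →
      ∃ w : (Matrix (Fin n) (Fin n) D)ˣ, b * tor ϖ hϖ n t = tor ϖ hϖ n (s + t) * w ∧
        (∀ i, w.val i i = 1 ∧ w⁻¹.val i i = 1) ∧
        (∀ i j, i ≠ j → nv (w.val i j) ≤ nv ϖ ^ m ∧ nv (w⁻¹.val i j) ≤ nv ϖ ^ m) := by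
  have hq0 := Contract_pos h hϖ
  choose s hs using hb.2.2
  have hs' : ∀ i, b⁻¹.val i i = ϖ ^ (-s i) := fun i => Contract_inv_diag hb (hs i)
  have hqa : (nv ϖ)⁻¹ ^ a = nv ϖ ^ (-(a : ℤ)) := by
    rw [zpow_neg, zpow_natCast, inv_pow]
  have hmono : ∀ k l : ℤ, nv ϖ ^ k ≤ nv ϖ ^ l ↔ l ≤ k := fun k l =>
    zpow_le_zpow_iff_right_of_lt_one₀ hq0 h1
  have hsa : ∀ i, |s i| ≤ a := by
    intro i
    obtain ⟨h2, h3⟩ := hbU i i
    rw [hs, Contract_zpow h, hqa, hmono] at h2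
    rw [hs', Contract_zpow h, hqa, hmono] at h3
    rw [abs_le]
    omega
  refine ⟨s, hsa, ?_⟩
  intro m t ht
  refine ⟨(tor ϖ hϖ n (s + t))⁻¹ * (b * tor ϖ hϖ n t), by group, ?_⟩
  have hw : ∀ i j, ((tor ϖ hϖ n (s + t))⁻¹ * (b * tor ϖ hϖ n t)).val i j =
      ϖ ^ (-(s i + t i)) * (b.val i j * ϖ ^ (t j)) := by
    intro i j
    rw [Contract_tor_inv, Units.val_mul, Units.val_mul]
    show (Matrix.diagonal _ * (b.val * Matrix.diagonal _) : Matrix (Fin n) (Fin n) D) i j = _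
    rw [Matrix.diagonal_mul, Matrix.mul_diagonal, Pi.neg_apply, Pi.add_apply]
  have hw' : ∀ i j, ((tor ϖ hϖ n (s + t))⁻¹ * (b * tor ϖ hϖ n t))⁻¹.val i j =
      ϖ ^ (-t i) * (b⁻¹.val i j * ϖ ^ (s j + t j)) := by
    intro i j
    rw [mul_inv_rev, mul_inv_rev, inv_inv, mul_assoc, Contract_tor_inv, Units.val_mul, Units.val_mul]
    show (Matrix.diagonal _ * (b⁻¹.val * Matrix.diagonal _) : Matrix (Fin n) (Fin n) D) i j = _
    rw [Matrix.diagonal_mul, Matrix.mul_diagonal, Pi.neg_apply, Pi.add_apply]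
  refine ⟨?_, ?_⟩
  · intro i
    rw [hw, hw', hs, hs', ← zpow_add₀ hϖ, ← zpow_add₀ hϖ, ← zpow_add₀ hϖ, ← zpow_add₀ hϖ]
    constructor
    · rw [show -(s i + t i) + (s i + t i) = 0 by ring, zpow_zero]
    · rw [show -t i + (-s i + (s i + t i)) = 0 by ring, zpow_zero]
  · intro i j hij
    have hpow : ∀ k : ℤ, nv ϖ ^ k ≤ nv ϖ ^ m ↔ (m : ℤ) ≤ k := by
      intro k
      rw [← zpow_natCast (nv ϖ) m, hmono]
    rcases lt_or_gt_of_ne hij with hlt | hgt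
    · rw [hw, hw', hb.1 i j hlt, hb.2.1 i j hlt, zero_mul, mul_zero, zero_mul, mul_zero,
        (h.eq_zero 0).2 rfl]
      exact ⟨by positivity, by positivity⟩
    · have htij := ht i j hgt
      have hsi := abs_le.1 (hsa i)
      have hsj := abs_le.1 (hsa j)
      obtain ⟨h2, h3⟩ := hbU i j
      rw [hqa] at h2 h3
      constructor
      · rw [hw, h.mul, h.mul, Contract_zpow h, Contract_zpow h]
        calc nv ϖ ^ (-(s i + t i)) * (nv (b.val i j) * nv ϖ ^ t j)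
            ≤ nv ϖ ^ (-(s i + t i)) * (nv ϖ ^ (-(a : ℤ)) * nv ϖ ^ t j) := by gcongr
          _ = nv ϖ ^ (-(s i + t i) + (-(a : ℤ) + t j)) := by
              rw [zpow_add₀ hq0.ne', zpow_add₀ hq0.ne']
          _ ≤ nv ϖ ^ m := by rw [hpow]; omega
      · rw [hw', h.mul, h.mul, Contract_zpow h, Contract_zpow h]
        calc nv ϖ ^ (-t i) * (nv (b⁻¹.val i j) * nv ϖ ^ (s j + t j))
            ≤ nv ϖ ^ (-t i) * (nv ϖ ^ (-(a : ℤ)) * nv ϖ ^ (s j + t j)) := by gcongr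
          _ = nv ϖ ^ (-t i + (-(a : ℤ) + (s j + t j))) := by
              rw [zpow_add₀ hq0.ne' (-t i), zpow_add₀ hq0.ne' (-(a : ℤ))]
          _ ≤ nv ϖ ^ m := by rw [hpow]; omega

/-- the points of the box have large gaps -/
theorem box_gap {N n a : ℕ} (hN : 2 * a ≤ N) {t : Fin n → ℤ} (ht : t ∈ box N n) (i j : Fin n)
    (hij : j < i) : (N : ℤ) + 2 * a ≤ t j - t i := by
  unfold box at ht
  rw [Fintype.mem_piFinset] at ht
  have h1 := Finset.mem_Ico.1 (ht i)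
  have h2 := Finset.mem_Ico.1 (ht j)
  have h3 : (j : ℤ) + 1 ≤ (i : ℤ) := by
    have : (j : ℕ) < (i : ℕ) := hij
    omega
  have h4 : 0 ≤ (N : ℤ) := Int.natCast_nonneg N
  have h5 : (2 : ℤ) * a ≤ N := by exact_mod_cast hN
  nlinarith [mul_le_mul_of_nonneg_left h3 h4]

end Pool.Agent.H66.NCL
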