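import Pool.Agent.H66.NCL.Basic

/-!
# Module Iwasawa: elimination over a division ring with absolute value

`q = nv ϖ`, `0 < q < 1`. `U nv q n a` : entries of `g` and `g⁻¹` at most `q⁻¹ ^ a`.

PLAN.
* `U_mono`, `U_inv`, `U_exists` (finitely many entries, `q⁻¹ ^ a → ∞`).
* `U_mul`: entries of a product are sums of `n` products: `≤ n q⁻¹^(a+b) ≤ q⁻¹^(a+b+c)`.
  (`nv (∑ ...) ≤ ∑ nv ...` by induction.) Use `(g*h)⁻¹ = h⁻¹ * g⁻¹`.
* `iwasawa`: induction on `n`. For `g ∈ GL_{m+1}(D)` the first row `r` is nonzero. Choose `j` with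
  `nv (r j)` maximal. Let `p` = permutation matrix of `swap 0 j`, `e` = identity minus
  `∑_{l ≥ 1} E_{0 l} c_l`, `c_l = r'_0⁻¹ * r'_l` (`r' = r p`, `nv c_l ≤ 1`), `d` = diagonal
  `(u, 1, …, 1)` with `r'_0 * u = ϖ ^ a`, `nv u` and `nv u⁻¹` at most `q⁻¹` (choose `a : ℤ` with
  `q^(a+1) ≤ nv r'_0 ≤ q^a`, `exists_mem_Ico_zpow` or similar). Then the first row of
  `g p e d` is `(ϖ^a, 0, …, 0)`, `k1 = p e d ∈ U …` (explicit inverses: `p`, identity plus
  `∑ E_{0 l} c_l`, `d⁻¹`). The inverse of `g' = g k1` also has first row `(ϖ^(-a), 0, …, 0)`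
  (multiply `e_0 g' = ϖ^a e_0` by `g'⁻¹`), so the lower right block `g''` of `g'` is invertible with
  inverse the lower right block of `g'⁻¹`. By induction `g'' = b'' k''`, and
  `g' = [[ϖ^a, 0], [c, b'']] * [[1, 0], [0, k'']]`. The first factor is in `IsB` (its inverse is
  lower triangular: `[[ϖ^-a, 0], [-b''⁻¹ c ϖ^-a, b''⁻¹]]`), and `b⁻¹ g = diag(1,k'') k1⁻¹`.
  (Write `D` division ring, noncommutative: keep the order of the factors.)
-/

namespace Pool.Agent.H66.NCL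

universe u

variable {D : Type u} [DivisionRing D] {nv : D → ℝ} {q : ℝ}

theorem U_mono (hq0 : 0 < q) (hq1 : q < 1) (n : ℕ) : Monotone (U nv q n) := by
  intro a b hab g hg i j
  have h1 : (1 : ℝ) ≤ q⁻¹ := (one_lt_inv₀ hq0).2 hq1 |>.le
  have h2 : q⁻¹ ^ a ≤ q⁻¹ ^ b := pow_le_pow_right₀ h1 hab
  exact ⟨(hg i j).1.trans h2, (hg i j).2.trans h2⟩

theorem U_inv (n a : ℕ) (g : (Matrix (Fin n) (Fin n) D)ˣ) (hg : g ∈ U nv q n a) :
    g⁻¹ ∈ U nv q n a := by
  intro i j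
  rw [inv_inv]
  exact ⟨(hg i j).2, (hg i j).1⟩

theorem U_exists (hq0 : 0 < q) (hq1 : q < 1) (n : ℕ) (g : (Matrix (Fin n) (Fin n) D)ˣ) :
    ∃ a, g ∈ U nv q n a := by
  have h1 : (1 : ℝ) < q⁻¹ := (one_lt_inv₀ hq0).2 hq1
  have h2 : ∀ x : ℝ, ∃ a : ℕ, x ≤ q⁻¹ ^ a := fun x =>
    (pow_unbounded_of_one_lt x h1).imp fun _ h => h.le
  choose f hf using h2
  refine ⟨(Finset.univ : Finset (Fin n × Fin n)).sup
    (fun p => max (f (nv (g.val p.1 p.2))) (f (nv (g⁻¹.val p.1 p.2)))), ?_⟩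
  intro i j
  have h3 := Finset.le_sup (f := fun p : Fin n × Fin n =>
    max (f (nv (g.val p.1 p.2))) (f (nv (g⁻¹.val p.1 p.2)))) (Finset.mem_univ (i, j))
  constructor
  · exact (hf _).trans (pow_le_pow_right₀ h1.le ((le_max_left _ _).trans h3))
  · exact (hf _).trans (pow_le_pow_right₀ h1.le ((le_max_right _ _).trans h3))

theorem iwasawa_zero (h : IsAbs nv) : nv 0 = 0 := (h.eq_zero 0).2 rfl

theorem iwasawa_one (h : IsAbs nv) : nv 1 = 1 := by
  have h1 := h.mul 1 1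
  rw [one_mul] at h1
  have h2 : nv 1 ≠ 0 := fun h3 => one_ne_zero ((h.eq_zero 1).1 h3)
  have h3 : nv 1 * 1 = nv 1 * nv 1 := by rw [mul_one, ← h1]
  exact (mul_left_cancel₀ h2 h3).symm

theorem iwasawa_neg (h : IsAbs nv) (x : D) : nv (-x) = nv x := by
  have h1 : nv (-1) * nv (-1) = 1 := by
    rw [← h.mul, neg_mul_neg, one_mul, iwasawa_one h]
  have h2 := h.nonneg (-1)
  have h3 : nv (-1) = 1 := by nlinarith
  rw [← neg_one_mul, h.mul, h3, one_mul]

/-- the absolute value as a homomorphism -/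
noncomputable def iwasawaHom (h : IsAbs nv) : D →*₀ ℝ where
  toFun := nv
  map_zero' := iwasawa_zero h
  map_one' := iwasawa_one h
  map_mul' := h.mul

theorem iwasawa_inv (h : IsAbs nv) (x : D) : nv x⁻¹ = (nv x)⁻¹ := map_inv₀ (iwasawaHom h) x

theorem iwasawa_zpow (h : IsAbs nv) (x : D) (a : ℤ) : nv (x ^ a) = nv x ^ a :=
  map_zpow₀ (iwasawaHom h) x a

theorem iwasawa_sum (h : IsAbs nv) {ι : Type*} (s : Finset ι) (f : ι → D) :
    nv (∑ i ∈ s, f i) ≤ ∑ i ∈ s, nv (f i) := by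
  classical
  induction s using Finset.induction_on with
  | empty => simp [iwasawa_zero h]
  | insert a s ha ih =>
    rw [Finset.sum_insert ha, Finset.sum_insert ha]
    exact (h.add_le _ _).trans (add_le_add le_rfl ih)

theorem iwasawa_entry (h : IsAbs nv) {n : ℕ} (X Y : Matrix (Fin n) (Fin n) D) {s t : ℝ}
    (hs : 0 ≤ s) (hX : ∀ i j, nv (X i j) ≤ s) (hY : ∀ i j, nv (Y i j) ≤ t) (i j : Fin n) :
    nv ((X * Y) i j) ≤ n * (s * t) := by
  rw [Matrix.mul_apply]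
  refine (iwasawa_sum h _ _).trans ?_
  have h1 : ∀ k ∈ (Finset.univ : Finset (Fin n)), nv (X i k * Y k j) ≤ s * t := by
    intro k _
    rw [h.mul]
    exact mul_le_mul (hX i k) (hY k j) (h.nonneg _) hs
  refine (Finset.sum_le_sum h1).trans (le_of_eq ?_)
  rw [Finset.sum_const, Finset.card_univ, Fintype.card_fin, nsmul_eq_mul]

theorem U_mul (h : IsAbs nv) (hq0 : 0 < q) (hq1 : q < 1) (n a b : ℕ) :
    ∃ c, ∀ x ∈ U nv q n a, ∀ y ∈ U nv q n b, x * y ∈ U nv q n c := by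
  have h1 : (1 : ℝ) < q⁻¹ := (one_lt_inv₀ hq0).2 hq1
  obtain ⟨c, hc⟩ := pow_unbounded_of_one_lt (n : ℝ) h1
  refine ⟨a + b + c, fun x hx y hy i j => ?_⟩
  have h0 : (0 : ℝ) ≤ q⁻¹ := by linarith
  have e1 : (n : ℝ) * (q⁻¹ ^ a * q⁻¹ ^ b) ≤ q⁻¹ ^ (a + b + c) := by
    rw [pow_add, pow_add, mul_comm]
    exact mul_le_mul_of_nonneg_left hc.le (by positivity)
  have e2 : (n : ℝ) * (q⁻¹ ^ b * q⁻¹ ^ a) ≤ q⁻¹ ^ (a + b + c) := by
    rw [mul_comm (q⁻¹ ^ b)]
    exact e1
  constructor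
  · refine le_trans ?_ e1
    rw [Units.val_mul]
    exact iwasawa_entry h _ _ (by positivity) (fun i j => (hx i j).1) (fun i j => (hy i j).1) i j
  · refine le_trans ?_ e2
    rw [mul_inv_rev, Units.val_mul]
    exact iwasawa_entry h _ _ (by positivity) (fun i j => (hy i j).2) (fun i j => (hx i j).2) i j

section Lower

variable {m : ℕ}

/-- the matrix with first row `(a, 0, …, 0)`, first column `(a, c)` and block `B` -/
def iwasawaLb (a : D) (c : Fin m → D) (B : Matrix (Fin m) (Fin m) D) :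
    Matrix (Fin (m + 1)) (Fin (m + 1)) D :=
  Matrix.of (Fin.cons (α := fun _ => Fin (m + 1) → D) (Fin.cons (α := fun _ => D) a (fun _ => 0))
    (fun i => Fin.cons (α := fun _ => D) (c i) (B i)))

theorem iwasawaLb_zz (a : D) (c : Fin m → D) (B : Matrix (Fin m) (Fin m) D) :
    iwasawaLb a c B 0 0 = a := rfl

theorem iwasawaLb_zs (a : D) (c : Fin m → D) (B : Matrix (Fin m) (Fin m) D) (l : Fin m) :
    iwasawaLb a c B 0 l.succ = 0 := rfl

theorem iwasawaLb_sz (a : D) (c : Fin m → D) (B : Matrix (Fin m) (Fin m) D) (i : Fin m) :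
    iwasawaLb a c B i.succ 0 = c i := rfl

theorem iwasawaLb_ss (a : D) (c : Fin m → D) (B : Matrix (Fin m) (Fin m) D) (i l : Fin m) :
    iwasawaLb a c B i.succ l.succ = B i l := rfl

theorem iwasawaLb_ext {X Y : Matrix (Fin (m + 1)) (Fin (m + 1)) D} (h1 : X 0 0 = Y 0 0)
    (h2 : ∀ l : Fin m, X 0 l.succ = Y 0 l.succ) (h3 : ∀ i : Fin m, X i.succ 0 = Y i.succ 0)
    (h4 : ∀ i l : Fin m, X i.succ l.succ = Y i.succ l.succ) : X = Y := by
  ext i l
  refine Fin.cases ?_ (fun i => ?_) i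
  · exact Fin.cases h1 h2 l
  · exact Fin.cases (h3 i) (h4 i) l

theorem iwasawaLb_mul (a a' : D) (c c' : Fin m → D) (B B' : Matrix (Fin m) (Fin m) D) :
    iwasawaLb a c B * iwasawaLb a' c' B' =
      iwasawaLb (a * a') (fun i => c i * a' + ∑ k, B i k * c' k) (B * B') := by
  apply iwasawaLb_ext
  · rw [Matrix.mul_apply, Fin.sum_univ_succ]
    simp only [iwasawaLb_zz, iwasawaLb_zs, zero_mul, Finset.sum_const_zero, add_zero]
  · intro l
    rw [Matrix.mul_apply, Fin.sum_univ_succ]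
    simp only [iwasawaLb_zz, iwasawaLb_zs, mul_zero, zero_mul, Finset.sum_const_zero, add_zero]
  · intro i
    rw [Matrix.mul_apply, Fin.sum_univ_succ]
    simp only [iwasawaLb_zz, iwasawaLb_sz, iwasawaLb_ss]
  · intro i l
    rw [Matrix.mul_apply, Fin.sum_univ_succ]
    simp only [iwasawaLb_zs, iwasawaLb_sz, iwasawaLb_ss, mul_zero, zero_add]
    rw [Matrix.mul_apply]

theorem iwasawaLb_one : iwasawaLb (1 : D) 0 (1 : Matrix (Fin m) (Fin m) D) = 1 := by
  apply iwasawaLb_ext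
  · rfl
  · intro l
    rw [iwasawaLb_zs, Matrix.one_apply_ne (Fin.succ_ne_zero l).symm]
  · intro i
    rw [iwasawaLb_sz, Matrix.one_apply_ne (Fin.succ_ne_zero i)]
    rfl
  · intro i l
    rw [iwasawaLb_ss, Matrix.one_apply, Matrix.one_apply]
    simp only [Fin.succ_inj]

/-- the unit `[[a, 0], [c, B]]` -/
def iwasawaLu (a : D) (ha : a ≠ 0) (c : Fin m → D) (B : (Matrix (Fin m) (Fin m) D)ˣ) :
    (Matrix (Fin (m + 1)) (Fin (m + 1)) D)ˣ where
  val := iwasawaLb a c B.val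
  inv := iwasawaLb a⁻¹ (fun i => -((∑ k, B⁻¹.val i k * c k) * a⁻¹)) B⁻¹.val
  val_inv := by
    rw [iwasawaLb_mul, mul_inv_cancel₀ ha, Units.mul_inv, ← iwasawaLb_one]
    congr 1
    funext i
    have h1 : ∑ k, B.val i k * -((∑ l, B⁻¹.val k l * c l) * a⁻¹) =
        -((∑ l, (B.val * B⁻¹.val) i l * c l) * a⁻¹) := by
      simp only [mul_neg, Finset.sum_neg_distrib, Finset.sum_mul, Finset.mul_sum, Matrix.mul_apply]
      rw [Finset.sum_comm]
      simp only [mul_assoc]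
    rw [h1, Units.mul_inv]
    simp [Matrix.one_apply]
  inv_val := by
    rw [iwasawaLb_mul, inv_mul_cancel₀ ha, Units.inv_mul, ← iwasawaLb_one]
    congr 1
    funext i
    rw [neg_mul, mul_assoc, inv_mul_cancel₀ ha, mul_one, neg_add_cancel]
    rfl

end Lower

section Elem

variable {m : ℕ}

/-- transposition matrix -/
def iwasawaP (j : Fin (m + 1)) : (Matrix (Fin (m + 1)) (Fin (m + 1)) D)ˣ where
  val := Matrix.of fun i l => if i = Equiv.swap 0 j l then 1 else 0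
  inv := Matrix.of fun i l => if i = Equiv.swap 0 j l then 1 else 0
  val_inv := by
    ext i l
    rw [Matrix.mul_apply, Matrix.one_apply]
    simp only [Matrix.of_apply, mul_ite, mul_one, mul_zero, Finset.sum_ite_eq', Finset.mem_univ, if_true,
      Equiv.swap_apply_self]
  inv_val := by
    ext i l
    rw [Matrix.mul_apply, Matrix.one_apply]
    simp only [Matrix.of_apply, mul_ite, mul_one, mul_zero, Finset.sum_ite_eq', Finset.mem_univ, if_true,
      Equiv.swap_apply_self]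

theorem iwasawaP_apply (j : Fin (m + 1)) (X : Matrix (Fin (m + 1)) (Fin (m + 1)) D)
    (i l : Fin (m + 1)) : (X * (iwasawaP j : (Matrix (Fin (m + 1)) (Fin (m + 1)) D)ˣ).val) i l =
      X i (Equiv.swap 0 j l) := by
  rw [Matrix.mul_apply]
  simp only [iwasawaP, Matrix.of_apply, mul_ite, mul_one, mul_zero, Finset.sum_ite_eq', Finset.mem_univ,
    if_true]

/-- the matrix `1 + ∑ E_{0 l} v_l` -/
def iwasawaEm (v : Fin (m + 1) → D) : Matrix (Fin (m + 1)) (Fin (m + 1)) D :=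
  Matrix.of fun i l => (if i = l then 1 else 0) + (if i = 0 then v l else 0)

theorem iwasawaEm_apply (v : Fin (m + 1) → D) (X : Matrix (Fin (m + 1)) (Fin (m + 1)) D)
    (i l : Fin (m + 1)) : (X * iwasawaEm v) i l = X i l + X i 0 * v l := by
  rw [Matrix.mul_apply]
  simp only [iwasawaEm, Matrix.of_apply, mul_add, mul_ite, mul_one, mul_zero, Finset.sum_add_distrib,
    Finset.sum_ite_eq', Finset.mem_univ, if_true]

theorem iwasawaEm_mul (v w : Fin (m + 1) → D) (hv : v 0 = 0) :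
    iwasawaEm v * iwasawaEm w = iwasawaEm (v + w) := by
  ext i l
  rw [iwasawaEm_apply]
  simp only [iwasawaEm, Matrix.of_apply, Pi.add_apply, hv]
  by_cases hi : i = 0
  · subst hi
    simp only [if_true]
    rw [add_zero, one_mul, add_assoc]
  · simp only [if_neg hi, add_zero, zero_mul]

theorem iwasawaEm_zero : iwasawaEm (0 : Fin (m + 1) → D) = 1 := by
  ext i l
  simp [iwasawaEm, Matrix.one_apply]

/-- the unit `1 + ∑ E_{0 l} v_l` -/
def iwasawaE (v : Fin (m + 1) → D) (hv : v 0 = 0) : (Matrix (Fin (m + 1)) (Fin (m + 1)) D)ˣ where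
  val := iwasawaEm v
  inv := iwasawaEm (-v)
  val_inv := by rw [iwasawaEm_mul v _ hv, add_neg_cancel, iwasawaEm_zero]
  inv_val := by
    rw [iwasawaEm_mul _ _ (by rw [Pi.neg_apply, hv, neg_zero]), neg_add_cancel, iwasawaEm_zero]

/-- the unit `diag(u, 1, …, 1)` -/
noncomputable def iwasawaD (u : D) (hu : u ≠ 0) : (Matrix (Fin (m + 1)) (Fin (m + 1)) D)ˣ where
  val := Matrix.diagonal fun i => if i = 0 then u else 1
  inv := Matrix.diagonal fun i => if i = 0 then u⁻¹ else 1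
  val_inv := by
    rw [Matrix.diagonal_mul_diagonal, ← Matrix.diagonal_one]
    congr 1
    funext i
    split_ifs
    · exact mul_inv_cancel₀ hu
    · exact mul_one 1
  inv_val := by
    rw [Matrix.diagonal_mul_diagonal, ← Matrix.diagonal_one]
    congr 1
    funext i
    split_ifs
    · exact inv_mul_cancel₀ hu
    · exact mul_one 1

theorem iwasawaP_mem (h : IsAbs nv) (j : Fin (m + 1)) :
    (iwasawaP j : (Matrix (Fin (m + 1)) (Fin (m + 1)) D)ˣ) ∈ U nv q (m + 1) 0 := by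
  have h1 : ∀ i l : Fin (m + 1), nv (if i = Equiv.swap 0 j l then (1 : D) else 0) ≤ q⁻¹ ^ 0 := by
    intro i l
    rw [pow_zero]
    split_ifs
    · exact (iwasawa_one h).le
    · rw [iwasawa_zero h]
      exact zero_le_one
  exact fun i l => ⟨h1 i l, h1 i l⟩

theorem iwasawaEm_le (h : IsAbs nv) (v : Fin (m + 1) → D) (hv : v 0 = 0) (hv1 : ∀ l, nv (v l) ≤ 1)
    (i l : Fin (m + 1)) : nv (iwasawaEm v i l) ≤ 1 := by
  simp only [iwasawaEm, Matrix.of_apply]
  by_cases hi : i = 0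
  · subst hi
    by_cases hl : (0 : Fin (m + 1)) = l
    · subst hl
      rw [if_pos rfl, if_pos rfl, hv, add_zero, iwasawa_one h]
    · rw [if_neg hl, if_pos rfl, zero_add]
      exact hv1 l
  · rw [if_neg hi, add_zero]
    split_ifs
    · exact (iwasawa_one h).le
    · rw [iwasawa_zero h]
      exact zero_le_one

theorem iwasawaE_mem (h : IsAbs nv) (v : Fin (m + 1) → D) (hv : v 0 = 0) (hv1 : ∀ l, nv (v l) ≤ 1) :
    iwasawaE v hv ∈ U nv q (m + 1) 0 := by
  intro i l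
  rw [pow_zero]
  refine ⟨iwasawaEm_le h v hv hv1 i l, iwasawaEm_le h (-v) (by rw [Pi.neg_apply, hv, neg_zero]) ?_ i l⟩
  intro k
  rw [Pi.neg_apply, iwasawa_neg h]
  exact hv1 k

theorem iwasawaD_mem (h : IsAbs nv) (hq0 : 0 < q) (hq1 : q < 1) (u : D) (hu : u ≠ 0)
    (h1 : nv u ≤ q⁻¹) (h2 : nv u⁻¹ ≤ q⁻¹) :
    (iwasawaD u hu : (Matrix (Fin (m + 1)) (Fin (m + 1)) D)ˣ) ∈ U nv q (m + 1) 1 := by
  have hq : (1 : ℝ) ≤ q⁻¹ := ((one_lt_inv₀ hq0).2 hq1).le
  have key : ∀ w : D, nv w ≤ q⁻¹ → ∀ i l : Fin (m + 1),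
      nv ((Matrix.diagonal fun i : Fin (m + 1) => if i = 0 then w else 1) i l) ≤ q⁻¹ ^ 1 := by
    intro w hw i l
    rw [pow_one, Matrix.diagonal_apply]
    split_ifs
    · exact hw
    · rw [iwasawa_one h]
      exact hq
    · rw [iwasawa_zero h]
      linarith
  exact fun i l => ⟨key u h1 i l, key u⁻¹ h2 i l⟩

end Elem

/-- column operations make the first row `(ϖ ^ a, 0, …, 0)` -/
theorem iwasawa_row (h : IsAbs nv) (ϖ : D) (h0 : 0 < nv ϖ) (h1 : nv ϖ < 1) (m : ℕ) :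
    ∃ c : ℕ, ∀ g : (Matrix (Fin (m + 1)) (Fin (m + 1)) D)ˣ,
      ∃ (k : (Matrix (Fin (m + 1)) (Fin (m + 1)) D)ˣ) (a : ℤ), k ∈ U nv (nv ϖ) (m + 1) c ∧
        (g * k).val 0 0 = ϖ ^ a ∧ ∀ l : Fin m, (g * k).val 0 l.succ = 0 := by
  obtain ⟨c1, hc1⟩ := U_mul h h0 h1 (m + 1) 0 0
  obtain ⟨c2, hc2⟩ := U_mul h h0 h1 (m + 1) c1 1
  refine ⟨c2, fun g => ?_⟩
  obtain ⟨j, _, hj⟩ := Finset.exists_max_image (Finset.univ : Finset (Fin (m + 1)))
    (fun l => nv (g.val 0 l)) ⟨0, Finset.mem_univ _⟩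
  have hj' : ∀ l, nv (g.val 0 l) ≤ nv (g.val 0 j) := fun l => hj l (Finset.mem_univ _)
  have hne : g.val 0 j ≠ 0 := by
    intro hzero
    have hall : ∀ l, g.val 0 l = 0 := by
      intro l
      apply (h.eq_zero _).1
      have e1 := hj' l
      rw [hzero, iwasawa_zero h] at e1
      exact le_antisymm e1 (h.nonneg _)
    have e2 : (g.val * g⁻¹.val) 0 0 = 1 := by
      rw [Units.mul_inv, Matrix.one_apply_eq]
    rw [Matrix.mul_apply] at e2
    simp only [hall, zero_mul, Finset.sum_const_zero] at e2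
    exact zero_ne_one e2
  set r : D := g.val 0 j with hr
  have hr0 : 0 < nv r := lt_of_le_of_ne (h.nonneg _) (fun h' => hne ((h.eq_zero _).1 h'.symm))
  have hq : (1 : ℝ) < (nv ϖ)⁻¹ := (one_lt_inv₀ h0).2 h1
  obtain ⟨a, ha1, ha2⟩ := exists_mem_Ico_zpow hr0 hq
  have hϖ : ϖ ≠ 0 := by
    intro h'
    rw [h', iwasawa_zero h] at h0
    exact lt_irrefl _ h0
  have hz : ϖ ^ (-a) ≠ 0 := zpow_ne_zero _ hϖ
  set v : Fin (m + 1) → D := fun l => if l = 0 then 0 else -(r⁻¹ * g.val 0 (Equiv.swap 0 j l)) with hv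
  have hv0 : v 0 = 0 := by rw [hv]; simp
  have hv1 : ∀ l, nv (v l) ≤ 1 := by
    intro l
    rw [hv]
    simp only
    split_ifs
    · rw [iwasawa_zero h]
      exact zero_le_one
    · rw [iwasawa_neg h, h.mul, iwasawa_inv h, inv_mul_le_one₀ hr0]
      exact hj' _
  set u : D := r⁻¹ * ϖ ^ (-a) with hu
  have hu0 : u ≠ 0 := mul_ne_zero (inv_ne_zero hne) hz
  have hzp : nv (ϖ ^ (-a)) = (nv ϖ)⁻¹ ^ a := by
    rw [iwasawa_zpow h, zpow_neg, inv_zpow]
  have hpos : 0 < (nv ϖ)⁻¹ ^ a := zpow_pos (by linarith) a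
  have hu1 : nv u ≤ (nv ϖ)⁻¹ := by
    rw [hu, h.mul, iwasawa_inv h, hzp]
    have e1 : (nv r)⁻¹ * (nv ϖ)⁻¹ ^ a ≤ 1 := by
      rw [inv_mul_le_one₀ hr0]
      exact ha1
    linarith
  have hu2 : nv u⁻¹ ≤ (nv ϖ)⁻¹ := by
    rw [hu, mul_inv_rev, inv_inv, h.mul, iwasawa_inv h, hzp, inv_mul_le_iff₀ hpos]
    rw [zpow_add_one₀ (by linarith)] at ha2
    exact ha2.le
  refine ⟨iwasawaP j * iwasawaE v hv0 * iwasawaD u hu0, -a, ?_, ?_, ?_⟩
  · exact hc2 _ (hc1 _ (iwasawaP_mem h j) _ (iwasawaE_mem h v hv0 hv1)) _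
      (iwasawaD_mem h h0 h1 u hu0 hu1 hu2)
  · have e1 : (g * (iwasawaP j * iwasawaE v hv0 * iwasawaD u hu0)).val =
        (g.val * (iwasawaP j : (Matrix (Fin (m + 1)) (Fin (m + 1)) D)ˣ).val * iwasawaEm v) *
          Matrix.diagonal (fun i : Fin (m + 1) => if i = 0 then u else 1) := by
      rw [Units.val_mul, Units.val_mul, Units.val_mul, Matrix.mul_assoc, Matrix.mul_assoc,
        Matrix.mul_assoc]
      rfl
    rw [e1, Matrix.mul_diagonal, iwasawaEm_apply, iwasawaP_apply, Equiv.swap_apply_left, hv0, mul_zero,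
      add_zero, if_pos rfl, ← hr, hu, mul_inv_cancel_left₀ hne]
  · intro l
    have e1 : (g * (iwasawaP j * iwasawaE v hv0 * iwasawaD u hu0)).val =
        (g.val * (iwasawaP j : (Matrix (Fin (m + 1)) (Fin (m + 1)) D)ˣ).val * iwasawaEm v) *
          Matrix.diagonal (fun i : Fin (m + 1) => if i = 0 then u else 1) := by
      rw [Units.val_mul, Units.val_mul, Units.val_mul, Matrix.mul_assoc, Matrix.mul_assoc,
        Matrix.mul_assoc]
      rfl
    rw [e1, Matrix.mul_diagonal, iwasawaEm_apply, iwasawaP_apply, iwasawaP_apply,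
      Equiv.swap_apply_left, ← hr]
    have e2 : v l.succ = -(r⁻¹ * g.val 0 (Equiv.swap 0 j l.succ)) := by
      rw [hv]
      simp only
      rw [if_neg (Fin.succ_ne_zero l)]
    rw [e2, mul_neg, mul_inv_cancel_left₀ hne, add_neg_cancel, zero_mul]

theorem iwasawa (h : IsAbs nv) (ϖ : D) (h0 : 0 < nv ϖ) (h1 : nv ϖ < 1) (n : ℕ) :
    ∃ c : ℕ, ∀ g : (Matrix (Fin n) (Fin n) D)ˣ, ∃ b : (Matrix (Fin n) (Fin n) D)ˣ,
      IsB ϖ b ∧ b⁻¹ * g ∈ U nv (nv ϖ) n c := by
  induction n with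
  | zero =>
    refine ⟨0, fun g => ⟨1, ⟨fun i => i.elim0, fun i => i.elim0, fun i => i.elim0⟩, fun i => i.elim0⟩⟩
  | succ m ih =>
    obtain ⟨c0, hc0⟩ := ih
    obtain ⟨c1, hc1⟩ := iwasawa_row h ϖ h0 h1 m
    obtain ⟨c2, hc2⟩ := U_mul h h0 h1 (m + 1) c0 c1
    refine ⟨c2, fun g => ?_⟩
    obtain ⟨k, a, hk, hk0, hks⟩ := hc1 g
    set g' := g * k with hg'
    have hϖ : ϖ ≠ 0 := by
      intro h'
      rw [h', iwasawa_zero h] at h0
      exact lt_irrefl _ h0
    have hz : ϖ ^ a ≠ 0 := zpow_ne_zero _ hϖ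
    -- first row of the inverse
    have hinv : ∀ l : Fin m, g'⁻¹.val 0 l.succ = 0 := by
      intro l
      have e1 : (g'.val * g'⁻¹.val) 0 l.succ = 0 := by
        rw [Units.mul_inv, Matrix.one_apply_ne (Fin.succ_ne_zero l).symm]
      rw [Matrix.mul_apply, Fin.sum_univ_succ, hk0] at e1
      simp only [hks, zero_mul, Finset.sum_const_zero, add_zero] at e1
      exact (mul_eq_zero.1 e1).resolve_left hz
    set B : Matrix (Fin m) (Fin m) D := Matrix.of fun i l => g'.val i.succ l.succ with hB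
    set B' : Matrix (Fin m) (Fin m) D := Matrix.of fun i l => g'⁻¹.val i.succ l.succ with hB'
    have hBB' : B * B' = 1 := by
      ext i l
      have e1 : (g'.val * g'⁻¹.val) i.succ l.succ = (1 : Matrix (Fin (m + 1)) (Fin (m + 1)) D) i.succ l.succ := by
        rw [Units.mul_inv]
      rw [Matrix.mul_apply, Fin.sum_univ_succ, hinv, mul_zero, zero_add] at e1
      rw [Matrix.mul_apply]
      refine e1.trans ?_
      rw [Matrix.one_apply, Matrix.one_apply]
      simp only [Fin.succ_inj]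
    have hB'B : B' * B = 1 := by
      ext i l
      have e1 : (g'⁻¹.val * g'.val) i.succ l.succ = (1 : Matrix (Fin (m + 1)) (Fin (m + 1)) D) i.succ l.succ := by
        rw [Units.inv_mul]
      rw [Matrix.mul_apply, Fin.sum_univ_succ, hks, mul_zero, zero_add] at e1
      rw [Matrix.mul_apply]
      refine e1.trans ?_
      rw [Matrix.one_apply, Matrix.one_apply]
      simp only [Fin.succ_inj]
    let Bu : (Matrix (Fin m) (Fin m) D)ˣ := ⟨B, B', hBB', hB'B⟩
    obtain ⟨b2, ⟨hb1, hb2, hb3⟩, hb4⟩ := hc0 Bu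
    set cc : Fin m → D := fun i => g'.val i.succ 0 with hcc
    have hdec : g' = iwasawaLu (ϖ ^ a) hz cc b2 * iwasawaLu 1 one_ne_zero 0 (b2⁻¹ * Bu) := by
      apply Units.ext
      rw [Units.val_mul]
      change g'.val = iwasawaLb (ϖ ^ a) cc b2.val * iwasawaLb 1 0 (b2⁻¹ * Bu).val
      rw [iwasawaLb_mul, ← Units.val_mul, mul_inv_cancel_left]
      apply iwasawaLb_ext
      · rw [iwasawaLb_zz, mul_one]
        exact hk0
      · intro l
        rw [iwasawaLb_zs]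
        exact hks l
      · intro i
        rw [iwasawaLb_sz]
        simp [hcc]
      · intro i l
        rw [iwasawaLb_ss]
        rfl
    refine ⟨iwasawaLu (ϖ ^ a) hz cc b2, ⟨?_, ?_, ?_⟩, ?_⟩
    · intro i l
      refine Fin.cases ?_ (fun i => ?_) i
      · refine Fin.cases ?_ (fun l => ?_) l
        · intro h'
          exact absurd h' (lt_irrefl _)
        · intro _
          rfl
      · refine Fin.cases ?_ (fun l => ?_) l
        · intro h'
          exact absurd h' (Fin.not_lt_zero _)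
        · intro h'
          exact hb1 i l (Fin.succ_lt_succ_iff.1 h')
    · intro i l
      refine Fin.cases ?_ (fun i => ?_) i
      · refine Fin.cases ?_ (fun l => ?_) l
        · intro h'
          exact absurd h' (lt_irrefl _)
        · intro _
          rfl
      · refine Fin.cases ?_ (fun l => ?_) l
        · intro h'
          exact absurd h' (Fin.not_lt_zero _)
        · intro h'
          exact hb2 i l (Fin.succ_lt_succ_iff.1 h')
    · intro i
      refine Fin.cases ?_ (fun i => ?_) i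
      · exact ⟨a, rfl⟩
      · exact hb3 i
    · have e1 : (iwasawaLu (ϖ ^ a) hz cc b2)⁻¹ * g =
          iwasawaLu 1 one_ne_zero 0 (b2⁻¹ * Bu) * k⁻¹ := by
        have e2 : g = g' * k⁻¹ := by rw [hg', mul_inv_cancel_right]
        rw [e2, hdec, mul_assoc, inv_mul_cancel_left]
      rw [e1]
      apply hc2 _ _ _ (U_inv _ _ _ hk)
      have hq1 : (1 : ℝ) ≤ (nv ϖ)⁻¹ ^ c0 := one_le_pow₀ ((one_lt_inv₀ h0).2 h1).le
      have hz0 : nv (0 : D) ≤ (nv ϖ)⁻¹ ^ c0 := by
        rw [iwasawa_zero h]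
        linarith
      have ho : nv (1 : D) ≤ (nv ϖ)⁻¹ ^ c0 := by
        rw [iwasawa_one h]
        exact hq1
      intro i l
      refine Fin.cases ?_ (fun i => ?_) i
      · refine Fin.cases ?_ (fun l => ?_) l
        · refine ⟨ho, ?_⟩
          change nv ((1 : D)⁻¹) ≤ _
          rw [inv_one]
          exact ho
        · exact ⟨hz0, hz0⟩
      · refine Fin.cases ?_ (fun l => ?_) l
        · refine ⟨hz0, ?_⟩
          change nv (-((∑ k, (b2⁻¹ * Bu)⁻¹.val i k * (0 : Fin m → D) k) * (1 : D)⁻¹)) ≤ _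
          simp only [Pi.zero_apply, mul_zero, Finset.sum_const_zero, zero_mul, neg_zero]
          exact hz0
        · exact ⟨(hb4 i l).1, (hb4 i l).2⟩

end Pool.Agent.H66.NCL
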