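import Pool.Agent.H66.NCL.Basic

/-!
# Module Net: local partition of unity on `GL_n(ℝ)`

For `g ∈ GL_n(ℝ)` let `‖·‖` be a submultiplicative norm on matrices with `‖1‖ = 1` (e.g.
`Matrix.linftyOpNormedRing` or the operator norm, made a local instance inside the proof) and
`ℓ g = log (max ‖g‖ ‖g⁻¹‖) ≥ 0`, `ℓ (g h) ≤ ℓ g + ℓ h`, `ℓ g⁻¹ = ℓ g`, `d(g,h) = ℓ(g⁻¹ h)`, a left
invariant pseudo-distance.

PLAN. Let `ρ = 1/10` (any small number with `2 ρ < log 2`). Zorn (or `zorn_subset`): a maximal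
subset `Z` of `G` with `d(z,z') ≥ ρ/2` for distinct `z z' ∈ Z`; so every `g` has `z ∈ Z` with
`d(g,z) < ρ/2`. There is `M` such that for every `g` at most `M` points `z ∈ Z` satisfy `d(g,z) < 2ρ`:
by left invariance take `g = 1`; the set `{ℓ < 2ρ}` is bounded in the finite dimensional space of
matrices, its `ρ/2`-separated (for `d`) subsets are `δ`-separated for the norm
(`d(g,h) = ℓ(1 + g⁻¹(h-g))` small if `‖h - g‖` small), so their cardinality is bounded (total
boundedness of bounded sets in a proper space).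
`ψ g z = max 0 (ρ - d(g,z))` for `z ∈ Z` (finite support), `φ g = ψ g / sqrt (ip (ψ g) (ψ g))`,
with `ip (ψ g) (ψ g) ≥ (ρ/2)^2` and `|ψ g z - ψ h z| ≤ d(g,h)`, supports of size `≤ M`; hence
`1 - ip (φ g) (φ h) = ‖φ g - φ h‖² / 2 → 0` as `d(g,h) → 0`, uniformly.
If `ip (φ x) (φ y) ≠ 0` then `d(x,y) < 2ρ`, so the entries of `x⁻¹ y` and `y⁻¹ x` are at most
`exp (2 ρ) < 2` (for norms dominating the entries).

(The proof below uses `ℓ g = log (1 + max (N (g - 1)) (N (g⁻¹ - 1)))` with `N A = ∑ |A i j|`.)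
-/

namespace Pool.Agent.H66.NCL

namespace NetAux

variable {n : ℕ}

/-- the sum norm -/
noncomputable def N1 (A : Matrix (Fin n) (Fin n) ℝ) : ℝ := ∑ i, ∑ j, |A i j|

theorem N1_nonneg (A : Matrix (Fin n) (Fin n) ℝ) : 0 ≤ N1 A :=
  Finset.sum_nonneg fun _ _ => Finset.sum_nonneg fun _ _ => abs_nonneg _

theorem N1_add (A B : Matrix (Fin n) (Fin n) ℝ) : N1 (A + B) ≤ N1 A + N1 B := by
  unfold N1
  rw [← Finset.sum_add_distrib]
  refine Finset.sum_le_sum fun i _ => ?_
  rw [← Finset.sum_add_distrib]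
  exact Finset.sum_le_sum fun j _ => abs_add_le _ _

theorem N1_sub_comm (A B : Matrix (Fin n) (Fin n) ℝ) : N1 (A - B) = N1 (B - A) := by
  unfold N1
  refine Finset.sum_congr rfl fun i _ => Finset.sum_congr rfl fun j _ => ?_
  rw [Matrix.sub_apply, Matrix.sub_apply, abs_sub_comm]

theorem N1_mul (A B : Matrix (Fin n) (Fin n) ℝ) : N1 (A * B) ≤ N1 A * N1 B := by
  have hrow : ∀ j, ∑ k, |B j k| ≤ N1 B := fun j =>
    Finset.single_le_sum (f := fun j => ∑ k, |B j k|)
      (fun _ _ => Finset.sum_nonneg fun _ _ => abs_nonneg _) (Finset.mem_univ j)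
  have h1 : N1 A * N1 B = ∑ i, ∑ j, |A i j| * N1 B := by
    unfold N1
    rw [Finset.sum_mul]
    exact Finset.sum_congr rfl fun i _ => Finset.sum_mul _ _ _
  rw [h1]
  unfold N1
  refine Finset.sum_le_sum fun i _ => ?_
  calc ∑ k, |(A * B) i k| ≤ ∑ k, ∑ j, |A i j| * |B j k| := by
        refine Finset.sum_le_sum fun k _ => ?_
        rw [Matrix.mul_apply]
        refine (Finset.abs_sum_le_sum_abs _ _).trans (le_of_eq ?_)
        exact Finset.sum_congr rfl fun j _ => abs_mul _ _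
    _ = ∑ j, |A i j| * ∑ k, |B j k| := by
        rw [Finset.sum_comm]
        exact Finset.sum_congr rfl fun j _ => (Finset.mul_sum _ _ _).symm
    _ ≤ ∑ j, |A i j| * ∑ i, ∑ j, |B i j| :=
        Finset.sum_le_sum fun j _ => mul_le_mul_of_nonneg_left (hrow j) (abs_nonneg _)

theorem entry_le (A : Matrix (Fin n) (Fin n) ℝ) (i j : Fin n) : |A i j| ≤ N1 A :=
  (Finset.single_le_sum (f := fun j => |A i j|) (fun _ _ => abs_nonneg _)
    (Finset.mem_univ j)).trans
    (Finset.single_le_sum (f := fun i => ∑ j, |A i j|)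
      (fun _ _ => Finset.sum_nonneg fun _ _ => abs_nonneg _) (Finset.mem_univ i))

theorem N1_le {A : Matrix (Fin n) (Fin n) ℝ} {δ : ℝ} (h : ∀ i j, |A i j| ≤ δ) :
    N1 A ≤ (n : ℝ) * (n * δ) := by
  calc N1 A ≤ ∑ _i : Fin n, ∑ _j : Fin n, δ :=
        Finset.sum_le_sum fun i _ => Finset.sum_le_sum fun j _ => h i j
    _ = (n : ℝ) * (n * δ) := by simp

theorem entry_lt_two {A : Matrix (Fin n) (Fin n) ℝ} (h : N1 (A - 1) < 1) (i j : Fin n) :
    |A i j| < 2 := by
  have h1 := entry_le (A - 1) i j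
  rw [Matrix.sub_apply] at h1
  have h2 : |(1 : Matrix (Fin n) (Fin n) ℝ) i j| ≤ 1 := by
    rw [Matrix.one_apply]
    split_ifs
    · simp
    · simp
  have h3 : |A i j| ≤ |A i j - (1 : Matrix (Fin n) (Fin n) ℝ) i j| +
      |(1 : Matrix (Fin n) (Fin n) ℝ) i j| := by
    have := abs_add_le (A i j - (1 : Matrix (Fin n) (Fin n) ℝ) i j)
      ((1 : Matrix (Fin n) (Fin n) ℝ) i j)
    rwa [sub_add_cancel] at this
  linarith

/-- the group -/
abbrev GN (n : ℕ) : Type := (Matrix (Fin n) (Fin n) ℝ)ˣ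

noncomputable def L (g : GN n) : ℝ := 1 + max (N1 (g.val - 1)) (N1 (g⁻¹.val - 1))

theorem one_le_L (g : GN n) : 1 ≤ L g := by
  unfold L
  have := (N1_nonneg (g.val - 1)).trans (le_max_left _ (N1 (g⁻¹.val - 1)))
  linarith

theorem L_inv (g : GN n) : L g⁻¹ = L g := by
  unfold L
  rw [inv_inv, max_comm]

theorem N1_mul_sub_one (A B : Matrix (Fin n) (Fin n) ℝ) :
    1 + N1 (A * B - 1) ≤ (1 + N1 (A - 1)) * (1 + N1 (B - 1)) := by
  have h1 : A * B - 1 = (A - 1) * (B - 1) + ((A - 1) + (B - 1)) := by noncomm_ring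
  have h2 := N1_add ((A - 1) * (B - 1)) ((A - 1) + (B - 1))
  have h3 := N1_add (A - 1) (B - 1)
  have h4 := N1_mul (A - 1) (B - 1)
  rw [h1]
  nlinarith

theorem L_mul (g h : GN n) : L (g * h) ≤ L g * L h := by
  have hg1 : 1 + N1 (g.val - 1) ≤ L g := by unfold L; gcongr; exact le_max_left _ _
  have hg2 : 1 + N1 (g⁻¹.val - 1) ≤ L g := by unfold L; gcongr; exact le_max_right _ _
  have hh1 : 1 + N1 (h.val - 1) ≤ L h := by unfold L; gcongr; exact le_max_left _ _
  have hh2 : 1 + N1 (h⁻¹.val - 1) ≤ L h := by unfold L; gcongr; exact le_max_right _ _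
  have h0 : 0 ≤ 1 + N1 (h.val - 1) := by linarith [N1_nonneg (h.val - 1)]
  have h0' : 0 ≤ 1 + N1 (g⁻¹.val - 1) := by linarith [N1_nonneg (g⁻¹.val - 1)]
  have hL0 : 0 ≤ L g := zero_le_one.trans (one_le_L g)
  have hL0' : 0 ≤ L h := zero_le_one.trans (one_le_L h)
  have e1 : 1 + N1 ((g * h).val - 1) ≤ L g * L h :=
    (N1_mul_sub_one g.val h.val).trans (mul_le_mul hg1 hh1 h0 hL0)
  have e2 : 1 + N1 ((g * h)⁻¹.val - 1) ≤ L g * L h := by
    rw [mul_inv_rev, mul_comm (L g)]
    exact (N1_mul_sub_one h⁻¹.val g⁻¹.val).trans (mul_le_mul hh2 hg2 h0' hL0')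
  have e3 : max (N1 ((g * h).val - 1)) (N1 ((g * h)⁻¹.val - 1)) ≤ L g * L h - 1 :=
    max_le (by linarith) (by linarith)
  unfold L at e3 ⊢
  linarith

/-- the length function -/
noncomputable def ll (g : GN n) : ℝ := Real.log (L g)

theorem ll_nonneg (g : GN n) : 0 ≤ ll g := Real.log_nonneg (one_le_L g)

theorem ll_inv (g : GN n) : ll g⁻¹ = ll g := by unfold ll; rw [L_inv]

theorem ll_mul (g h : GN n) : ll (g * h) ≤ ll g + ll h := by
  unfold ll
  have hg : 0 < L g := zero_lt_one.trans_le (one_le_L g)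
  have hh : 0 < L h := zero_lt_one.trans_le (one_le_L h)
  rw [← Real.log_mul hg.ne' hh.ne']
  exact Real.log_le_log (zero_lt_one.trans_le (one_le_L _)) (L_mul g h)

theorem ll_le {g : GN n} {t : ℝ} (h1 : N1 (g.val - 1) ≤ t) (h2 : N1 (g⁻¹.val - 1) ≤ t) :
    ll g ≤ t := by
  unfold ll
  have hg : 0 < L g := zero_lt_one.trans_le (one_le_L g)
  refine (Real.log_le_sub_one_of_pos hg).trans ?_
  unfold L
  have := max_le h1 h2
  linarith

theorem lt_of_ll {g : GN n} (h : ll g < Real.log 2) :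
    N1 (g.val - 1) < 1 ∧ N1 (g⁻¹.val - 1) < 1 := by
  unfold ll at h
  have hg : 0 < L g := zero_lt_one.trans_le (one_le_L g)
  have h1 : L g < 2 := (Real.log_lt_log_iff hg (by norm_num)).1 h
  unfold L at h1
  have h2 := le_max_left (N1 (g.val - 1)) (N1 (g⁻¹.val - 1))
  have h3 := le_max_right (N1 (g.val - 1)) (N1 (g⁻¹.val - 1))
  constructor <;> linarith

/-- the left invariant distance -/
noncomputable def dd (g h : GN n) : ℝ := ll (g⁻¹ * h)

theorem dd_nonneg (g h : GN n) : 0 ≤ dd g h := ll_nonneg _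

theorem dd_comm (g h : GN n) : dd g h = dd h g := by
  unfold dd
  rw [← ll_inv, mul_inv_rev, inv_inv]

theorem dd_triangle (a b c : GN n) : dd a c ≤ dd a b + dd b c := by
  unfold dd
  have : a⁻¹ * c = (a⁻¹ * b) * (b⁻¹ * c) := by group
  rw [this]
  exact ll_mul _ _

theorem dd_self (a : GN n) : dd a a = 0 := by
  apply le_antisymm _ (dd_nonneg a a)
  unfold dd
  rw [inv_mul_cancel]
  apply ll_le
  · unfold N1; simp
  · unfold N1; simp

theorem tenth_lt : (1 / 5 : ℝ) < Real.log 2 := by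
  have := Real.log_two_gt_d9
  linarith

/-- packing -/
theorem packing (n : ℕ) : ∃ M : ℕ, ∀ (g : GN n) (T : Finset (GN n)),
    (∀ h ∈ T, dd g h < 1 / 10) → (∀ h ∈ T, ∀ h' ∈ T, h ≠ h' → 1 / 20 ≤ dd h h') →
    T.card ≤ M := by
  classical
  set c : ℝ := N1 (1 : Matrix (Fin n) (Fin n) ℝ) with hc
  have hc0 : 0 ≤ c := N1_nonneg _
  set e : ℝ := 1 / (40 * ((c + 1) * (n * n + 1))) with he
  have he0 : 0 < e := by positivity
  have hce : (c + 1) * ((n : ℝ) * (n * e)) < 1 / 20 := by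
    have h1 : (c + 1) * ((n * n + 1 : ℝ) * e) = 1 / 40 := by
      rw [he]; field_simp
    have h2 : (c + 1) * ((n : ℝ) * (n * e)) ≤ (c + 1) * ((n * n + 1 : ℝ) * e) := by
      apply mul_le_mul_of_nonneg_left _ (by linarith)
      linarith
    linarith
  set K : ℤ := ⌈2 / e⌉ with hK
  refine ⟨(Fintype.piFinset (fun _ : Fin n => Fintype.piFinset
    (fun _ : Fin n => Finset.Icc (-K) K))).card, ?_⟩
  intro g T hT hsep
  apply Finset.card_le_card_of_injOn
    (fun h => fun i j => ⌊(g⁻¹ * h).val i j / e⌋)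
  · intro h hh
    have h1 := lt_of_ll (lt_trans (hT h hh) (by linarith [tenth_lt]) : ll (g⁻¹ * h) < Real.log 2)
    rw [Finset.mem_coe, Fintype.mem_piFinset]
    intro i
    rw [Fintype.mem_piFinset]
    intro j
    have h2 := entry_lt_two h1.1 i j
    rw [abs_lt] at h2
    rw [Finset.mem_Icc]
    have h3 : (2 : ℝ) / e ≤ K := Int.le_ceil _
    constructor
    · rw [Int.le_floor, Int.cast_neg]
      have h4 : -(2 / e) ≤ (g⁻¹ * h).val i j / e := by
        rw [← neg_div]
        exact div_le_div_of_nonneg_right h2.1.le he0.le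
      linarith
    · have h4 : (g⁻¹ * h).val i j / e ≤ 2 / e := div_le_div_of_nonneg_right h2.2.le he0.le
      have h5 : ((⌊(g⁻¹ * h).val i j / e⌋ : ℤ) : ℝ) ≤ K := (Int.floor_le _).trans (h4.trans h3)
      exact_mod_cast h5
  · intro h hh h' hh' heq
    by_contra hne
    have h1 := lt_of_ll (lt_trans (hT h hh) (by linarith [tenth_lt]) : ll (g⁻¹ * h) < Real.log 2)
    have h1' := lt_of_ll (lt_trans (hT h' hh') (by linarith [tenth_lt]) :
      ll (g⁻¹ * h') < Real.log 2)
    set k : GN n := g⁻¹ * h with hk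
    set k' : GN n := g⁻¹ * h' with hk'
    have h2 : N1 (k'.val - k.val) ≤ (n : ℝ) * (n * e) := by
      apply N1_le
      intro i j
      have h3 : ⌊k.val i j / e⌋ = ⌊k'.val i j / e⌋ := congrFun (congrFun heq i) j
      have h4 := Int.abs_sub_lt_one_of_floor_eq_floor h3
      rw [← sub_div, abs_div, abs_of_pos he0, div_lt_one he0] at h4
      rw [Matrix.sub_apply, abs_sub_comm]
      exact h4.le
    have hb : ∀ m : GN n, N1 (m⁻¹.val - 1) < 1 → N1 m⁻¹.val ≤ c + 1 := by
      intro m hm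
      have h5 := N1_add (m⁻¹.val - 1) 1
      rw [sub_add_cancel] at h5
      linarith
    have h3 : dd h h' < 1 / 20 := by
      have h4 : h⁻¹ * h' = k⁻¹ * k' := by rw [hk, hk']; group
      unfold dd
      rw [h4]
      refine lt_of_le_of_lt (ll_le (t := (c + 1) * ((n : ℝ) * (n * e))) ?_ ?_) hce
      · have h5 : (k⁻¹ * k').val - 1 = k⁻¹.val * (k'.val - k.val) := by
          rw [Units.val_mul, mul_sub, Units.inv_mul]
        rw [h5]
        exact (N1_mul _ _).trans (mul_le_mul (hb k h1.2) h2 (N1_nonneg _) (by linarith))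
      · have h5 : (k⁻¹ * k')⁻¹.val - 1 = k'⁻¹.val * (k.val - k'.val) := by
          rw [mul_inv_rev, inv_inv, Units.val_mul, mul_sub, Units.inv_mul]
        rw [h5, ← neg_sub k'.val, mul_neg]
        have h6 : N1 (-(k'⁻¹.val * (k'.val - k.val))) = N1 (k'⁻¹.val * (k'.val - k.val)) := by
          unfold N1
          refine Finset.sum_congr rfl fun i _ => Finset.sum_congr rfl fun j _ => ?_
          rw [Matrix.neg_apply, abs_neg]
        rw [h6]
        exact (N1_mul _ _).trans (mul_le_mul (hb k' h1'.2) h2 (N1_nonneg _) (by linarith))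
    exact absurd (hsep h hh h' hh' hne) (not_le.2 h3)

/-- a maximal separated set -/
theorem maximal (n : ℕ) : ∃ Z : Set (GN n),
    (∀ h ∈ Z, ∀ h' ∈ Z, h ≠ h' → 1 / 20 ≤ dd h h') ∧ ∀ g, ∃ z ∈ Z, dd g z < 1 / 20 := by
  obtain ⟨Z, hZ⟩ := zorn_subset {Z : Set (GN n) | Z.Pairwise fun h h' => 1 / 20 ≤ dd h h'} (by
    intro c hc hchain
    refine ⟨⋃₀ c, ?_, fun s hs => Set.subset_sUnion_of_mem hs⟩
    exact (Set.pairwise_sUnion hchain.directedOn).2 fun s hs => hc hs)
  refine ⟨Z, fun h hh h' hh' hne => hZ.prop hh hh' hne, fun g => ?_⟩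
  by_contra hcon
  push Not at hcon
  have h1 : (insert g Z).Pairwise fun h h' => 1 / 20 ≤ dd h h' := by
    refine hZ.prop.insert fun b hb _ => ⟨hcon b hb, ?_⟩
    rw [dd_comm]
    exact hcon b hb
  have h2 : g ∈ Z := hZ.le_of_ge h1 (Set.subset_insert g Z) (Set.mem_insert g Z)
  have h3 := hcon g h2
  rw [dd_self] at h3
  norm_num at h3

end NetAux

open NetAux in
/-- There are an index type, and nonnegative unit vectors `φ g` such that `φ x`, `φ y` are
orthogonal unless all entries of `x⁻¹ y` and `y⁻¹ x` are `< 2` in absolute value, and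
`φ (x w)` is close to `φ x`, uniformly in `x`, if `w` and `w⁻¹` are close to the identity. -/
theorem exists_net (n : ℕ) : ∃ (ι : Type) (φ : (Matrix (Fin n) (Fin n) ℝ)ˣ → ι →₀ ℝ),
    (∀ g i, 0 ≤ φ g i) ∧ (∀ g, ip (φ g) (φ g) = 1) ∧
    (∀ x y, ip (φ x) (φ y) ≠ 0 → ∀ i j, |(x⁻¹ * y).val i j| < 2 ∧ |(y⁻¹ * x).val i j| < 2) ∧
    (∀ ε : ℝ, 0 < ε → ∃ δ : ℝ, 0 < δ ∧ ∀ x w : (Matrix (Fin n) (Fin n) ℝ)ˣ,
      (∀ i j, |w.val i j - (1 : Matrix (Fin n) (Fin n) ℝ) i j| ≤ δ) →
      (∀ i j, |w⁻¹.val i j - (1 : Matrix (Fin n) (Fin n) ℝ) i j| ≤ δ) →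
      1 - ε ≤ ip (φ x) (φ (x * w))) := by
  classical
  obtain ⟨M, hM⟩ := packing n
  obtain ⟨Z, hZ1, hZ2⟩ := maximal n
  -- the sets near `g`
  have hfin : ∀ g : GN n, {z | z ∈ Z ∧ dd g z < 1 / 10}.Finite := by
    intro g
    by_contra hinf
    obtain ⟨t, ht, htc⟩ := Set.Infinite.exists_subset_card_eq hinf (M + 1)
    have := hM g t (fun h hh => (ht hh).2) (fun h hh h' hh' hne => hZ1 h (ht hh).1 h' (ht hh').1 hne)
    omega
  have hcard : ∀ g : GN n, (hfin g).toFinset.card ≤ M := by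
    intro g
    apply hM g
    · intro h hh
      exact ((hfin g).mem_toFinset.1 hh).2
    · intro h hh h' hh' hne
      exact hZ1 h ((hfin g).mem_toFinset.1 hh).1 h' ((hfin g).mem_toFinset.1 hh').1 hne
  -- the functions `ψ`
  let pf : GN n → GN n → ℝ := fun g z => if z ∈ Z then max 0 (1 / 10 - dd g z) else 0
  have hpf_supp : ∀ g z, pf g z ≠ 0 → z ∈ Z ∧ dd g z < 1 / 10 := by
    intro g z hz
    by_cases hzZ : z ∈ Z
    · refine ⟨hzZ, ?_⟩
      by_contra hcon
      apply hz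
      show (if z ∈ Z then max 0 (1 / 10 - dd g z) else 0) = 0
      rw [if_pos hzZ]
      exact max_eq_left (by linarith)
    · exact absurd (if_neg hzZ) hz
  have hpf_nonneg : ∀ g z, 0 ≤ pf g z := by
    intro g z
    show 0 ≤ (if z ∈ Z then max 0 (1 / 10 - dd g z) else 0)
    split_ifs
    · exact le_max_left _ _
    · exact le_refl _
  have hpf_lip : ∀ g h z, |pf g z - pf h z| ≤ dd g h := by
    intro g h z
    show |(if z ∈ Z then max 0 (1 / 10 - dd g z) else 0) -
      (if z ∈ Z then max 0 (1 / 10 - dd h z) else 0)| ≤ dd g h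
    split_ifs
    · refine (abs_max_sub_max_le_max _ _ _ _).trans ?_
      rw [sub_self, abs_zero]
      refine max_le (dd_nonneg g h) ?_
      have h1 := dd_triangle g h z
      have h2 := dd_triangle h g z
      rw [dd_comm h g] at h2
      rw [abs_le]
      constructor <;> linarith
    · rw [sub_self, abs_zero]
      exact dd_nonneg g h
  let psi : GN n → (GN n →₀ ℝ) := fun g => Finsupp.onFinset (hfin g).toFinset (pf g)
    (fun z hz => (hfin g).mem_toFinset.2 (hpf_supp g z hz))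
  have hpsi : ∀ g z, psi g z = pf g z := fun g z => rfl
  have hpsi_supp : ∀ g, (psi g).support ⊆ (hfin g).toFinset := fun g =>
    Finsupp.support_onFinset_subset
  -- lower bound of the norm
  have hlow : ∀ g, (1 / 20 : ℝ) ^ 2 ≤ ip (psi g) (psi g) := by
    intro g
    obtain ⟨z, hz, hgz⟩ := hZ2 g
    rw [ip_eq_sum (psi g) (psi g) (hpsi_supp g)]
    have h1 : (1 / 20 : ℝ) ≤ psi g z := by
      rw [hpsi]
      show _ ≤ (if z ∈ Z then max 0 (1 / 10 - dd g z) else 0)
      rw [if_pos hz]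
      refine le_trans ?_ (le_max_right _ _)
      linarith
    have hzmem : z ∈ (hfin g).toFinset := (hfin g).mem_toFinset.2 ⟨hz, by linarith⟩
    calc (1 / 20 : ℝ) ^ 2 ≤ psi g z * psi g z := by nlinarith
      _ ≤ ∑ i ∈ (hfin g).toFinset, psi g i * psi g i :=
          Finset.single_le_sum (f := fun i => psi g i * psi g i)
            (fun i _ => mul_self_nonneg _) hzmem
  let s : GN n → ℝ := fun g => Real.sqrt (ip (psi g) (psi g))
  have hs20 : ∀ g, (1 / 20 : ℝ) ≤ s g := fun g => Real.le_sqrt_of_sq_le (hlow g)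
  have hs0 : ∀ g, 0 < s g := fun g => lt_of_lt_of_le (by norm_num) (hs20 g)
  have hs2 : ∀ g, s g * s g = ip (psi g) (psi g) := fun g =>
    Real.mul_self_sqrt (le_trans (by positivity) (hlow g))
  refine ⟨GN n, fun g => (s g)⁻¹ • psi g, ?_, ?_, ?_, ?_⟩
  · intro g i
    rw [Finsupp.smul_apply, smul_eq_mul, hpsi]
    exact mul_nonneg (inv_nonneg.2 (hs0 g).le) (hpf_nonneg g i)
  · intro g
    rw [ip_smul_left, ip_smul_right, ← hs2]
    have := (hs0 g).ne'
    field_simp
  · intro x y hxy i j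
    rw [ip_smul_left, ip_smul_right] at hxy
    have h1 : ip (psi x) (psi y) ≠ 0 := by
      intro h0
      apply hxy
      rw [h0, mul_zero, mul_zero]
    rw [ip_eq_sum (psi x) (psi y) (hpsi_supp x)] at h1
    obtain ⟨z, _, hz⟩ := Finset.exists_ne_zero_of_sum_ne_zero h1
    have hx := (hpf_supp x z (left_ne_zero_of_mul hz)).2
    have hy := (hpf_supp y z (right_ne_zero_of_mul hz)).2
    have h2 : dd x y < Real.log 2 := by
      have h3 := dd_triangle x z y
      rw [dd_comm z y] at h3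
      have := tenth_lt
      linarith
    have h3 : dd y x < Real.log 2 := by rw [dd_comm]; exact h2
    exact ⟨entry_lt_two (lt_of_ll h2).1 i j, entry_lt_two (lt_of_ll h3).1 i j⟩
  · intro ε hε
    set τ : ℝ := min 1 (ε / (400 * (M + 1))) with hτ
    have hτ0 : 0 < τ := lt_min one_pos (by positivity)
    have hτ1 : τ ≤ 1 := min_le_left _ _
    have hτ2 : τ * (400 * (M + 1)) ≤ ε := by
      have h1 : τ ≤ ε / (400 * (M + 1)) := min_le_right _ _
      rwa [le_div_iff₀ (by positivity)] at h1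
    refine ⟨τ / (n * n + 1), by positivity, ?_⟩
    intro x w hw hw'
    have hllw : ll w ≤ τ := by
      have h1 : (n : ℝ) * (n * (τ / (n * n + 1))) ≤ τ := by
        have h2 : (n : ℝ) * (n * (τ / (n * n + 1))) = τ * ((n * n) / (n * n + 1)) := by ring
        rw [h2]
        have h3 : ((n : ℝ) * n) / (n * n + 1) ≤ 1 := by
          rw [div_le_one (by positivity)]; linarith
        calc τ * ((n * n) / (n * n + 1)) ≤ τ * 1 := mul_le_mul_of_nonneg_left h3 hτ0.le
          _ = τ := mul_one _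
      apply ll_le
      · exact (N1_le fun i j => by rw [Matrix.sub_apply]; exact hw i j).trans h1
      · exact (N1_le fun i j => by rw [Matrix.sub_apply]; exact hw' i j).trans h1
    have hdd : dd x (x * w) ≤ τ := by
      unfold dd
      rw [inv_mul_cancel_left]
      exact hllw
    set y : GN n := x * w with hy
    show 1 - ε ≤ ip ((s x)⁻¹ • psi x) ((s y)⁻¹ • psi y)
    rw [ip_smul_left, ip_smul_right]
    -- the distance of `psi x` and `psi y`
    set F : Finset (GN n) := (hfin x).toFinset ∪ (hfin y).toFinset with hF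
    have hFx : (psi x).support ⊆ F := (hpsi_supp x).trans Finset.subset_union_left
    have hFy : (psi y).support ⊆ F := (hpsi_supp y).trans Finset.subset_union_right
    have hFc : (F.card : ℝ) ≤ 2 * M := by
      have h1 : F.card ≤ M + M :=
        (Finset.card_union_le _ _).trans (Nat.add_le_add (hcard x) (hcard y))
      have h2 : (F.card : ℝ) ≤ ((M + M : ℕ) : ℝ) := Nat.cast_le.2 h1
      push_cast at h2
      linarith
    have h1 : ∑ z ∈ F, (psi x z - psi y z) ^ 2 ≤ 2 * M * τ := by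
      calc ∑ z ∈ F, (psi x z - psi y z) ^ 2 ≤ ∑ _z ∈ F, τ := by
            refine Finset.sum_le_sum fun z _ => ?_
            have h2 : |psi x z - psi y z| ≤ τ := (hpf_lip x y z).trans hdd
            calc (psi x z - psi y z) ^ 2 = |psi x z - psi y z| ^ 2 := (sq_abs _).symm
              _ ≤ τ ^ 2 := pow_le_pow_left₀ (abs_nonneg _) h2 2
              _ ≤ τ := by nlinarith
        _ = F.card * τ := by rw [Finset.sum_const, nsmul_eq_mul]
        _ ≤ 2 * M * τ := mul_le_mul_of_nonneg_right hFc hτ0.le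
    have h2 : ∑ z ∈ F, (psi x z - psi y z) ^ 2 =
        ip (psi x) (psi x) + ip (psi y) (psi y) - 2 * ip (psi x) (psi y) := by
      rw [ip_eq_sum (psi x) (psi x) hFx, ip_eq_sum (psi y) (psi y) hFy,
        ip_eq_sum (psi x) (psi y) hFx, Finset.mul_sum, ← Finset.sum_add_distrib,
        ← Finset.sum_sub_distrib]
      exact Finset.sum_congr rfl fun z _ => by ring
    have h3 : s x * s y - M * τ ≤ ip (psi x) (psi y) := by
      rw [h2, ← hs2, ← hs2] at h1
      nlinarith [sq_nonneg (s x - s y)]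
    have hxy : 0 < s x * s y := mul_pos (hs0 x) (hs0 y)
    have h4 : (1 - ε) * (s x * s y) ≤ ip (psi x) (psi y) := by
      refine le_trans ?_ h3
      have h5 : (M : ℝ) * τ ≤ ε * (s x * s y) := by
        have h6 : (1 / 400 : ℝ) ≤ s x * s y := by
          calc (1 / 400 : ℝ) = (1 / 20) * (1 / 20) := by norm_num
            _ ≤ s x * s y := mul_le_mul (hs20 x) (hs20 y) (by norm_num) (hs0 x).le
        have h7 : (M : ℝ) * τ ≤ ε * (1 / 400) := by
          nlinarith
        exact h7.trans (mul_le_mul_of_nonneg_left h6 hε.le)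
      nlinarith
    have h5 : (s x)⁻¹ * ((s y)⁻¹ * ip (psi x) (psi y)) = ip (psi x) (psi y) / (s x * s y) := by
      rw [div_eq_mul_inv, mul_inv]; ring
    rw [h5, le_div_iff₀ hxy]
    exact h4

end Pool.Agent.H66.NCL
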