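import Pool.Agent.H66.NCL.Basic

/-!
# Module Ops: operations on `Detect` and `CE`

PLAN.
* `mono`, `comap`, `ulift`, `of_injective`, `of_finite`: direct from the definition (`comap`: use
  the image of `S`; `of_finite`: `v g = single () 1`, `T = univ`; `ulift`: transport with
  `Finsupp.embDomain`/`Finsupp.equivMapDomain Equiv.ulift.symm`).
* `bind`: apply `h₁` with `ε/2`, get `v₁`, `T₁`; apply `h₂ T₁` with `ε/2`, get `v₂`, `T₂`;
  take `v g = tens (v₁ g) (v₂ g)` (file Basic) : inner products multiply,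
  `(1-ε/2)^2 ≥ 1-ε` (if `ε ≥ 2` this is trivial since inner products are `≥ 0`, `ip_nonneg`), and
  a product is `0` if one of the factors is.
* `of_finset`: given `S`, take `H`; `CE H` for the preimage of `S` in `H` gives `v`.
  Choose coset representatives: every `g : G` is `g = r(gH) * h(g)` with `h(g) ∈ H`
  (`Quotient.out`). Put `V g = single-block`: `V g (c, i) = if c = gH then v (h g) i else 0`
  (`ι' = (G ⧸ H) × ι`; e.g. `(v (h g)).mapDomain (fun i => (gH, i))` or `tens (single gH 1) _`).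
  For `s ∈ S ⊆ H`: `g s H = g H` and `h (g s) = h g * s`. If `s ∉ T` (image of the finite set of
  `H`): either `s ∉ H`, then the blocks differ and the inner product is `0`; or `s ∈ H`.
-/

namespace Pool.Agent.H66.NCL

universe u v x

/-! ### Push-forward of finitely supported functions -/

theorem Ops_ip_mapDomain {ι : Type u} {κ : Type v} {f : ι → κ} (hf : Function.Injective f)
    (a b : ι →₀ ℝ) : ip (a.mapDomain f) (b.mapDomain f) = ip a b := by
  unfold ip
  rw [Finsupp.sum_mapDomain_index_inj hf]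
  refine Finsupp.sum_congr fun i _ => ?_
  rw [Finsupp.mapDomain_apply hf]

theorem Ops_ip_mapDomain_disj {ι : Type u} {κ : Type v} {f f' : ι → κ} (hf : Function.Injective f)
    (h : ∀ i j, f i ≠ f' j) (a b : ι →₀ ℝ) : ip (a.mapDomain f) (b.mapDomain f') = 0 := by
  unfold ip
  rw [Finsupp.sum_mapDomain_index_inj hf]
  refine Finset.sum_eq_zero fun i _ => ?_
  show a i * (b.mapDomain f') (f i) = 0
  rw [Finsupp.mapDomain_of_notMem_range, mul_zero]
  rintro ⟨j, hj⟩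
  exact h i j hj.symm

theorem Ops_mapDomain_nonneg {ι : Type u} {κ : Type v} {f : ι → κ} (hf : Function.Injective f)
    {a : ι →₀ ℝ} (ha : ∀ i, 0 ≤ a i) (k : κ) : 0 ≤ a.mapDomain f k := by
  by_cases hk : k ∈ Set.range f
  · obtain ⟨i, rfl⟩ := hk
    rw [Finsupp.mapDomain_apply hf]
    exact ha i
  · rw [Finsupp.mapDomain_of_notMem_range _ _ hk]

theorem Detect.mono {G : Type u} [Group G] {T1 T2 : Set (Set G)}
    (h : Detect.{u, x} G T1) (hsub : ∀ T ∈ T1, ∃ T' ∈ T2, T ⊆ T') : Detect.{u, x} G T2 := by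
  intro S ε hε
  obtain ⟨ι, v, T, hT, h1, h2, h3, h4⟩ := h S ε hε
  obtain ⟨T', hT', hTT⟩ := hsub T hT
  exact ⟨ι, v, T', hT', h1, h2, h3, fun g s hs => h4 g s fun h => hs (hTT h)⟩

theorem Detect.comap {G : Type u} {G' : Type v} [Group G] [Group G'] (f : G →* G')
    {T1 : Set (Set G')} (h : Detect.{v, x} G' T1) :
    Detect.{u, x} G {T | ∃ T' ∈ T1, T = f ⁻¹' T'} := by
  classical
  intro S ε hε
  obtain ⟨ι, v, T, hT, h1, h2, h3, h4⟩ := h (S.image f) ε hε
  refine ⟨ι, fun g => v (f g), f ⁻¹' T, ⟨T, hT, rfl⟩, fun g => h1 (f g), fun g => h2 (f g), ?_, ?_⟩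
  · intro g s hs
    show 1 - ε ≤ ip (v (f g)) (v (f (g * s)))
    rw [map_mul]
    exact h3 (f g) (f s) (Finset.mem_image_of_mem f hs)
  · intro g s hs
    show ip (v (f g)) (v (f (g * s))) = 0
    rw [map_mul]
    exact h4 (f g) (f s) hs

theorem Detect.bind {G : Type u} [Group G] {T1 : Set (Set G)} {T2 : Set G → Set (Set G)}
    (h₁ : Detect.{u, x} G T1) (h₂ : ∀ T ∈ T1, Detect.{u, x} G (T2 T)) :
    Detect.{u, x} G {T | ∃ A ∈ T1, ∃ B ∈ T2 A, T = A ∩ B} := by
  intro S ε hε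
  obtain ⟨ι₁, v₁, A, hA, a1, a2, a3, a4⟩ := h₁ S (ε / 2) (by linarith)
  obtain ⟨ι₂, v₂, B, hB, b1, b2, b3, b4⟩ := h₂ A hA S (ε / 2) (by linarith)
  refine ⟨ι₁ × ι₂, fun g => tens (v₁ g) (v₂ g), A ∩ B, ⟨A, hA, B, hB, rfl⟩, ?_, ?_, ?_, ?_⟩
  · intro g p
    exact tens_nonneg (a1 g) (b1 g) p
  · intro g
    show ip (tens (v₁ g) (v₂ g)) (tens (v₁ g) (v₂ g)) = 1
    rw [ip_tens, a2, b2, one_mul]
  · intro g s hs
    show 1 - ε ≤ ip (tens (v₁ g) (v₂ g)) (tens (v₁ (g * s)) (v₂ (g * s)))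
    rw [ip_tens]
    have e1 := a3 g s hs
    have e2 := b3 g s hs
    have n1 := ip_nonneg (a1 g) (a1 (g * s))
    have n2 := ip_nonneg (b1 g) (b1 (g * s))
    have l1 := ip_le_one (a2 g) (a2 (g * s))
    have l2 := ip_le_one (b2 g) (b2 (g * s))
    nlinarith [mul_nonneg (sub_nonneg.2 l1) (sub_nonneg.2 l2)]
  · intro g s hs
    show ip (tens (v₁ g) (v₂ g)) (tens (v₁ (g * s)) (v₂ (g * s))) = 0
    rw [ip_tens]
    by_cases hsA : s ∈ A
    · rw [b4 g s fun hsB => hs ⟨hsA, hsB⟩, mul_zero]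
    · rw [a4 g s hsA, zero_mul]

theorem Detect.ulift {G : Type u} [Group G] {T1 : Set (Set G)} (h : Detect.{u, 0} G T1) :
    Detect.{u, x} G T1 := by
  intro S ε hε
  obtain ⟨ι, v, T, hT, h1, h2, h3, h4⟩ := h S ε hε
  have hinj : Function.Injective (ULift.up.{x, 0} : ι → ULift.{x, 0} ι) := ULift.up_injective
  refine ⟨ULift.{x, 0} ι, fun g => (v g).mapDomain ULift.up, T, hT,
    fun g => Ops_mapDomain_nonneg hinj (h1 g), fun g => ?_, fun g s hs => ?_, fun g s hs => ?_⟩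
  · rw [Ops_ip_mapDomain hinj, h2]
  · rw [Ops_ip_mapDomain hinj]
    exact h3 g s hs
  · rw [Ops_ip_mapDomain hinj]
    exact h4 g s hs

theorem CE.of_injective {G : Type u} {G' : Type v} [Group G] [Group G'] (f : G →* G')
    (hf : Function.Injective f) (h : CE.{v, x} G') : CE.{u, x} G := by
  refine Detect.mono (Detect.comap f h) ?_
  rintro T ⟨T', hT', rfl⟩
  exact ⟨f ⁻¹' T', Set.Finite.preimage hf.injOn hT', subset_rfl⟩

theorem CE.of_finite (G : Type u) [Group G] [Finite G] : CE.{u, x} G := by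
  intro S ε hε
  refine ⟨PUnit.{x + 1}, fun _ => Finsupp.single PUnit.unit 1, Set.univ, Set.finite_univ,
    fun g i => ?_, fun g => ?_, fun g s _ => ?_, fun g s hs => absurd (Set.mem_univ s) hs⟩
  · rw [Finsupp.single_eq_same]
    exact zero_le_one
  · rw [ip_single_left, Finsupp.single_eq_same, one_mul]
  · rw [ip_single_left, Finsupp.single_eq_same, one_mul]
    linarith

theorem CE.of_finset {G : Type u} [Group G]
    (h : ∀ S : Finset G, ∃ H : Subgroup G, (↑S : Set G) ⊆ H ∧ CE.{u, u} H) : CE.{u, u} G := by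
  classical
  intro S ε hε
  obtain ⟨H, hSH, hCE⟩ := h S
  obtain ⟨ι, v, T, hT, h1, h2, h3, h4⟩ := hCE (S.subtype (fun g => g ∈ H)) ε hε
  have hmem : ∀ g : G, ((g : G ⧸ H).out)⁻¹ * g ∈ H := by
    intro g
    rw [← QuotientGroup.eq]
    exact Quotient.out_eq' (g : G ⧸ H)
  have hinj : ∀ c : G ⧸ H, Function.Injective (fun i : ι => (c, i)) := by
    intro c i j hij
    exact (Prod.mk.inj hij).2
  refine ⟨(G ⧸ H) × ι, fun g => (v ⟨_, hmem g⟩).mapDomain (fun i => ((g : G ⧸ H), i)),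
    Subtype.val '' T, Set.Finite.image _ hT, fun g => Ops_mapDomain_nonneg (hinj _) (h1 _),
    fun g => ?_, fun g s hs => ?_, fun g s hs => ?_⟩
  · rw [Ops_ip_mapDomain (hinj _), h2]
  · have hsH : s ∈ H := hSH hs
    have hc : ((g * s : G) : G ⧸ H) = (g : G ⧸ H) := QuotientGroup.mk_mul_of_mem g hsH
    have hh : (⟨_, hmem (g * s)⟩ : H) = ⟨_, hmem g⟩ * ⟨s, hsH⟩ := by
      apply Subtype.ext
      show ((((g * s : G) : G ⧸ H)).out)⁻¹ * (g * s) = ((g : G ⧸ H).out)⁻¹ * g * s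
      rw [hc, mul_assoc]
    show 1 - ε ≤ ip ((v ⟨_, hmem g⟩).mapDomain (fun i => ((g : G ⧸ H), i)))
      ((v ⟨_, hmem (g * s)⟩).mapDomain (fun i => (((g * s : G) : G ⧸ H), i)))
    rw [hh, hc, Ops_ip_mapDomain (hinj _)]
    exact h3 _ _ (Finset.mem_subtype.2 hs)
  · show ip ((v ⟨_, hmem g⟩).mapDomain (fun i => ((g : G ⧸ H), i)))
      ((v ⟨_, hmem (g * s)⟩).mapDomain (fun i => (((g * s : G) : G ⧸ H), i))) = 0
    by_cases hsH : s ∈ H
    · have hc : ((g * s : G) : G ⧸ H) = (g : G ⧸ H) := QuotientGroup.mk_mul_of_mem g hsH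
      have hh : (⟨_, hmem (g * s)⟩ : H) = ⟨_, hmem g⟩ * ⟨s, hsH⟩ := by
        apply Subtype.ext
        show ((((g * s : G) : G ⧸ H)).out)⁻¹ * (g * s) = ((g : G ⧸ H).out)⁻¹ * g * s
        rw [hc, mul_assoc]
      rw [hh, hc, Ops_ip_mapDomain (hinj _)]
      exact h4 _ _ fun hsT => hs ⟨_, hsT, rfl⟩
    · apply Ops_ip_mapDomain_disj (hinj _)
      intro i j hij
      have hc : (g : G ⧸ H) = ((g * s : G) : G ⧸ H) := (Prod.mk.inj hij).1
      rw [QuotientGroup.eq, inv_mul_cancel_left] at hc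
      exact hsH hc

end Pool.Agent.H66.NCL
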