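import Pool.Agent.H66.NCL.Torus
import Pool.Agent.H66.NCL.Iwasawa
import Pool.Agent.H66.NCL.Contract
import Pool.Agent.H66.NCL.Ops
import Pool.Agent.H66.NCL.Net

/-!
# Module Real: detection of bounded sets in `GL_n(ℝ)`

PLAN. `nv = |·|`, `ϖ = 1/2`, `q = 1/2`, `V = U nv (1/2) n`, `τ = tor (1/2)`, `φ` from `exists_net`,
`b g` from `iwasawa`; apply `torus`.
* `h1`: `a = 1` (`x⁻¹ y ∉ U 1` means an entry of `x⁻¹ y` or of its inverse is `> 2`).
* `h2`: `(x τ t)⁻¹ (x τ t') = tor (t' - t)`, for `t ≠ t'` a diagonal entry of it or of its inverse is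
  `≥ 2`.
* `h3`: `contract` and `box_gap`: `b = (b g)⁻¹ (b h)`, `b * τ t = τ (s+t) * w`, with
  `|w i j - 1 i j| ≤ (1/2)^N`, same for `w⁻¹`; choose `N0` with `(1/2)^N0 ≤ δ(ε)`.
-/

namespace Pool.Agent.H66.NCL

universe w

theorem isAbs_abs : IsAbs (fun x : ℝ => |x|) where
  nonneg := fun x => abs_nonneg x
  eq_zero := fun _ => abs_eq_zero
  mul := fun x y => abs_mul x y
  add_le := fun x y => abs_add_le x y

theorem real_half_ne : (1 / 2 : ℝ) ≠ 0 := by norm_num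

theorem real_tor_inv (n : ℕ) (t : Fin n → ℤ) :
    (tor (1 / 2 : ℝ) real_half_ne n t)⁻¹ = tor (1 / 2 : ℝ) real_half_ne n (-t) := by
  rw [inv_eq_iff_mul_eq_one, ← tor_add]
  ext i j
  simp [tor, Matrix.one_apply]

theorem real_tor_diag (n : ℕ) (t : Fin n → ℤ) (i : Fin n) :
    (tor (1 / 2 : ℝ) real_half_ne n t).val i i = (1 / 2 : ℝ) ^ t i := by
  simp [tor]

theorem real_two_le {k : ℤ} (hk : k < 0) : 2 ≤ |(1 / 2 : ℝ) ^ k| := by
  rw [abs_of_pos (by positivity)]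
  have h1 : (1 / 2 : ℝ) ^ k = 2 ^ (-k) := by
    rw [one_div, inv_zpow, zpow_neg]
  rw [h1]
  have h2 : (2 : ℝ) ^ (1 : ℤ) ≤ 2 ^ (-k) := zpow_le_zpow_right₀ (by norm_num) (by omega)
  simpa using h2

theorem detect_real (n : ℕ) :
    Detect.{0, 0} (Matrix (Fin n) (Fin n) ℝ)ˣ (BF (fun x : ℝ => |x|) (RingHom.id ℝ) n) := by
  obtain ⟨nv, hnv⟩ : ∃ nv : ℝ → ℝ, nv = fun x : ℝ => |x| := ⟨_, rfl⟩
  have habs : IsAbs nv := hnv ▸ isAbs_abs
  have hhalf : nv (1 / 2) = 1 / 2 := by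
    rw [hnv]
    simp only
    rw [abs_of_pos (by norm_num)]
  have hq0 : 0 < nv (1 / 2) := by rw [hhalf]; norm_num
  have hq1 : nv (1 / 2) < 1 := by rw [hhalf]; norm_num
  obtain ⟨c0, hc0⟩ := iwasawa habs (1 / 2 : ℝ) hq0 hq1 n
  choose b hbB hbU using hc0
  obtain ⟨ι, φ, hφ0, hφ1, hφ2, hφ3⟩ := exists_net n
  have hT := torus (U nv (nv (1 / 2)) n) (U_mono hq0 hq1 n) (U_exists hq0 hq1 n)
    (U_inv n) (fun a b => U_mul habs hq0 hq1 n a b) n (tor (1 / 2 : ℝ) real_half_ne n)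
    b c0 hbU φ hφ0 hφ1 ?_ ?_ ?_
  · rw [← hnv]
    refine hT.mono ?_
    rintro T ⟨a, rfl⟩
    refine ⟨{g | ∀ i j, nv (RingHom.id ℝ (g.val i j)) ≤ (nv (1 / 2))⁻¹ ^ a ∧
      nv (RingHom.id ℝ (g⁻¹.val i j)) ≤ (nv (1 / 2))⁻¹ ^ a}, ⟨_, rfl⟩, ?_⟩
    intro g hg i j
    exact hg i j
  · -- h1
    refine ⟨1, fun x y hxy => ?_⟩
    by_contra hne
    apply hxy
    intro i j
    have h1 := hφ2 x y hne i j
    have h2 : (x⁻¹ * y)⁻¹ = y⁻¹ * x := by group
    rw [h2, hhalf, hnv]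
    have h3 : ((1 / 2 : ℝ))⁻¹ ^ 1 = 2 := by norm_num
    rw [h3]
    exact ⟨h1.1.le, h1.2.le⟩
  · -- h2
    intro x t t' htt
    by_contra hne
    obtain ⟨i, hi⟩ := Function.ne_iff.mp htt
    have h1 := hφ2 _ _ hne i i
    have e1 : (x * tor (1 / 2 : ℝ) real_half_ne n t)⁻¹ * (x * tor (1 / 2 : ℝ) real_half_ne n t') =
        tor (1 / 2 : ℝ) real_half_ne n (-t + t') := by
      rw [tor_add, ← real_tor_inv]
      group
    have e2 : (x * tor (1 / 2 : ℝ) real_half_ne n t')⁻¹ * (x * tor (1 / 2 : ℝ) real_half_ne n t) =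
        tor (1 / 2 : ℝ) real_half_ne n (-t' + t) := by
      rw [tor_add, ← real_tor_inv]
      group
    rw [e1, e2, real_tor_diag, real_tor_diag] at h1
    obtain ⟨h1, h2⟩ := h1
    rcases lt_or_gt_of_ne hi with h | h
    · have := real_two_le (k := (-t' + t) i) (by simp only [Pi.add_apply, Pi.neg_apply]; omega)
      linarith
    · have := real_two_le (k := (-t + t') i) (by simp only [Pi.add_apply, Pi.neg_apply]; omega)
      linarith
  · -- h3
    intro a ε hε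
    obtain ⟨δ, hδ, hclose⟩ := hφ3 ε hε
    obtain ⟨N1, hN1⟩ := exists_pow_lt_of_lt_one hδ (show (1 / 2 : ℝ) < 1 by norm_num)
    refine ⟨a, max N1 (2 * a), fun N hN g h hgh => ?_⟩
    have hNa : 2 * a ≤ N := le_trans (le_max_right _ _) hN
    have hNδ : nv (1 / 2) ^ N ≤ δ := by
      rw [hhalf]
      exact (pow_le_pow_of_le_one (by norm_num) (by norm_num)
        (le_trans (le_max_left _ _) hN)).trans hN1.le
    have hB : IsB (1 / 2 : ℝ) ((b g)⁻¹ * b h) :=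
      IsB_mul real_half_ne (IsB_inv real_half_ne (hbB g)) (hbB h)
    obtain ⟨s, hs, hst⟩ := contract habs (1 / 2 : ℝ) real_half_ne hq1 n a _ hB hgh
    refine ⟨s, hs, fun t ht => ?_⟩
    obtain ⟨w, hw, hw1, hw2⟩ := hst N t (fun i j hij => box_gap hNa ht i j hij)
    have e : b h * tor (1 / 2 : ℝ) real_half_ne n t =
        b g * tor (1 / 2 : ℝ) real_half_ne n (s + t) * w := by
      rw [mul_assoc (b g), ← hw]
      group
    rw [e]
    have hnva : ∀ x : ℝ, nv x = |x| := fun x => by rw [hnv]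
    apply hclose
    · intro i j
      by_cases hij : i = j
      · subst hij
        rw [(hw1 i).1, Matrix.one_apply_eq, sub_self, abs_zero]
        exact hδ.le
      · rw [Matrix.one_apply_ne hij, sub_zero, ← hnva]
        exact (hw2 i j hij).1.trans hNδ
    · intro i j
      by_cases hij : i = j
      · subst hij
        rw [(hw1 i).2, Matrix.one_apply_eq, sub_self, abs_zero]
        exact hδ.le
      · rw [Matrix.one_apply_ne hij, sub_zero, ← hnva]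
        exact (hw2 i j hij).2.trans hNδ

theorem detect_real_hom {R : Type w} [Ring R] (ψ : R →+* ℝ) (n : ℕ) :
    Detect.{w, 0} (Matrix (Fin n) (Fin n) R)ˣ (BF (fun x : ℝ => |x|) ψ n) := by
  let f : (Matrix (Fin n) (Fin n) R)ˣ →* (Matrix (Fin n) (Fin n) ℝ)ˣ :=
    Units.map (RingHom.mapMatrix ψ : Matrix (Fin n) (Fin n) R →+* Matrix (Fin n) (Fin n) ℝ)
  refine ((detect_real n).comap f).mono ?_
  rintro T ⟨T', ⟨C, rfl⟩, rfl⟩
  refine ⟨{g | ∀ i j, (fun x : ℝ => |x|) (ψ (g.val i j)) ≤ C ∧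
    (fun x : ℝ => |x|) (ψ (g⁻¹.val i j)) ≤ C}, ⟨C, rfl⟩, ?_⟩
  intro g hg i j
  have h := hg i j
  have h1 : (f g).val i j = ψ (g.val i j) := rfl
  have h2 : (f g)⁻¹.val i j = ψ (g⁻¹.val i j) := by
    rw [← map_inv]
    rfl
  simp only [h1, h2, RingHom.id_apply] at h
  exact h

end Pool.Agent.H66.NCL
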