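import Pool.Agent.H66.NCL.Torus
import Pool.Agent.H66.NCL.Iwasawa
import Pool.Agent.H66.NCL.Contract
import Pool.Agent.H66.NCL.Ops

/-!
# Module Ultra: detection of bounded sets in `GL_n(D)`, `D` ultrametric division ring

PLAN. `G = GL_n(D)`, `q = nv ϖ`. `K0 = U nv q n 0` is a subgroup (ultrametric inequality; entries
`≤ 1`). `ι = G ⧸ K0` (universe `u`), `φ g = single (g : G ⧸ K0) 1`, so `ip (φ x) (φ y) = 1` if
`x⁻¹ y ∈ K0`, else `0`. Choose `b g` from `iwasawa`. Apply `torus` with `V = U nv q n`,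
`τ = tor ϖ`:
* `h1`: `a = 0`. `h2`: `(x τ t)⁻¹ (x τ t') = tor (t' - t) ∉ K0` if `t ≠ t'` (a diagonal entry or its
  inverse is `ϖ^k` with `k < 0`).
* `h3`: `b = (b g)⁻¹ (b h)` is `IsB`; `contract` gives `s` and for `t ∈ box N n`, `N ≥ 2a`
  (`box_gap`, `m = N`), `b * τ t = τ (s + t) * w` with `w ∈ K0` (off-diagonal entries
  `≤ q^N ≤ 1`). So `b h * τ t = b g * τ (s+t) * w` lies in the same coset: `ip = 1`.
  `R = a`.
Then `detect_ultra` from `Detect.mono`: `U nv q n a` is contained in the set of `BF` with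
`C = q⁻¹ ^ a`. `detect_ultra_hom`: `Detect.comap` along `Units.map ψ.mapMatrix`.
-/

namespace Pool.Agent.H66.NCL

universe u w

section
variable {D : Type u} [DivisionRing D] {nv : D → ℝ}

private theorem ultra_one (h : IsUltra nv) : nv 1 = 1 := by
  have h1 : nv 1 ≠ 0 := fun hh => one_ne_zero ((h.eq_zero 1).mp hh)
  have h2 := h.mul 1 1
  rw [mul_one] at h2
  have h3 : nv 1 * (nv 1 - 1) = 0 := by linarith
  rcases mul_eq_zero.mp h3 with h4 | h4
  · exact absurd h4 h1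
  · linarith

private theorem ultra_zero (h : IsUltra nv) : nv 0 = 0 := (h.eq_zero 0).mpr rfl

private theorem ultra_sum (h : IsUltra nv) {α : Type*} (s : Finset α) (f : α → D)
    (hf : ∀ x ∈ s, nv (f x) ≤ 1) : nv (∑ x ∈ s, f x) ≤ 1 := by
  classical
  induction s using Finset.induction_on with
  | empty => rw [Finset.sum_empty, ultra_zero h]; exact zero_le_one
  | insert a s ha ih =>
    rw [Finset.sum_insert ha]
    refine (h.add_le_max _ _).trans (max_le (hf a (Finset.mem_insert_self _ _)) ?_)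
    exact ih fun x hx => hf x (Finset.mem_insert_of_mem hx)

private theorem ultra_mul (h : IsUltra nv) {n : ℕ} {A B : Matrix (Fin n) (Fin n) D}
    (hA : ∀ i j, nv (A i j) ≤ 1) (hB : ∀ i j, nv (B i j) ≤ 1) (i j : Fin n) :
    nv ((A * B) i j) ≤ 1 := by
  rw [Matrix.mul_apply]
  apply ultra_sum h
  intro k _
  rw [h.mul]
  exact mul_le_one₀ (hA i k) (h.nonneg _) (hB k j)

private theorem ultra_one_entry (h : IsUltra nv) {n : ℕ} (i j : Fin n) :
    nv ((1 : Matrix (Fin n) (Fin n) D) i j) ≤ 1 := by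
  by_cases hij : i = j
  · rw [hij, Matrix.one_apply_eq, ultra_one h]
  · rw [Matrix.one_apply_ne hij, ultra_zero h]
    exact zero_le_one

/-- the integral invertible matrices -/
private def ultraK (h : IsUltra nv) (n : ℕ) : Subgroup (Matrix (Fin n) (Fin n) D)ˣ where
  carrier := {g | ∀ i j, nv (g.val i j) ≤ 1 ∧ nv (g⁻¹.val i j) ≤ 1}
  mul_mem' := by
    intro a b ha hb i j
    refine ⟨?_, ?_⟩
    · rw [Units.val_mul]
      exact ultra_mul h (fun i j => (ha i j).1) (fun i j => (hb i j).1) i j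
    · rw [mul_inv_rev, Units.val_mul]
      exact ultra_mul h (fun i j => (hb i j).2) (fun i j => (ha i j).2) i j
  one_mem' := by
    intro i j
    rw [inv_one, Units.val_one]
    exact ⟨ultra_one_entry h i j, ultra_one_entry h i j⟩
  inv_mem' := by
    intro a ha i j
    rw [inv_inv]
    exact ⟨(ha i j).2, (ha i j).1⟩

private theorem ultra_mem (h : IsUltra nv) (n : ℕ) (q : ℝ) (g : (Matrix (Fin n) (Fin n) D)ˣ) :
    g ∈ U nv q n 0 ↔ g ∈ ultraK h n := by
  unfold U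
  rw [pow_zero]
  rfl

private theorem ultra_zpow (h : IsUltra nv) (ϖ : D) (hϖ : ϖ ≠ 0) (k : ℤ) :
    nv (ϖ ^ k) = nv ϖ ^ k := by
  have hmul : ∀ m : ℕ, nv (ϖ ^ m) = nv ϖ ^ m := by
    intro m
    induction m with
    | zero => rw [pow_zero, pow_zero, ultra_one h]
    | succ m ih => rw [pow_succ, pow_succ, h.mul, ih]
  have hinv : ∀ x : D, x ≠ 0 → nv x⁻¹ = (nv x)⁻¹ := by
    intro x hx
    have h1 : nv x * nv x⁻¹ = 1 := by
      rw [← h.mul, mul_inv_cancel₀ hx, ultra_one h]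
    exact eq_inv_of_mul_eq_one_right h1
  cases k with
  | ofNat m =>
    show nv (ϖ ^ ((m : ℕ) : ℤ)) = nv ϖ ^ ((m : ℕ) : ℤ)
    rw [zpow_natCast, zpow_natCast, hmul]
  | negSucc m =>
    rw [zpow_negSucc, zpow_negSucc, hinv _ (pow_ne_zero _ hϖ), hmul]

private theorem ultra_tor (h : IsUltra nv) (ϖ : D) (hϖ : ϖ ≠ 0) (h0 : 0 < nv ϖ) (h1 : nv ϖ < 1)
    (n : ℕ) (t : Fin n → ℤ) (ht : t ≠ 0) : tor ϖ hϖ n t ∉ ultraK h n := by
  intro hm
  apply ht
  funext i
  have e := hm i i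
  have e1 : nv ((tor ϖ hϖ n t).val i i) = nv ϖ ^ t i := by
    show nv (Matrix.diagonal (fun i => ϖ ^ t i) i i) = _
    rw [Matrix.diagonal_apply_eq, ultra_zpow h ϖ hϖ]
  have e2 : nv ((tor ϖ hϖ n t)⁻¹.val i i) = nv ϖ ^ (-t i) := by
    show nv (Matrix.diagonal (fun i => ϖ ^ (-t i)) i i) = _
    rw [Matrix.diagonal_apply_eq, ultra_zpow h ϖ hϖ]
  rw [e1, e2] at e
  have hle : ∀ k : ℤ, nv ϖ ^ k ≤ 1 → 0 ≤ k := by
    intro k hk
    by_contra hcon
    have hk' : k < 0 := not_le.mp hcon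
    have := one_lt_zpow_of_neg₀ h0 h1 hk'
    linarith
  have k1 := hle _ e.1
  have k2 := hle _ e.2
  show t i = 0
  omega

end

theorem detect_ultra {D : Type u} [DivisionRing D] {nv : D → ℝ} (h : IsUltra nv) (ϖ : D)
    (h0 : 0 < nv ϖ) (h1 : nv ϖ < 1) (n : ℕ) :
    Detect.{u, u} (Matrix (Fin n) (Fin n) D)ˣ (BF nv (RingHom.id D) n) := by
  classical
  have hϖ : ϖ ≠ 0 := by
    intro hh
    rw [hh, ultra_zero h] at h0
    exact lt_irrefl _ h0
  obtain ⟨c0, hc0⟩ := iwasawa h.toIsAbs ϖ h0 h1 n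
  choose b hbB hbU using hc0
  set K0 := ultraK h n with hK0
  let φ : (Matrix (Fin n) (Fin n) D)ˣ → ((Matrix (Fin n) (Fin n) D)ˣ ⧸ K0) →₀ ℝ :=
    fun g => Finsupp.single (g : (Matrix (Fin n) (Fin n) D)ˣ ⧸ K0) 1
  have hip1 : ∀ x y, x⁻¹ * y ∈ K0 → ip (φ x) (φ y) = 1 := by
    intro x y hxy
    show ip (Finsupp.single _ 1) (Finsupp.single _ 1) = 1
    rw [ip_single_left, QuotientGroup.eq.mpr hxy, Finsupp.single_eq_same, mul_one]
  have hip0 : ∀ x y, x⁻¹ * y ∉ K0 → ip (φ x) (φ y) = 0 := by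
    intro x y hxy
    show ip (Finsupp.single _ 1) (Finsupp.single _ 1) = 0
    rw [ip_single_left, Finsupp.single_eq_of_ne, mul_zero]
    intro hh
    exact hxy (QuotientGroup.eq.mp hh)
  have key := torus (U nv (nv ϖ) n) (U_mono h0 h1 n) (U_exists h0 h1 n)
    (fun a x hx => U_inv n a x hx) (U_mul h.toIsAbs h0 h1 n) n (tor ϖ hϖ n) b c0 hbU φ
    (fun g i => by
      show 0 ≤ (Finsupp.single _ 1 : _ →₀ ℝ) i
      rw [Finsupp.single_apply]
      split_ifs
      · exact zero_le_one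
      · exact le_refl _)
    (fun g => hip1 g g (by rw [inv_mul_cancel]; exact K0.one_mem))
    ⟨0, fun x y hxy => hip0 x y (fun hh => hxy ((ultra_mem h n _ _).mpr hh))⟩
    (fun x t t' htt => by
      apply hip0
      have e : (x * tor ϖ hϖ n t)⁻¹ * (x * tor ϖ hϖ n t') = tor ϖ hϖ n (t' - t) := by
        have e1 : tor ϖ hϖ n t' = tor ϖ hϖ n t * tor ϖ hϖ n (t' - t) := by
          rw [← tor_add, add_sub_cancel]
        rw [e1]
        group
      rw [e]
      exact ultra_tor h ϖ hϖ h0 h1 n _ (sub_ne_zero.mpr (Ne.symm htt)))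
    (fun a ε hε => by
      refine ⟨a, 2 * a, fun N hN g g' hgg => ?_⟩
      obtain ⟨s, hs, hcon⟩ := contract h.toIsAbs ϖ hϖ h1 n a _
        (IsB_mul hϖ (IsB_inv hϖ (hbB g)) (hbB g')) hgg
      refine ⟨s, hs, fun t ht => ?_⟩
      obtain ⟨w, hw, hwd, hwo⟩ := hcon N t (fun i j hij => box_gap hN ht i j hij)
      have hw0 : w ∈ K0 := by
        intro i j
        by_cases hij : i = j
        · rw [hij, (hwd j).1, (hwd j).2, ultra_one h]
          exact ⟨le_refl _, le_refl _⟩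
        · have h5 : nv ϖ ^ N ≤ 1 := pow_le_one₀ h0.le h1.le
          exact ⟨(hwo i j hij).1.trans h5, (hwo i j hij).2.trans h5⟩
      rw [hip1]
      · linarith
      · have e : b g' * tor ϖ hϖ n t = b g * tor ϖ hϖ n (s + t) * w := by
          rw [mul_assoc, ← hw]
          group
        rw [e]
        have e2 : (b g * tor ϖ hϖ n (s + t))⁻¹ * (b g * tor ϖ hϖ n (s + t) * w) = w := by group
        rw [e2]
        exact hw0)
  refine Detect.mono key ?_
  rintro T ⟨a, rfl⟩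
  refine ⟨_, ⟨(nv ϖ)⁻¹ ^ a, rfl⟩, ?_⟩
  intro g hg
  exact hg

theorem detect_ultra_hom {D : Type u} [DivisionRing D] {nv : D → ℝ} (h : IsUltra nv) (ϖ : D)
    (h0 : 0 < nv ϖ) (h1 : nv ϖ < 1) {R : Type w} [Ring R] (ψ : R →+* D) (n : ℕ) :
    Detect.{w, u} (Matrix (Fin n) (Fin n) R)ˣ (BF nv ψ n) := by
  have key := Detect.comap (Units.map (RingHom.mapMatrix (m := Fin n) ψ).toMonoidHom)
    (detect_ultra h ϖ h0 h1 n)
  refine Detect.mono key ?_
  rintro T ⟨T', ⟨C, rfl⟩, rfl⟩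
  exact ⟨_, ⟨C, rfl⟩, fun g hg => hg⟩

end Pool.Agent.H66.NCL
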