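import Pool.Agent.H66.NCL.PBasic
import Pool.Agent.H66.NCL.Ultra
import Pool.Agent.H66.NCL.Real

/-!
# Module Rat: `P ℚ`

PLAN. `P.of_finset`: for a finite set `C` of rationals let `N ≥ 1` be a common denominator, and
`R' = Localization.Away (N : ℤ)` (or the subring of `ℚ` of the fractions `z / N^k`), embedded in
`ℚ`. Show `P R'`: for `GL_n(R')` use `Detect.bind` (finitely often, induction over the finite set of
primes `p ∣ N`) with
* `detect_ultra_hom` for `ψ : R' → ℚ_[p]` (norm `‖·‖`, `ϖ = p`), for each prime `p ∣ N`;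
* `detect_real_hom` for `ψ : R' → ℝ`.
(`Detect.mono` to pass to supersets; note that the intersection of the resulting sets is contained
in a set of matrices with entries in a finite set.) Finite set: `x = z / N^k` with
`‖x‖_p ≤ C` for all `p ∣ N` and `|x| ≤ C`: then `N^m x` is an integer for `m` depending on
`C` only (its `p`-adic norms are `≤ 1` for all `p`; e.g. `padicNorm`, `Rat.padicValRat`,
`padicValRat_le_padicValRat...` or the denominators: `x.den` divides a power of `N` and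
`padicValNat p x.den` is bounded), of absolute value at most `N^m C`: finitely many.
-/

namespace Pool.Agent.H66.NCL

/-- the fractions `z / N ^ k` -/
def Rat.RN (N : ℕ) : Subring ℚ where
  carrier := {x | ∃ k : ℕ, ∃ z : ℤ, x * (N : ℚ) ^ k = z}
  mul_mem' := by
    rintro x y ⟨k, z, hz⟩ ⟨l, w, hw⟩
    refine ⟨k + l, z * w, ?_⟩
    push_cast
    rw [← hz, ← hw]
    ring
  one_mem' := ⟨0, 1, by simp⟩
  add_mem' := by
    rintro x y ⟨k, z, hz⟩ ⟨l, w, hw⟩
    refine ⟨k + l, z * (N : ℤ) ^ l + w * (N : ℤ) ^ k, ?_⟩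
    push_cast
    rw [← hz, ← hw]
    ring
  zero_mem' := ⟨0, 0, by simp⟩
  neg_mem' := by
    rintro x ⟨k, z, hz⟩
    refine ⟨k, -z, ?_⟩
    push_cast
    rw [← hz]
    ring

theorem Rat.mem_RN_iff (N : ℕ) (x : ℚ) :
    x ∈ Rat.RN N ↔ ∃ k : ℕ, ∃ z : ℤ, x * (N : ℚ) ^ k = z := Iff.rfl

/-- matrices bounded at infinity and at the primes of `s` -/
def Rat.Bd (N n : ℕ) (s : Finset ℕ) (C : ℝ) :
    Set (Matrix (Fin n) (Fin n) (Rat.RN N))ˣ :=
  {g | (∀ i j, |((g.val i j : ℚ) : ℝ)| ≤ C ∧ |((g⁻¹.val i j : ℚ) : ℝ)| ≤ C) ∧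
    ∀ p ∈ s, ∀ i j, ((padicNorm p (g.val i j : ℚ) : ℚ) : ℝ) ≤ C ∧
      ((padicNorm p (g⁻¹.val i j : ℚ) : ℚ) : ℝ) ≤ C}

theorem Rat.Bd_mono (N n : ℕ) (s : Finset ℕ) {C C' : ℝ} (h : C ≤ C') :
    Rat.Bd N n s C ⊆ Rat.Bd N n s C' := by
  rintro g ⟨h1, h2⟩
  refine ⟨fun i j => ⟨(h1 i j).1.trans h, (h1 i j).2.trans h⟩, ?_⟩
  exact fun p hp i j => ⟨(h2 p hp i j).1.trans h, (h2 p hp i j).2.trans h⟩

theorem Rat.isUltra_padic (p : ℕ) [Fact p.Prime] : IsUltra (fun x : ℚ_[p] => ‖x‖) where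
  nonneg := fun x => norm_nonneg x
  eq_zero := fun x => norm_eq_zero
  mul := fun x y => norm_mul x y
  add_le := fun x y => norm_add_le x y
  add_le_max := fun x y => Padic.nonarchimedean x y

theorem Rat.detect_Bd (N n : ℕ) (s : Finset ℕ) (hs : ∀ p ∈ s, p.Prime) :
    Detect.{0, 0} (Matrix (Fin n) (Fin n) (Rat.RN N))ˣ {T | ∃ C : ℝ, T = Rat.Bd N n s C} := by
  classical
  induction s using Finset.induction_on with
  | empty =>
    refine Detect.mono (detect_real_hom ((algebraMap ℚ ℝ).comp (Rat.RN N).subtype) n) ?_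
    rintro T ⟨C, rfl⟩
    refine ⟨Rat.Bd N n ∅ C, ⟨C, rfl⟩, ?_⟩
    intro g hg
    refine ⟨fun i j => ?_, fun p hp => absurd hp (Finset.notMem_empty p)⟩
    exact hg i j
  | insert p s hps ih =>
    have hp : p.Prime := hs p (Finset.mem_insert_self _ _)
    have : Fact p.Prime := ⟨hp⟩
    have h1 := ih (fun q hq => hs q (Finset.mem_insert_of_mem hq))
    have h2 := detect_ultra_hom (Rat.isUltra_padic p) (p : ℚ_[p])
      (by
        show 0 < ‖(p : ℚ_[p])‖
        rw [Padic.norm_p]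
        have : (0 : ℝ) < p := by exact_mod_cast hp.pos
        positivity)
      (by
        show ‖(p : ℚ_[p])‖ < 1
        exact Padic.norm_p_lt_one)
      ((algebraMap ℚ ℚ_[p]).comp (Rat.RN N).subtype) n
    refine Detect.mono (Detect.bind h1 (fun _ _ => h2)) ?_
    rintro T ⟨A, ⟨C1, rfl⟩, B, ⟨C2, rfl⟩, rfl⟩
    refine ⟨Rat.Bd N n (insert p s) (max C1 C2), ⟨_, rfl⟩, ?_⟩
    rintro g ⟨hg1, hg2⟩
    have hg1' := Rat.Bd_mono N n s (le_max_left C1 C2) hg1
    refine ⟨hg1'.1, ?_⟩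
    intro q hq i j
    rcases Finset.mem_insert.mp hq with rfl | hq'
    · have h3 := hg2 i j
      have h4 : ∀ x : Rat.RN N, ‖((algebraMap ℚ ℚ_[q]).comp (Rat.RN N).subtype) x‖ =
          ((padicNorm q (x : ℚ) : ℚ) : ℝ) := by
        intro x
        have h5 : ((algebraMap ℚ ℚ_[q]).comp (Rat.RN N).subtype) x = ((x : ℚ) : ℚ_[q]) := by
          simp
        rw [h5]
        exact Padic.eq_padicNorm _
      simp only [h4] at h3
      exact ⟨h3.1.trans (le_max_right _ _), h3.2.trans (le_max_right _ _)⟩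
    · exact hg1'.2 q hq' i j

theorem Rat.pow_le (p : ℕ) (hp : p.Prime) (x : ℚ) (hx : x ≠ 0) (C : ℝ)
    (h : ((padicNorm p x : ℚ) : ℝ) ≤ C) :
    (p : ℝ) ^ (x.den.factorization p) ≤ max C 1 := by
  have : Fact p.Prime := ⟨hp⟩
  by_cases hd : p ∣ x.den
  · have h1 : ¬ p ∣ x.num.natAbs := by
      intro h2
      exact hp.one_lt.ne' (Nat.dvd_one.mp (x.reduced ▸ Nat.dvd_gcd h2 hd))
    have h3 : padicValRat p x = -(x.den.factorization p : ℤ) := by
      unfold padicValRat padicValInt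
      rw [padicValNat.eq_zero_of_not_dvd h1, Nat.factorization_def _ hp]
      simp
    have h4 : padicNorm p x = (p : ℚ) ^ (x.den.factorization p) := by
      rw [padicNorm.eq_zpow_of_nonzero hx, h3, neg_neg, zpow_natCast]
    rw [h4] at h
    push_cast at h
    exact h.trans (le_max_left _ _)
  · rw [Nat.factorization_eq_zero_of_not_dvd hd, pow_zero]
    exact le_max_right _ _

theorem Rat.den_le (N : ℕ) (hN : N ≠ 0) (x : ℚ) (hx0 : x ≠ 0) (hx : x ∈ Rat.RN N) (C : ℝ)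
    (h : ∀ p ∈ N.primeFactors, ((padicNorm p x : ℚ) : ℝ) ≤ C) :
    (x.den : ℝ) ≤ (max C 1) ^ N.primeFactors.card := by
  obtain ⟨k, z, hz⟩ := (Rat.mem_RN_iff N x).mp hx
  have hNk : (N : ℚ) ^ k ≠ 0 := pow_ne_zero _ (by exact_mod_cast hN)
  have hx' : x = (z : ℚ) / ((N ^ k : ℕ) : ℤ) := by
    push_cast
    rw [eq_div_iff hNk, hz]
  have hdvd : x.den ∣ N ^ k := by
    have h1 := Rat.den_dvd z ((N ^ k : ℕ) : ℤ)
    rw [Rat.divInt_eq_div, ← hx'] at h1
    exact_mod_cast h1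
  have hsub : x.den.primeFactors ⊆ N.primeFactors := by
    intro p hp
    have hpp := Nat.prime_of_mem_primeFactors hp
    have hpd := Nat.dvd_of_mem_primeFactors hp
    exact Nat.mem_primeFactors.mpr ⟨hpp, hpp.dvd_of_dvd_pow (hpd.trans hdvd), hN⟩
  have hprod : x.den = ∏ p ∈ x.den.primeFactors, p ^ (x.den.factorization p) := by
    conv_lhs => rw [← Nat.prod_factorization_pow_eq_self x.den_nz]
    rfl
  have h1 : (1 : ℝ) ≤ max C 1 := le_max_right _ _
  have h2 : (x.den : ℝ) = ∏ p ∈ x.den.primeFactors, (p : ℝ) ^ (x.den.factorization p) := by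
    conv_lhs => rw [hprod]
    push_cast
    rfl
  rw [h2]
  calc ∏ p ∈ x.den.primeFactors, (p : ℝ) ^ (x.den.factorization p)
      ≤ ∏ p ∈ x.den.primeFactors, max C 1 := by
        apply Finset.prod_le_prod
        · intro p _
          positivity
        · intro p hp
          exact Rat.pow_le p (Nat.prime_of_mem_primeFactors hp) x hx0 C (h p (hsub hp))
    _ = (max C 1) ^ x.den.primeFactors.card := by rw [Finset.prod_const]
    _ ≤ (max C 1) ^ N.primeFactors.card :=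
        pow_le_pow_right₀ h1 (Finset.card_le_card hsub)

theorem Rat.finite_E (N : ℕ) (hN : N ≠ 0) (C : ℝ) :
    {x : ℚ | x ∈ Rat.RN N ∧ |(x : ℝ)| ≤ C ∧
      ∀ p ∈ N.primeFactors, ((padicNorm p x : ℚ) : ℝ) ≤ C}.Finite := by
  set M : ℝ := (max C 1) ^ N.primeFactors.card with hM
  have hM1 : 1 ≤ M := one_le_pow₀ (le_max_right _ _)
  set F : Set ℚ := (fun q : ℤ × ℕ => (q.1 : ℚ) / q.2) ''
    (Set.Icc (-⌈C * M⌉) ⌈C * M⌉ ×ˢ Set.Iic ⌈M⌉₊) with hF
  have hfin : (insert 0 F).Finite :=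
    (((Set.finite_Icc _ _).prod (Set.finite_Iic _)).image _).insert _
  refine hfin.subset ?_
  rintro x ⟨hx1, hx2, hx3⟩
  by_cases hx0 : x = 0
  · exact Or.inl hx0
  · right
    have h1 := Rat.den_le N hN x hx0 hx1 C hx3
    rw [← hM] at h1
    have hden0 : (0 : ℝ) < x.den := by exact_mod_cast x.den_pos
    refine ⟨(x.num, x.den), ⟨?_, ?_⟩, ?_⟩
    · have h2 : (x : ℝ) = (x.num : ℝ) / x.den := by
        exact_mod_cast (Rat.num_div_den x).symm
      have h3 : |(x.num : ℝ)| ≤ C * M := by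
        have h4 : |(x.num : ℝ)| = |(x : ℝ)| * x.den := by
          rw [h2, abs_div, abs_of_pos hden0]
          field_simp
        rw [h4]
        exact mul_le_mul hx2 h1 hden0.le ((abs_nonneg _).trans hx2)
      have h5 := abs_le.mp h3
      have h6 : C * M ≤ (⌈C * M⌉ : ℝ) := Int.le_ceil _
      rw [Set.mem_Icc]
      constructor
      · have : (-(⌈C * M⌉ : ℤ) : ℝ) ≤ (x.num : ℝ) := by linarith
        exact_mod_cast this
      · have : (x.num : ℝ) ≤ (⌈C * M⌉ : ℝ) := by linarith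
        exact_mod_cast this
    · show x.den ≤ ⌈M⌉₊
      have h7 : (x.den : ℝ) ≤ (⌈M⌉₊ : ℝ) := h1.trans (Nat.le_ceil _)
      exact_mod_cast h7
    · exact Rat.num_div_den x

theorem Rat.finite_Bd (N n : ℕ) (hN : N ≠ 0) (C : ℝ) : (Rat.Bd N n N.primeFactors C).Finite := by
  set E : Set (Rat.RN N) := Subtype.val ⁻¹' {x : ℚ | x ∈ Rat.RN N ∧ |(x : ℝ)| ≤ C ∧
      ∀ p ∈ N.primeFactors, ((padicNorm p x : ℚ) : ℝ) ≤ C} with hE
  have hEfin : E.Finite := (Rat.finite_E N hN C).preimage Subtype.val_injective.injOn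
  have hMfin : (Set.pi Set.univ fun _ : Fin n => Set.pi Set.univ fun _ : Fin n => E).Finite :=
    Set.Finite.pi fun _ => Set.Finite.pi fun _ => hEfin
  refine Set.Finite.of_finite_image (f := fun g : (Matrix (Fin n) (Fin n) (Rat.RN N))ˣ =>
    (g.val : Fin n → Fin n → Rat.RN N)) (hMfin.subset ?_) ?_
  · rintro _ ⟨g, hg, rfl⟩
    intro i _ j _
    exact ⟨(g.val i j).2, (hg.1 i j).1, fun p hp => (hg.2 p hp i j).1⟩
  · intro g _ g' _ h
    exact Units.ext h

theorem Rat.P_RN (N : ℕ) (hN : N ≠ 0) : P.{0, 0} (Rat.RN N) := by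
  intro n
  refine Detect.mono (Rat.detect_Bd N n N.primeFactors
    (fun p hp => Nat.prime_of_mem_primeFactors hp)) ?_
  rintro T ⟨C, rfl⟩
  exact ⟨_, Rat.finite_Bd N n hN C, subset_rfl⟩

theorem P_rat : P.{0, 0} ℚ := by
  classical
  apply P.of_finset
  intro C
  set N : ℕ := ∏ c ∈ C, c.den with hN
  have hN0 : N ≠ 0 := by
    rw [hN, Finset.prod_ne_zero_iff]
    exact fun c _ => c.den_nz
  refine ⟨Rat.RN N, inferInstance, (Rat.RN N).subtype, Subtype.val_injective, ?_, Rat.P_RN N hN0⟩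
  intro c hc
  have hmem : c ∈ Rat.RN N := by
    rw [Rat.mem_RN_iff]
    have hdvd : c.den ∣ N := Finset.dvd_prod_of_mem _ hc
    obtain ⟨m, hm⟩ := hdvd
    refine ⟨1, c.num * m, ?_⟩
    rw [pow_one, hm]
    push_cast
    have h1 : c * c.den = c.num := Rat.mul_den_eq_num c
    rw [← mul_assoc, h1]
  exact ⟨⟨c, hmem⟩, rfl⟩

end Pool.Agent.H66.NCL
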