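import Pool.Agent.H66.NCL.Ext
import Pool.Agent.H66.NCL.Rat

/-!
# Module Abel: commutative groups, square zero extensions

PLAN.
* `CE.int`: `Multiplicative ℤ → (Matrix (Fin 1) (Fin 1) ℚ)ˣ`, `n ↦ (diagonal 2)^n` is injective; `P_rat`,
  `CE.of_injective`, `Detect.ulift`. (Or directly: `v n = L^(-1/2) ∑_{n ≤ j < n + L} δ_j`.)
* cyclic groups: finite (`CE.of_finite`) or isomorphic to `Multiplicative ℤ`.
* `CE.of_comm`: `CE.of_finset` with `H = Subgroup.closure S`; for `S` a finset show
  `CE (Subgroup.closure S)` by `Finset.induction_on`: `H' = closure (insert a S)`,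
  `H' → H' ⧸ (closure S).subgroupOf H'` has cyclic image (generated by the image of `a`) and kernel
  isomorphic to (embedding in) `closure S`; `CE.extension`.
* `P.sqZero`: `π = Units.map (f.mapMatrix)`, the kernel is commutative: its elements are `1 + x` with the
  entries of `x` in `ker f`, and `x * y = 0`; `CE.extension`, `CE.of_comm`
  (`CommGroup` structure on the kernel: `{ inferInstanceAs (Group _) with mul_comm := … }`).
-/

namespace Pool.Agent.H66.NCL

universe u v

theorem CE.int : CE.{0, u} (Multiplicative ℤ) := by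
  let u2 : ℚˣ := Units.mk0 2 (by norm_num)
  let f : Multiplicative ℤ →* (Matrix (Fin 1) (Fin 1) ℚ)ˣ :=
    (Units.map ((Matrix.scalar (Fin 1) : ℚ →+* Matrix (Fin 1) (Fin 1) ℚ) :
      ℚ →* Matrix (Fin 1) (Fin 1) ℚ)).comp (zpowersHom ℚˣ u2)
  have hf : Function.Injective f := by
    intro a b hab
    have h1 : ((f a : (Matrix (Fin 1) (Fin 1) ℚ)ˣ) : Matrix (Fin 1) (Fin 1) ℚ) 0 0 =
        ((f b : (Matrix (Fin 1) (Fin 1) ℚ)ˣ) : Matrix (Fin 1) (Fin 1) ℚ) 0 0 := by rw [hab]
    have h2 : ∀ c : Multiplicative ℤ,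
        ((f c : (Matrix (Fin 1) (Fin 1) ℚ)ˣ) : Matrix (Fin 1) (Fin 1) ℚ) 0 0 =
          (2 : ℚ) ^ (Multiplicative.toAdd c) := by
      intro c
      show (Matrix.scalar (Fin 1)) ((u2 ^ (Multiplicative.toAdd c) : ℚˣ) : ℚ) 0 0 = _
      rw [Matrix.scalar_apply, Matrix.diagonal_apply_eq, Units.val_zpow_eq_zpow_val]
      rfl
    rw [h2, h2] at h1
    exact Multiplicative.toAdd.injective
      (zpow_right_injective₀ (by norm_num) (by norm_num) h1)
  exact CE.of_injective f hf (Detect.ulift (P_rat 1))

theorem CE.of_isCyclic (G : Type u) [Group G] [IsCyclic G] : CE.{u, u} G := by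
  rcases finite_or_infinite G with hfin | hinf
  · exact CE.of_finite G
  · obtain ⟨g, hg⟩ := IsCyclic.exists_generator (α := G)
    have hinj : Function.Injective (zpowersHom G g) := by
      intro a b hab
      have h1 : g ^ (Multiplicative.toAdd a) = g ^ (Multiplicative.toAdd b) := hab
      have h2 : orderOf g = 0 := Infinite.orderOf_eq_zero_of_forall_mem_zpowers hg
      exact Multiplicative.toAdd.injective
        ((injective_zpow_iff_not_isOfFinOrder.2 (orderOf_eq_zero_iff.1 h2)) h1)
    have hsurj : Function.Surjective (zpowersHom G g) := by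
      intro y
      obtain ⟨k, hk⟩ := hg y
      exact ⟨Multiplicative.ofAdd k, hk⟩
    let e : Multiplicative ℤ ≃* G := MulEquiv.ofBijective (zpowersHom G g) ⟨hinj, hsurj⟩
    exact CE.of_injective e.symm.toMonoidHom e.symm.injective CE.int

theorem CE.of_comm (G : Type u) [CommGroup G] : CE.{u, u} G := by
  classical
  apply CE.of_finset
  intro S
  refine ⟨Subgroup.closure (S : Set G), Subgroup.subset_closure, ?_⟩
  induction S using Finset.induction_on with
  | empty =>
    rw [Finset.coe_empty, Subgroup.closure_empty]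
    exact CE.of_finite _
  | insert a S _ ih =>
    rw [Finset.coe_insert]
    have hle : Subgroup.closure (S : Set G) ≤ Subgroup.closure (insert a (S : Set G)) :=
      Subgroup.closure_mono (Set.subset_insert _ _)
    have ha : a ∈ Subgroup.closure (insert a (S : Set G)) :=
      Subgroup.subset_closure (Set.mem_insert _ _)
    let N : Subgroup (Subgroup.closure (insert a (S : Set G))) :=
      (Subgroup.closure (S : Set G)).subgroupOf _
    have hcyc : IsCyclic (Subgroup.closure (insert a (S : Set G)) ⧸ N) := by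
      refine ⟨⟨QuotientGroup.mk' N ⟨a, ha⟩, fun q => ?_⟩⟩
      obtain ⟨⟨y, hy⟩, rfl⟩ := QuotientGroup.mk'_surjective N q
      have hy' : y ∈ Subgroup.closure {a} ⊔ Subgroup.closure (S : Set G) := by
        rw [← Subgroup.closure_union, ← Set.insert_eq]
        exact hy
      obtain ⟨b, hb, c, hc, rfl⟩ := Subgroup.mem_sup.1 hy'
      obtain ⟨k, rfl⟩ := Subgroup.mem_closure_singleton.1 hb
      refine ⟨k, ?_⟩
      show (QuotientGroup.mk' N ⟨a, ha⟩) ^ k = QuotientGroup.mk' N ⟨a ^ k * c, hy⟩
      rw [← map_zpow, ← mul_inv_eq_one, ← map_inv, ← map_mul, ← MonoidHom.mem_ker,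
        QuotientGroup.ker_mk', Subgroup.mem_subgroupOf]
      have e : ((((⟨a, ha⟩ : Subgroup.closure (insert a (S : Set G))) ^ k *
          (⟨a ^ k * c, hy⟩ : Subgroup.closure (insert a (S : Set G)))⁻¹ :
          Subgroup.closure (insert a (S : Set G))) : G)) = c⁻¹ := by
        push_cast
        rw [mul_inv, ← mul_assoc, mul_inv_cancel, one_mul]
      rw [e]
      exact (Subgroup.closure (S : Set G)).inv_mem hc
    refine CE.extension (QuotientGroup.mk' N) (CE.of_isCyclic _) ?_
    refine CE.of_injective (G' := Subgroup.closure (S : Set G))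
      { toFun := fun x => ⟨((x : Subgroup.closure (insert a (S : Set G))) : G), by
          have h : x.1 ∈ N := (SetLike.ext_iff.1 (QuotientGroup.ker_mk' N) x.1).1 x.2
          exact Subgroup.mem_subgroupOf.1 h⟩
        map_one' := rfl
        map_mul' := fun _ _ => rfl } ?_ ih
    intro x y hxy
    have h1 : ((x : Subgroup.closure (insert a (S : Set G))) : G) =
        ((y : Subgroup.closure (insert a (S : Set G))) : G) :=
      congrArg (fun z : Subgroup.closure (S : Set G) => (z : G)) hxy
    exact Subtype.ext (Subtype.ext h1)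

theorem P.sqZero {R : Type u} {R' : Type v} [Ring R] [Ring R'] (f : R →+* R')
    (hf : ∀ x y, f x = 0 → f y = 0 → x * y = 0) (h : P.{v, u} R') : P.{u, u} R := by
  intro n
  let π : (Matrix (Fin n) (Fin n) R)ˣ →* (Matrix (Fin n) (Fin n) R')ˣ :=
    Units.map (f.mapMatrix : Matrix (Fin n) (Fin n) R →+* Matrix (Fin n) (Fin n) R').toMonoidHom
  have hent : ∀ g : π.ker, ∀ i j, f ((((g : (Matrix (Fin n) (Fin n) R)ˣ) :
      Matrix (Fin n) (Fin n) R) - 1) i j) = 0 := by
    intro g i j
    have h1 : π g = 1 := g.2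
    have h2 : (f.mapMatrix ((g : (Matrix (Fin n) (Fin n) R)ˣ) : Matrix (Fin n) (Fin n) R)) = 1 :=
      congrArg Units.val h1
    have h3 : f.mapMatrix ((((g : (Matrix (Fin n) (Fin n) R)ˣ) : Matrix (Fin n) (Fin n) R)) - 1) = 0 := by
      rw [map_sub, h2, map_one, sub_self]
    have h4 := congrFun (congrFun h3 i) j
    exact h4
  have hcomm : ∀ g k : π.ker, g * k = k * g := by
    intro g k
    have hz : ∀ g k : π.ker, (((g : (Matrix (Fin n) (Fin n) R)ˣ) : Matrix (Fin n) (Fin n) R) - 1) *
        (((k : (Matrix (Fin n) (Fin n) R)ˣ) : Matrix (Fin n) (Fin n) R) - 1) = 0 := by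
      intro g k
      ext i j
      rw [Matrix.mul_apply]
      exact Finset.sum_eq_zero fun l _ => hf _ _ (hent g i l) (hent k l j)
    apply Subtype.ext
    apply Units.ext
    show ((g : (Matrix (Fin n) (Fin n) R)ˣ) : Matrix (Fin n) (Fin n) R) *
      ((k : (Matrix (Fin n) (Fin n) R)ˣ) : Matrix (Fin n) (Fin n) R) =
      ((k : (Matrix (Fin n) (Fin n) R)ˣ) : Matrix (Fin n) (Fin n) R) *
      ((g : (Matrix (Fin n) (Fin n) R)ˣ) : Matrix (Fin n) (Fin n) R)
    have h1 := hz g k
    have h2 := hz k g
    rw [sub_mul, mul_sub, one_mul, mul_one] at h1 h2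
    have h3 := h1.trans h2.symm
    rw [sub_sub_sub_comm] at h3
    generalize ((g : (Matrix (Fin n) (Fin n) R)ˣ) : Matrix (Fin n) (Fin n) R) = A at *
    generalize ((k : (Matrix (Fin n) (Fin n) R)ˣ) : Matrix (Fin n) (Fin n) R) = B at *
    have h4 : A * B = A * B - A - (B - 1) + (A + B - 1) := by abel
    have h5 : B * A = B * A - B - (A - 1) + (A + B - 1) := by abel
    rw [h4, h5, h1, h2]
  let _ : CommGroup π.ker := { (inferInstance : Group π.ker) with mul_comm := hcomm }
  exact CE.extension π (h n) (CE.of_comm π.ker)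

end Pool.Agent.H66.NCL
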