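import Pool.Agent.H66.NCL.PBasic
import Pool.Agent.H66.NCL.Abel

/-!
# Module Comm: from fields to commutative rings of coefficients

PLAN.
* `P.prod`: `GL_n(R₁ × R₂)` : `Detect.bind` of the two `Detect.comap`s along
  `Units.map (RingHom.fst.mapMatrix)`, `Units.map (RingHom.snd.mapMatrix)`; the intersection of
  preimages of finite sets is finite. Then `P.pi` over a finite index type (induction, or directly by
  iterated bind over a finset as in `detect_degs` of the file Prod).
* `P_commRing`, `A` noetherian: noetherian induction on the ideal `I` for `P (MonoidAlgebra (A ⧸ I) S)`: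
  `I` prime: `A ⧸ I` embeds in its fraction field. `I` not prime, `a b ∈ I`, `a ∉ I`, `b ∉ I`: with
  `J₁ = I + (a)`, `J₂ = I + (b)` one has `J₁ J₂ ⊆ I`, so the kernel of
  `MonoidAlgebra (A ⧸ I) S → MonoidAlgebra (A ⧸ J₁) S × MonoidAlgebra (A ⧸ J₂) S` has square zero:
  `P.sqZero`, `P.pi`.
* general `A`: `P.of_finset`: for a finite set `C` of elements of `MonoidAlgebra A S` let `A₀` be the
  subring of `A` generated by their coefficients (`Algebra.adjoin ℤ`, a finitely generated commutative
  ring, noetherian: `Algebra.FiniteType.isNoetherianRing ℤ _`); `MonoidAlgebra A₀ S → MonoidAlgebra A S`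
  is injective with `C` in the range.
-/

namespace Pool.Agent.H66.NCL

universe u v

theorem Comm_detect_univ {G : Type u} [Group G] : Detect.{u, u} G {Set.univ} := by
  intro S ε hε
  refine ⟨PUnit.{u + 1}, fun _ => Finsupp.single PUnit.unit 1, Set.univ, rfl,
    fun g i => ?_, fun g => ?_, fun g s _ => ?_, fun g s hs => absurd (Set.mem_univ s) hs⟩
  · rw [Finsupp.single_eq_same]
    exact zero_le_one
  · rw [ip_single_left, Finsupp.single_eq_same, one_mul]
  · rw [ip_single_left, Finsupp.single_eq_same, one_mul]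
    linarith

theorem P.pi {ι : Type u} [Finite ι] {R : ι → Type u} [∀ i, Ring (R i)] (h : ∀ i, P.{u, u} (R i)) :
    P.{u, u} (∀ i, R i) := by
  classical
  intro n
  let f : ∀ i, (Matrix (Fin n) (Fin n) (∀ i, R i))ˣ →* (Matrix (Fin n) (Fin n) (R i))ˣ := fun i =>
    Units.map (((Pi.evalRingHom R i).mapMatrix : Matrix (Fin n) (Fin n) (∀ i, R i) →+*
      Matrix (Fin n) (Fin n) (R i)) : Matrix (Fin n) (Fin n) (∀ i, R i) →*
      Matrix (Fin n) (Fin n) (R i))
  have key : ∀ s : Finset ι, Detect.{u, u} (Matrix (Fin n) (Fin n) (∀ i, R i))ˣ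
      {T | ∃ U : ∀ i, Set (Matrix (Fin n) (Fin n) (R i))ˣ, (∀ i, (U i).Finite) ∧
        T = {g | ∀ i ∈ s, f i g ∈ U i}} := by
    intro s
    induction s using Finset.induction_on with
    | empty =>
      refine Detect.mono Comm_detect_univ ?_
      intro T _
      refine ⟨{g | ∀ i ∈ (∅ : Finset ι), f i g ∈ (∅ : Set (Matrix (Fin n) (Fin n) (R i))ˣ)},
        ⟨fun _ => ∅, fun _ => Set.finite_empty, rfl⟩, ?_⟩
      intro g _ i hi
      exact absurd hi (Finset.notMem_empty i)
    | insert a s ha ih =>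
      refine Detect.mono (Detect.bind ih
        (T2 := fun _ => {T | ∃ T' ∈ {T' : Set (Matrix (Fin n) (Fin n) (R a))ˣ | T'.Finite},
          T = f a ⁻¹' T'}) (fun _ _ => Detect.comap (f a) (h a n))) ?_
      rintro T ⟨A, ⟨U, hU, rfl⟩, B, ⟨T', hT', rfl⟩, rfl⟩
      refine ⟨{g | ∀ i ∈ insert a s, f i g ∈ Function.update U a T' i},
        ⟨Function.update U a T', ?_, rfl⟩, ?_⟩
      · intro i
        by_cases hi : i = a
        · subst hi
          rw [Function.update_self]
          exact hT'
        · rw [Function.update_of_ne hi]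
          exact hU i
      · rintro g ⟨h1, h2⟩ i hi
        by_cases hia : i = a
        · subst hia
          rw [Function.update_self]
          exact h2
        · rw [Function.update_of_ne hia]
          exact h1 i ((Finset.mem_insert.1 hi).resolve_left hia)
  have hinj : Function.Injective
      (fun (g : (Matrix (Fin n) (Fin n) (∀ i, R i))ˣ) (i : ι) => f i g) := by
    intro g g' hgg
    apply Units.ext
    ext j k i
    have h1 : f i g = f i g' := congrFun hgg i
    have h2 := congrArg Units.val h1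
    exact congrFun (congrFun h2 j) k
  cases nonempty_fintype ι
  refine Detect.mono (key Finset.univ) ?_
  rintro T ⟨U, hU, rfl⟩
  refine ⟨_, ?_, subset_rfl⟩
  refine (Set.Finite.preimage hinj.injOn (Set.Finite.pi' hU)).subset ?_
  intro g hg i
  exact hg i (Finset.mem_univ i)

theorem Comm_map_injective {S : Type u} [Monoid S] {A B : Type u} [Ring A] [Ring B] (f : A →+* B)
    (hf : Function.Injective f) : Function.Injective (MonoidAlgebra.mapRingHom S f) := by
  intro x y hxy
  apply MonoidAlgebra.ext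
  ext m
  apply hf
  have h1 := congrArg (fun z : MonoidAlgebra B S => z.coeff m) hxy
  simpa only [MonoidAlgebra.coeff_mapRingHom] using h1

theorem Comm_mul_eq_zero {B : Type u} [Ring B] {S : Type u} [Monoid S] (x y : MonoidAlgebra B S)
    (h : ∀ s t, x.coeff s * y.coeff t = 0) : x * y = 0 := by
  rw [MonoidAlgebra.mul_def, Finsupp.sum]
  refine Finset.sum_eq_zero fun s _ => ?_
  rw [Finsupp.sum]
  refine Finset.sum_eq_zero fun t _ => ?_
  rw [h, MonoidAlgebra.single_zero]

theorem Comm_step {S : Type u} [Monoid S]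
    (h : ∀ (K : Type u) [Field K], P.{u, u} (MonoidAlgebra K S)) (A : Type u) [CommRing A]
    (I : Ideal A) (ih : ∀ J : Ideal A, I < J → P.{u, u} (MonoidAlgebra (A ⧸ J) S)) :
    P.{u, u} (MonoidAlgebra (A ⧸ I) S) := by
  by_cases hI : I = ⊤
  · have : Subsingleton (A ⧸ I) := Ideal.Quotient.subsingleton_iff.2 hI
    have : Finite (MonoidAlgebra (A ⧸ I) S) := Finite.of_subsingleton
    exact P.of_finite _
  by_cases hp : I.IsPrime
  · exact P.of_injective (MonoidAlgebra.mapRingHom S (algebraMap (A ⧸ I) (FractionRing (A ⧸ I))))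
      (Comm_map_injective _ (IsFractionRing.injective _ _)) (h (FractionRing (A ⧸ I)))
  rw [Ideal.isPrime_iff] at hp
  push Not at hp
  obtain ⟨a, b, hab, ha, hb⟩ := hp hI
  let J : ULift.{u} Bool → Ideal A := fun i =>
    if i.down then I ⊔ Ideal.span {a} else I ⊔ Ideal.span {b}
  have hle : ∀ i, I ≤ J i := by
    intro i
    show I ≤ if i.down then I ⊔ Ideal.span {a} else I ⊔ Ideal.span {b}
    split_ifs
    · exact le_sup_left
    · exact le_sup_left
  have hlt : ∀ i, I < J i := by
    intro i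
    refine lt_of_le_of_ne (hle i) ?_
    show I ≠ if i.down then I ⊔ Ideal.span {a} else I ⊔ Ideal.span {b}
    split_ifs
    · intro he
      apply ha
      rw [he]
      exact (le_sup_right : Ideal.span {a} ≤ I ⊔ Ideal.span {a}) (Ideal.mem_span_singleton_self a)
    · intro he
      apply hb
      rw [he]
      exact (le_sup_right : Ideal.span {b} ≤ I ⊔ Ideal.span {b}) (Ideal.mem_span_singleton_self b)
  let F : MonoidAlgebra (A ⧸ I) S →+* ∀ i, MonoidAlgebra (A ⧸ J i) S :=
    RingHom.pi fun i => MonoidAlgebra.mapRingHom S (Ideal.Quotient.factor (hle i))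
  have hF : ∀ (x : MonoidAlgebra (A ⧸ I) S), F x = 0 → ∀ (i : ULift.{u} Bool) (s : S),
      ∃ c ∈ J i, Ideal.Quotient.mk I c = x.coeff s := by
    intro x hx i s
    obtain ⟨c, hc⟩ := Ideal.Quotient.mk_surjective (x.coeff s)
    refine ⟨c, ?_, hc⟩
    have h1 : MonoidAlgebra.mapRingHom S (Ideal.Quotient.factor (hle i)) x = 0 := congrFun hx i
    have h2 := congrArg (fun z : MonoidAlgebra (A ⧸ J i) S => z.coeff s) h1
    simp only [MonoidAlgebra.coeff_mapRingHom] at h2
    rw [← hc, Ideal.Quotient.factor_mk] at h2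
    exact Ideal.Quotient.eq_zero_iff_mem.1 h2
  refine P.sqZero F ?_ (P.pi fun i => ih (J i) (hlt i))
  intro x y hx hy
  apply Comm_mul_eq_zero
  intro s t
  obtain ⟨c, hc, hc'⟩ := hF x hx ⟨true⟩ s
  obtain ⟨e, he, he'⟩ := hF y hy ⟨false⟩ t
  rw [← hc', ← he', ← map_mul, Ideal.Quotient.eq_zero_iff_mem]
  have hca : c ∈ I ⊔ Ideal.span {a} := hc
  have heb : e ∈ I ⊔ Ideal.span {b} := he
  obtain ⟨c1, hc1, c2, hc2, rfl⟩ := Submodule.mem_sup.1 hca
  obtain ⟨e1, he1, e2, he2, rfl⟩ := Submodule.mem_sup.1 heb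
  obtain ⟨r, rfl⟩ := Ideal.mem_span_singleton'.1 hc2
  obtain ⟨r', rfl⟩ := Ideal.mem_span_singleton'.1 he2
  have h1 : (c1 + r * a) * (e1 + r' * b) = (e1 + r' * b) * c1 + (r * a) * e1 + (r * r') * (a * b) := by
    ring
  rw [h1]
  exact I.add_mem (I.add_mem (I.mul_mem_left _ hc1) (I.mul_mem_left _ he1)) (I.mul_mem_left _ hab)

theorem Comm_noeth {S : Type u} [Monoid S]
    (h : ∀ (K : Type u) [Field K], P.{u, u} (MonoidAlgebra K S)) (A : Type u) [CommRing A]
    [IsNoetherianRing A] (I : Ideal A) : P.{u, u} (MonoidAlgebra (A ⧸ I) S) := by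
  refine IsNoetherian.induction (R := A) (M := A)
    (P := fun I : Ideal A => P.{u, u} (MonoidAlgebra (A ⧸ I) S)) ?_ I
  intro I ih
  exact Comm_step h A I ih

theorem P_commRing {S : Type u} [Monoid S]
    (h : ∀ (K : Type u) [Field K], P.{u, u} (MonoidAlgebra K S)) (A : Type u) [CommRing A] :
    P.{u, u} (MonoidAlgebra A S) := by
  classical
  apply P.of_finset
  intro C
  let co : Finset A := C.biUnion fun x => x.coeff.support.image x.coeff
  let A₀ : Subalgebra ℤ A := Algebra.adjoin ℤ (co : Set A)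
  have hft : Algebra.FiniteType ℤ A₀ :=
    (Subalgebra.fg_iff_finiteType _).1 (Subalgebra.fg_adjoin_finset co)
  have hno : IsNoetherianRing A₀ := Algebra.FiniteType.isNoetherianRing ℤ A₀
  refine ⟨MonoidAlgebra A₀ S, inferInstance, MonoidAlgebra.mapRingHom S (A₀.val : A₀ →+* A),
    Comm_map_injective _ Subtype.val_injective, ?_, ?_⟩
  · intro x hx
    have hmem : ∀ s, x.coeff s ∈ A₀ := by
      intro s
      by_cases hs : x.coeff s = 0
      · rw [hs]; exact A₀.zero_mem
      · apply Algebra.subset_adjoin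
        rw [Finset.mem_coe, Finset.mem_biUnion]
        exact ⟨x, hx, Finset.mem_image_of_mem _ (Finsupp.mem_support_iff.2 hs)⟩
    refine ⟨∑ s ∈ x.coeff.support, MonoidAlgebra.single s (⟨x.coeff s, hmem s⟩ : A₀), ?_⟩
    rw [map_sum]
    apply MonoidAlgebra.ext
    rw [MonoidAlgebra.coeff_sum]
    conv_rhs => rw [← Finsupp.sum_single x.coeff]
    rw [Finsupp.sum]
    refine Finset.sum_congr rfl fun s _ => ?_
    rw [MonoidAlgebra.mapRingHom_single, MonoidAlgebra.coeff_single]
    rfl
  · refine P.of_injective (MonoidAlgebra.mapRingHom S (Ideal.Quotient.mk (⊥ : Ideal A₀)))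
      (Comm_map_injective _ ?_) (Comm_noeth h A₀ ⊥)
    rw [RingHom.injective_iff_ker_eq_bot, Ideal.mk_ker]

end Pool.Agent.H66.NCL
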