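import Pool.Agent.H66.NCL.Words

/-!
# Module Refl: noncommutative reflection representation of a right-angled Coxeter group

PLAN. `I = Option B`, `T = B × Option B`, `F = MonoidAlgebra K (FreeMonoid T)`,
`x p = MonoidAlgebra.of K _ (FreeMonoid.of p) : F`. For `s : B` let `r s : Matrix I I F` be
`r s a b = if a = some s then (if b = some s then -1 else if b = none ∨ nc then x (s, b) else 0)
else (if a = b then 1 else 0)`, where `nc` means `b = some b'` with `M s b' = 0`.
(So `r s` maps `e_s` to `-e_s` and `e_b` to `e_b + e_s x_(s,b)` or `e_b`.) Then `r s * r s = 1`, and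
`r s * r s' = r s' * r s` if `M s s' = 2` (then `M s' s = 2` too, both corner entries are `0`).
So `r` is liftable (`CoxeterMatrix.IsLiftable`, `CoxeterSystem.lift`; `M s s' = 0` gives no condition,
`M s s' = 1` iff `s = s'`): `ρ : M.Group →* Matrix I I F`.
For the chain `L = [a₁, …, a_m]` take the row `a = some a₁` (`none` if `L = []`), the column
`b = none` and the word `u = (a₁, some a₂) (a₂, some a₃) … (a_m, none)`. Show by induction on `ω`, for
all chains `L`: `(ρ (wordProd ω) a b).coeff u = cf ω L`. For `ω = s :: ω'`:
`ρ (s :: ω') = r s * ρ ω'`; row `a ≠ some s`: the row of `ρ ω'`. Row `some s`: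
`- ρ ω' (some s) none + ∑_{b ≠ some s} x (s,b) * ρ ω' b none`, and the coefficient of `(s, b₁) * u'` in
`x (s,b) * g` is `g.coeff u'` if `b = b₁`, else `0`
(`MonoidAlgebra.single_mul_apply`-like lemmas, or compute with `Finsupp` sums).
-/

namespace Pool.Agent.H66.NCL

universe u

open Classical in
/-- the generator `x p` -/
private noncomputable def rX (K : Type u) [Field K] {T : Type u} (p : T) :
    MonoidAlgebra K (FreeMonoid T) := MonoidAlgebra.single (FreeMonoid.of p) 1

private theorem rX_coeff (K : Type u) [Field K] {T : Type u} (p q : T)
    (g : MonoidAlgebra K (FreeMonoid T)) (u : FreeMonoid T) :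
    (rX K p * g).coeff (FreeMonoid.of q * u) = open Classical in if p = q then g.coeff u else 0 := by
  classical
  unfold rX
  split_ifs with h
  · subst h
    rw [MonoidAlgebra.coeff_single_mul_eq_mul_coeff (m₂ := u), one_mul]
    intro m' _
    exact mul_right_inj _
  · apply MonoidAlgebra.coeff_single_mul_of_forall_mul_ne
    intro d hd
    apply h
    have h1 := congrArg FreeMonoid.toList hd
    rw [FreeMonoid.toList_mul, FreeMonoid.toList_mul, FreeMonoid.toList_of, FreeMonoid.toList_of,
      List.singleton_append, List.singleton_append, List.cons.injEq] at h1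
    exact h1.1

open Classical in
/-- the reflection matrices -/
private noncomputable def rR (K : Type u) [Field K] {B : Type u} (M : CoxeterMatrix B) (s : B) :
    Matrix (Option B) (Option B) (MonoidAlgebra K (FreeMonoid (B × Option B))) :=
  Matrix.of fun a b => if a = some s then (if b = some s then -1
    else if (∀ b', b = some b' → M s b' = 0) then rX K (s, b) else 0)
    else if a = b then 1 else 0

private theorem rR_ne (K : Type u) [Field K] {B : Type u} (M : CoxeterMatrix B) {s : B}
    {a : Option B} (ha : a ≠ some s) (b : Option B) :
    rR K M s a b = open Classical in if a = b then 1 else 0 := by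
  rw [rR, Matrix.of_apply, if_neg ha]

private theorem rR_ss (K : Type u) [Field K] {B : Type u} (M : CoxeterMatrix B) (s : B) :
    rR K M s (some s) (some s) = -1 := by
  rw [rR, Matrix.of_apply, if_pos rfl, if_pos rfl]

private theorem rR_sx (K : Type u) [Field K] {B : Type u} (M : CoxeterMatrix B) {s : B}
    {b : Option B} (hb : b ≠ some s) (h : ∀ b', b = some b' → M s b' = 0) :
    rR K M s (some s) b = rX K (s, b) := by
  rw [rR, Matrix.of_apply, if_pos rfl, if_neg hb, if_pos h]

private theorem rR_s0 (K : Type u) [Field K] {B : Type u} (M : CoxeterMatrix B) {s : B}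
    {b : Option B} (hb : b ≠ some s) (h : ¬ ∀ b', b = some b' → M s b' = 0) :
    rR K M s (some s) b = 0 := by
  rw [rR, Matrix.of_apply, if_pos rfl, if_neg hb, if_neg h]

private theorem rR_row_ne (K : Type u) [Field K] {B : Type u} [Fintype (Option B)]
    (M : CoxeterMatrix B)
    (s : B) (Z : Matrix (Option B) (Option B) (MonoidAlgebra K (FreeMonoid (B × Option B))))
    {a : Option B} (ha : a ≠ some s) (b : Option B) : (rR K M s * Z) a b = Z a b := by
  classical
  rw [Matrix.mul_apply, Finset.sum_eq_single a]
  · rw [rR_ne K M ha, if_pos rfl, one_mul]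
  · intro c _ hc
    rw [rR_ne K M ha, if_neg (Ne.symm hc), zero_mul]
  · intro h
    exact absurd (Finset.mem_univ _) h

private theorem rR_row_self (K : Type u) [Field K] {B : Type u} [Fintype (Option B)]
    (M : CoxeterMatrix B)
    (s : B) (Z : Matrix (Option B) (Option B) (MonoidAlgebra K (FreeMonoid (B × Option B))))
    (b : Option B) : (rR K M s * Z) (some s) b = - Z (some s) b +
      ∑ c, (open Classical in if c = some s then 0 else rR K M s (some s) c * Z c b) := by
  classical
  rw [Matrix.mul_apply]
  have h1 : ∀ c, rR K M s (some s) c * Z c b = (if c = some s then - Z (some s) b else 0) +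
      (if c = some s then 0 else rR K M s (some s) c * Z c b) := by
    intro c
    split_ifs with h
    · rw [h, rR_ss, neg_one_mul, add_zero]
    · rw [zero_add]
  rw [Finset.sum_congr rfl fun c _ => h1 c, Finset.sum_add_distrib, Finset.sum_ite_eq',
    if_pos (Finset.mem_univ _)]

private theorem rR_mul_self (K : Type u) [Field K] {B : Type u} [Fintype (Option B)]
    [DecidableEq (Option B)]
    (M : CoxeterMatrix B) (s : B) : rR K M s * rR K M s = 1 := by
  refine Matrix.ext fun a b => ?_
  by_cases ha : a = some s
  · subst ha
    rw [rR_row_self]
    by_cases hb : b = some s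
    · subst hb
      rw [rR_ss, neg_neg, Finset.sum_eq_zero, add_zero, Matrix.one_apply_eq]
      intro c _
      split_ifs with hc
      · rfl
      · rw [rR_ne K M hc, if_neg hc, mul_zero]
    · rw [Finset.sum_eq_single b, if_neg hb, rR_ne K M hb, if_pos rfl, mul_one, neg_add_cancel,
        Matrix.one_apply_ne (Ne.symm hb)]
      · intro c _ hc
        split_ifs with hc'
        · rfl
        · rw [rR_ne K M hc', if_neg hc, mul_zero]
      · intro h
        exact absurd (Finset.mem_univ _) h
  · rw [rR_row_ne K M s _ ha, rR_ne K M ha, Matrix.one_apply]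
    split_ifs <;> rfl

private theorem rR_mul_comm (K : Type u) [Field K] {B : Type u} [Fintype (Option B)]
    (M : CoxeterMatrix B) {s s' : B} (h : M s s' = 2) :
    rR K M s * rR K M s' = rR K M s' * rR K M s := by
  have h' : M s' s = 2 := by rw [M.symmetric]; exact h
  have hne : s ≠ s' := by
    rintro rfl
    rw [M.diagonal] at h
    omega
  -- rows of `r s * r s'`
  have key : ∀ {s s' : B}, M s s' = 2 → s ≠ s' → ∀ b, (rR K M s * rR K M s') (some s) b =
      rR K M s (some s) b := by
    intro s s' h hne b
    have h0 : rR K M s (some s) (some s') = 0 := by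
      refine rR_s0 K M (fun h => hne (Option.some.inj h).symm) ?_
      intro h3
      have := h3 s' rfl
      omega
    rw [Matrix.mul_apply]
    by_cases hb : b = some s'
    · subst hb
      rw [Finset.sum_eq_zero, h0]
      intro c _
      by_cases hc : c = some s'
      · subst hc
        rw [h0, zero_mul]
      · rw [rR_ne K M hc, if_neg hc, mul_zero]
    · rw [Finset.sum_eq_single b]
      · rw [rR_ne K M hb, if_pos rfl, mul_one]
      · intro c _ hcb
        by_cases hc : c = some s'
        · subst hc
          rw [h0, zero_mul]
        · rw [rR_ne K M hc, if_neg hcb, mul_zero]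
      · intro h
        exact absurd (Finset.mem_univ _) h
  refine Matrix.ext fun a b => ?_
  by_cases ha : a = some s
  · subst ha
    rw [key h hne, rR_row_ne K M s' _ (fun h => hne (Option.some.inj h))]
  · rw [rR_row_ne K M s _ ha]
    by_cases ha' : a = some s'
    · subst ha'
      rw [key h' hne.symm]
    · rw [rR_row_ne K M s' _ ha', rR_ne K M ha', rR_ne K M ha]

private theorem rR_liftable (K : Type u) [Field K] {B : Type u} [Fintype (Option B)]
    [DecidableEq (Option B)] (M : CoxeterMatrix B)
    (hM : ∀ i j, M i j = 0 ∨ M i j = 1 ∨ M i j = 2) : M.IsLiftable (rR K M) := by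
  intro i j
  rcases hM i j with h | h | h
  · rw [h, pow_zero]
  · have hij : i = j := by
      by_contra hne
      exact M.off_diagonal i j hne h
    subst hij
    rw [h, pow_one, rR_mul_self]
  · have hc := rR_mul_comm K M h
    rw [h, pow_two]
    calc rR K M i * rR K M j * (rR K M i * rR K M j)
        = rR K M i * rR K M j * (rR K M j * rR K M i) := by rw [hc]
      _ = rR K M i * (rR K M j * rR K M j) * rR K M i := by simp only [Matrix.mul_assoc]
      _ = 1 := by rw [rR_mul_self, Matrix.mul_one, rR_mul_self]

/-- the row belonging to a chain -/
private def rRow {B : Type u} : List B → Option B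
  | [] => none
  | a :: _ => some a

/-- the word belonging to a chain -/
private def rWord {B : Type u} : List B → FreeMonoid (B × Option B)
  | [] => 1
  | a :: L => FreeMonoid.of (a, rRow L) * rWord L

private theorem rR_coeff (K : Type u) [Field K] {B : Type u} [Fintype (Option B)]
    [DecidableEq (Option B)] (M : CoxeterMatrix B) (ω : List B) :
    ∀ L : List B, L.IsChain (fun i j => M i j = 0) →
      (((ω.map (rR K M)).prod) (rRow L) none).coeff (rWord L) = ((cf ω L : ℤ) : K) := by
  classical
  induction ω with
  | nil =>
    intro L _
    rw [List.map_nil, List.prod_nil]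
    cases L with
    | nil =>
      have h1 : (1 : Matrix (Option B) (Option B) (MonoidAlgebra K (FreeMonoid (B × Option B))))
          (rRow ([] : List B)) none = 1 := Matrix.one_apply_eq _
      have h2 : (rWord ([] : List B)) = (1 : FreeMonoid (B × Option B)) := rfl
      rw [h1, h2, MonoidAlgebra.one_def, MonoidAlgebra.coeff_single,
        Finsupp.single_eq_same]
      simp [cf]
    | cons a L =>
      have h1 : (1 : Matrix (Option B) (Option B) (MonoidAlgebra K (FreeMonoid (B × Option B))))
          (rRow (a :: L)) none = 0 := Matrix.one_apply_ne (by simp [rRow])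
      rw [h1]
      simp [cf]
  | cons s ω ih =>
    intro L hL
    rw [List.map_cons, List.prod_cons]
    cases L with
    | nil =>
      have h1 := ih [] hL
      rw [rR_row_ne K M s _ (by simp [rRow])]
      rw [h1]
      cases ω <;> simp [cf]
    | cons a L =>
      by_cases ha : a = s
      · subst ha
        have hcf : cf (a :: ω) (a :: L) = - cf ω (a :: L) + cf ω L := by
          rw [cf, if_pos rfl]
        have h1 := ih (a :: L) hL
        have h2 := ih L hL.tail
        have hrow : rRow (a :: L) = some a := rfl
        rw [hrow] at h1 ⊢
        rw [rR_row_self, hcf]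
        have hadd : ∀ (x y : MonoidAlgebra K (FreeMonoid (B × Option B))) (w), (x + y).coeff w =
            x.coeff w + y.coeff w := fun x y w => by
          rw [MonoidAlgebra.coeff_add, Finsupp.add_apply]
        have hneg : ∀ (x : MonoidAlgebra K (FreeMonoid (B × Option B))) (w), (-x).coeff w =
            - x.coeff w := fun x w => by
          rw [MonoidAlgebra.coeff_neg, Finsupp.neg_apply]
        rw [hadd, hneg, h1]
        push_cast
        congr 1
        rw [MonoidAlgebra.coeff_sum, Finsupp.finsetSum_apply, ← h2]
        have hL1 : rRow L ≠ some a := by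
          intro h
          cases L with
          | nil => simp [rRow] at h
          | cons c L =>
            have h3 : c = a := Option.some.inj h
            subst h3
            have h4 : M c c = 0 := (List.isChain_cons_cons.1 hL).1
            rw [M.diagonal] at h4
            omega
        have hcorner : ∀ b' : B, rRow L = some b' → M a b' = 0 := by
          intro b' hb'
          cases L with
          | nil => simp [rRow] at hb'
          | cons c L =>
            have h3 : c = b' := Option.some.inj hb'
            subst h3
            exact (List.isChain_cons_cons.1 hL).1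
        rw [Finset.sum_eq_single (rRow L)]
        · rw [if_neg hL1, rR_sx K M hL1 hcorner]
          have h3 : rWord (a :: L) = FreeMonoid.of (a, rRow L) * rWord L := rfl
          rw [h3, rX_coeff, if_pos rfl]
        · intro c hc hne
          split_ifs with hc'
          · simp
          · by_cases hcc : ∀ b', c = some b' → M a b' = 0
            · rw [rR_sx K M hc' hcc]
              have h3 : rWord (a :: L) = FreeMonoid.of (a, rRow L) * rWord L := rfl
              rw [h3, rX_coeff, if_neg]
              intro h
              exact hne (Prod.ext_iff.1 h).2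
            · rw [rR_s0 K M hc' hcc, zero_mul]
              simp
        · intro h
          exact absurd (Finset.mem_univ _) h
      · have h1 := ih (a :: L) hL
        rw [rR_row_ne K M s _ (by
          show some a ≠ some s
          exact fun h => ha (Option.some.inj h)), h1, cf, if_neg ha]

theorem exists_refl (K : Type u) [Field K] (B : Type u) [Finite B] (M : CoxeterMatrix B)
    (hM : ∀ i j, M i j = 0 ∨ M i j = 1 ∨ M i j = 2) :
    ∃ (T I : Type u) (_ : Finite T) (_ : Fintype I) (_ : DecidableEq I)
      (ρ : M.Group →* Matrix I I (MonoidAlgebra K (FreeMonoid T))),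
      ∀ L : List B, L.IsChain (fun i j => M i j = 0) →
        ∃ (a b : I) (u : FreeMonoid T), ∀ ω : List B,
          (ρ (M.toCoxeterSystem.wordProd ω) a b).coeff u = ((cf ω L : ℤ) : K) := by
  classical
  have hI : Fintype (Option B) := Fintype.ofFinite _
  refine ⟨B × Option B, Option B, inferInstance, hI, inferInstance,
    M.toCoxeterSystem.lift ⟨rR K M, rR_liftable K M hM⟩, ?_⟩
  intro L hL
  refine ⟨rRow L, none, rWord L, ?_⟩
  intro ω
  rw [← rR_coeff K M ω L hL]
  have h1 : M.toCoxeterSystem.lift ⟨rR K M, rR_liftable K M hM⟩
      (M.toCoxeterSystem.wordProd ω) = (ω.map (rR K M)).prod := by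
    rw [CoxeterSystem.wordProd, map_list_prod, List.map_map]
    congr 1
    apply List.map_congr_left
    intro s _
    exact M.toCoxeterSystem.lift_apply_simple (rR_liftable K M hM) s
  rw [h1]

end Pool.Agent.H66.NCL
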