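import Mathlib

/-!
# Module TensorPow: tensor powers of a representation over a free monoid algebra

PLAN. Induction on `k`. `k = 0`: `J = PUnit`, `ρ' g = 1` ; `Fin 0 → FreeMonoid T` is the trivial monoid,
the coefficient of `1` at the unique `u` is `1` = the empty product.
`k + 1`: `J' = I × J`; let `α : MonoidAlgebra K (FreeMonoid T) →+* MonoidAlgebra K (Fin (k+1) → FreeMonoid T)`
be induced by `w ↦ Fin.cons w 1` and `β` by `v ↦ Fin.cons 1 v` (`MonoidAlgebra.mapDomainRingHom` or
`mapDomainAlgHom`); their images commute (check on `single`s, or on `of`s with induction).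
`ρ' g = (fun (i,j) (i',j') => α (ρ g i i') * β (ρ_k g j j'))`; multiplicativity as in
`Matrix.kroneckerMapBilinear_mul_mul` (bilinear map `f x y = α x * β y`), `ρ' 1 = 1`. The coefficient of
`α x * β y` at `u` is `x.coeff (u 0) * y.coeff (Fin.tail u)` (bilinear in `x`, `y`; on `single`s
clear), and `Fin.prod_univ_succ`.
-/

namespace Pool.Agent.H66.NCL

universe u

/-- first factor -/
private noncomputable def tpA (K : Type u) [Field K] (T : Type u) (k : ℕ) :
    MonoidAlgebra K (FreeMonoid T) →+* MonoidAlgebra K (Fin (k + 1) → FreeMonoid T) :=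
  MonoidAlgebra.mapDomainRingHom K
    { toFun := fun w => (Fin.cons w 1 : Fin (k + 1) → FreeMonoid T)
      map_one' := by
        funext i
        refine Fin.cases ?_ (fun j => ?_) i <;> simp
      map_mul' := fun a b => by
        funext i
        refine Fin.cases ?_ (fun j => ?_) i <;> simp }

/-- last factors -/
private noncomputable def tpB (K : Type u) [Field K] (T : Type u) (k : ℕ) :
    MonoidAlgebra K (Fin k → FreeMonoid T) →+* MonoidAlgebra K (Fin (k + 1) → FreeMonoid T) :=
  MonoidAlgebra.mapDomainRingHom K
    { toFun := fun v => (Fin.cons 1 v : Fin (k + 1) → FreeMonoid T)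
      map_one' := by
        funext i
        refine Fin.cases ?_ (fun j => ?_) i <;> simp
      map_mul' := fun a b => by
        funext i
        refine Fin.cases ?_ (fun j => ?_) i <;> simp }

private theorem tpA_single (K : Type u) [Field K] (T : Type u) (k : ℕ) (w : FreeMonoid T) (r : K) :
    tpA K T k (MonoidAlgebra.single w r) =
      MonoidAlgebra.single (Fin.cons w 1 : Fin (k + 1) → FreeMonoid T) r := by
  unfold tpA
  rw [MonoidAlgebra.mapDomainRingHom_apply, MonoidAlgebra.mapDomain_single]
  rfl

private theorem tpB_single (K : Type u) [Field K] (T : Type u) (k : ℕ)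
    (v : Fin k → FreeMonoid T) (r : K) :
    tpB K T k (MonoidAlgebra.single v r) =
      MonoidAlgebra.single (Fin.cons 1 v : Fin (k + 1) → FreeMonoid T) r := by
  unfold tpB
  rw [MonoidAlgebra.mapDomainRingHom_apply, MonoidAlgebra.mapDomain_single]
  rfl

private theorem cons_mul {T : Type u} {k : ℕ} (w : FreeMonoid T) (v : Fin k → FreeMonoid T) :
    (Fin.cons w 1 : Fin (k + 1) → FreeMonoid T) * Fin.cons 1 v = Fin.cons w v := by
  funext i
  refine Fin.cases ?_ (fun j => ?_) i <;> simp

private theorem cons_mul' {T : Type u} {k : ℕ} (w : FreeMonoid T) (v : Fin k → FreeMonoid T) :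
    (Fin.cons 1 v : Fin (k + 1) → FreeMonoid T) * Fin.cons w 1 = Fin.cons w v := by
  funext i
  refine Fin.cases ?_ (fun j => ?_) i <;> simp

private theorem tp_comm (K : Type u) [Field K] (T : Type u) (k : ℕ)
    (x : MonoidAlgebra K (FreeMonoid T)) (y : MonoidAlgebra K (Fin k → FreeMonoid T)) :
    tpA K T k x * tpB K T k y = tpB K T k y * tpA K T k x := by
  induction x using MonoidAlgebra.induction_linear with
  | zero => simp
  | add a b ha hb => rw [map_add, add_mul, mul_add, ha, hb]
  | single w r =>
    induction y using MonoidAlgebra.induction_linear with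
    | zero => simp
    | add a b ha hb => rw [map_add, add_mul, mul_add, ha, hb]
    | single v s =>
      rw [tpA_single, tpB_single, MonoidAlgebra.single_mul_single,
        MonoidAlgebra.single_mul_single, cons_mul, cons_mul', mul_comm r s]

private theorem tp_coeff (K : Type u) [Field K] (T : Type u) (k : ℕ)
    (x : MonoidAlgebra K (FreeMonoid T)) (y : MonoidAlgebra K (Fin k → FreeMonoid T))
    (u : Fin (k + 1) → FreeMonoid T) :
    (tpA K T k x * tpB K T k y).coeff u = x.coeff (u 0) * y.coeff (Fin.tail u) := by
  induction x using MonoidAlgebra.induction_linear with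
  | zero => simp
  | add a b ha hb =>
    rw [map_add, add_mul, MonoidAlgebra.coeff_add, Finsupp.add_apply, ha, hb,
      MonoidAlgebra.coeff_add, Finsupp.add_apply, add_mul]
  | single w r =>
    induction y using MonoidAlgebra.induction_linear with
    | zero => simp
    | add a b ha hb =>
      rw [map_add, mul_add, MonoidAlgebra.coeff_add, Finsupp.add_apply, ha, hb,
        MonoidAlgebra.coeff_add, Finsupp.add_apply, mul_add]
    | single v s =>
      classical
      rw [tpA_single, tpB_single, MonoidAlgebra.single_mul_single, cons_mul,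
        MonoidAlgebra.coeff_single, MonoidAlgebra.coeff_single, MonoidAlgebra.coeff_single,
        Finsupp.single_apply, Finsupp.single_apply, Finsupp.single_apply]
      by_cases h1 : w = u 0
      · by_cases h2 : v = Fin.tail u
        · rw [if_pos h1, if_pos h2, if_pos]
          rw [h1, h2]
          exact Fin.cons_self_tail u
        · rw [if_neg h2, mul_zero, if_neg]
          intro h
          apply h2
          rw [← h]
          funext j
          rfl
      · rw [if_neg h1, zero_mul, if_neg]
        intro h
        apply h1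
        rw [← h]
        rfl

/-- the Kronecker product of the representations -/
private noncomputable def tpRho (K : Type u) [Field K] (T : Type u) (k : ℕ) (Γ : Type u) [Monoid Γ]
    (I J : Type u) [Fintype I] [DecidableEq I] [Fintype J] [DecidableEq J]
    (ρ : Γ →* Matrix I I (MonoidAlgebra K (FreeMonoid T)))
    (ρ' : Γ →* Matrix J J (MonoidAlgebra K (Fin k → FreeMonoid T))) :
    Γ →* Matrix (I × J) (I × J) (MonoidAlgebra K (Fin (k + 1) → FreeMonoid T)) where
  toFun g := Matrix.of fun a b => tpA K T k (ρ g a.1 b.1) * tpB K T k (ρ' g a.2 b.2)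
  map_one' := by
    ext1 a b
    rw [Matrix.of_apply, map_one, map_one, Matrix.one_apply, Matrix.one_apply, Matrix.one_apply]
    by_cases h1 : a.1 = b.1
    · by_cases h2 : a.2 = b.2
      · rw [if_pos h1, if_pos h2, if_pos (Prod.ext h1 h2), map_one, map_one, one_mul]
      · rw [if_neg h2, map_zero, mul_zero, if_neg (fun h => h2 (congrArg Prod.snd h))]
    · rw [if_neg h1, map_zero, zero_mul, if_neg (fun h => h1 (congrArg Prod.fst h))]
  map_mul' g h := by
    ext1 a b
    rw [Matrix.of_apply, map_mul, map_mul, Matrix.mul_apply, Matrix.mul_apply, Matrix.mul_apply,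
      map_sum, map_sum, Finset.sum_mul_sum, ← Finset.univ_product_univ, Finset.sum_product]
    refine Finset.sum_congr rfl fun i _ => Finset.sum_congr rfl fun j _ => ?_
    rw [Matrix.of_apply, Matrix.of_apply, map_mul, map_mul]
    have := tp_comm K T k (ρ h i b.1) (ρ' g a.2 j)
    calc tpA K T k (ρ g a.1 i) * tpA K T k (ρ h i b.1) *
          (tpB K T k (ρ' g a.2 j) * tpB K T k (ρ' h j b.2))
        = tpA K T k (ρ g a.1 i) * (tpA K T k (ρ h i b.1) * tpB K T k (ρ' g a.2 j)) *
          tpB K T k (ρ' h j b.2) := by simp only [mul_assoc]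
      _ = _ := by
        rw [this]
        simp only [mul_assoc]

theorem exists_tensorPow (K : Type u) [Field K] (T : Type u) (Γ : Type u) [Monoid Γ] (I : Type u)
    [Fintype I] [DecidableEq I] (ρ : Γ →* Matrix I I (MonoidAlgebra K (FreeMonoid T))) (k : ℕ) :
    ∃ (J : Type u) (_ : Fintype J) (_ : DecidableEq J)
      (ρ' : Γ →* Matrix J J (MonoidAlgebra K (Fin k → FreeMonoid T))),
      ∀ (a b : Fin k → I) (u : Fin k → FreeMonoid T), ∃ a' b' : J, ∀ g : Γ,
        (ρ' g a' b').coeff u = ∏ i, (ρ g (a i) (b i)).coeff (u i) := by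
  induction k with
  | zero =>
    refine ⟨PUnit, inferInstance, inferInstance, 1, fun a b u => ⟨PUnit.unit, PUnit.unit, fun g => ?_⟩⟩
    have hu : u = 1 := Subsingleton.elim _ _
    rw [MonoidHom.one_apply, Matrix.one_apply_eq, MonoidAlgebra.one_def, MonoidAlgebra.coeff_single,
      hu, Finsupp.single_eq_same, Finset.univ_eq_empty, Finset.prod_empty]
  | succ k ih =>
    obtain ⟨J, hJ1, hJ2, ρ', h⟩ := ih
    refine ⟨I × J, inferInstance, inferInstance, tpRho K T k Γ I J ρ ρ', fun a b u => ?_⟩
    obtain ⟨a', b', h'⟩ := h (Fin.tail a) (Fin.tail b) (Fin.tail u)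
    refine ⟨(a 0, a'), (b 0, b'), fun g => ?_⟩
    have e1 : tpRho K T k Γ I J ρ ρ' g (a 0, a') (b 0, b') =
        tpA K T k (ρ g (a 0) (b 0)) * tpB K T k (ρ' g a' b') := rfl
    rw [e1, tp_coeff, h', Fin.prod_univ_succ]
    rfl

end Pool.Agent.H66.NCL
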