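import Pool.Agent.H66.NCL.PBasic
import Pool.Agent.H66.NCL.Refl
import Pool.Agent.H66.NCL.TensorPow

/-!
# Module Cox: `P` for group algebras of right-angled Coxeter groups

PLAN. `nc i j := M i j = 0` (symmetric: `M.isSymm`/`M.symmetric`, irreflexive: diagonal is `1`).
* `red_of_isReduced`: a reduced word `ω` of the Coxeter group satisfies `Red nc ω`: otherwise
  `ω = l₁ ++ s :: (l₂ ++ s :: l₃)` with all `c ∈ l₂` commuting with `s` (`M s c = 1` iff `c = s`;
  `M s c = 2` gives `(s c)^2 = 1`, so `s c = c s`), so `π ω = π (l₁ ++ l₂ ++ l₃)` is a product of fewer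
  letters: contradiction with `length_wordProd_le`.
* Let `T`, `I`, `ρ` be as in `exists_refl`, `k = card (B × B)` (`Finite.equivFin`), `J`, `ρ'` as in
  `exists_tensorPow`, `Ψ : MonoidAlgebra K M.Group →+* Matrix J J R_k` induced by `ρ'`
  (`MonoidAlgebra.lift K _ _ ρ'`, the matrix ring is a `K`-algebra). Injective: let `f ≠ 0`, choose
  `w` in the support of `f` with `ℓ w` maximal, `ω` a reduced word of `w`. For a pair `(s, r)` with
  `nc s r ∨ s = r` let `L_(s,r)` be as in `exists_chain`, for the other pairs `L = []`. `exists_refl`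
  gives `a, b : Fin k → I`, `u`, and `exists_tensorPow` gives `a'`, `b'` with: for every word `ω'`, the
  coefficient of `u` in `ρ' (π ω') a' b'` is `∏ cf ω' L_(s,r)` (in `K`). For `w' ≠ w` in the support
  with reduced word `ω'` (`length ≤`) it is `0`: otherwise all `L_(s,r) <+ ω'` (`cf_eq_zero`) and
  `prod_eq` (`G = M.Group`, `φ = simple`) gives `w = w'`. For `w` it is `± 1` (`cf_eq_one`;
  `cf ω [] = 1`). So the coefficient of `u` in `Ψ f a' b'` is `± f.coeff w ≠ 0`.
* `P.of_injective Ψ (P.matrix (h T k) J)`.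
-/

namespace Pool.Agent.H66.NCL

universe u

open CoxeterSystem in
private lemma mtCox_comm {B : Type u} (M : CoxeterMatrix B)
    (hM : ∀ i j, M i j = 0 ∨ M i j = 1 ∨ M i j = 2) (s r : B) (h : ¬ M s r = 0) :
    M.toCoxeterSystem.simple s * M.toCoxeterSystem.simple r =
      M.toCoxeterSystem.simple r * M.toCoxeterSystem.simple s := by
  rcases hM s r with h0 | h1 | h2
  · exact absurd h0 h
  · have hsr : s = r := by
      by_contra hne
      exact M.off_diagonal s r hne h1
    rw [hsr]
  · have h3 := M.toCoxeterSystem.simple_mul_simple_pow s r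
    rw [h2, pow_two] at h3
    have h4 := eq_inv_of_mul_eq_one_left h3
    rw [mul_inv_rev, CoxeterSystem.inv_simple, CoxeterSystem.inv_simple] at h4
    exact h4

private lemma mtCox_comm_word {B : Type u} (M : CoxeterMatrix B)
    (hM : ∀ i j, M i j = 0 ∨ M i j = 1 ∨ M i j = 2) (s : B) (l : List B)
    (h : ∀ c ∈ l, ¬ M s c = 0) :
    M.toCoxeterSystem.simple s * M.toCoxeterSystem.wordProd l =
      M.toCoxeterSystem.wordProd l * M.toCoxeterSystem.simple s := by
  induction l with
  | nil => rw [CoxeterSystem.wordProd_nil, mul_one, one_mul]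
  | cons c l ih =>
    rw [CoxeterSystem.wordProd_cons, ← mul_assoc, mtCox_comm M hM s c (h c List.mem_cons_self),
      mul_assoc, ih (fun c' hc' => h c' (List.mem_cons_of_mem _ hc')), mul_assoc]

private lemma mtCox_red {B : Type u} (M : CoxeterMatrix B)
    (hM : ∀ i j, M i j = 0 ∨ M i j = 1 ∨ M i j = 2) (ω : List B)
    (h : M.toCoxeterSystem.IsReduced ω) : Red (fun i j => M i j = 0) ω := by
  intro l₁ l₂ l₃ s hω
  by_contra hc
  have hc' : ∀ c ∈ l₂, ¬ M s c = 0 := fun c hcl h0 => hc ⟨c, hcl, h0⟩
  have hcomm := mtCox_comm_word M hM s l₂ hc'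
  have key : M.toCoxeterSystem.wordProd ω = M.toCoxeterSystem.wordProd (l₁ ++ (l₂ ++ l₃)) := by
    rw [hω, CoxeterSystem.wordProd_append, CoxeterSystem.wordProd_cons,
      CoxeterSystem.wordProd_append, CoxeterSystem.wordProd_cons, CoxeterSystem.wordProd_append,
      CoxeterSystem.wordProd_append]
    congr 1
    rw [← mul_assoc, hcomm, mul_assoc, CoxeterSystem.simple_mul_simple_cancel_left]
  have hlen := M.toCoxeterSystem.length_wordProd_le (l₁ ++ (l₂ ++ l₃))
  rw [← key, h.eq, hω] at hlen
  simp only [List.length_append, List.length_cons] at hlen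
  omega

theorem P_coxeter {K : Type u} [Field K]
    (h : ∀ (T : Type u) [Finite T] (k : ℕ), P.{u, u} (MonoidAlgebra K (Fin k → FreeMonoid T)))
    (B : Type u) [Finite B] (M : CoxeterMatrix B)
    (hM : ∀ i j, M i j = 0 ∨ M i j = 1 ∨ M i j = 2) :
    P.{u, u} (MonoidAlgebra K M.Group) := by
  classical
  obtain ⟨T, I, hT, hI, hdI, ρ, hρ⟩ := exists_refl K B M hM
  obtain ⟨k, ⟨e⟩⟩ := Finite.exists_equiv_fin (B × B)
  obtain ⟨J, hJ, hdJ, ρ', hρ'⟩ := exists_tensorPow K T M.Group I ρ k
  have hsymm : ∀ s r : B, M s r = 0 → M r s = 0 := fun s r h0 => by rw [M.symmetric r s, h0]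
  have hirr : ∀ s : B, ¬ M s s = 0 := fun s h0 => by
    have := M.diagonal s
    omega
  let cs := M.toCoxeterSystem
  let Ψ : MonoidAlgebra K M.Group →ₐ[K]
      Matrix J J (MonoidAlgebra K (Fin k → FreeMonoid T)) := MonoidAlgebra.lift K _ _ ρ'
  have hinj : Function.Injective Ψ.toRingHom := by
    rw [injective_iff_map_eq_zero]
    intro f hf
    by_contra hne
    have hsupp : f.coeff.support.Nonempty := by
      rw [Finsupp.support_nonempty_iff]
      intro h0
      exact hne (MonoidAlgebra.coeff_eq_zero.mp h0)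
    obtain ⟨w, hw, hmax⟩ := Finset.exists_max_image f.coeff.support cs.length hsupp
    obtain ⟨ω, hω, hwω⟩ := cs.exists_isReduced w
    have hred := mtCox_red M hM ω hω
    have hL : ∀ p : B × B, ∃ L : List B, L.IsChain (fun i j => M i j = 0) ∧
        (cf ω L = 1 ∨ cf ω L = -1) ∧ ((M p.1 p.2 = 0 ∨ p.1 = p.2) →
          L.Sublist ω ∧ L.count p.1 = ω.count p.1 ∧ L.count p.2 = ω.count p.2) := by
      intro p
      by_cases hp : M p.1 p.2 = 0 ∨ p.1 = p.2
      · obtain ⟨L, h1, h2, h3, h4, h5⟩ := exists_chain (fun i j => M i j = 0) hsymm hirr ω hred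
          p.1 p.2 hp
        exact ⟨L, h2, cf_eq_one ω L h5, fun _ => ⟨h1, h3, h4⟩⟩
      · refine ⟨[], List.isChain_nil, Or.inl ?_, fun hh => absurd hh hp⟩
        cases ω <;> simp [cf]
    choose L hL1 hL2 hL3 using hL
    choose a b u hu using fun p => hρ (L p) (hL1 p)
    obtain ⟨a', b', hab⟩ := hρ' (fun i => a (e.symm i)) (fun i => b (e.symm i))
      (fun i => u (e.symm i))
    let φ : Matrix J J (MonoidAlgebra K (Fin k → FreeMonoid T)) →ₗ[K] K :=
      { toFun := fun m => (m a' b').coeff (fun i => u (e.symm i))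
        map_add' := fun m m' => by simp [Matrix.add_apply]
        map_smul' := fun c m => by simp [Matrix.smul_apply] }
    have hφ : ∀ ω' : List B, φ (ρ' (cs.wordProd ω')) =
        ∏ i, ((cf ω' (L (e.symm i)) : ℤ) : K) := by
      intro ω'
      have := hab (cs.wordProd ω')
      refine this.trans (Finset.prod_congr rfl fun i _ => ?_)
      exact hu (e.symm i) ω'
    have hzero : ∀ w' ∈ f.coeff.support, w' ≠ w → φ (ρ' w') = 0 := by
      intro w' hw' hne'
      obtain ⟨ω', hω', hwω'⟩ := cs.exists_isReduced w'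
      rw [hwω', hφ]
      by_contra hprod
      apply hne'
      have hall : ∀ p : B × B, (L p).Sublist ω' := by
        intro p
        by_contra hns
        apply hprod
        apply Finset.prod_eq_zero (Finset.mem_univ (e p))
        rw [e.symm_apply_apply, cf_eq_zero ω' (L p) hns, Int.cast_zero]
      have hlen : ω'.length ≤ ω.length := by
        have h1 := hmax w' hw'
        rw [hwω', hwω] at h1
        have h2 : cs.length (cs.wordProd ω') = ω'.length := hω'
        have h3 : cs.length (cs.wordProd ω) = ω.length := hω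
        omega
      have := prod_eq (fun i j => M i j = 0) hsymm cs.simple (mtCox_comm M hM) ω ω' hlen
        (fun s r hsr => ⟨L (s, r), (hL3 (s, r) hsr).1, hall (s, r), (hL3 (s, r) hsr).2.1,
          (hL3 (s, r) hsr).2.2⟩)
      rw [hwω', hwω]
      exact this.symm
    have hone : φ (ρ' w) ≠ 0 := by
      rw [hwω, hφ, Finset.prod_ne_zero_iff]
      intro i _
      rcases hL2 (e.symm i) with h1 | h1
      · rw [h1, Int.cast_one]
        exact one_ne_zero
      · rw [h1, Int.cast_neg, Int.cast_one]
        exact neg_ne_zero.mpr one_ne_zero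
    have hΨ : φ (Ψ f) = f.coeff w * φ (ρ' w) := by
      rw [show Ψ f = f.coeff.sum fun g c => c • ρ' g from MonoidAlgebra.lift_apply ρ' f]
      rw [Finsupp.sum, map_sum, Finset.sum_eq_single w]
      · rw [map_smul, smul_eq_mul]
      · intro w' hw' hne'
        rw [map_smul, hzero w' hw' hne', smul_zero]
      · intro hh
        exact absurd hw hh
    have hf' : Ψ f = 0 := hf
    rw [hf', map_zero] at hΨ
    have := mul_ne_zero (Finsupp.mem_support_iff.mp hw) hone
    exact this hΨ.symm
  exact P.of_injective Ψ.toRingHom hinj (P.matrix (h T k) J)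

end Pool.Agent.H66.NCL
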