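import Pool.Agent.H66.NCL.PBasic

/-!
# Module FinIndex: passing to a group containing a finite index subgroup
-/

namespace Pool.Agent.H66.NCL

universe u

section
variable (K : Type u) [Field K] {Γ : Type u} [Group Γ] (H : Subgroup Γ)

open Classical in
/-- the matrix of left translation by `g` on the free right module `K[Γ]` over `K[H]` -/
noncomputable def indMat (g : Γ) : Matrix (Γ ⧸ H) (Γ ⧸ H) (MonoidAlgebra K H) := fun i j =>
  if h : (i.out)⁻¹ * g * j.out ∈ H then MonoidAlgebra.single ⟨_, h⟩ 1 else 0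

theorem indMat_mem_iff (g : Γ) (i j : Γ ⧸ H) :
    (i.out)⁻¹ * g * j.out ∈ H ↔ i = ((g * j.out : Γ) : Γ ⧸ H) := by
  rw [mul_assoc, ← QuotientGroup.eq]
  have : ((i.out : Γ) : Γ ⧸ H) = i := QuotientGroup.out_eq' i
  rw [this]

theorem indMat_one [DecidableEq (Γ ⧸ H)] : indMat K H 1 = 1 := by
  ext1 i j
  unfold indMat
  have hj : ((j.out : Γ) : Γ ⧸ H) = j := QuotientGroup.out_eq' j
  by_cases hij : i = j
  · subst hij
    have h : (i.out)⁻¹ * 1 * i.out ∈ H := by simp [H.one_mem]
    rw [dif_pos h, Matrix.one_apply_eq, MonoidAlgebra.one_def]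
    congr 1
    exact Subtype.ext (by simp)
  · rw [dif_neg, Matrix.one_apply_ne hij]
    rw [indMat_mem_iff, one_mul, hj]
    exact hij

theorem indMat_mul [Fintype (Γ ⧸ H)] (g g' : Γ) :
    indMat K H (g * g') = indMat K H g * indMat K H g' := by
  classical
  ext1 i k
  rw [Matrix.mul_apply, Finset.sum_eq_single ((g' * k.out : Γ) : Γ ⧸ H)]
  · set j : Γ ⧸ H := ((g' * k.out : Γ) : Γ ⧸ H) with hj
    have h2 : (j.out)⁻¹ * g' * k.out ∈ H := (indMat_mem_iff H g' j k).2 hj
    unfold indMat
    rw [dif_pos h2]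
    by_cases h1 : (i.out)⁻¹ * g * j.out ∈ H
    · have h3 : (i.out)⁻¹ * (g * g') * k.out ∈ H := by
        have := H.mul_mem h1 h2
        convert this using 1
        group
      rw [dif_pos h1, dif_pos h3, MonoidAlgebra.single_mul_single, one_mul]
      congr 1
      apply Subtype.ext
      simp only [Subgroup.coe_mul]
      group
    · rw [dif_neg h1, dif_neg, zero_mul]
      intro h3
      apply h1
      have := H.mul_mem h3 (H.inv_mem h2)
      convert this using 1
      group
  · intro j _ hj
    have : indMat K H g' j k = 0 := by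
      unfold indMat
      rw [dif_neg]
      rw [indMat_mem_iff]
      exact hj
    rw [this, mul_zero]
  · intro h; exact absurd (Finset.mem_univ _) h

end

theorem P_finIndex {K : Type u} [Field K] {Γ : Type u} [Group Γ] (H : Subgroup Γ) [H.FiniteIndex]
    (h : P.{u, u} (MonoidAlgebra K H)) : P.{u, u} (MonoidAlgebra K Γ) := by
  classical
  let _ : Fintype (Γ ⧸ H) := Fintype.ofFinite _
  let A : Γ →* Matrix (Γ ⧸ H) (Γ ⧸ H) (MonoidAlgebra K H) :=
    { toFun := indMat K H
      map_one' := indMat_one K H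
      map_mul' := indMat_mul K H }
  let Ψ := MonoidAlgebra.lift K (Matrix (Γ ⧸ H) (Γ ⧸ H) (MonoidAlgebra K H)) Γ A
  refine P.of_injective Ψ.toRingHom ?_ (P.matrix h (Γ ⧸ H))
  rw [injective_iff_map_eq_zero]
  intro f hf
  have hf' : Ψ f = 0 := hf
  apply MonoidAlgebra.ext
  ext1 g
  set j : Γ ⧸ H := ((1 : Γ) : Γ ⧸ H)
  set i : Γ ⧸ H := ((g * j.out : Γ) : Γ ⧸ H) with hi
  have hmem : (i.out)⁻¹ * g * j.out ∈ H := (indMat_mem_iff H g i j).2 hi
  have hcoef : ∀ a : Γ, (indMat K H a i j).coeff ⟨_, hmem⟩ = if a = g then 1 else 0 := by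
    intro a
    unfold indMat
    by_cases ha : (i.out)⁻¹ * a * j.out ∈ H
    · rw [dif_pos ha, MonoidAlgebra.coeff_single, Finsupp.single_apply]
      by_cases hag : a = g
      · subst hag; simp
      · rw [if_neg, if_neg hag]
        intro h3
        apply hag
        have h4 := congrArg Subtype.val h3
        simpa using h4
    · rw [dif_neg ha, if_neg]
      · rfl
      · rintro rfl; exact ha hmem
  have h5 : (Ψ f i j).coeff ⟨_, hmem⟩ = f.coeff g := by
    rw [MonoidAlgebra.lift_apply, Finsupp.sum, Matrix.sum_apply, MonoidAlgebra.coeff_sum,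
      Finsupp.finsetSum_apply]
    calc ∑ a ∈ f.coeff.support, ((f.coeff a • A a) i j).coeff ⟨_, hmem⟩
        = ∑ a ∈ f.coeff.support, f.coeff a * (if a = g then 1 else 0) := by
          apply Finset.sum_congr rfl
          intro a _
          rw [Matrix.smul_apply, MonoidAlgebra.coeff_smul_apply, smul_eq_mul]
          congr 1
          exact hcoef a
      _ = f.coeff g := by
          simp only [mul_ite, mul_one, mul_zero]
          rw [Finset.sum_ite_eq']
          split_ifs with h6
          · rfl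
          · exact (Finsupp.notMem_support_iff.mp h6).symm
  rw [← h5, hf']
  rfl

theorem P_submonoid {K : Type u} [Field K] {S Γ : Type u} [Monoid S] [Monoid Γ] (ι : S →* Γ)
    (hι : Function.Injective ι) (h : P.{u, u} (MonoidAlgebra K Γ)) :
    P.{u, u} (MonoidAlgebra K S) := by
  refine P.of_injective (MonoidAlgebra.mapDomainRingHom K ι) ?_ h
  intro f g hfg
  exact MonoidAlgebra.mapDomain_injective hι hfg

end Pool.Agent.H66.NCL
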