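import Pool.Agent.H66.NCL.Tower

/-!
# Module SkewB: the algebra of a product of free monoids in a valued division ring

PLAN. First `l = Fin.last` (`k = k' + 1`). `K' = FractionRing (MvPolynomial (Fin k × X × ℤ) K)`,
`A = Multiplicative (Fin k → ℤ)` (or `Fin k → Multiplicative ℤ`), `α g` = the automorphism of `K'`
extending `X_(i,x,j) ↦ X_(i,x,j + g i)` (`MvPolynomial.renameEquiv`,
`IsFractionRing.ringEquivOfRingEquiv` or `IsLocalization.ringEquivOfRingEquiv`), it fixes `K`;
`z i` = the `i`-th basis vector. `exists_tower` gives `D`, `nv`, `c`, `t`.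
For `w : Fin k → FreeMonoid X` let `Mon w = ∏ i, ∏ j < length (w i), X_(i, (w i)_j, j)` (a monomial;
`w ↦ Mon w` is injective) and `φ w = c (Mon w) * (List.ofFn fun i => t i ^ length (w i)).prod`. `φ` is
multiplicative: `Mon (w w') = Mon w * (α (length ∘ w) (Mon w'))` and
`(∏ t i ^ m i) * c a = c (α m a) * ∏ t i ^ m i`. (Alternatively define `φ` as
`MonoidHom.noncommPiCoprod` of the `FreeMonoid.lift (fun x => c (X_(i,x,0)) * t i)`.)
`ψ = MonoidAlgebra.liftNCRingHom (c ∘ algebraMap) φ` (the image of `K` commutes with everything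
used). Then `ψ f = ∑_m c (a_m) * ∏ t i ^ m i` with `a_m = ∑_{w, length ∘ w = m} f.coeff w • Mon w`; the
coefficient of the monomial `Mon w` in `a_m` is `f.coeff w`, so `a_(length ∘ w) ≠ 0` if
`f.coeff w ≠ 0`, and the last property of `exists_tower` gives the claim for `l = last`.
`ϖ = (t last)⁻¹` (`nv (t last) ≥ 2` by the last property of `exists_tower` for a single monomial,
`nv` multiplicative, `nv 1 = 1`).
For general `l` compose with the automorphism of the monoid `Fin k → FreeMonoid X` which swaps the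
coordinates `l` and `last` (`MonoidAlgebra.mapDomainRingHom`/`MonoidAlgebra.domCongr`).
-/

namespace Pool.Agent.H66.NCL

universe u

/-! ### The field with its action -/

section field

variable (K : Type u) [Field K] (X : Type u) (k : ℕ)

/-- shift of the last coordinate -/
def SkewB_shift (g : Fin k → Multiplicative ℤ) : (Fin k × X × ℤ) ≃ (Fin k × X × ℤ) where
  toFun s := (s.1, s.2.1, s.2.2 + (g s.1).toAdd)
  invFun s := (s.1, s.2.1, s.2.2 - (g s.1).toAdd)
  left_inv s := by simp
  right_inv s := by simp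

theorem SkewB_shift_one : SkewB_shift X k 1 = Equiv.refl _ := by
  ext s <;> simp [SkewB_shift]

theorem SkewB_shift_mul (g h : Fin k → Multiplicative ℤ) (s : Fin k × X × ℤ) :
    SkewB_shift X k (g * h) s = SkewB_shift X k g (SkewB_shift X k h s) := by
  simp [SkewB_shift]
  ring

/-- the action on polynomials -/
noncomputable def SkewB_beta : (Fin k → Multiplicative ℤ) →*
    (MvPolynomial (Fin k × X × ℤ) K ≃+* MvPolynomial (Fin k × X × ℤ) K) where
  toFun g := (MvPolynomial.renameEquiv K (SkewB_shift X k g)).toRingEquiv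
  map_one' := by
    rw [SkewB_shift_one]
    ext p
    simp
  map_mul' g h := by
    refine RingEquiv.ext fun p => ?_
    change MvPolynomial.rename (SkewB_shift X k (g * h)) p =
      MvPolynomial.rename (SkewB_shift X k g) (MvPolynomial.rename (SkewB_shift X k h) p)
    rw [MvPolynomial.rename_rename]
    congr 2
    funext s
    exact SkewB_shift_mul X k g h s

/-- the action on rational functions -/
noncomputable def SkewB_alpha : (Fin k → Multiplicative ℤ) →*
    RingAut (FractionRing (MvPolynomial (Fin k × X × ℤ) K)) :=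
  (IsFractionRing.ringEquivOfRingEquivHom (MvPolynomial (Fin k × X × ℤ) K)
    (FractionRing (MvPolynomial (Fin k × X × ℤ) K))).comp (SkewB_beta K X k)

theorem SkewB_alpha_algebraMap (g : Fin k → Multiplicative ℤ)
    (p : MvPolynomial (Fin k × X × ℤ) K) :
    SkewB_alpha K X k g (algebraMap _ _ p) =
      algebraMap _ _ (MvPolynomial.rename (SkewB_shift X k g) p) := by
  change IsFractionRing.ringEquivOfRingEquiv (SkewB_beta K X k g) (algebraMap _ _ p) = _
  rw [IsFractionRing.ringEquivOfRingEquiv_algebraMap]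
  rfl

end field

/-! ### Exponents of words -/

section expo

variable {X : Type u} {k : ℕ}

/-- exponent vector of a word placed at position `n` in the `i`-th copy -/
noncomputable def SkewB_E (i : Fin k) : List X → ℤ → ((Fin k × X × ℤ) →₀ ℕ)
  | [], _ => 0
  | x :: w, n => Finsupp.single (i, x, n) 1 + SkewB_E i w (n + 1)

theorem SkewB_E_append (i : Fin k) (w w' : List X) (n : ℤ) :
    SkewB_E i (w ++ w') n = SkewB_E i w n + SkewB_E i w' (n + w.length) := by
  induction w generalizing n with
  | nil => simp [SkewB_E]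
  | cons x w ih =>
    simp only [List.cons_append, SkewB_E, ih, List.length_cons]
    push_cast
    have e : n + 1 + (w.length : ℤ) = n + ((w.length : ℤ) + 1) := by ring
    rw [e, add_assoc]

theorem SkewB_E_shift (g : Fin k → Multiplicative ℤ) (i : Fin k) (w : List X) (n : ℤ) :
    Finsupp.mapDomain (SkewB_shift X k g) (SkewB_E i w n) =
      SkewB_E i w (n + (g i).toAdd) := by
  induction w generalizing n with
  | nil => simp [SkewB_E]
  | cons x w ih =>
    simp only [SkewB_E, Finsupp.mapDomain_add, Finsupp.mapDomain_single, ih]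
    rw [show n + 1 + (g i).toAdd = n + (g i).toAdd + 1 by ring]
    rfl

theorem SkewB_E_ne (i : Fin k) (w : List X) (n : ℤ) (s : Fin k × X × ℤ)
    (hs : s.1 ≠ i ∨ s.2.2 < n) : SkewB_E i w n s = 0 := by
  classical
  induction w generalizing n with
  | nil => simp [SkewB_E]
  | cons x w ih =>
    simp only [SkewB_E, Finsupp.add_apply]
    rw [ih (n + 1) (hs.imp id fun h => by omega), add_zero, Finsupp.single_apply, if_neg]
    rintro rfl
    simp at hs

theorem SkewB_E_inj (i : Fin k) (w w' : List X) (n : ℤ)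
    (h : SkewB_E i w n = SkewB_E i w' n) : w = w' := by
  classical
  induction w generalizing n w' with
  | nil =>
    cases w' with
    | nil => rfl
    | cons x' w' =>
      have h1 := DFunLike.congr_fun h (i, x', n)
      simp [SkewB_E] at h1
      omega
  | cons x w ih =>
    cases w' with
    | nil =>
      have h1 := DFunLike.congr_fun h (i, x, n)
      simp [SkewB_E] at h1
      try omega
    | cons x' w' =>
      have h1 := DFunLike.congr_fun h (i, x, n)
      simp only [SkewB_E, Finsupp.add_apply, Finsupp.single_eq_same] at h1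
      rw [SkewB_E_ne i w (n + 1) (i, x, n) (Or.inr (by simp)),
        SkewB_E_ne i w' (n + 1) (i, x, n) (Or.inr (by simp)), Finsupp.single_apply] at h1
      have h2 : x = x' := by
        by_contra hne
        rw [if_neg] at h1
        · simp at h1
        · intro h3
          simp only [Prod.mk.injEq, true_and, and_true] at h3
          exact hne h3.symm
      subst h2
      simp only [SkewB_E] at h
      rw [ih w' (n + 1) (add_left_cancel h)]

/-- total exponent -/
noncomputable def SkewB_ET (w : Fin k → FreeMonoid X) : (Fin k × X × ℤ) →₀ ℕ :=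
  ∑ i, SkewB_E i (FreeMonoid.toList (w i)) 0

theorem SkewB_ET_inj (w w' : Fin k → FreeMonoid X) (h : SkewB_ET w = SkewB_ET w') : w = w' := by
  classical
  have key : ∀ (v : Fin k → FreeMonoid X) (i : Fin k) (x : X) (j : ℤ),
      SkewB_ET v (i, x, j) = SkewB_E i (FreeMonoid.toList (v i)) 0 (i, x, j) := by
    intro v i x j
    rw [SkewB_ET, Finsupp.finsetSum_apply]
    refine Finset.sum_eq_single i ?_ ?_
    · intro i' _ hi'
      exact SkewB_E_ne i' _ _ _ (Or.inl (Ne.symm hi'))
    · intro h; exact absurd (Finset.mem_univ _) h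
  funext i
  apply FreeMonoid.toList.injective
  refine SkewB_E_inj i _ _ 0 ?_
  ext ⟨i', x, j⟩
  by_cases hi : i' = i
  · subst hi
    rw [← key, ← key, h]
  · rw [SkewB_E_ne _ _ _ _ (Or.inl hi), SkewB_E_ne _ _ _ _ (Or.inl hi)]

/-- the degree vector in the group -/
def SkewB_len (w : Fin k → FreeMonoid X) : Fin k → Multiplicative ℤ :=
  fun i => Multiplicative.ofAdd ((w i).length : ℤ)

theorem SkewB_ET_mul (w w' : Fin k → FreeMonoid X) :
    SkewB_ET (w * w') = SkewB_ET w +
      Finsupp.mapDomain (SkewB_shift X k (SkewB_len w)) (SkewB_ET w') := by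
  rw [SkewB_ET, SkewB_ET, SkewB_ET, ← Finsupp.mapDomain.addMonoidHom_apply, map_sum,
    ← Finset.sum_add_distrib]
  refine Finset.sum_congr rfl fun i _ => ?_
  rw [Finsupp.mapDomain.addMonoidHom_apply, SkewB_E_shift, Pi.mul_apply, FreeMonoid.toList_mul,
    SkewB_E_append]
  rfl

theorem SkewB_ET_one : SkewB_ET (1 : Fin k → FreeMonoid X) = 0 := by
  rw [SkewB_ET]
  refine Finset.sum_eq_zero fun i _ => ?_
  rfl

end expo

section mon

variable (K : Type u) [Field K] {X : Type u} {k : ℕ}

/-- the monomial of a word -/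
noncomputable def SkewB_Mon (w : Fin k → FreeMonoid X) :
    FractionRing (MvPolynomial (Fin k × X × ℤ) K) :=
  algebraMap _ _ (MvPolynomial.monomial (SkewB_ET w) (1 : K))

theorem SkewB_Mon_mul (w w' : Fin k → FreeMonoid X) :
    SkewB_Mon K (w * w') = SkewB_Mon K w * SkewB_alpha K X k (SkewB_len w) (SkewB_Mon K w') := by
  rw [SkewB_Mon, SkewB_Mon, SkewB_Mon, SkewB_alpha_algebraMap, MvPolynomial.rename_monomial,
    ← map_mul, MvPolynomial.monomial_mul, SkewB_ET_mul, mul_one]

theorem SkewB_Mon_one : SkewB_Mon K (1 : Fin k → FreeMonoid X) = 1 := by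
  rw [SkewB_Mon, SkewB_ET_one]
  simp

end mon

/-! ### Products of powers -/

section powers

theorem SkewB_list_mul {D : Type*} [Monoid D] {ι : Type*} (t : ι → D)
    (ht : ∀ i j, t i * t j = t j * t i) (m m' : ι → ℕ) (l : List ι) :
    (l.map fun i => t i ^ (m i + m' i)).prod =
      (l.map fun i => t i ^ m i).prod * (l.map fun i => t i ^ m' i).prod := by
  induction l with
  | nil => simp
  | cons i l ih =>
    rw [List.map_cons, List.prod_cons, List.map_cons, List.prod_cons, List.map_cons,
      List.prod_cons, ih, pow_add]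
    have h : Commute (t i ^ m' i) (l.map fun i => t i ^ m i).prod := by
      refine Commute.list_prod_right _ _ ?_
      intro x hx
      obtain ⟨j, _, rfl⟩ := List.mem_map.1 hx
      exact Commute.pow_pow (ht i j) _ _
    rw [mul_assoc, ← mul_assoc (t i ^ m' i), h.eq, mul_assoc, mul_assoc]

theorem SkewB_pow_comm {F D : Type*} [Ring F] [Ring D] {A : Type*} [Group A] (α : A →* RingAut F)
    (c : F →+* D) (t : D) (z : A) (h : ∀ a, t * c a = c (α z a) * t) (m : ℕ) (a : F) :
    t ^ m * c a = c (α (z ^ m) a) * t ^ m := by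
  induction m generalizing a with
  | zero => simp
  | succ m ih =>
    rw [pow_succ, mul_assoc, h, ← mul_assoc, ih, mul_assoc, pow_succ z, map_mul]
    rfl

theorem SkewB_list_comm {F D : Type*} [Ring F] [Ring D] {A : Type*} [Group A]
    (α : A →* RingAut F) (c : F →+* D) {ι : Type*} (t : ι → D) (z : ι → A)
    (h : ∀ i a, t i * c a = c (α (z i) a) * t i) (m : ι → ℕ) (l : List ι) (a : F) :
    (l.map fun i => t i ^ m i).prod * c a =
      c (α (l.map fun i => z i ^ m i).prod a) * (l.map fun i => t i ^ m i).prod := by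
  induction l generalizing a with
  | nil => simp
  | cons i l ih =>
    simp only [List.map_cons, List.prod_cons]
    rw [mul_assoc, ih, ← mul_assoc, SkewB_pow_comm α c (t i) (z i) (h i), mul_assoc, map_mul]
    rfl

theorem SkewB_z {k : ℕ} (m : Fin k → ℕ) :
    (List.ofFn fun i => (Pi.mulSingle i (Multiplicative.ofAdd (1 : ℤ)) :
      Fin k → Multiplicative ℤ) ^ m i).prod = fun i => Multiplicative.ofAdd (m i : ℤ) := by
  rw [List.prod_ofFn]
  funext j
  rw [Finset.prod_apply, Finset.prod_eq_single j]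
  · rw [Pi.pow_apply, Pi.mulSingle_eq_same, ← ofAdd_nsmul]
    simp
  · intro i _ hij
    rw [Pi.pow_apply, Pi.mulSingle_eq_of_ne hij.symm, one_pow]
  · intro h; exact absurd (Finset.mem_univ _) h

end powers

/-! ### The homomorphism -/

section hom

variable {K : Type u} [Field K] {X : Type u} {k : ℕ} {D : Type u} [DivisionRing D]

/-- products of powers -/
def SkewB_T (t : Fin k → D) (m : Fin k → ℕ) : D := (List.ofFn fun i => t i ^ m i).prod

theorem SkewB_T_add (t : Fin k → D) (ht : ∀ i j, t i * t j = t j * t i) (m m' : Fin k → ℕ) :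
    SkewB_T t (m + m') = SkewB_T t m * SkewB_T t m' := by
  unfold SkewB_T
  rw [List.ofFn_eq_map, List.ofFn_eq_map, List.ofFn_eq_map]
  exact SkewB_list_mul t ht m m' _

theorem SkewB_T_zero (t : Fin k → D) : SkewB_T t 0 = 1 := by
  unfold SkewB_T
  rw [List.ofFn_eq_map]
  refine List.prod_eq_one ?_
  intro x hx
  obtain ⟨i, _, rfl⟩ := List.mem_map.1 hx
  simp

theorem SkewB_T_comm (c : FractionRing (MvPolynomial (Fin k × X × ℤ) K) →+* D) (t : Fin k → D)
    (h : ∀ i a, t i * c a =
      c (SkewB_alpha K X k (Pi.mulSingle i (Multiplicative.ofAdd (1 : ℤ))) a) * t i)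
    (m : Fin k → ℕ) (a : FractionRing (MvPolynomial (Fin k × X × ℤ) K)) :
    SkewB_T t m * c a =
      c (SkewB_alpha K X k (fun i => Multiplicative.ofAdd (m i : ℤ)) a) * SkewB_T t m := by
  unfold SkewB_T
  rw [← SkewB_z m, List.ofFn_eq_map, List.ofFn_eq_map]
  exact SkewB_list_comm (SkewB_alpha K X k) c t _ h m _ a

/-- lengths -/
def SkewB_lenN (w : Fin k → FreeMonoid X) : Fin k → ℕ := fun i => (w i).length

theorem SkewB_lenN_mul (w w' : Fin k → FreeMonoid X) :
    SkewB_lenN (w * w') = SkewB_lenN w + SkewB_lenN w' := by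
  funext i
  exact FreeMonoid.length_mul (w i) (w' i)

/-- the homomorphism on words -/
noncomputable def SkewB_phi (c : FractionRing (MvPolynomial (Fin k × X × ℤ) K) →+* D)
    (t : Fin k → D) (ht : ∀ i j, t i * t j = t j * t i)
    (h : ∀ i a, t i * c a =
      c (SkewB_alpha K X k (Pi.mulSingle i (Multiplicative.ofAdd (1 : ℤ))) a) * t i) :
    (Fin k → FreeMonoid X) →* D where
  toFun w := c (SkewB_Mon K w) * SkewB_T t (SkewB_lenN w)
  map_one' := by
    rw [SkewB_Mon_one, map_one, one_mul]
    exact SkewB_T_zero t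
  map_mul' w w' := by
    rw [SkewB_Mon_mul, map_mul, SkewB_lenN_mul, SkewB_T_add t ht, mul_assoc, mul_assoc,
      ← mul_assoc (SkewB_T t (SkewB_lenN w)), SkewB_T_comm c t h, ← mul_assoc, ← mul_assoc,
      ← mul_assoc, ← mul_assoc]
    rfl

/-- scalars -/
noncomputable def SkewB_sc : K →+* FractionRing (MvPolynomial (Fin k × X × ℤ) K) :=
  (algebraMap (MvPolynomial (Fin k × X × ℤ) K) _).comp MvPolynomial.C

theorem SkewB_alpha_sc (g : Fin k → Multiplicative ℤ) (a : K) :
    SkewB_alpha K X k g (SkewB_sc a) = SkewB_sc a := by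
  unfold SkewB_sc
  rw [RingHom.comp_apply, SkewB_alpha_algebraMap, MvPolynomial.rename_C]

theorem SkewB_commute (c : FractionRing (MvPolynomial (Fin k × X × ℤ) K) →+* D)
    (t : Fin k → D) (ht : ∀ i j, t i * t j = t j * t i)
    (h : ∀ i a, t i * c a =
      c (SkewB_alpha K X k (Pi.mulSingle i (Multiplicative.ofAdd (1 : ℤ))) a) * t i)
    (a : K) (w : Fin k → FreeMonoid X) :
    Commute ((c.comp SkewB_sc) a) (SkewB_phi c t ht h w) := by
  change c (SkewB_sc a) * (c (SkewB_Mon K w) * SkewB_T t (SkewB_lenN w)) =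
    c (SkewB_Mon K w) * SkewB_T t (SkewB_lenN w) * c (SkewB_sc a)
  rw [mul_assoc, SkewB_T_comm c t h, SkewB_alpha_sc, ← mul_assoc, ← mul_assoc, ← map_mul,
    ← map_mul, mul_comm (SkewB_sc a)]

theorem SkewB_psi (c : FractionRing (MvPolynomial (Fin k × X × ℤ) K) →+* D)
    (t : Fin k → D) (ht : ∀ i j, t i * t j = t j * t i)
    (h : ∀ i a, t i * c a =
      c (SkewB_alpha K X k (Pi.mulSingle i (Multiplicative.ofAdd (1 : ℤ))) a) * t i) :
    ∃ ψ : MonoidAlgebra K (Fin k → FreeMonoid X) →+* D,
      ∀ f : MonoidAlgebra K (Fin k → FreeMonoid X), ∀ w₀, f.coeff w₀ ≠ 0 →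
        ∃ F : (Fin k → ℕ) →₀ FractionRing (MvPolynomial (Fin k × X × ℤ) K),
          F (SkewB_lenN w₀) ≠ 0 ∧ ψ f = F.sum fun m a => c a * SkewB_T t m := by
  classical
  refine ⟨MonoidAlgebra.liftNCRingHom (c.comp SkewB_sc) (SkewB_phi c t ht h)
    (SkewB_commute c t ht h), ?_⟩
  intro f w₀ hw₀
  refine ⟨f.coeff.sum fun w a => Finsupp.single (SkewB_lenN w)
    (algebraMap _ _ (MvPolynomial.monomial (SkewB_ET w) a)), ?_, ?_⟩
  · rw [Finsupp.sum_apply]
    have h1 : ∀ w (a : K), (Finsupp.single (SkewB_lenN w)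
        (algebraMap (MvPolynomial (Fin k × X × ℤ) K)
          (FractionRing (MvPolynomial (Fin k × X × ℤ) K))
          (MvPolynomial.monomial (SkewB_ET w) a))) (SkewB_lenN w₀) =
        algebraMap _ _ (if SkewB_lenN w = SkewB_lenN w₀ then
          MvPolynomial.monomial (SkewB_ET w) a else 0) := by
      intro w a
      rw [Finsupp.single_apply]
      split_ifs <;> simp
    simp only [h1]
    rw [Finsupp.sum, ← map_sum]
    intro h2
    have h3 := (map_eq_zero_iff _ (IsFractionRing.injective
      (MvPolynomial (Fin k × X × ℤ) K) (FractionRing (MvPolynomial (Fin k × X × ℤ) K)))).1 h2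
    have h4 := congrArg (MvPolynomial.coeff (SkewB_ET w₀)) h3
    rw [MvPolynomial.coeff_sum, MvPolynomial.coeff_zero, Finset.sum_eq_single w₀] at h4
    · rw [if_pos rfl, MvPolynomial.coeff_monomial, if_pos rfl] at h4
      exact hw₀ h4
    · intro w _ hw
      split_ifs
      · rw [MvPolynomial.coeff_monomial, if_neg]
        exact fun h5 => hw (SkewB_ET_inj _ _ h5)
      · rw [MvPolynomial.coeff_zero]
    · intro h5
      rw [Finsupp.notMem_support_iff] at h5
      exact absurd h5 hw₀
  · conv_lhs => rw [← MonoidAlgebra.sum_coeff_single f]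
    rw [map_finsuppSum, Finsupp.sum_sum_index]
    · refine Finsupp.sum_congr fun w _ => ?_
      rw [MonoidAlgebra.liftNCRingHom_single, Finsupp.sum_single_index]
      · change c (SkewB_sc _) * (c (SkewB_Mon K w) * SkewB_T t (SkewB_lenN w)) = _
        rw [← mul_assoc, ← map_mul]
        congr 2
        unfold SkewB_sc SkewB_Mon
        rw [RingHom.comp_apply, ← map_mul, MvPolynomial.C_mul_monomial, mul_one]
      · simp
    · intro m; simp
    · intro m a b; rw [map_add, add_mul]

end hom

theorem exists_valued (K : Type u) [Field K] (X : Type u) (k : ℕ) (l : Fin k) :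
    ∃ (D : Type u) (_ : DivisionRing D) (nv : D → ℝ) (ϖ : D)
      (ψ : MonoidAlgebra K (Fin k → FreeMonoid X) →+* D),
      IsUltra nv ∧ 0 < nv ϖ ∧ nv ϖ < 1 ∧
      ∀ (f : MonoidAlgebra K (Fin k → FreeMonoid X)) (w : Fin k → FreeMonoid X), f.coeff w ≠ 0 →
        (2 : ℝ) ^ (FreeMonoid.length (w l)) ≤ nv (ψ f) := by
  classical
  obtain ⟨k, rfl⟩ : ∃ k', k = k' + 1 := ⟨k - 1, by have := l.pos; omega⟩
  obtain ⟨D, hD, nv, c, t, hnv, hc, ht, hN⟩ :=
    exists_tower (FractionRing (MvPolynomial (Fin (k + 1) × X × ℤ) K))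
      (Fin (k + 1) → Multiplicative ℤ) (SkewB_alpha K X (k + 1)) k
      (fun i => Pi.mulSingle i (Multiplicative.ofAdd (1 : ℤ)))
  obtain ⟨ψ, hψ⟩ := SkewB_psi c t ht hc
  have h1 : nv 1 = 1 := by
    have h2 := hnv.mul 1 1
    rw [mul_one] at h2
    have h3 : nv 1 ≠ 0 := fun h => one_ne_zero ((hnv.eq_zero 1).1 h)
    have h4 : nv 1 * 1 = nv 1 * nv 1 := by rw [mul_one]; exact h2
    exact (mul_left_cancel₀ h3 h4).symm
  let N : D →* ℝ := { toFun := nv, map_one' := h1, map_mul' := hnv.mul }
  have hNl : ∀ l : List D, nv l.prod = (l.map nv).prod := fun l => map_list_prod N l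
  have hlast : 2 ≤ nv (t (Fin.last k)) := by
    have h2 := hN (Finsupp.single (Pi.single (Fin.last k) 1) 1) (Pi.single (Fin.last k) 1)
      (by simp)
    rw [Finsupp.sum_single_index (by simp), map_one, one_mul, hNl, List.map_ofFn,
      List.prod_ofFn, Finset.prod_eq_single (Fin.last k)] at h2
    · simpa using h2
    · intro i _ hi
      simp [Pi.single_eq_of_ne hi, h1]
    · intro h; exact absurd (Finset.mem_univ _) h
  have hinv : nv (t (Fin.last k))⁻¹ * nv (t (Fin.last k)) = 1 := by
    rw [← hnv.mul, inv_mul_cancel₀, h1]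
    intro h
    rw [(hnv.eq_zero _).2 h] at hlast
    norm_num at hlast
  let e : (Fin (k + 1) → FreeMonoid X) →* (Fin (k + 1) → FreeMonoid X) :=
    { toFun := fun w i => w (Equiv.swap l (Fin.last k) i)
      map_one' := rfl
      map_mul' := fun _ _ => rfl }
  have he : Function.Injective e := by
    intro w w' h
    funext i
    have h2 := congrFun h (Equiv.swap l (Fin.last k) i)
    change w (Equiv.swap l (Fin.last k) (Equiv.swap l (Fin.last k) i)) =
      w' (Equiv.swap l (Fin.last k) (Equiv.swap l (Fin.last k) i)) at h2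
    rwa [Equiv.swap_apply_self] at h2
  refine ⟨D, hD, nv, (t (Fin.last k))⁻¹, ψ.comp (MonoidAlgebra.mapDomainRingHom K e), hnv, ?_, ?_,
    ?_⟩
  · have h2 : 0 < nv (t (Fin.last k))⁻¹ * nv (t (Fin.last k)) := by rw [hinv]; exact one_pos
    exact pos_of_mul_pos_left h2 (by linarith)
  · by_contra hcon
    push Not at hcon
    have := hnv.nonneg (t (Fin.last k))⁻¹
    nlinarith
  · intro f w hw
    have h2 : (MonoidAlgebra.mapDomainRingHom K e f).coeff (e w) = f.coeff w := by
      change (Finsupp.mapDomain e f.coeff) (e w) = f.coeff w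
      exact Finsupp.mapDomain_apply he _ _
    obtain ⟨F, hF, hFψ⟩ := hψ (MonoidAlgebra.mapDomainRingHom K e f) (e w) (by rw [h2]; exact hw)
    have h3 := hN F (SkewB_lenN (e w)) hF
    rw [RingHom.comp_apply, hFψ]
    have h4 : SkewB_lenN (e w) (Fin.last k) = (w l).length := by
      change (w (Equiv.swap l (Fin.last k) (Fin.last k))).length = _
      rw [Equiv.swap_apply_right]
    rw [h4] at h3
    exact h3

end Pool.Agent.H66.NCL
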