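import Pool.Agent.H66.NCL.Defs

/-!
# Module Trunc: the truncated regular representation

PLAN. `X` finite, `M = Fin k → FreeMonoid X`, `J = {w : M // ∀ l, (w l).length ≤ N}` (finite:
`List.finite_length_le`, products). For `u : M` let `A u` be the matrix with entry `(w', w)` equal to
`1` if `w' = u * w` and `0` otherwise. `A (u u') = A u * A u'`: if `u * u' * w ∈ J` then `u' * w ∈ J`
(lengths). So `A` is a monoid hom and `ρ = MonoidAlgebra.lift K _ M A`. The entry `(w, 1)` of `ρ f` is
`f.coeff w` for every `w ∈ J`. Hence `ρ f = ρ g` implies `f.coeff w = g.coeff w` for `w ∈ J`, and if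
both coefficients vanish outside `J`, `f = g`.
-/

namespace Pool.Agent.H66.NCL

universe u

/-- tuples of words of length at most `N` -/
def TruncJ (X : Type u) (k N : ℕ) : Type u :=
  {w : Fin k → FreeMonoid X // ∀ l, FreeMonoid.length (w l) ≤ N}

theorem truncJ_finite (X : Type u) [Finite X] (k N : ℕ) : Finite (TruncJ X k N) := by
  have h1 : {l : List X | l.length ≤ N}.Finite := List.finite_length_le X N
  have h2 : (Set.univ.pi fun _ : Fin k => {l : List X | l.length ≤ N}).Finite :=
    Set.Finite.pi fun _ => h1
  have h3 : {w : Fin k → FreeMonoid X | ∀ l, FreeMonoid.length (w l) ≤ N}.Finite := by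
    refine h2.subset ?_
    intro w hw l _
    exact hw l
  exact h3.to_subtype

open Classical in
/-- the matrix of left multiplication -/
noncomputable def truncA (K : Type u) [Field K] (X : Type u) (k N : ℕ)
    (u : Fin k → FreeMonoid X) : Matrix (TruncJ X k N) (TruncJ X k N) K :=
  Matrix.of fun w' w => if w'.1 = u * w.1 then 1 else 0

open Classical in
theorem truncA_apply (K : Type u) [Field K] (X : Type u) (k N : ℕ)
    (u : Fin k → FreeMonoid X) (w' w : TruncJ X k N) :
    truncA K X k N u w' w = if w'.1 = u * w.1 then 1 else 0 := rfl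

theorem exists_trunc (K : Type u) [Field K] (X : Type u) [Finite X] (k N : ℕ) :
    ∃ (J : Type u) (_ : Fintype J) (_ : DecidableEq J)
      (ρ : MonoidAlgebra K (Fin k → FreeMonoid X) →+* Matrix J J K),
      ∀ f g : MonoidAlgebra K (Fin k → FreeMonoid X),
        (∀ w : Fin k → FreeMonoid X, (∃ l, N < FreeMonoid.length (w l)) → f.coeff w = 0) →
        (∀ w : Fin k → FreeMonoid X, (∃ l, N < FreeMonoid.length (w l)) → g.coeff w = 0) →
        ρ f = ρ g → f = g := by
  classical
  haveI : Finite (TruncJ X k N) := truncJ_finite X k N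
  letI : Fintype (TruncJ X k N) := Fintype.ofFinite _
  let A : (Fin k → FreeMonoid X) →* Matrix (TruncJ X k N) (TruncJ X k N) K :=
    { toFun := truncA K X k N
      map_one' := by
        ext w' w
        rw [truncA_apply, Matrix.one_apply, one_mul]
        by_cases h : w' = w
        · rw [if_pos h, if_pos (congrArg Subtype.val h)]
        · rw [if_neg h, if_neg (fun h' => h (Subtype.ext h'))]
      map_mul' := by
        intro u u'
        ext w' w
        rw [Matrix.mul_apply]
        by_cases h : w'.1 = u * u' * w.1
        · have hJ : ∀ l, FreeMonoid.length ((u' * w.1) l) ≤ N := by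
            intro l
            have h1 := w'.2 l
            rw [h, mul_assoc, Pi.mul_apply, FreeMonoid.length_mul] at h1
            omega
          rw [truncA_apply, if_pos h, Finset.sum_eq_single ⟨u' * w.1, hJ⟩]
          · rw [truncA_apply, truncA_apply, if_pos rfl, if_pos (by rw [h, mul_assoc]), one_mul]
          · intro w'' _ hw''
            rw [truncA_apply K X k N u' w'' w, if_neg (fun h' => hw'' (Subtype.ext h')), mul_zero]
          · intro h'
            exact absurd (Finset.mem_univ _) h'
        · rw [truncA_apply, if_neg h]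
          symm
          refine Finset.sum_eq_zero fun w'' _ => ?_
          rw [truncA_apply, truncA_apply]
          by_cases h1 : w'.1 = u * w''.1
          · by_cases h2 : w''.1 = u' * w.1
            · exact absurd (by rw [h1, h2, mul_assoc]) h
            · rw [if_neg h2, mul_zero]
          · rw [if_neg h1, zero_mul] }
  have h1 : ∀ l : Fin k, FreeMonoid.length ((1 : Fin k → FreeMonoid X) l) ≤ N := by
    intro l
    rw [Pi.one_apply, FreeMonoid.length_one]
    exact Nat.zero_le N
  have hent : ∀ (f : MonoidAlgebra K (Fin k → FreeMonoid X)) (w : TruncJ X k N),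
      (MonoidAlgebra.lift K (Matrix (TruncJ X k N) (TruncJ X k N) K) (Fin k → FreeMonoid X) A f)
        w ⟨1, h1⟩ = f.coeff w.1 := by
    intro f w
    rw [MonoidAlgebra.lift_apply, Finsupp.sum, Matrix.sum_apply]
    have h2 : ∀ b ∈ f.coeff.support, (f.coeff b • A b) w ⟨1, h1⟩ =
        if b = w.1 then f.coeff b else 0 := by
      intro b _
      have h3 : A b w ⟨1, h1⟩ = if w.1 = b * 1 then 1 else 0 := rfl
      rw [Matrix.smul_apply, h3, mul_one, smul_eq_mul]
      by_cases h4 : b = w.1
      · rw [if_pos h4, if_pos h4.symm, mul_one]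
      · rw [if_neg h4, if_neg (fun h5 => h4 h5.symm), mul_zero]
    rw [Finset.sum_congr rfl h2, Finset.sum_ite_eq']
    by_cases h3 : w.1 ∈ f.coeff.support
    · rw [if_pos h3]
    · rw [if_neg h3, Finsupp.notMem_support_iff.1 h3]
  refine ⟨TruncJ X k N, inferInstance, inferInstance,
    (MonoidAlgebra.lift K (Matrix (TruncJ X k N) (TruncJ X k N) K)
      (Fin k → FreeMonoid X) A).toRingHom, ?_⟩
  intro f g hf hg hfg
  apply MonoidAlgebra.ext
  ext w
  by_cases hw : ∀ l, FreeMonoid.length (w l) ≤ N
  · rw [← hent f ⟨w, hw⟩, ← hent g ⟨w, hw⟩]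
    exact congrFun (congrFun hfg ⟨w, hw⟩) ⟨1, h1⟩
  · push Not at hw
    rw [hf w hw, hg w hw]

end Pool.Agent.H66.NCL
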