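import Pool.Agent.H66.NCL.PBasic
import Pool.Agent.H66.NCL.Ultra
import Pool.Agent.H66.NCL.SkewB
import Pool.Agent.H66.NCL.Trunc

/-!
# Module Prod: `P` for the algebra of a product of free monoids
-/

namespace Pool.Agent.H66.NCL

universe u x

theorem detect_univ (G : Type u) [Group G] {𝓣 : Set (Set G)} (h : Set.univ ∈ 𝓣) :
    Detect.{u, x} G 𝓣 := by
  intro S ε hε
  have h1 : ip (Finsupp.single (PUnit.unit : PUnit.{x+1}) (1 : ℝ))
      (Finsupp.single PUnit.unit 1) = 1 := by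
    rw [ip_single_left]; simp
  refine ⟨PUnit, fun _ => Finsupp.single PUnit.unit 1, Set.univ, h, ?_, ?_, ?_, ?_⟩
  · intro g i; cases i; simp
  · intro g; exact h1
  · intro g s _; rw [h1]; linarith
  · intro g s hs; exact absurd (Set.mem_univ s) hs

variable {K : Type u} [Field K]

/-- invertible matrices whose entries (and those of the inverse) have degree at most `N` in the
coordinate `l` -/
def degSet (K : Type u) [Field K] (X : Type u) (k n : ℕ) (l : Fin k) (N : ℕ) :
    Set (Matrix (Fin n) (Fin n) (MonoidAlgebra K (Fin k → FreeMonoid X)))ˣ :=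
  {g | ∀ i j, ∀ w : Fin k → FreeMonoid X, N < FreeMonoid.length (w l) →
    (g.val i j).coeff w = 0 ∧ (g⁻¹.val i j).coeff w = 0}

theorem degSet_mono (X : Type u) (k n : ℕ) (l : Fin k) {N N' : ℕ} (h : N ≤ N') :
    degSet K X k n l N ⊆ degSet K X k n l N' := fun _ hg i j w hw => hg i j w (by omega)

theorem detect_deg (X : Type u) (k n : ℕ) (l : Fin k) :
    Detect.{u, u} (Matrix (Fin n) (Fin n) (MonoidAlgebra K (Fin k → FreeMonoid X)))ˣ
      {T | ∃ N, T = degSet K X k n l N} := by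
  obtain ⟨D, _, nv, ϖ, ψ, hU, h0, h1, hψ⟩ := exists_valued K X k l
  refine (detect_ultra_hom hU ϖ h0 h1 ψ n).mono ?_
  rintro T ⟨C, rfl⟩
  obtain ⟨N, hN⟩ := exists_nat_gt C
  have hN2 : C < (2 : ℝ) ^ N := lt_of_lt_of_le hN (by
    have : N ≤ 2 ^ N := (Nat.lt_two_pow_self).le
    exact_mod_cast this)
  refine ⟨_, ⟨N, rfl⟩, ?_⟩
  intro g hg i j w hw
  have key : ∀ f : MonoidAlgebra K (Fin k → FreeMonoid X), nv (ψ f) ≤ C → f.coeff w = 0 := by
    intro f hf
    by_contra hne
    have h3 := hψ f w hne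
    have h4 : (2 : ℝ) ^ N ≤ 2 ^ FreeMonoid.length (w l) :=
      pow_le_pow_right₀ (by norm_num) hw.le
    linarith
  exact ⟨key _ (hg i j).1, key _ (hg i j).2⟩

theorem detect_degs (X : Type u) (k n : ℕ) :
    Detect.{u, u} (Matrix (Fin n) (Fin n) (MonoidAlgebra K (Fin k → FreeMonoid X)))ˣ
      {T | ∃ N, T = {g | ∀ l, g ∈ degSet K X k n l N}} := by
  classical
  have key : ∀ s : Finset (Fin k),
      Detect.{u, u} (Matrix (Fin n) (Fin n) (MonoidAlgebra K (Fin k → FreeMonoid X)))ˣ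
        {T | ∃ N, T = {g | ∀ l ∈ s, g ∈ degSet K X k n l N}} := by
    intro s
    induction s using Finset.induction_on with
    | empty => exact detect_univ _ ⟨0, by simp⟩
    | insert l s hl ih =>
      refine (ih.bind (T2 := fun _ => {T | ∃ N, T = degSet K X k n l N})
        (fun _ _ => detect_deg X k n l)).mono ?_
      rintro T ⟨A, ⟨N, rfl⟩, B, ⟨N', rfl⟩, rfl⟩
      refine ⟨_, ⟨max N N', rfl⟩, ?_⟩
      rintro g ⟨hg1, hg2⟩ l' hl'
      rcases Finset.mem_insert.mp hl' with rfl | h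
      · exact degSet_mono X k n _ (le_max_right _ _) hg2
      · exact degSet_mono X k n _ (le_max_left _ _) (hg1 l' h)
  refine (key Finset.univ).mono ?_
  rintro T ⟨N, rfl⟩
  exact ⟨_, ⟨N, rfl⟩, fun g hg l => hg l (Finset.mem_univ l)⟩

theorem P_prod {K : Type u} [Field K] (hK : P.{u, u} K) (X : Type u) [Finite X] (k : ℕ) :
    P.{u, u} (MonoidAlgebra K (Fin k → FreeMonoid X)) := by
  intro n
  have h1 := detect_degs (K := K) X k n
  refine (h1.bind (T2 := fun A => {B | (A ∩ B).Finite}) ?_).mono ?_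
  · rintro A ⟨N, rfl⟩
    obtain ⟨J, _, _, ρ, hρ⟩ := exists_trunc K X k N
    have h2 := P.matrix hK J n
    refine (Detect.comap (Units.map (ρ.mapMatrix (m := Fin n)).toMonoidHom) h2).mono ?_
    rintro T ⟨F, hF, rfl⟩
    refine ⟨_, ?_, subset_rfl⟩
    refine Set.Finite.of_finite_image (f := Units.map (ρ.mapMatrix (m := Fin n)).toMonoidHom)
      (Set.Finite.subset hF ?_) ?_
    · rintro _ ⟨g, ⟨_, hg⟩, rfl⟩
      exact hg
    · rintro g ⟨hg, _⟩ g' ⟨hg', _⟩ hgg
      apply Units.ext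
      ext1 i j
      apply hρ
      · rintro w ⟨l, hl⟩
        exact (hg l i j w hl).1
      · rintro w ⟨l, hl⟩
        exact (hg' l i j w hl).1
      · have := congrArg (fun z => z.val i j) hgg
        simpa using this
  · rintro T ⟨A, _, B, hB, rfl⟩
    exact ⟨_, hB, subset_rfl⟩

end Pool.Agent.H66.NCL
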