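import Pool.Agent.H66.NCL.Basic

/-!
# Module PropA: from `CE` to property A
-/

namespace Pool.Agent.H66.NCL

universe u x

/-- `ℓ¹` norm -/
noncomputable def n1 {G : Type u} (f : G →₀ ℝ) : ℝ := f.sum fun _ t => |t|

theorem n1_eq_sum {G : Type u} (f : G →₀ ℝ) {s : Finset G} (hs : f.support ⊆ s) :
    n1 f = ∑ x ∈ s, |f x| := by
  unfold n1
  exact Finsupp.sum_of_support_subset f hs (fun _ t => |t|) (by intro i _; simp)

theorem n1_add_le {G : Type u} (f g : G →₀ ℝ) : n1 (f + g) ≤ n1 f + n1 g := by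
  classical
  rw [n1_eq_sum f (s := f.support ∪ g.support) Finset.subset_union_left,
    n1_eq_sum g (s := f.support ∪ g.support) Finset.subset_union_right,
    n1_eq_sum (f + g) (s := f.support ∪ g.support) Finsupp.support_add,
    ← Finset.sum_add_distrib]
  exact Finset.sum_le_sum fun x _ => abs_add_le _ _

theorem n1_single {G : Type u} (x : G) (t : ℝ) : n1 (Finsupp.single x t) = |t| := by
  unfold n1; rw [Finsupp.sum_single_index]; simp

theorem n1_sum_le {G : Type u} {α : Type*} (s : Finset α) (f : α → G →₀ ℝ) :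
    n1 (∑ i ∈ s, f i) ≤ ∑ i ∈ s, n1 (f i) := by
  classical
  induction s using Finset.induction_on with
  | empty => simp [n1]
  | insert a s ha ih =>
    rw [Finset.sum_insert ha, Finset.sum_insert ha]
    exact (n1_add_le _ _).trans (by linarith)

theorem n1_sum_single_le {G : Type u} {ι : Type x} (p : ι → G) (a b : ι →₀ ℝ)
    (ha : ip a a = 1) (hb : ip b b = 1) :
    n1 ((∑ i ∈ a.support, Finsupp.single (p i) (a i ^ 2)) -
      (∑ i ∈ b.support, Finsupp.single (p i) (b i ^ 2))) ≤ 2 * √(2 - 2 * ip a b) := by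
  classical
  set s := a.support ∪ b.support with hs
  have h1 : ∑ i ∈ a.support, Finsupp.single (p i) (a i ^ 2) =
      ∑ i ∈ s, Finsupp.single (p i) (a i ^ 2) := by
    apply Finset.sum_subset Finset.subset_union_left
    intro i _ hi
    rw [Finsupp.notMem_support_iff.mp hi]; simp
  have h2 : ∑ i ∈ b.support, Finsupp.single (p i) (b i ^ 2) =
      ∑ i ∈ s, Finsupp.single (p i) (b i ^ 2) := by
    apply Finset.sum_subset Finset.subset_union_right
    intro i _ hi
    rw [Finsupp.notMem_support_iff.mp hi]; simp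
  rw [h1, h2, ← Finset.sum_sub_distrib]
  refine (n1_sum_le _ _).trans ?_
  have h3 : ∀ i ∈ s, n1 (Finsupp.single (p i) (a i ^ 2) - Finsupp.single (p i) (b i ^ 2)) =
      |a i - b i| * |a i + b i| := by
    intro i _
    rw [← Finsupp.single_sub, n1_single, ← abs_mul]
    congr 1; ring
  rw [Finset.sum_congr rfl h3]
  have h4 : (∑ i ∈ s, |a i - b i| * |a i + b i|) ^ 2 ≤
      (∑ i ∈ s, |a i - b i| ^ 2) * (∑ i ∈ s, |a i + b i| ^ 2) :=
    Finset.sum_mul_sq_le_sq_mul_sq _ _ _
  rw [ip_eq_sum a a (s := s) Finset.subset_union_left] at ha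
  rw [ip_eq_sum b b (s := s) Finset.subset_union_right] at hb
  have hab : ip a b = ∑ i ∈ s, a i * b i := ip_eq_sum a b (s := s) Finset.subset_union_left
  have h5 : ∑ i ∈ s, |a i - b i| ^ 2 = 2 - 2 * ip a b := by
    have : ∑ i ∈ s, |a i - b i| ^ 2 =
        ∑ i ∈ s, a i * a i + ∑ i ∈ s, b i * b i - 2 * ∑ i ∈ s, a i * b i := by
      rw [Finset.mul_sum, ← Finset.sum_add_distrib, ← Finset.sum_sub_distrib]
      exact Finset.sum_congr rfl fun i _ => by rw [sq_abs]; ring
    rw [this, ha, hb, hab]; ring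
  have h6 : ∑ i ∈ s, |a i + b i| ^ 2 ≤ 4 := by
    have : ∑ i ∈ s, |a i + b i| ^ 2 ≤ ∑ i ∈ s, (2 * (a i * a i) + 2 * (b i * b i)) :=
      Finset.sum_le_sum fun i _ => by rw [sq_abs]; nlinarith [sq_nonneg (a i - b i)]
    rw [Finset.sum_add_distrib, ← Finset.mul_sum, ← Finset.mul_sum, ha, hb] at this
    linarith
  have h7 : 0 ≤ 2 - 2 * ip a b := by
    rw [← h5]; exact Finset.sum_nonneg fun i _ => by positivity
  refine (pow_le_pow_iff_left₀ (Finset.sum_nonneg fun i _ => by positivity) (by positivity)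
    (two_ne_zero)).mp ?_
  rw [mul_pow, Real.sq_sqrt h7]
  rw [h5] at h4
  nlinarith

theorem CE.propertyA {G : Type u} [Group G] (h : CE.{u, x} G) : PropertyA G := by
  classical
  intro S ε hε
  obtain ⟨ι, v, T, hT, v0, v1, vc, vf⟩ := h S (ε ^ 2 / 8) (by positivity)
  have hT' : T.Finite := hT
  have ex1 : ∀ i : ι, ∃ p : G, (∃ p', v p' i ≠ 0) → v p i ≠ 0 := by
    intro i
    by_cases h : ∃ p', v p' i ≠ 0
    · obtain ⟨p', hp'⟩ := h
      exact ⟨p', fun _ => hp'⟩
    · exact ⟨1, fun h' => absurd h' h⟩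
  choose p hp using ex1
  refine ⟨hT'.toFinset, fun g => ∑ i ∈ (v g).support, Finsupp.single (p i) (v g i ^ 2),
    ?_, ?_, ?_, ?_⟩
  · intro g y
    rw [Finsupp.finsetSum_apply]
    apply Finset.sum_nonneg
    intro i _
    rw [Finsupp.single_apply]; split_ifs <;> positivity
  · intro g
    have h1 : ∀ f : G →₀ ℝ, (f.sum fun _ t => t) = Finsupp.liftAddHom (fun _ : G => AddMonoidHom.id ℝ) f :=
      fun f => rfl
    rw [h1, map_sum]
    rw [← v1 g, ip_eq_sum _ _ subset_rfl]
    apply Finset.sum_congr rfl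
    intro i _
    rw [Finsupp.liftAddHom_apply_single]
    simp [sq]
  · intro g y hy
    rw [Finsupp.finsetSum_apply] at hy
    obtain ⟨i, hi, hne⟩ := Finset.exists_ne_zero_of_sum_ne_zero hy
    rw [Finsupp.single_apply] at hne
    have hpi : p i = y := by
      by_contra hno; rw [if_neg hno] at hne; exact hne rfl
    rw [Finsupp.mem_support_iff] at hi
    have hy2 : v y i ≠ 0 := by rw [← hpi]; exact hp i ⟨g, hi⟩
    rw [Set.Finite.mem_toFinset]
    by_contra hno
    have h2 := vf g _ hno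
    rw [mul_inv_cancel_left] at h2
    rw [ip_eq_sum (v g) (v y) (s := (v g).support) subset_rfl,
      Finset.sum_eq_zero_iff_of_nonneg fun i _ => mul_nonneg (v0 _ i) (v0 _ i)] at h2
    have := h2 i (Finsupp.mem_support_iff.mpr hi)
    rcases mul_eq_zero.mp this with h3 | h3
    · exact hi h3
    · exact hy2 h3
  · intro g s hs
    have h1 := n1_sum_single_le p (v g) (v (g * s)) (v1 g) (v1 _)
    refine le_trans h1 ?_
    have h2 := vc g s hs
    have h3 : √(2 - 2 * ip (v g) (v (g * s))) ≤ ε / 2 := by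
      rw [show ε / 2 = √((ε / 2) ^ 2) from (Real.sqrt_sq (by positivity)).symm]
      apply Real.sqrt_le_sqrt
      nlinarith
    linarith

end Pool.Agent.H66.NCL
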