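import Pool.Agent.H66.NCL.Fields
import Pool.Agent.H66.NCL.Prod
import Pool.Agent.H66.NCL.Cox
import Pool.Agent.H66.NCL.FinIndex
import Pool.Agent.H66.NCL.Comm
import Pool.Agent.H66.NCL.Hilbert
import Pool.Agent.H66.NCL.PropA

/-!
# Final assembly
-/

namespace Pool.Agent.H66.NCL

universe u

theorem P.main {R : Type u} [Ring R] (h : P.{u, u} R) (n : ℕ)
    (G : Subgroup (Matrix (Fin n) (Fin n) R)ˣ) :
    PropertyA G ∧ (Countable G → CoarselyEmbeds.{u, u} G) := by
  have hG : CE.{u, u} G := CE.of_injective G.subtype Subtype.val_injective (h n)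
  exact ⟨hG.propertyA, fun _ => hG.coarselyEmbeds⟩

theorem P_special (A : Type u) [CommRing A] (S Γ : Type u) [Monoid S] [Group Γ] (ι : S →* Γ)
    (hι : Function.Injective ι) (H : Subgroup Γ) [H.FiniteIndex]
    (B : Type u) [Finite B] (M : CoxeterMatrix B) (hM : ∀ i j, M i j = 0 ∨ M i j = 1 ∨ M i j = 2)
    (φ : H →* M.Group) (hφ : Function.Injective φ) : P.{u, u} (MonoidAlgebra A S) :=
  P_commRing (fun K _ => P_submonoid ι hι (P_finIndex H (P_submonoid φ hφ
    (P_coxeter (fun T _ k => P_prod (P_field K) T k) B M hM)))) A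

end Pool.Agent.H66.NCL
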