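import Mathlib

/-!
# Module Words: combinatorics of reduced words (pure lists)

`nc s r` : the letters `s`, `r` do not commute (symmetric relation).
`Red nc ω` : between two occurrences of a letter `s` in `ω` there is a letter not commuting with `s`.
`cf ω L` : signed count of the embeddings of `L` in `ω`.

PLAN.
* `exists_chain`, step 1: there is a chain `L <+ ω` (`IsChain nc`) containing all occurrences of `s`
  and `r` in `ω`. Induction on `ω` (`Red` passes to tails), with the extra claim that `L = []` or the
  head of `L` is `s` or `r`. `ω = a :: ω₁`. If `a ≠ s, r`: clear. Else if `ω₁` has no `s`, `r`: `L = [a]`.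
  Else let `b ∈ {s, r}` be the first occurrence in `ω₁`, `L₁ = b :: Q` for `ω₁`. If `b ≠ a`, then
  `nc a b`, `L = a :: b :: Q`. If `b = a`: `ω₁ = U ++ a :: V`, `U` without `s`, `r`, `Red` gives `c ∈ U`
  with `nc a c`; `L = a :: c :: a :: Q`, `a :: Q <+ a :: V`.
* step 2: take such an `L` of maximal length. It has a unique embedding: lemma (induction on `ω`):
  if `2 ≤ ω.sublists.count L` there are `L = L₁ ++ a :: L₂`, `ω = ω₁ ++ a :: (ω₂ ++ a :: ω₃)` with
  `L₁ <+ ω₁`, `L₂ <+ ω₃`. By `Red` there is `c ∈ ω₂`, `nc a c`, and `L₁ ++ a :: c :: a :: L₂` is a longer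
  chain with all occurrences. (Use whichever of `sublists`, `sublists'` is more convenient:
  `List.sublists_perm_sublists'`, `List.sublists'_cons`.)
* `cf_eq_zero`, `cf_eq_one`: induction on `ω` : for `a :: L`, `s :: ω`, embeddings of `a :: L` in `s :: ω`
  are those of `a :: L` in `ω`, and if `a = s` also those of `L` in `ω`; if the total number is `1`
  exactly one of the two numbers is `1`, the other is `0`. (`[]` has exactly one embedding.)
* `prod_eq`: from `L <+ ω'` all counts of letters in `ω'` are at least those in `ω` (use `s = r`);
  as `ω'.length ≤ ω.length` they agree (for lists over `B`, `List.length` is the sum of the counts;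
  or: `ω.Subperm ω'` and lengths, so `ω ~ ω'`). So for `nc s r`,
  `ω.filter (· = s ∨ · = r) = L.filter _ = ω'.filter _` (sublists of the same length). Then induction
  on `ω`: `ω = s :: ω₁`, `ω' = U ++ s :: V` with `s ∉ U` ; no letter `r ∈ U` has `nc s r` (the filter of
  `ω'` for the pair `s`, `r` would start with `r`, that of `ω` with `s`); so `φ s` commutes with
  `(U.map φ).prod`, and `ω₁`, `U ++ V` satisfy the hypotheses (perm and equal filters).
-/

namespace Pool.Agent.H66.NCL

universe u v

/-- between two occurrences of a letter there is a letter not commuting with it -/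
def Red {B : Type u} (nc : B → B → Prop) (ω : List B) : Prop :=
  ∀ (l₁ l₂ l₃ : List B) (s : B), ω = l₁ ++ s :: (l₂ ++ s :: l₃) → ∃ c ∈ l₂, nc s c

open Classical in
/-- signed number of embeddings of a list in another one -/
noncomputable def cf {B : Type u} : List B → List B → ℤ
  | _, [] => 1
  | [], _ :: _ => 0
  | s :: ω, a :: L => if a = s then - cf ω (a :: L) + cf ω L else cf ω (a :: L)

theorem cf_eq_zero {B : Type u} (ω L : List B) (h : ¬ L.Sublist ω) : cf ω L = 0 := by
  induction ω generalizing L with
  | nil =>
    cases L with
    | nil => exact absurd (List.Sublist.refl _) h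
    | cons a L => rw [cf]
  | cons s ω ih =>
    cases L with
    | nil => exact absurd (List.nil_sublist _) h
    | cons a L =>
      have h1 : cf ω (a :: L) = 0 := ih _ fun h' => h (h'.cons s)
      rw [cf, h1]
      split_ifs with has
      · subst has
        rw [ih L fun h' => h (h'.cons_cons a)]
        simp
      · rfl

open Classical in
/-- number of embeddings -/
noncomputable def Words_N {B : Type u} (ω L : List B) : ℕ := ω.sublists'.count L

open Classical in
theorem Words_N_eq {B : Type u} (ω L : List B) : ω.sublists.count L = Words_N ω L :=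
  (List.sublists_perm_sublists' ω).count_eq L

open Classical in
theorem Words_N_nil {B : Type u} (ω : List B) : Words_N ω [] = 1 := by
  unfold Words_N
  induction ω with
  | nil => simp
  | cons s ω ih =>
    rw [List.sublists'_cons, List.count_append, ih]
    have : List.count [] (List.map (List.cons s) ω.sublists') = 0 := by
      rw [List.count_eq_zero]
      intro h
      rw [List.mem_map] at h
      obtain ⟨x, _, hx⟩ := h
      exact List.cons_ne_nil _ _ hx
    rw [this]

open Classical in
theorem Words_N_nil_cons {B : Type u} (a : B) (L : List B) : Words_N [] (a :: L) = 0 := by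
  unfold Words_N
  rw [List.count_eq_zero]
  simp

open Classical in
theorem Words_N_cons {B : Type u} (s a : B) (ω L : List B) :
    Words_N (s :: ω) (a :: L) = Words_N ω (a :: L) + if a = s then Words_N ω L else 0 := by
  unfold Words_N
  rw [List.sublists'_cons, List.count_append]
  congr 1
  split_ifs with h
  · subst h
    exact List.count_map_of_injective _ _ (fun x y hxy => (List.cons.inj hxy).2) _
  · rw [List.count_eq_zero]
    intro h'
    rw [List.mem_map] at h'
    obtain ⟨x, _, hx⟩ := h'
    exact h (List.cons.inj hx).1.symm

open Classical in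
theorem Words_N_pos {B : Type u} {ω L : List B} : 0 < Words_N ω L ↔ L.Sublist ω := by
  unfold Words_N
  rw [List.count_pos_iff, List.mem_sublists']

open Classical in
theorem cf_eq_one {B : Type u} (ω L : List B) (h : ω.sublists.count L = 1) :
    cf ω L = 1 ∨ cf ω L = -1 := by
  rw [Words_N_eq] at h
  induction ω generalizing L with
  | nil =>
    cases L with
    | nil => left; rw [cf]
    | cons a L => rw [Words_N_nil_cons] at h; omega
  | cons s ω ih =>
    cases L with
    | nil => left; rw [cf]
    | cons a L =>
      rw [Words_N_cons] at h
      rw [cf]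
      have hz : ∀ M : List B, Words_N ω M = 0 → cf ω M = 0 := by
        intro M hM
        apply cf_eq_zero
        intro h'
        have := Words_N_pos.2 h'
        omega
      split_ifs at h ⊢ with has
      · have h2 : (Words_N ω (a :: L) = 1 ∧ Words_N ω L = 0) ∨
            (Words_N ω (a :: L) = 0 ∧ Words_N ω L = 1) := by omega
        rcases h2 with ⟨h3, h4⟩ | ⟨h3, h4⟩
        · rw [hz L h4]
          rcases ih (a :: L) h3 with h5 | h5
          · right; rw [h5]; norm_num
          · left; rw [h5]; norm_num
        · rw [hz (a :: L) h3]
          rcases ih L h4 with h5 | h5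
          · left; rw [h5]; norm_num
          · right; rw [h5]; norm_num
      · exact ih (a :: L) (by omega)

theorem Words_Red_tail {B : Type u} {nc : B → B → Prop} {a : B} {ω : List B}
    (h : Red nc (a :: ω)) : Red nc ω := by
  intro l₁ l₂ l₃ s hs
  exact h (a :: l₁) l₂ l₃ s (by rw [hs]; rfl)

theorem Words_cons_sublist {B : Type u} {a : B} {L ω : List B} (h : (a :: L).Sublist ω) :
    ∃ U V : List B, ω = U ++ a :: V ∧ L.Sublist V := by
  rw [List.cons_sublist_iff] at h
  obtain ⟨r₁, r₂, h1, h2, h3⟩ := h
  obtain ⟨U, V, h4⟩ := List.append_of_mem h2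
  refine ⟨U, V ++ r₂, ?_, ?_⟩
  · rw [h1, h4]; simp
  · exact h3.trans (List.sublist_append_right V r₂)

open Classical in
theorem Words_chain1 {B : Type u} (nc : B → B → Prop) (hsymm : ∀ s r, nc s r → nc r s)
    (s r : B) (hsr : nc s r ∨ s = r) (ω : List B) (hω : Red nc ω) :
    ∃ L : List B, L.Sublist ω ∧ L.IsChain nc ∧ L.count s = ω.count s ∧ L.count r = ω.count r ∧
      (∀ b ∈ L.head?, b = s ∨ b = r) := by
  induction ω with
  | nil => exact ⟨[], List.Sublist.refl _, List.isChain_nil, rfl, rfl, by simp⟩
  | cons a ω ih =>
    obtain ⟨L, h1, h2, h3, h4, h5⟩ := ih (Words_Red_tail hω)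
    by_cases ha : a = s ∨ a = r
    · cases L with
      | nil =>
        refine ⟨[a], ?_, List.isChain_singleton a, ?_, ?_, ?_⟩
        · exact List.cons_sublist_cons.2 (List.nil_sublist _)
        · rw [List.count_nil] at h3
          rw [List.count_cons, List.count_cons, ← h3, List.count_nil]
        · rw [List.count_nil] at h4
          rw [List.count_cons, List.count_cons, ← h4, List.count_nil]
        · intro b hb
          simp at hb
          subst hb
          exact ha
      | cons b Q =>
        have hb := h5 b (by simp)
        by_cases hab : b = a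
        · subst hab
          obtain ⟨U, V, h6, h7⟩ := Words_cons_sublist h1
          obtain ⟨c, hcU, hc⟩ := hω [] U V b (by rw [h6]; rfl)
          have hcount : ∀ x, List.count x (b :: Q) = List.count x ω → c ≠ x := by
            intro x hx hcx
            have e1 : List.count x ω = List.count x U + List.count x (b :: V) := by
              rw [h6, List.count_append]
            have e2 : List.count x (b :: Q) ≤ List.count x (b :: V) :=
              (h7.cons_cons b).count_le x
            have e3 : 0 < List.count x U := by
              rw [List.count_pos_iff, ← hcx]; exact hcU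
            omega
          have hcs := hcount s h3
          have hcr := hcount r h4
          refine ⟨b :: c :: b :: Q, ?_, ?_, ?_, ?_, ?_⟩
          · rw [h6]
            apply List.Sublist.cons_cons
            have e1 : [c].Sublist U := List.singleton_sublist.2 hcU
            have e2 : (b :: Q).Sublist (b :: V) := h7.cons_cons b
            exact e1.append e2
          · rw [List.isChain_cons_cons, List.isChain_cons_cons]
            exact ⟨hc, hsymm _ _ hc, h2⟩
          · have e1 : List.count s (b :: c :: b :: Q) = List.count s (b :: b :: Q) := by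
              have e0 : (c == s) = false := by simpa using hcs
              simp only [List.count_cons, e0]
              simp
            rw [e1, List.count_cons (l := b :: Q), List.count_cons (l := ω), h3]
          · have e1 : List.count r (b :: c :: b :: Q) = List.count r (b :: b :: Q) := by
              have e0 : (c == r) = false := by simpa using hcr
              simp only [List.count_cons, e0]
              simp
            rw [e1, List.count_cons (l := b :: Q), List.count_cons (l := ω), h4]
          · intro x hx
            simp at hx
            subst hx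
            exact ha
        · have hnc : nc a b := by
            rcases ha with ha | ha <;> rcases hb with hb | hb
            · exact absurd (hb.trans ha.symm) hab
            · subst ha; subst hb
              rcases hsr with h | h
              · exact h
              · exact absurd h.symm hab
            · subst ha; subst hb
              rcases hsr with h | h
              · exact hsymm _ _ h
              · exact absurd h hab
            · exact absurd (hb.trans ha.symm) hab
          refine ⟨a :: b :: Q, h1.cons_cons a, ?_, ?_, ?_, ?_⟩
          · rw [List.isChain_cons_cons]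
            exact ⟨hnc, h2⟩
          · rw [List.count_cons (l := b :: Q), List.count_cons (l := ω), h3]
          · rw [List.count_cons (l := b :: Q), List.count_cons (l := ω), h4]
          · intro x hx
            simp at hx
            subst hx
            exact ha
    · push Not at ha
      refine ⟨L, h1.cons a, h2, ?_, ?_, h5⟩
      · rw [List.count_cons_of_ne ha.1, h3]
      · rw [List.count_cons_of_ne ha.2, h4]

theorem Words_dup {B : Type u} (ω L : List B) (h : 2 ≤ Words_N ω L) :
    ∃ (a : B) (L₁ L₂ ω₁ ω₂ ω₃ : List B), L = L₁ ++ a :: L₂ ∧ ω = ω₁ ++ a :: (ω₂ ++ a :: ω₃) ∧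
      L₁.Sublist ω₁ ∧ L₂.Sublist ω₃ := by
  induction ω generalizing L with
  | nil =>
    cases L with
    | nil => rw [Words_N_nil] at h; omega
    | cons a L => rw [Words_N_nil_cons] at h; omega
  | cons s ω ih =>
    cases L with
    | nil => rw [Words_N_nil] at h; omega
    | cons a L =>
      rw [Words_N_cons] at h
      by_cases h1 : 2 ≤ Words_N ω (a :: L)
      · obtain ⟨b, L₁, L₂, ω₁, ω₂, ω₃, h2, h3, h4, h5⟩ := ih _ h1
        exact ⟨b, L₁, L₂, s :: ω₁, ω₂, ω₃, h2, by rw [h3]; rfl, h4.cons s, h5⟩
      · split_ifs at h with has
        · subst has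
          by_cases h2 : 2 ≤ Words_N ω L
          · obtain ⟨b, L₁, L₂, ω₁, ω₂, ω₃, h2, h3, h4, h5⟩ := ih _ h2
            exact ⟨b, a :: L₁, L₂, a :: ω₁, ω₂, ω₃, by rw [h2]; rfl, by rw [h3]; rfl,
              h4.cons_cons a, h5⟩
          · have h3 : 0 < Words_N ω (a :: L) := by omega
            rw [Words_N_pos] at h3
            obtain ⟨U, V, h6, h7⟩ := Words_cons_sublist h3
            exact ⟨a, [], L, [], U, V, rfl, by rw [h6]; rfl, List.Sublist.refl _, h7⟩
        · omega

open Classical in
theorem exists_chain {B : Type u} (nc : B → B → Prop) (hsymm : ∀ s r, nc s r → nc r s)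
    (hirr : ∀ s, ¬ nc s s) (ω : List B) (hω : Red nc ω) (s r : B) (hsr : nc s r ∨ s = r) :
    ∃ L : List B, L.Sublist ω ∧ L.IsChain nc ∧ L.count s = ω.count s ∧ L.count r = ω.count r ∧
      ω.sublists.count L = 1 := by
  obtain ⟨L₀, h1, h2, h3, h4, _⟩ := Words_chain1 nc hsymm s r hsr ω hω
  -- a longest one
  have hex : ∃ L : List B, (L.Sublist ω ∧ L.IsChain nc ∧ L.count s = ω.count s ∧
      L.count r = ω.count r) ∧ ∀ M : List B, (M.Sublist ω ∧ M.IsChain nc ∧
      M.count s = ω.count s ∧ M.count r = ω.count r) → M.length ≤ L.length := by
    by_contra hcon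
    push Not at hcon
    have key : ∀ n : ℕ, ∃ L : List B, (L.Sublist ω ∧ L.IsChain nc ∧ L.count s = ω.count s ∧
        L.count r = ω.count r) ∧ n ≤ L.length := by
      intro n
      induction n with
      | zero => exact ⟨L₀, ⟨h1, h2, h3, h4⟩, Nat.zero_le _⟩
      | succ n ih =>
        obtain ⟨L, hL, hn⟩ := ih
        obtain ⟨M, hM, hlt⟩ := hcon L hL
        exact ⟨M, hM, by omega⟩
    obtain ⟨L, hL, hn⟩ := key (ω.length + 1)
    have := hL.1.length_le
    omega
  obtain ⟨L, ⟨hL1, hL2, hL3, hL4⟩, hmax⟩ := hex
  refine ⟨L, hL1, hL2, hL3, hL4, ?_⟩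
  rw [Words_N_eq]
  have hpos := Words_N_pos.2 hL1
  by_contra hne
  obtain ⟨a, L₁, L₂, ω₁, ω₂, ω₃, e1, e2, e3, e4⟩ := Words_dup ω L (by omega)
  obtain ⟨c, hc, hac⟩ := hω ω₁ ω₂ ω₃ a e2
  have hsub : (L₁ ++ a :: (c :: a :: L₂)).Sublist ω := by
    rw [e2]
    apply e3.append
    apply List.Sublist.cons_cons
    have e5 : [c].Sublist ω₂ := List.singleton_sublist.2 hc
    have e6 : (a :: L₂).Sublist (a :: ω₃) := e4.cons_cons a
    exact e5.append e6
  have hchain : (L₁ ++ a :: (c :: a :: L₂)).IsChain nc := by
    rw [e1] at hL2
    rw [List.isChain_append] at hL2 ⊢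
    obtain ⟨c1, c2, c3⟩ := hL2
    refine ⟨c1, ?_, ?_⟩
    · rw [List.isChain_cons_cons, List.isChain_cons_cons]
      exact ⟨hac, hsymm _ _ hac, c2⟩
    · intro x hx y hy
      apply c3 x hx y
      simpa using hy
  have hcount : ∀ x, L.count x = ω.count x → (L₁ ++ a :: (c :: a :: L₂)).count x = ω.count x := by
    intro x hx
    have f1 := hsub.count_le x
    have f2 : L.count x ≤ (L₁ ++ a :: (c :: a :: L₂)).count x := by
      rw [e1, List.count_append, List.count_append]
      simp only [List.count_cons]
      omega
    omega
  have := hmax _ ⟨hsub, hchain, hcount s hL3, hcount r hL4⟩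
  rw [e1] at this
  simp at this

open Classical in
theorem Words_prod {B : Type u} {G : Type v} [Monoid G] (nc : B → B → Prop)
    (hsymm : ∀ s r, nc s r → nc r s) (φ : B → G)
    (hφ : ∀ s r, ¬ nc s r → φ s * φ r = φ r * φ s) (ω ω' : List B) (hp : ω.Perm ω')
    (h : ∀ s r, nc s r → ω.filter (fun x => decide (x = s ∨ x = r)) =
      ω'.filter (fun x => decide (x = s ∨ x = r))) :
    (ω.map φ).prod = (ω'.map φ).prod := by
  induction ω generalizing ω' with
  | nil =>
    have := hp.symm.eq_nil
    rw [this]
  | cons s ω ih =>
    have hs : s ∈ ω' := hp.subset (List.mem_cons_self)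
    obtain ⟨U, V, h1, h2⟩ := List.eq_append_cons_of_mem hs
    subst h1
    have hU : ∀ r ∈ U, ¬ nc s r := by
      intro r hr hnc
      have h3 := h s r hnc
      rw [List.filter_cons_of_pos (by simp), List.filter_append] at h3
      have h4 : r ∈ U.filter (fun x => decide (x = s ∨ x = r)) := by
        rw [List.mem_filter]; exact ⟨hr, by simp⟩
      cases h5 : U.filter (fun x => decide (x = s ∨ x = r)) with
      | nil => rw [h5] at h4; simp at h4
      | cons y Y =>
        rw [h5, List.cons_append] at h3
        have h6 := (List.cons.inj h3).1
        have h7 : y ∈ U.filter (fun x => decide (x = s ∨ x = r)) := by rw [h5]; simp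
        rw [List.mem_filter] at h7
        rw [← h6] at h7
        exact h2 h7.1
    have hcomm : φ s * (U.map φ).prod = (U.map φ).prod * φ s := by
      have : Commute (φ s) (U.map φ).prod := by
        apply Commute.list_prod_right
        intro x hx
        rw [List.mem_map] at hx
        obtain ⟨r, hr, rfl⟩ := hx
        exact hφ s r (hU r hr)
      exact this
    have hperm : ω.Perm (U ++ V) := by
      have : (s :: ω).Perm (s :: (U ++ V)) := hp.trans List.perm_middle
      exact this.cons_inv
    have hfil : ∀ x y, nc x y → ω.filter (fun z => decide (z = x ∨ z = y)) =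
        (U ++ V).filter (fun z => decide (z = x ∨ z = y)) := by
      intro x y hxy
      have h3 := h x y hxy
      rw [List.filter_append] at h3 ⊢
      by_cases hsxy : s = x ∨ s = y
      · rw [List.filter_cons_of_pos (by simpa using hsxy),
          List.filter_cons_of_pos (by simpa using hsxy)] at h3
        have h4 : U.filter (fun z => decide (z = x ∨ z = y)) = [] := by
          rw [List.filter_eq_nil_iff]
          intro z hz hz'
          have hz'' : z = x ∨ z = y := by simpa using hz'
          have hzs : z ≠ s := fun h' => h2 (h' ▸ hz)
          rcases hsxy with h' | h' <;> rcases hz'' with h'' | h''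
          · exact hzs (h''.trans h'.symm)
          · subst h'; subst h''; exact hU _ hz hxy
          · subst h'; subst h''; exact hU _ hz (hsymm _ _ hxy)
          · exact hzs (h''.trans h'.symm)
        rw [h4, List.nil_append] at h3 ⊢
        exact (List.cons.inj h3).2
      · rw [List.filter_cons_of_neg (by simpa using hsxy),
          List.filter_cons_of_neg (by simpa using hsxy)] at h3
        exact h3
    rw [List.map_cons, List.prod_cons, ih _ hperm hfil]
    simp only [List.map_append, List.map_cons, List.prod_append, List.prod_cons]
    rw [← mul_assoc, ← mul_assoc, hcomm]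

open Classical in
theorem Words_filter_eq {B : Type u} (s r : B) (L M : List B) (hM : L.Sublist M)
    (e1 : L.count s = M.count s) (e2 : L.count r = M.count r) :
    L.filter (fun x => decide (x = s ∨ x = r)) = M.filter (fun x => decide (x = s ∨ x = r)) := by
  induction hM with
  | slnil => rfl
  | cons a hM ih =>
    have f1 := hM.count_le s
    have f2 := hM.count_le r
    rw [List.count_cons] at e1 e2
    have has : a ≠ s := by
      intro h'
      rw [if_pos (by simpa using h')] at e1
      omega
    have har : a ≠ r := by
      intro h'
      rw [if_pos (by simpa using h')] at e2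
      omega
    have a1 : (a == s) = false := by simpa using has
    have a2 : (a == r) = false := by simpa using har
    rw [a1] at e1
    rw [a2] at e2
    rw [List.filter_cons_of_neg (by simp [has, har])]
    exact ih (by simpa using e1) (by simpa using e2)
  | cons_cons a hM ih =>
    rw [List.count_cons, List.count_cons] at e1 e2
    have ih' := ih (by omega) (by omega)
    by_cases hsa : a = s ∨ a = r
    · rw [List.filter_cons_of_pos (by simpa using hsa), List.filter_cons_of_pos (by simpa using hsa), ih']
    · rw [List.filter_cons_of_neg (by simpa using hsa), List.filter_cons_of_neg (by simpa using hsa), ih']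

open Classical in
theorem prod_eq {B : Type u} {G : Type v} [Monoid G] (nc : B → B → Prop)
    (hsymm : ∀ s r, nc s r → nc r s) (φ : B → G)
    (hφ : ∀ s r, ¬ nc s r → φ s * φ r = φ r * φ s) (ω ω' : List B) (hlen : ω'.length ≤ ω.length)
    (h : ∀ s r, (nc s r ∨ s = r) → ∃ L : List B, L.Sublist ω ∧ L.Sublist ω' ∧
      L.count s = ω.count s ∧ L.count r = ω.count r) :
    (ω.map φ).prod = (ω'.map φ).prod := by
  have hperm : ω.Perm ω' := by
    have h1 : ω.Subperm ω' := by
      rw [List.subperm_ext_iff]
      intro x _
      obtain ⟨L, h1, h2, h3, _⟩ := h x x (Or.inr rfl)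
      rw [← h3]
      exact h2.count_le x
    exact h1.perm_of_length_le hlen
  apply Words_prod nc hsymm φ hφ ω ω' hperm
  intro s r hsr
  obtain ⟨L, h1, h2, h3, h4⟩ := h s r (Or.inl hsr)
  rw [← Words_filter_eq s r L ω h1 h3 h4]
  exact Words_filter_eq s r L ω' h2 (h3.trans (hperm.count_eq s)) (h4.trans (hperm.count_eq r))

end Pool.Agent.H66.NCL
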