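import Pool.Agent.H66.NCL.Ops

/-!
# Module PBasic: operations on the property `P`

PLAN.
* `P.matrix`: `(Matrix (Fin n) (Fin n) (Matrix J J R))ˣ ≃* (Matrix (Fin n × J) (Fin n × J) R)ˣ`
  (`Matrix.compRingEquiv`) `≃* (Matrix (Fin m) (Fin m) R)ˣ` (`Matrix.reindexRingEquiv` or
  `Matrix.reindexAlgEquiv`, `Fintype.equivFin`), `Units.mapEquiv`; then `CE.of_injective`.
* `P.of_injective`: `Units.map (ψ.mapMatrix)` is injective; `CE.of_injective`.
* `P.of_finite`: `CE.of_finite`.
* `P.of_finset`: `CE.of_finset`: for `S` a finite set of invertible matrices let `C` be the set of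
  all entries of `g` and `g⁻¹`, `g ∈ S`; get `R'`, `ψ`; `H` = range of `Units.map ψ.mapMatrix`,
  it contains `S` (lift `g` and `g⁻¹` entrywise; `ψ` injective gives that the lifts are inverse to
  each other), and `H ≃* (Matrix (Fin n) (Fin n) R')ˣ` (`MonoidHom.ofInjective`).
* `P.finiteDimensional`: `Algebra.leftMulMatrix` is an injective ring hom
  `A →+* Matrix J J k`; use `P.matrix` and `P.of_injective`.
-/

namespace Pool.Agent.H66.NCL

universe u v w x

theorem P.matrix {R : Type u} [Ring R] (h : P.{u, x} R) (J : Type v) [Fintype J]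
    [DecidableEq J] : P.{max u v, x} (Matrix J J R) := by
  intro n
  let e1 : Matrix (Fin n) (Fin n) (Matrix J J R) ≃+* Matrix (Fin n × J) (Fin n × J) R :=
    Matrix.compRingEquiv (Fin n) J R
  let e2 : Matrix (Fin n × J) (Fin n × J) R ≃+*
      Matrix (Fin (Fintype.card (Fin n × J))) (Fin (Fintype.card (Fin n × J))) R :=
    Matrix.reindexRingEquiv R (Fintype.equivFin (Fin n × J))
  let e : (Matrix (Fin n) (Fin n) (Matrix J J R))ˣ ≃*
      (Matrix (Fin (Fintype.card (Fin n × J))) (Fin (Fintype.card (Fin n × J))) R)ˣ :=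
    Units.mapEquiv (e1.trans e2).toMulEquiv
  exact CE.of_injective e.toMonoidHom e.injective (h _)

theorem P_mapMatrix_injective {R : Type u} {S : Type v} [Ring R] [Ring S] (ψ : R →+* S)
    (hψ : Function.Injective ψ) (n : ℕ) :
    Function.Injective (Units.map ((ψ.mapMatrix : Matrix (Fin n) (Fin n) R →+*
      Matrix (Fin n) (Fin n) S) : Matrix (Fin n) (Fin n) R →* Matrix (Fin n) (Fin n) S)) := by
  intro a b hab
  apply Units.ext
  have h1 := congrArg Units.val hab
  exact Matrix.map_injective hψ h1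

theorem P.of_injective {R : Type u} {S : Type v} [Ring R] [Ring S] (ψ : R →+* S)
    (hψ : Function.Injective ψ) (h : P.{v, x} S) : P.{u, x} R := by
  intro n
  exact CE.of_injective _ (P_mapMatrix_injective ψ hψ n) (h n)

theorem P.of_finite (R : Type u) [Ring R] [Finite R] : P.{u, x} R := by
  intro n
  exact CE.of_finite _

theorem P.of_finset {R : Type u} [Ring R]
    (h : ∀ C : Finset R, ∃ (R' : Type u) (_ : Ring R') (ψ : R' →+* R),
      Function.Injective ψ ∧ (↑C : Set R) ⊆ Set.range ψ ∧ P.{u, u} R') : P.{u, u} R := by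
  classical
  intro n
  apply CE.of_finset
  intro S
  obtain ⟨R', hR', ψ, hψ, hC, hP⟩ := h (S.biUnion fun g =>
    (Finset.univ.image fun p : Fin n × Fin n => g.val p.1 p.2) ∪
      (Finset.univ.image fun p : Fin n × Fin n => g⁻¹.val p.1 p.2))
  have hinj := P_mapMatrix_injective ψ hψ n
  refine ⟨(Units.map ((ψ.mapMatrix : Matrix (Fin n) (Fin n) R' →+*
      Matrix (Fin n) (Fin n) R) : Matrix (Fin n) (Fin n) R' →* Matrix (Fin n) (Fin n) R)).range,
    ?_, ?_⟩
  · intro g hg
    have hg' : g ∈ S := hg
    have h1 : ∀ i j, ∃ r, ψ r = g.val i j := fun i j => hC (by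
      rw [Finset.mem_coe, Finset.mem_biUnion]
      exact ⟨g, hg', Finset.mem_union_left _ (Finset.mem_image.2 ⟨(i, j), Finset.mem_univ _, rfl⟩)⟩)
    have h2 : ∀ i j, ∃ r, ψ r = g⁻¹.val i j := fun i j => hC (by
      rw [Finset.mem_coe, Finset.mem_biUnion]
      exact ⟨g, hg', Finset.mem_union_right _ (Finset.mem_image.2 ⟨(i, j), Finset.mem_univ _, rfl⟩)⟩)
    choose A hA using h1
    choose B hB using h2
    have hA' : (ψ.mapMatrix (Matrix.of A) : Matrix (Fin n) (Fin n) R) = g.val := by
      ext i j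
      exact hA i j
    have hB' : (ψ.mapMatrix (Matrix.of B) : Matrix (Fin n) (Fin n) R) = g⁻¹.val := by
      ext i j
      exact hB i j
    have hAB : Matrix.of A * Matrix.of B = 1 := by
      apply Matrix.map_injective hψ
      change ψ.mapMatrix (Matrix.of A * Matrix.of B) = ψ.mapMatrix 1
      rw [map_mul, hA', hB', map_one]
      exact g.mul_inv
    have hBA : Matrix.of B * Matrix.of A = 1 := by
      apply Matrix.map_injective hψ
      change ψ.mapMatrix (Matrix.of B * Matrix.of A) = ψ.mapMatrix 1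
      rw [map_mul, hA', hB', map_one]
      exact g.inv_mul
    exact ⟨⟨Matrix.of A, Matrix.of B, hAB, hBA⟩, Units.ext hA'⟩
  · exact CE.of_injective (MonoidHom.ofInjective hinj).symm.toMonoidHom
      (MonoidHom.ofInjective hinj).symm.injective (hP n)

theorem P.finiteDimensional {k : Type u} {A : Type v} [Field k] [Ring A] [Algebra k A]
    [FiniteDimensional k A] (h : P.{u, x} k) : P.{v, x} A := by
  classical
  let b := Module.finBasis k A
  exact P.of_injective (Algebra.leftMulMatrix b).toRingHom (Algebra.leftMulMatrix_injective b)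
    (h.matrix (Fin (Module.finrank k A)))

end Pool.Agent.H66.NCL
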