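import Pool.Agent.H66.NCL.Ops

/-!
# Module Ext: extensions
-/

namespace Pool.Agent.H66.NCL

universe u v x

theorem mul_eq_zero_of_ip_eq_zero {ι : Type x} {a b : ι →₀ ℝ} (ha : ∀ i, 0 ≤ a i)
    (hb : ∀ i, 0 ≤ b i) (h : ip a b = 0) (i : ι) : a i * b i = 0 := by
  rw [ip_eq_sum a b (s := a.support) subset_rfl,
    Finset.sum_eq_zero_iff_of_nonneg fun i _ => mul_nonneg (ha i) (hb i)] at h
  by_cases hi : i ∈ a.support
  · exact h i hi
  · rw [Finsupp.notMem_support_iff.mp hi, zero_mul]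

theorem CE.extension {G : Type u} {Q : Type v} [Group G] [Group Q] (π : G →* Q)
    (hQ : CE.{v, x} Q) (hK : CE.{u, x} π.ker) : CE.{u, x} G := by
  classical
  intro S ε hε
  obtain ⟨ε', hε'0, hε'1, hε'ε⟩ : ∃ ε' : ℝ, 0 < ε' ∧ ε' ≤ 1 ∧ ε' ≤ ε / 2 :=
    ⟨min (ε / 2) 1, lt_min (by positivity) one_pos, min_le_right _ _, min_le_left _ _⟩
  obtain ⟨ι, v, TQ, hTQ, v0, v1, vc, vf⟩ := hQ (S.image π) ε' hε'0
  have hTQ' : TQ.Finite := hTQ
  -- base points
  have ex1 : ∀ i : ι, ∃ p : G, (∃ p', v (π p') i ≠ 0) → v (π p) i ≠ 0 := by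
    intro i
    by_cases h : ∃ p', v (π p') i ≠ 0
    · obtain ⟨p', hp'⟩ := h
      exact ⟨p', fun _ => hp'⟩
    · exact ⟨1, fun h' => absurd h' h⟩
  choose p hp using ex1
  have ex2 : ∀ q : Q, ∃ t : G, (∃ t', π t' = q) → π t = q := by
    intro q
    by_cases h : ∃ t', π t' = q
    · obtain ⟨t', ht'⟩ := h
      exact ⟨t', fun _ => ht'⟩
    · exact ⟨1, fun h' => absurd h' h⟩
  choose t ht using ex2
  have hker : ∀ (i : ι) (g : G), (p i)⁻¹ * g * (t ((π (p i))⁻¹ * π g))⁻¹ ∈ π.ker := by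
    intro i g
    rw [MonoidHom.mem_ker, map_mul, map_inv, ht _ ⟨(p i)⁻¹ * g, by simp⟩]
    simp
  let k : ι → G → π.ker := fun i g => ⟨_, hker i g⟩
  have hkval : ∀ i g, (k i g : G) = (p i)⁻¹ * g * (t ((π (p i))⁻¹ * π g))⁻¹ := fun _ _ => rfl
  have hTmem : ∀ i g, v (π g) i ≠ 0 → (π (p i))⁻¹ * π g ∈ TQ := by
    intro i g hg
    by_contra hno
    have h1 := vf (π (p i)) _ hno
    rw [mul_inv_cancel_left] at h1
    have h2 := mul_eq_zero_of_ip_eq_zero (v0 _) (v0 _) h1 i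
    rcases mul_eq_zero.mp h2 with h3 | h3
    · exact hp i ⟨g, hg⟩ h3
    · exact hg h3
  have hrel : ∀ i g y, (t ((π (p i))⁻¹ * π g)) * y * (t ((π (p i))⁻¹ * π (g * y)))⁻¹ =
      (k i g : G)⁻¹ * (k i (g * y) : G) := by
    intro i g y
    rw [hkval, hkval]
    group
  let SN : Finset π.ker := (hTQ'.toFinset ×ˢ (hTQ'.toFinset ×ˢ S)).image fun z =>
    if h : t z.1 * z.2.2 * (t z.2.1)⁻¹ ∈ π.ker then ⟨_, h⟩ else 1
  obtain ⟨κ, w, TN, hTN, w0, w1, wc, wf⟩ := hK SN ε' hε'0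
  have hTN' : TN.Finite := hTN
  let V : G → ι × κ →₀ ℝ := fun g =>
    ∑ i ∈ (v (π g)).support, (v (π g) i) • tens (Finsupp.single i 1) (w (k i g))
  have hV : ∀ g h, ip (V g) (V h) =
      ∑ i ∈ (v (π g)).support, v (π g) i * v (π h) i * ip (w (k i g)) (w (k i h)) := by
    intro g h
    show ip (∑ i ∈ _, _) _ = _
    rw [ip_sum_left]
    apply Finset.sum_congr rfl
    intro i _
    show ip _ (∑ i' ∈ _, _) = _
    rw [ip_smul_left, ip_sum_right, mul_assoc]
    congr 1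
    have h1 : ∀ i' ∈ (v (π h)).support,
        ip (tens (Finsupp.single i 1) (w (k i g)))
          ((v (π h) i') • tens (Finsupp.single i' 1) (w (k i' h))) =
        if i' = i then v (π h) i * ip (w (k i g)) (w (k i h)) else 0 := by
      intro i' _
      rw [ip_smul_right, ip_tens, ip_single_left, Finsupp.single_apply]
      by_cases hii : i' = i
      · subst hii; simp
      · rw [if_neg hii, if_neg hii]; simp
    rw [Finset.sum_congr rfl h1, Finset.sum_ite_eq']
    split_ifs with h2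
    · rfl
    · rw [Finsupp.notMem_support_iff.mp h2, zero_mul]
  refine ⟨ι × κ, V, {x | ∃ q ∈ TQ, ∃ q' ∈ TQ, ∃ m ∈ TN, x = (t q)⁻¹ * (m : G) * t q'}, ?_, ?_, ?_,
    ?_, ?_⟩
  · have : ((TQ ×ˢ (TQ ×ˢ TN)).image fun z : Q × Q × π.ker =>
        (t z.1)⁻¹ * (z.2.2 : G) * t z.2.1).Finite := (hTQ'.prod (hTQ'.prod hTN')).image _
    refine this.subset ?_
    rintro x ⟨q, hq, q', hq', m, hm, rfl⟩
    exact ⟨(q, q', m), ⟨hq, hq', hm⟩, rfl⟩
  · intro g z
    show 0 ≤ (∑ i ∈ _, _ : ι × κ →₀ ℝ) z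
    rw [Finsupp.finsetSum_apply]
    apply Finset.sum_nonneg
    intro i _
    rw [Finsupp.smul_apply, smul_eq_mul]
    refine mul_nonneg (v0 _ _) (tens_nonneg ?_ (w0 _) z)
    intro j
    rw [Finsupp.single_apply]; split_ifs <;> norm_num
  · intro g
    rw [hV, ← v1 (π g), ip_eq_sum _ _ (s := (v (π g)).support) subset_rfl]
    apply Finset.sum_congr rfl
    intro i _
    rw [w1, mul_one]
  · intro g s hs
    rw [hV]
    have h1 := vc (π g) (π s) (Finset.mem_image_of_mem _ hs)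
    rw [← map_mul, ip_eq_sum _ _ (s := (v (π g)).support) subset_rfl] at h1
    have h2 : (1 - ε') * ∑ i ∈ (v (π g)).support, v (π g) i * v (π (g * s)) i ≤
        ∑ i ∈ (v (π g)).support,
          v (π g) i * v (π (g * s)) i * ip (w (k i g)) (w (k i (g * s))) := by
      rw [Finset.mul_sum]
      apply Finset.sum_le_sum
      intro i hi
      rw [mul_comm (1 - ε')]
      by_cases hz : v (π (g * s)) i = 0
      · rw [hz]; simp
      · apply mul_le_mul_of_nonneg_left _ (mul_nonneg (v0 _ _) (v0 _ _))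
        have hn : (k i g)⁻¹ * k i (g * s) ∈ SN := by
          rw [Finset.mem_image]
          refine ⟨((π (p i))⁻¹ * π g, (π (p i))⁻¹ * π (g * s), s), ?_, ?_⟩
          · simp only [Finset.mem_product, Set.Finite.mem_toFinset]
            exact ⟨hTmem i g (Finsupp.mem_support_iff.mp hi), hTmem i _ hz, hs⟩
          · have hmem : t ((π (p i))⁻¹ * π g) * s * (t ((π (p i))⁻¹ * π (g * s)))⁻¹ ∈ π.ker := by
              rw [hrel]
              exact π.ker.mul_mem (π.ker.inv_mem (k i g).2) (k i (g * s)).2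
            rw [dif_pos hmem]
            apply Subtype.ext
            exact hrel i g s
        have h3 := wc (k i g) _ hn
        rwa [mul_inv_cancel_left] at h3
    have h4 : (1 - ε') * (1 - ε') ≤ (1 - ε') * ∑ i ∈ (v (π g)).support,
        v (π g) i * v (π (g * s)) i := mul_le_mul_of_nonneg_left h1 (by linarith)
    nlinarith
  · intro g y hy
    rw [hV]
    apply Finset.sum_eq_zero
    intro i hi
    by_cases hz : v (π (g * y)) i = 0
    · rw [hz]; simp
    · have hn : (k i g)⁻¹ * k i (g * y) ∉ TN := by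
        intro hmem
        apply hy
        refine ⟨_, hTmem i g (Finsupp.mem_support_iff.mp hi), _, hTmem i _ hz, _, hmem, ?_⟩
        rw [Subgroup.coe_mul, Subgroup.coe_inv, ← hrel]
        group
      have h3 := wf (k i g) _ hn
      rw [mul_inv_cancel_left] at h3
      rw [h3, mul_zero]

end Pool.Agent.H66.NCL
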