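import Pool.Agent.H66.NCL.Defs

/-!
# Module TransA: absolute values on `k(y)` and bounded elements of `k[y][1/f]`

PLAN. `nvInf`: from `RatFunc.inftyValuation`-type valuation (`Mathlib.FieldTheory.RatFunc.Valuation`,
`inftyValuation : Valuation (RatFunc F) ℤᵐ⁰`) or directly `nv x = 2 ^ intDegree x` (`0` at `0`).
`nvP v`: `v : HeightOneSpectrum k[X]`, `v.valuation (RatFunc k) : Valuation _ ℤᵐ⁰`, turned into a
real number with `WithZeroMulInt.toNNReal (e := 2)` (or any strictly monotone multiplicative map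
`ℤᵐ⁰ → ℝ`).
`bounded_elements`: if `f^m x` is a polynomial for some `m`, `nvInf x ≤ C` and `nvP v x ≤ C` for
the (finitely many) `v` dividing `f`, then `f^M x` has all valuations `≤ 1` (for `v` not dividing
`f`, `f` is a `v`-unit), hence is a polynomial
(`HeightOneSpectrum.mem_integers_of_valuation_le_one`), of degree at most
`M deg f + log₂ C =: N`. `M` and `N` depend only on `C` and `f`.
The package `exists_absolute_values` is all that is used later.
-/

namespace Pool.Agent.H66.NCL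

universe u

open Polynomial

open WithZero IsDedekindDomain

/-- the real absolute value on `ℤᵐ⁰` with base `2` -/
noncomputable def rv : ℤᵐ⁰ →*₀ NNReal :=
  WithZeroMulInt.toNNReal (e := 2) (ne_of_gt (by norm_num : (0 : NNReal) < 2))

theorem rv_strictMono : StrictMono rv :=
  WithZeroMulInt.toNNReal_strictMono (e := 2) (by norm_num : (1 : NNReal) < 2)

theorem rv_exp (n : ℤ) : rv (exp n) = 2 ^ n := by
  rw [rv, WithZeroMulInt.toNNReal_neg_apply _ exp_ne_zero]
  congr 1

/-- the real absolute value of a valuation -/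
noncomputable def nvOf {K : Type u} [Field K] (w : Valuation K ℤᵐ⁰) (x : K) : ℝ := (rv (w x) : ℝ)

theorem nvOf_le_nvOf {K : Type u} [Field K] (w : Valuation K ℤᵐ⁰) {x y : K} (h : w x ≤ w y) :
    nvOf w x ≤ nvOf w y :=
  NNReal.coe_le_coe.2 (rv_strictMono.monotone h)

theorem nvOf_mul {K : Type u} [Field K] (w : Valuation K ℤᵐ⁰) (x y : K) :
    nvOf w (x * y) = nvOf w x * nvOf w y := by
  rw [nvOf, map_mul, map_mul, NNReal.coe_mul]
  rfl

theorem nvOf_pow {K : Type u} [Field K] (w : Valuation K ℤᵐ⁰) (x : K) (m : ℕ) :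
    nvOf w (x ^ m) = nvOf w x ^ m := by
  rw [nvOf, map_pow, map_pow, NNReal.coe_pow]
  rfl

theorem nvOf_nonneg {K : Type u} [Field K] (w : Valuation K ℤᵐ⁰) (x : K) : 0 ≤ nvOf w x :=
  NNReal.coe_nonneg _

theorem nvOf_eq_zero {K : Type u} [Field K] (w : Valuation K ℤᵐ⁰) (x : K) :
    nvOf w x = 0 ↔ x = 0 := by
  rw [nvOf, NNReal.coe_eq_zero, map_eq_zero, map_eq_zero]

theorem nvOf_pos {K : Type u} [Field K] (w : Valuation K ℤᵐ⁰) {x : K} (hx : x ≠ 0) :
    0 < nvOf w x :=
  lt_of_le_of_ne (nvOf_nonneg w x) (fun h => hx ((nvOf_eq_zero w x).1 h.symm))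

theorem nvOf_le_one_iff {K : Type u} [Field K] (w : Valuation K ℤᵐ⁰) (x : K) :
    nvOf w x ≤ 1 ↔ w x ≤ 1 := by
  rw [nvOf, ← NNReal.coe_one, NNReal.coe_le_coe, ← map_one rv, rv_strictMono.le_iff_le]

theorem nvOf_lt_one_iff {K : Type u} [Field K] (w : Valuation K ℤᵐ⁰) (x : K) :
    nvOf w x < 1 ↔ w x < 1 := by
  rw [nvOf, ← NNReal.coe_one, NNReal.coe_lt_coe, ← map_one rv, rv_strictMono.lt_iff_lt]

theorem nvOf_add_le_max {K : Type u} [Field K] (w : Valuation K ℤᵐ⁰) (x y : K) :
    nvOf w (x + y) ≤ max (nvOf w x) (nvOf w y) := by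
  rcases le_max_iff.1 (w.map_add x y) with h | h
  · exact (nvOf_le_nvOf w h).trans (le_max_left _ _)
  · exact (nvOf_le_nvOf w h).trans (le_max_right _ _)

theorem isUltra_nvOf {K : Type u} [Field K] (w : Valuation K ℤᵐ⁰) : IsUltra (nvOf w) where
  nonneg := nvOf_nonneg w
  eq_zero := nvOf_eq_zero w
  mul := nvOf_mul w
  add_le x y := (nvOf_add_le_max w x y).trans
    (max_le_add_of_nonneg (nvOf_nonneg w x) (nvOf_nonneg w y))
  add_le_max := nvOf_add_le_max w

/-- a valuation `< 1` is `≤ 1/2` -/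
theorem nvOf_le_half {K : Type u} [Field K] (w : Valuation K ℤᵐ⁰) {x : K} (hx : w x < 1) :
    nvOf w x ≤ 1 / 2 := by
  by_cases h0 : w x = 0
  · rw [nvOf, h0, map_zero]
    norm_num
  · have h1 : w x = exp (log (w x)) := (exp_log h0).symm
    have h2 : log (w x) ≤ -1 := by
      have h3 : log (w x) < 0 := by
        rw [h1, ← exp_zero, exp_lt_exp] at hx
        exact hx
      omega
    rw [nvOf, h1, rv_exp]
    push_cast
    calc (2 : ℝ) ^ log (w x) ≤ 2 ^ (-1 : ℤ) := zpow_le_zpow_right₀ (by norm_num) h2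
      _ = 1 / 2 := by norm_num

/-- For `f ≠ 0` in `k[y]` there is a finite family of ultrametric absolute values `nv i` on `k(y)`,
nontrivial (`ϖ i`), such that for every `C` there are `M`, `N` such that every element
`x = h / f^m` of `k[y][1/f]` with `nv i x ≤ C` for all `i` satisfies `f^M x = h'` for a
polynomial `h'` of degree `≤ N`. -/
theorem exists_absolute_values (k : Type u) [Field k] (f : k[X]) (hf : f ≠ 0) :
    ∃ (r : ℕ) (nv : Fin r → RatFunc k → ℝ) (ϖ : Fin r → RatFunc k),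
      (∀ i, IsUltra (nv i)) ∧ (∀ i, 0 < nv i (ϖ i) ∧ nv i (ϖ i) < 1) ∧
      ∀ C : ℝ, ∃ M N : ℕ, ∀ x : RatFunc k,
        (∃ (m : ℕ) (h : k[X]), x * algebraMap k[X] (RatFunc k) f ^ m = algebraMap _ _ h) →
        (∀ i, nv i x ≤ C) →
        ∃ h : k[X], h.natDegree ≤ N ∧
          x * algebraMap k[X] (RatFunc k) f ^ M = algebraMap k[X] (RatFunc k) h := by
  classical
  have hf' : algebraMap k[X] (RatFunc k) f ≠ 0 := by
    rw [Ne, FaithfulSMul.algebraMap_eq_zero_iff]
    exact hf
  have hfin : {v : HeightOneSpectrum k[X] | v.asIdeal ∣ Ideal.span {f}}.Finite := by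
    apply Ideal.finite_factors
    rw [Ne, Ideal.zero_eq_bot, Ideal.span_singleton_eq_bot]
    exact hf
  obtain ⟨s, hs⟩ : ∃ s : Finset (HeightOneSpectrum k[X]),
      ∀ v, v ∈ s ↔ v.asIdeal ∣ Ideal.span {f} :=
    ⟨hfin.toFinset, fun v => by rw [Set.Finite.mem_toFinset]; rfl⟩
  let e := s.equivFin
  let W : Fin (s.card + 1) → Valuation (RatFunc k) ℤᵐ⁰ :=
    Fin.cons (RatFunc.inftyValuation k) (fun i => (e.symm i).1.valuation (RatFunc k))
  let ϖ : Fin (s.card + 1) → RatFunc k :=
    Fin.cons (1 / RatFunc.X) (fun _ => algebraMap k[X] (RatFunc k) f)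
  refine ⟨s.card + 1, fun i => nvOf (W i), ϖ, fun i => isUltra_nvOf (W i), ?_, ?_⟩
  · intro i
    refine Fin.cases ?_ (fun j => ?_) i
    · refine ⟨nvOf_pos _ ?_, ?_⟩
      · exact one_div_ne_zero RatFunc.X_ne_zero
      · change nvOf (RatFunc.inftyValuation k) (1 / RatFunc.X) < 1
        rw [nvOf_lt_one_iff, RatFunc.inftyValuation.X_inv, ← exp_zero, exp_lt_exp]
        norm_num
    · refine ⟨nvOf_pos _ hf', ?_⟩
      change nvOf ((e.symm j).1.valuation (RatFunc k)) (algebraMap k[X] (RatFunc k) f) < 1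
      rw [nvOf_lt_one_iff, HeightOneSpectrum.valuation_lt_one_iff_dvd]
      exact (hs _).1 (e.symm j).2
  · intro C
    obtain ⟨M, hM⟩ : ∃ M : ℕ, C ≤ 2 ^ M := by
      obtain ⟨M, hM⟩ := pow_unbounded_of_one_lt C (by norm_num : (1 : ℝ) < 2)
      exact ⟨M, hM.le⟩
    obtain ⟨N, hN⟩ : ∃ N : ℕ, C * nvOf (RatFunc.inftyValuation k)
        (algebraMap k[X] (RatFunc k) f) ^ M ≤ 2 ^ N := by
      obtain ⟨N, hN⟩ := pow_unbounded_of_one_lt (C * nvOf (RatFunc.inftyValuation k)
        (algebraMap k[X] (RatFunc k) f) ^ M) (by norm_num : (1 : ℝ) < 2)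
      exact ⟨N, hN.le⟩
    refine ⟨M, N, ?_⟩
    rintro x ⟨m, g, hg⟩ hx
    have hmem : x * algebraMap k[X] (RatFunc k) f ^ M ∈ (algebraMap k[X] (RatFunc k)).range := by
      apply HeightOneSpectrum.mem_integers_of_valuation_le_one
      intro v
      by_cases hv : v ∈ s
      · rw [← nvOf_le_one_iff, nvOf_mul, nvOf_pow]
        have h1 : nvOf (v.valuation (RatFunc k)) x ≤ C := by
          have h2 := hx (Fin.succ (e ⟨v, hv⟩))
          have h3 : W (Fin.succ (e ⟨v, hv⟩)) = v.valuation (RatFunc k) := by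
            change (e.symm (e ⟨v, hv⟩)).1.valuation (RatFunc k) = _
            rw [Equiv.symm_apply_apply]
          rw [← h3]
          exact h2
        have h4 : nvOf (v.valuation (RatFunc k)) (algebraMap k[X] (RatFunc k) f) ≤ 1 / 2 := by
          apply nvOf_le_half
          rw [HeightOneSpectrum.valuation_lt_one_iff_dvd]
          exact (hs v).1 hv
        calc nvOf (v.valuation (RatFunc k)) x *
              nvOf (v.valuation (RatFunc k)) (algebraMap k[X] (RatFunc k) f) ^ M
            ≤ 2 ^ M * (1 / 2) ^ M := by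
              apply mul_le_mul (h1.trans hM) (pow_le_pow_left₀ (nvOf_nonneg _ _) h4 M)
                (pow_nonneg (nvOf_nonneg _ _) M) (by positivity)
          _ = 1 := by rw [← mul_pow]; norm_num
      · have h1 : v.valuation (RatFunc k) (algebraMap k[X] (RatFunc k) f) = 1 := by
          have h2 : ¬ v.valuation (RatFunc k) (algebraMap k[X] (RatFunc k) f) < 1 := by
            rw [HeightOneSpectrum.valuation_lt_one_iff_dvd]
            exact fun h => hv ((hs v).2 h)
          exact le_antisymm (HeightOneSpectrum.valuation_le_one v f) (not_lt.1 h2)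
        have h3 : v.valuation (RatFunc k) (x * algebraMap k[X] (RatFunc k) f ^ m) ≤ 1 := by
          rw [hg]
          exact HeightOneSpectrum.valuation_le_one v g
        rw [map_mul, map_pow, h1, one_pow, mul_one] at h3 ⊢
        exact h3
    obtain ⟨h, hh⟩ := hmem
    refine ⟨h, ?_, hh.symm⟩
    by_cases h0 : h = 0
    · rw [h0, natDegree_zero]
      exact Nat.zero_le _
    have h1 : nvOf (RatFunc.inftyValuation k) (algebraMap k[X] (RatFunc k) h) ≤ 2 ^ N := by
      rw [hh, nvOf_mul, nvOf_pow]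
      refine le_trans (mul_le_mul_of_nonneg_right (hx 0) (pow_nonneg (nvOf_nonneg _ _) M)) hN
    have h2 : nvOf (RatFunc.inftyValuation k) (algebraMap k[X] (RatFunc k) h) =
        2 ^ h.natDegree := by
      rw [nvOf, RatFunc.inftyValuation_apply, RatFunc.inftyValuation.polynomial k h0, rv_exp]
      push_cast
      rw [zpow_natCast]
    rw [h2] at h1
    exact (pow_le_pow_iff_right₀ (by norm_num : (1 : ℝ) < 2)).1 h1

end Pool.Agent.H66.NCL
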