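import Pool.Agent.H66.NCL.PBasic
import Pool.Agent.H66.NCL.Ultra
import Pool.Agent.H66.NCL.TransA

/-!
# Module TransB: `P k → P (k(y))`

PLAN. `P.of_finset`: for a finite set `C0 ⊆ k(y)` let `f ≠ 0` be a common denominator and
`R' = Localization.Away f` with its injective map `ψ` to `RatFunc k` (`f ≠ 0`). `P R'`: for
`GL_n(R')`, `Detect.bind` over the `r` absolute values `nv i` of `exists_absolute_values`
(`detect_ultra_hom (ψ : R' → RatFunc k)`) gives a detected family whose members are contained in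
`T_C = {g : all entries x of g, g⁻¹ satisfy nv i (ψ x) ≤ C for all i}`; for given `C`, let `M`, `N` be
as in `exists_absolute_values`, and let `p ∈ k[y]` be prime to `f` and of degree `> N`, e.g.
`p = 1 + f * X^(N+1)` (check degree; `IsCoprime f p` clear). `A = k[X] ⧸ (p) = AdjoinRoot p` is
a finite dimensional `k`-algebra, `f` is invertible in it, so there is a ring hom
`χ : R' →+* A` (`IsLocalization.Away.lift`). `P A` holds (`P.finiteDimensional`), which gives
(bind, `Detect.comap` along `Units.map χ.mapMatrix`) sets `T_C ∩ χ⁻¹(finite)`. Such a set is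
finite: `χ` is injective on the elements `x` with `f^M x = h`, `deg h ≤ N` (if `χ x = χ x'` then
`h ≡ h' mod p`, so `h = h'`), so a `g ∈ T_C` is determined by `χ g`.
-/

namespace Pool.Agent.H66.NCL

universe u v w x

open Polynomial

/-- the trivial family is detected -/
theorem TransB_triv {G : Type u} [Group G] {𝓣 : Set (Set G)} (h : Set.univ ∈ 𝓣) :
    Detect.{u, x} G 𝓣 := by
  intro S ε hε
  refine ⟨PUnit, fun _ => Finsupp.single PUnit.unit 1, Set.univ, h, ?_, ?_, ?_, ?_⟩
  · intro g i
    cases i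
    simp
  · intro g
    simp [ip]
  · intro g s _
    simp [ip]
    exact hε.le
  · intro g s hs
    exact absurd (Set.mem_univ s) hs

/-- finitely many ultrametric absolute values at once -/
theorem TransB_finset {D : Type u} [DivisionRing D] {R : Type u} [Ring R] (ψ : R →+* D) (n : ℕ)
    {r : ℕ} {nv : Fin r → D → ℝ} {ϖ : Fin r → D} (h : ∀ i, IsUltra (nv i))
    (hϖ : ∀ i, 0 < nv i (ϖ i) ∧ nv i (ϖ i) < 1) (s : Finset (Fin r)) :
    Detect.{u, u} (Matrix (Fin n) (Fin n) R)ˣ
      {T | ∃ C : ℝ, T = {g | ∀ i ∈ s, ∀ a b, nv i (ψ (g.val a b)) ≤ C ∧ nv i (ψ (g⁻¹.val a b)) ≤ C}} := by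
  classical
  induction s using Finset.induction_on with
  | empty =>
    apply TransB_triv
    refine ⟨0, ?_⟩
    ext g
    simp
  | insert i s his ih =>
    have h2 := Detect.bind (T2 := fun _ => BF (nv i) ψ n) ih
      (fun _ _ => detect_ultra_hom (h i) (ϖ i) (hϖ i).1 (hϖ i).2 ψ n)
    refine h2.mono ?_
    rintro T ⟨A, ⟨C1, rfl⟩, B, ⟨C2, rfl⟩, rfl⟩
    refine ⟨_, ⟨max C1 C2, rfl⟩, ?_⟩
    rintro g ⟨h1, h2⟩ j hj a b
    rw [Finset.mem_insert] at hj
    rcases hj with rfl | hj
    · exact ⟨(h2 a b).1.trans (le_max_right _ _), (h2 a b).2.trans (le_max_right _ _)⟩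
    · exact ⟨(h1 j hj a b).1.trans (le_max_left _ _), (h1 j hj a b).2.trans (le_max_left _ _)⟩

theorem TransB_away {k : Type u} [Field k] (h : P.{u, u} k) (f : k[X]) (hf : f ≠ 0)
    (ψ : Localization.Away f →+* RatFunc k) (hψ : Function.Injective ψ)
    (hψa : ∀ a : k[X], ψ (algebraMap k[X] (Localization.Away f) a) = algebraMap k[X] (RatFunc k) a) :
    P.{u, u} (Localization.Away f) := by
  intro n
  obtain ⟨r, nv, ϖ, hnv, hϖ, hb⟩ := exists_absolute_values k f hf
  have h1 := TransB_finset ψ n hnv hϖ Finset.univ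
  unfold CE
  have key : ∀ T ∈ {T : Set (Matrix (Fin n) (Fin n) (Localization.Away f))ˣ | ∃ C : ℝ, T = {g | ∀ i ∈ Finset.univ,
        ∀ a b, nv i (ψ (g.val a b)) ≤ C ∧ nv i (ψ (g⁻¹.val a b)) ≤ C}},
      Detect.{u, u} (Matrix (Fin n) (Fin n) (Localization.Away f))ˣ {B | (T ∩ B).Finite} := by
    rintro T ⟨C, rfl⟩
    obtain ⟨M, N, hMN⟩ := hb C
    set p : k[X] := 1 + f * X ^ (N + 1) with hp
    have hdeg : p.natDegree = f.natDegree + (N + 1) := by
      have h2 : (f * X ^ (N + 1)).natDegree = f.natDegree + (N + 1) := natDegree_mul_X_pow _ hf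
      rw [hp, add_comm, natDegree_add_eq_left_of_natDegree_lt, h2]
      rw [h2, natDegree_one]
      omega
    have hp0 : p ≠ 0 := by
      intro h2
      rw [h2, natDegree_zero] at hdeg
      omega
    have hu : IsUnit (AdjoinRoot.mk p f) := by
      have h2 : AdjoinRoot.mk p f * AdjoinRoot.mk p (-X ^ (N + 1)) = 1 := by
        rw [← map_mul, ← map_one (AdjoinRoot.mk p), AdjoinRoot.mk_eq_mk]
        refine ⟨-1, ?_⟩
        rw [hp]
        ring
      exact IsUnit.of_mul_eq_one _ h2
    let χ : Localization.Away f →+* AdjoinRoot p :=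
      IsLocalization.Away.lift f (g := AdjoinRoot.mk p) hu
    have hχ : ∀ a : k[X], χ (algebraMap k[X] (Localization.Away f) a) = AdjoinRoot.mk p a := fun a =>
      IsLocalization.Away.lift_eq f hu a
    have : FiniteDimensional k (AdjoinRoot p) := (AdjoinRoot.powerBasis hp0).finite
    have hA : P.{u, u} (AdjoinRoot p) := P.finiteDimensional (k := k) h
    have h2 := Detect.comap (Units.map (χ.mapMatrix : Matrix (Fin n) (Fin n) (Localization.Away f) →+* _).toMonoidHom)
      (hA n)
    refine h2.mono ?_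
    rintro B ⟨B', hB', rfl⟩
    refine ⟨_, ?_, subset_rfl⟩
    rw [Set.mem_setOf_eq] at hB' ⊢
    -- elements of bounded size are determined by their image
    have hinj : ∀ x x' : Localization.Away f, (∀ i, nv i (ψ x) ≤ C) → (∀ i, nv i (ψ x') ≤ C) → χ x = χ x' → x = x' := by
      intro x x' hx hx' hxx
      have hrep : ∀ z : Localization.Away f, (∀ i, nv i (ψ z) ≤ C) → ∃ a : k[X], a.natDegree ≤ N ∧
          z * algebraMap k[X] (Localization.Away f) f ^ M = algebraMap k[X] (Localization.Away f) a := by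
        intro z hz
        obtain ⟨m, a, ha⟩ := IsLocalization.Away.surj f z
        obtain ⟨a', ha', ha''⟩ := hMN (ψ z) ⟨m, a, by rw [← hψa, ← hψa, ← ha, map_mul, map_pow]⟩ hz
        refine ⟨a', ha', hψ ?_⟩
        rw [map_mul, map_pow, hψa, hψa, ha'']
      obtain ⟨a, ha, hxa⟩ := hrep x hx
      obtain ⟨a', ha', hxa'⟩ := hrep x' hx'
      have h3 : AdjoinRoot.mk p a = AdjoinRoot.mk p a' := by
        rw [← hχ, ← hχ, ← hxa, ← hxa', map_mul, map_mul, hxx]
      have h4 : a = a' := by
        rw [AdjoinRoot.mk_eq_mk] at h3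
        by_contra hne
        have h5 := natDegree_le_of_dvd h3 (sub_ne_zero.mpr hne)
        have h6 : (a - a').natDegree ≤ N := (natDegree_sub_le _ _).trans (max_le ha ha')
        omega
      have h5 : IsUnit (algebraMap k[X] (Localization.Away f) f ^ M) :=
        (IsLocalization.Away.algebraMap_isUnit (S := Localization.Away f) f).pow M
      rw [h4, ← hxa'] at hxa
      exact h5.mul_right_cancel hxa
    refine Set.Finite.of_injOn (f := Units.map (χ.mapMatrix : Matrix (Fin n) (Fin n) (Localization.Away f) →+* _).toMonoidHom)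
      (t := B') ?_ ?_ hB'
    · intro g hg
      exact hg.2
    · intro g hg g' hg' hgg
      apply Units.ext
      ext a b
      apply hinj _ _ (fun i => (hg.1 i (Finset.mem_univ i) a b).1) (fun i => (hg'.1 i (Finset.mem_univ i) a b).1)
      have h7 := congrArg (fun u : (Matrix (Fin n) (Fin n) (AdjoinRoot p))ˣ => u.val a b) hgg
      simpa using h7
  have h3 := Detect.bind h1 key
  refine h3.mono ?_
  rintro T ⟨A, hA, B, hB, rfl⟩
  exact ⟨_, hB, subset_rfl⟩

theorem P.ratFunc {k : Type u} [Field k] (h : P.{u, u} k) : P.{u, u} (RatFunc k) := by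
  classical
  apply P.of_finset
  intro C0
  set f : k[X] := ∏ c ∈ C0, c.denom with hfdef
  have hf : f ≠ 0 := Finset.prod_ne_zero_iff.mpr fun c _ => RatFunc.denom_ne_zero c
  have hinj : Function.Injective (algebraMap k[X] (RatFunc k)) := RatFunc.algebraMap_injective k
  have hf' : algebraMap k[X] (RatFunc k) f ≠ 0 := by
    rw [Ne, map_eq_zero_iff _ hinj]
    exact hf
  have hu : IsUnit (algebraMap k[X] (RatFunc k) f) := isUnit_iff_ne_zero.mpr hf'
  let ψ : Localization.Away f →+* RatFunc k := IsLocalization.Away.lift f (g := algebraMap k[X] (RatFunc k)) hu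
  have hψa : ∀ a : k[X], ψ (algebraMap k[X] (Localization.Away f) a) = algebraMap k[X] (RatFunc k) a := fun a =>
    IsLocalization.Away.lift_eq f hu a
  have huf : IsUnit (algebraMap k[X] (Localization.Away f) f) :=
    IsLocalization.Away.algebraMap_isUnit (S := Localization.Away f) f
  have hψ : Function.Injective ψ := by
    rw [injective_iff_map_eq_zero]
    intro z hz
    obtain ⟨m, a, ha⟩ := IsLocalization.Away.surj f z
    have h1 : algebraMap k[X] (RatFunc k) a = 0 := by
      rw [← hψa, ← ha, map_mul, hz, zero_mul]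
    rw [map_eq_zero_iff _ hinj] at h1
    rw [h1, map_zero] at ha
    exact (huf.pow m).mul_left_eq_zero.mp ha
  refine ⟨Localization.Away f, inferInstance, ψ, hψ, ?_, TransB_away h f hf ψ hψ hψa⟩
  intro c hc
  obtain ⟨g, hg⟩ : c.denom ∣ f := Finset.dvd_prod_of_mem _ hc
  refine ⟨algebraMap k[X] (Localization.Away f) (c.num * g) * ↑(huf.unit⁻¹), ?_⟩
  have h1 : ψ (algebraMap k[X] (Localization.Away f) (c.num * g) * ↑(huf.unit⁻¹)) * algebraMap k[X] (RatFunc k) f
      = algebraMap k[X] (RatFunc k) (c.num * g) := by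
    rw [← hψa, ← map_mul, mul_assoc, IsUnit.val_inv_mul, mul_one, hψa]
  have h2 : c * algebraMap k[X] (RatFunc k) f = algebraMap k[X] (RatFunc k) (c.num * g) := by
    have h3 : c * algebraMap k[X] (RatFunc k) c.denom = algebraMap k[X] (RatFunc k) c.num := by
      have h4 := RatFunc.num_div_denom c
      have h5 : algebraMap k[X] (RatFunc k) c.denom ≠ 0 := by
        rw [Ne, map_eq_zero_iff _ hinj]
        exact RatFunc.denom_ne_zero c
      rw [div_eq_iff h5] at h4
      exact h4.symm
    rw [hg, map_mul, map_mul, ← mul_assoc, h3]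
  exact mul_right_cancel₀ hf' (h1.trans h2.symm)

end Pool.Agent.H66.NCL
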