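import Pool.Agent.H66.NCL.PBasic
import Pool.Agent.H66.NCL.Rat
import Pool.Agent.H66.NCL.TransB

/-!
# Module Fields: `P K` for every field `K`

PLAN. Prime field `F`: `ℚ` (char 0: `P_rat`, `Detect.ulift` to get `P.{0, u} ℚ`) or `ZMod p`
(`P.of_finite`). `P.of_finset` with `R' = IntermediateField.adjoin F C`
(`IntermediateField.induction_on_adjoin_finset`): base `⊥` (`P.of_injective` via
`IntermediateField.botEquiv`), step `L → L⟮x⟯`: if `x` is algebraic over `L`,
`L⟮x⟯` is finite dimensional over `L` (`P.finiteDimensional`); if transcendental,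
`L⟮x⟯ ≃ RatFunc L` (`RatFunc.algEquivOfTranscendental` or similar in
`Mathlib/FieldTheory/RatFunc/AsPolynomial.lean`), `P.ratFunc`.
-/

namespace Pool.Agent.H66.NCL

universe u v

open IntermediateField in
theorem P_adjoin_one {L E : Type u} [Field L] [Field E] [Algebra L E] (x : E)
    (h : P.{u, u} L) : P.{u, u} L⟮x⟯ := by
  by_cases hx : IsAlgebraic L x
  · have := IntermediateField.adjoin.finiteDimensional hx.isIntegral
    exact P.finiteDimensional (k := L) h
  · have ht : Transcendental L x := hx
    have e := RatFunc.algEquivOfTranscendental x ht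
    exact P.of_injective e.symm.toRingEquiv.toRingHom e.symm.injective (P.ratFunc h)

theorem P_field_of {F : Type v} {K : Type u} [Field F] [Field K] [Algebra F K]
    (h : P.{v, u} F) : P.{u, u} K := by
  apply P.of_finset
  intro C
  refine ⟨IntermediateField.adjoin F (C : Set K), inferInstance,
    (IntermediateField.adjoin F (C : Set K)).val.toRingHom, Subtype.val_injective, ?_, ?_⟩
  · intro c hc
    exact ⟨⟨c, IntermediateField.subset_adjoin F _ hc⟩, rfl⟩
  · refine IntermediateField.induction_on_adjoin_finset C (fun L => P.{u, u} L) ?_ ?_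
    · exact P.of_injective (IntermediateField.botEquiv F K).toRingEquiv.toRingHom
        (IntermediateField.botEquiv F K).injective h
    · intro L x _ hL
      exact P_adjoin_one x hL

theorem P_field (K : Type u) [Field K] : P.{u, u} K := by
  obtain ⟨p, hp⟩ := CharP.exists K
  rcases CharP.char_is_prime_or_zero K p with h | h
  · have : Fact p.Prime := ⟨h⟩
    let _ : Algebra (ZMod p) K := ZMod.algebra K p
    exact P_field_of (P.of_finite.{0, u} (ZMod p))
  · subst h
    have : CharZero K := CharP.charP_to_charZero K
    exact P_field_of (F := ℚ) fun n => Detect.ulift (P_rat n)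

end Pool.Agent.H66.NCL
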