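import Pool.Agent.H66.NCL.Defs

/-! # Basic facts on `ip` -/

namespace Pool.Agent.H66.NCL

universe u v w x y

variable {ι : Type x} {κ : Type y}

theorem ip_eq_sum (a b : ι →₀ ℝ) {s : Finset ι} (hs : a.support ⊆ s) :
    ip a b = ∑ i ∈ s, a i * b i := by
  unfold ip
  exact Finsupp.sum_of_support_subset a hs (fun i t => t * b i) (by intro i _; simp)

theorem ip_comm (a b : ι →₀ ℝ) : ip a b = ip b a := by
  classical
  rw [ip_eq_sum a b (s := a.support ∪ b.support) Finset.subset_union_left,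
    ip_eq_sum b a (s := a.support ∪ b.support) Finset.subset_union_right]
  exact Finset.sum_congr rfl fun i _ => mul_comm _ _

theorem ip_add_left (a b c : ι →₀ ℝ) : ip (a + b) c = ip a c + ip b c := by
  classical
  rw [ip_eq_sum a c (s := a.support ∪ b.support) Finset.subset_union_left,
    ip_eq_sum b c (s := a.support ∪ b.support) Finset.subset_union_right,
    ip_eq_sum (a + b) c (s := a.support ∪ b.support) Finsupp.support_add,
    ← Finset.sum_add_distrib]
  exact Finset.sum_congr rfl fun i _ => by simp [add_mul]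

theorem ip_add_right (a b c : ι →₀ ℝ) : ip a (b + c) = ip a b + ip a c := by
  rw [ip_comm, ip_add_left, ip_comm b, ip_comm c]

theorem ip_smul_left (r : ℝ) (a b : ι →₀ ℝ) : ip (r • a) b = r * ip a b := by
  rw [ip_eq_sum a b (s := a.support) subset_rfl,
    ip_eq_sum (r • a) b (s := a.support) Finsupp.support_smul, Finset.mul_sum]
  exact Finset.sum_congr rfl fun i _ => by simp [mul_assoc]

theorem ip_smul_right (r : ℝ) (a b : ι →₀ ℝ) : ip a (r • b) = r * ip a b := by
  rw [ip_comm, ip_smul_left, ip_comm b]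

theorem ip_zero_left (b : ι →₀ ℝ) : ip 0 b = 0 := by simp [ip]

theorem ip_zero_right (b : ι →₀ ℝ) : ip b 0 = 0 := by simp [ip]

theorem ip_sum_left {α : Type*} (s : Finset α) (f : α → ι →₀ ℝ) (b : ι →₀ ℝ) :
    ip (∑ t ∈ s, f t) b = ∑ t ∈ s, ip (f t) b := by
  classical
  induction s using Finset.induction_on with
  | empty => simp [ip_zero_left]
  | insert a s ha ih => rw [Finset.sum_insert ha, Finset.sum_insert ha, ip_add_left, ih]

theorem ip_sum_right {α : Type*} (s : Finset α) (f : α → ι →₀ ℝ) (b : ι →₀ ℝ) :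
    ip b (∑ t ∈ s, f t) = ∑ t ∈ s, ip b (f t) := by
  rw [ip_comm, ip_sum_left]
  exact Finset.sum_congr rfl fun t _ => ip_comm _ _

theorem ip_nonneg {a b : ι →₀ ℝ} (ha : ∀ i, 0 ≤ a i) (hb : ∀ i, 0 ≤ b i) : 0 ≤ ip a b := by
  rw [ip_eq_sum a b (s := a.support) subset_rfl]
  exact Finset.sum_nonneg fun i _ => mul_nonneg (ha i) (hb i)

theorem ip_single_left (i : ι) (r : ℝ) (b : ι →₀ ℝ) : ip (Finsupp.single i r) b = r * b i := by
  unfold ip; rw [Finsupp.sum_single_index]; simp

theorem ip_le_one {a b : ι →₀ ℝ} (ha : ip a a = 1) (hb : ip b b = 1) : ip a b ≤ 1 := by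
  classical
  set s := a.support ∪ b.support
  rw [ip_eq_sum a a (s := s) Finset.subset_union_left] at ha
  rw [ip_eq_sum b b (s := s) Finset.subset_union_right] at hb
  rw [ip_eq_sum a b (s := s) Finset.subset_union_left]
  have : ∑ i ∈ s, a i * b i ≤ ∑ i ∈ s, (a i * a i + b i * b i) / 2 :=
    Finset.sum_le_sum fun i _ => by nlinarith [sq_nonneg (a i - b i)]
  rw [← Finset.sum_div, Finset.sum_add_distrib, ha, hb] at this
  linarith

/-- tensor product of finitely supported functions -/
noncomputable def tens (a : ι →₀ ℝ) (b : κ →₀ ℝ) : ι × κ →₀ ℝ :=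
  Finsupp.onFinset (a.support ×ˢ b.support) (fun p => a p.1 * b p.2) (by
    intro p hp
    simp only [Finset.mem_product, Finsupp.mem_support_iff]
    constructor
    · intro h; exact hp (by simp [h])
    · intro h; exact hp (by simp [h]))

@[simp] theorem tens_apply (a : ι →₀ ℝ) (b : κ →₀ ℝ) (p : ι × κ) :
    tens a b p = a p.1 * b p.2 := rfl

theorem tens_nonneg {a : ι →₀ ℝ} {b : κ →₀ ℝ} (ha : ∀ i, 0 ≤ a i) (hb : ∀ i, 0 ≤ b i)
    (p : ι × κ) : 0 ≤ tens a b p := mul_nonneg (ha _) (hb _)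

theorem ip_tens (a c : ι →₀ ℝ) (b d : κ →₀ ℝ) :
    ip (tens a b) (tens c d) = ip a c * ip b d := by
  classical
  rw [ip_eq_sum (tens a b) _ (s := a.support ×ˢ b.support), ip_eq_sum a c subset_rfl,
    ip_eq_sum b d subset_rfl, Finset.sum_mul_sum, Finset.sum_product]
  · exact Finset.sum_congr rfl fun i _ => Finset.sum_congr rfl fun j _ => by simp; ring
  · exact Finsupp.support_onFinset_subset

/-- squared distance -/
theorem ip_sub_sub (a b : ι →₀ ℝ) (ha : ip a a = 1) (hb : ip b b = 1) :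
    ip (a - b) (a - b) = 2 - 2 * ip a b := by
  have h1 : a - b = a + (-1 : ℝ) • b := by simp [sub_eq_add_neg]
  rw [h1, ip_add_left, ip_add_right, ip_add_right, ip_smul_left, ip_smul_left, ip_smul_right,
    ip_smul_right, ha, hb, ip_comm b a]
  ring

end Pool.Agent.H66.NCL
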