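import Mathlib

/-!
# Project NCL: coarse embeddings of matrix groups over free associative algebras
Definitions.
-/

namespace Pool.Agent.H66.NCL

universe u v w x

/-- inner product of two finitely supported real functions -/
noncomputable def ip {ι : Type x} (a b : ι →₀ ℝ) : ℝ := a.sum fun i t => t * b i

/-- `Detect G 𝓣`: for every finite `S` and `ε > 0` there is a map `v` from `G` to the
nonnegative part of the unit sphere of an `ℓ²` space (finitely supported functions), such that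
`v g` and `v (g s)` are close for `s ∈ S`, and `v g`, `v (g s)` are orthogonal as soon as `s` lies
outside some member `T` of the family `𝓣`. -/
def Detect (G : Type u) [Group G] (𝓣 : Set (Set G)) : Prop :=
  ∀ (S : Finset G) (ε : ℝ), 0 < ε →
    ∃ (ι : Type x) (v : G → ι →₀ ℝ) (T : Set G), T ∈ 𝓣 ∧
      (∀ g i, 0 ≤ v g i) ∧ (∀ g, ip (v g) (v g) = 1) ∧
      (∀ g, ∀ s ∈ S, 1 - ε ≤ ip (v g) (v (g * s))) ∧
      (∀ g s, s ∉ T → ip (v g) (v (g * s)) = 0)

/-- `CE G`: the family of finite sets is detected. -/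
def CE (G : Type u) [Group G] : Prop := Detect.{u, x} G {T | T.Finite}

/-- Property A of Yu (equivalently, exactness) for the group `G` with its left invariant coarse
structure: for every finite `S` and `ε > 0` there are a finite `T` and finitely supported
probability measures `a g` on `G`, supported in `g T`, with `‖a g - a (g s)‖₁ ≤ ε` for `s ∈ S`. -/
def PropertyA (G : Type u) [Group G] : Prop :=
  ∀ (S : Finset G) (ε : ℝ), 0 < ε →
    ∃ (T : Finset G) (a : G → G →₀ ℝ),
      (∀ g x, 0 ≤ a g x) ∧ (∀ g, ((a g).sum fun _ t => t) = 1) ∧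
      (∀ g x, a g x ≠ 0 → g⁻¹ * x ∈ T) ∧
      (∀ g, ∀ s ∈ S, ((a g - a (g * s)).sum fun _ t => |t|) ≤ ε)

/-- `G` coarsely embeds into a real Hilbert space: there is a map `f` to a real `ℓ²` space such
that `‖f (g s) - f g‖` is bounded in `g` for every `s`, and for every `R` only finitely many `s`
satisfy `‖f (g s) - f g‖ ≤ R` for some `g`. -/
def CoarselyEmbeds (G : Type u) [Group G] : Prop :=
  ∃ (ι : Type x) (f : G → lp (fun _ : ι => ℝ) 2),
    (∀ s : G, ∃ C : ℝ, ∀ g : G, ‖f (g * s) - f g‖ ≤ C) ∧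
    (∀ R : ℝ, {s : G | ∃ g : G, ‖f (g * s) - f g‖ ≤ R}.Finite)

/-- `P R`: all the groups `GL_n(R)` satisfy `CE`. -/
def P (R : Type u) [Ring R] : Prop :=
  ∀ n : ℕ, CE.{u, x} (Matrix (Fin n) (Fin n) R)ˣ

/-- absolute value on a division ring -/
structure IsAbs {D : Type u} [DivisionRing D] (nv : D → ℝ) : Prop where
  nonneg : ∀ x, 0 ≤ nv x
  eq_zero : ∀ x, nv x = 0 ↔ x = 0
  mul : ∀ x y, nv (x * y) = nv x * nv y
  add_le : ∀ x y, nv (x + y) ≤ nv x + nv y

/-- ultrametric absolute value on a division ring -/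
structure IsUltra {D : Type u} [DivisionRing D] (nv : D → ℝ) : Prop extends IsAbs nv where
  add_le_max : ∀ x y, nv (x + y) ≤ max (nv x) (nv y)

/-- invertible matrices whose entries, and the entries of whose inverse, are bounded by
`q⁻¹ ^ a` -/
def U {D : Type u} [DivisionRing D] (nv : D → ℝ) (q : ℝ) (n : ℕ) (a : ℕ) :
    Set (Matrix (Fin n) (Fin n) D)ˣ :=
  {g | ∀ i j, nv (g.val i j) ≤ q⁻¹ ^ a ∧ nv (g⁻¹.val i j) ≤ q⁻¹ ^ a}

/-- the family of sets of invertible matrices over `R` which are bounded for the absolute value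
`nv ∘ ψ` -/
def BF {R : Type w} {D : Type u} [Ring R] [DivisionRing D] (nv : D → ℝ) (ψ : R →+* D) (n : ℕ) :
    Set (Set (Matrix (Fin n) (Fin n) R)ˣ) :=
  {T | ∃ C : ℝ, T = {g | ∀ i j, nv (ψ (g.val i j)) ≤ C ∧ nv (ψ (g⁻¹.val i j)) ≤ C}}

/-- lower triangular matrices (with lower triangular inverse) with diagonal entries powers of
`ϖ` -/
def IsB {D : Type u} [DivisionRing D] (ϖ : D) {n : ℕ} (b : (Matrix (Fin n) (Fin n) D)ˣ) : Prop :=
  (∀ i j, i < j → b.val i j = 0) ∧ (∀ i j, i < j → b⁻¹.val i j = 0) ∧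
    ∀ i, ∃ a : ℤ, b.val i i = ϖ ^ a

/-- the diagonal matrix with entries `ϖ ^ t i` -/
noncomputable def tor {D : Type u} [DivisionRing D] (ϖ : D) (hϖ : ϖ ≠ 0) (n : ℕ)
    (t : Fin n → ℤ) : (Matrix (Fin n) (Fin n) D)ˣ where
  val := Matrix.diagonal fun i => ϖ ^ t i
  inv := Matrix.diagonal fun i => ϖ ^ (-t i)
  val_inv := by
    rw [Matrix.diagonal_mul_diagonal, ← Matrix.diagonal_one]
    congr 1; funext i; rw [← zpow_add₀ hϖ]; simp
  inv_val := by
    rw [Matrix.diagonal_mul_diagonal, ← Matrix.diagonal_one]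
    congr 1; funext i; rw [← zpow_add₀ hϖ]; simp

/-- the box of side `N` deep inside the contracting cone -/
noncomputable def box (N n : ℕ) : Finset (Fin n → ℤ) :=
  Fintype.piFinset fun i : Fin n =>
    Finset.Ico (10 * (N : ℤ) * ((n : ℤ) - (i : ℤ))) (10 * (N : ℤ) * ((n : ℤ) - (i : ℤ)) + N)

end Pool.Agent.H66.NCL
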