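import Pool.Agent.H66.NCL.Fields
import Pool.Agent.H66.NCL.Prod

/-!
# Module Free: `P` for free associative algebras

PLAN. `P.of_finset`: for a finite set `C ⊆ FreeAlgebra K X` there is a finite `X₀ : Set X` with
`C` in the range of the injective map `FreeAlgebra K X₀ → FreeAlgebra K X`
(`FreeAlgebra.lift K (fun x => FreeAlgebra.ι K x.1)`, left inverse `x ↦ ι ⟨x, _⟩` or `0`; every
element lies in the subalgebra generated by finitely many `ι x`: `FreeAlgebra.induction`). For `X₀`
finite: `FreeAlgebra K X₀ ≃ MonoidAlgebra K (FreeMonoid X₀)`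
(`FreeAlgebra.equivMonoidAlgebraFreeMonoid`) `→ MonoidAlgebra K (Fin 1 → FreeMonoid X₀)`
(`MonoidAlgebra.mapDomainRingHom` of the injective monoid hom to constant functions), and `P_prod`,
`P_field`, `P.of_injective`.
-/

namespace Pool.Agent.H66.NCL

universe u

/-- every element of a free algebra involves finitely many variables -/
private theorem free_exists_finset (K : Type u) [Field K] (X : Type u) (a : FreeAlgebra K X) :
    ∃ F : Finset X, a ∈ Algebra.adjoin K (FreeAlgebra.ι K '' (F : Set X)) := by
  classical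
  induction a using FreeAlgebra.induction with
  | grade0 r => exact ⟨∅, Subalgebra.algebraMap_mem _ r⟩
  | grade1 x => exact ⟨{x}, Algebra.subset_adjoin ⟨x, by simp, rfl⟩⟩
  | mul a b ha hb =>
    obtain ⟨F, hF⟩ := ha
    obtain ⟨F', hF'⟩ := hb
    refine ⟨F ∪ F', Subalgebra.mul_mem _ ?_ ?_⟩
    · exact Algebra.adjoin_mono (Set.image_mono (by
        rw [Finset.coe_subset]; exact Finset.subset_union_left)) hF
    · exact Algebra.adjoin_mono (Set.image_mono (by
        rw [Finset.coe_subset]; exact Finset.subset_union_right)) hF'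
  | add a b ha hb =>
    obtain ⟨F, hF⟩ := ha
    obtain ⟨F', hF'⟩ := hb
    refine ⟨F ∪ F', Subalgebra.add_mem _ ?_ ?_⟩
    · exact Algebra.adjoin_mono (Set.image_mono (by
        rw [Finset.coe_subset]; exact Finset.subset_union_left)) hF
    · exact Algebra.adjoin_mono (Set.image_mono (by
        rw [Finset.coe_subset]; exact Finset.subset_union_right)) hF'

/-- the case of finitely many variables -/
private theorem free_finite (K : Type u) [Field K] (X : Type u) [Finite X] :
    P.{u, u} (FreeAlgebra K X) := by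
  have h1 : P.{u, u} (MonoidAlgebra K (Fin 1 → FreeMonoid X)) := P_prod (P_field K) X 1
  let c : FreeMonoid X →* (Fin 1 → FreeMonoid X) := MonoidHom.pi fun _ => MonoidHom.id _
  have hc : Function.Injective c := fun a b h => congrFun h 0
  have h2 : P.{u, u} (MonoidAlgebra K (FreeMonoid X)) :=
    P.of_injective (MonoidAlgebra.mapDomainRingHom K c) (MonoidAlgebra.mapDomain_injective hc) h1
  exact P.of_injective
    (FreeAlgebra.equivMonoidAlgebraFreeMonoid (R := K) (X := X)).toAlgHom.toRingHom
    (FreeAlgebra.equivMonoidAlgebraFreeMonoid (R := K) (X := X)).injective h2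

theorem P_freeAlgebra (K : Type u) [Field K] (X : Type u) : P.{u, u} (FreeAlgebra K X) := by
  classical
  apply P.of_finset
  intro C
  choose F hF using free_exists_finset K X
  obtain ⟨G, hG⟩ : ∃ G : Finset X, G = C.biUnion F := ⟨_, rfl⟩
  refine ⟨FreeAlgebra K {x // x ∈ G}, inferInstance,
    (FreeAlgebra.lift K (fun x : {x // x ∈ G} => FreeAlgebra.ι K x.1)).toRingHom, ?_, ?_,
    free_finite K {x // x ∈ G}⟩
  · have h : (FreeAlgebra.lift K (fun x : X => if h : x ∈ G then
        FreeAlgebra.ι K (⟨x, h⟩ : {x // x ∈ G}) else 0)).comp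
        (FreeAlgebra.lift K (fun x : {x // x ∈ G} => FreeAlgebra.ι K x.1)) = AlgHom.id K _ := by
      apply FreeAlgebra.hom_ext
      funext x
      simp
    intro a b hab
    have h1 := congrArg (FreeAlgebra.lift K (fun x : X => if h : x ∈ G then
        FreeAlgebra.ι K (⟨x, h⟩ : {x // x ∈ G}) else 0)) hab
    have h2 := fun a => DFunLike.congr_fun h a
    exact (h2 a).symm.trans (h1.trans (h2 b))
  · intro a ha
    have h1 : a ∈ Algebra.adjoin K (FreeAlgebra.ι K '' (G : Set X)) := by
      refine Algebra.adjoin_mono (Set.image_mono ?_) (hF a)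
      rw [Finset.coe_subset, hG]
      exact Finset.subset_biUnion_of_mem F ha
    have h2 : FreeAlgebra.ι K '' (G : Set X) =
        Set.range (fun x : {x // x ∈ G} => FreeAlgebra.ι K x.1) := by
      ext y
      constructor
      · rintro ⟨x, hx, rfl⟩
        exact ⟨⟨x, hx⟩, rfl⟩
      · rintro ⟨x, rfl⟩
        exact ⟨x.1, x.2, rfl⟩
    rw [h2, Algebra.adjoin_range_eq_range_freeAlgebra_lift] at h1
    obtain ⟨b, hb⟩ := h1
    exact ⟨b, hb⟩

end Pool.Agent.H66.NCL
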