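import Pool.Agent.H66.NCL.Final
import Pool.Agent.H66.NCL.Free

/-!
# Examples: free associative algebras over commutative rings
-/

namespace Pool.Agent.H66.NCL

universe u

/-- `GL_n` of a free associative algebra over a commutative ring -/
theorem P_freeAlgebra_commRing (A : Type u) [CommRing A] (X : Type u) :
    P.{u, u} (FreeAlgebra A X) := by
  have h : ∀ (K : Type u) [Field K], P.{u, u} (MonoidAlgebra K (FreeMonoid X)) := fun K _ =>
    P.of_injective (FreeAlgebra.equivMonoidAlgebraFreeMonoid (R := K) (X := X)).symm.toRingHom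
      (FreeAlgebra.equivMonoidAlgebraFreeMonoid (R := K) (X := X)).symm.injective
      (P_freeAlgebra K X)
  exact P.of_injective (FreeAlgebra.equivMonoidAlgebraFreeMonoid (R := A) (X := X)).toRingHom
    (FreeAlgebra.equivMonoidAlgebraFreeMonoid (R := A) (X := X)).injective (P_commRing h A)

/-- Every subgroup of `GL_n(A⟨X⟩)`, `A` a commutative ring, has property A; every countable one
coarsely embeds into a Hilbert space. For instance `EL_n(ℤ⟨x, y⟩)`. -/
theorem main_free (A : Type u) [CommRing A] (X : Type u) (n : ℕ)
    (G : Subgroup (Matrix (Fin n) (Fin n) (FreeAlgebra A X))ˣ) :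
    PropertyA G ∧ (Countable G → CoarselyEmbeds.{u, u} G) :=
  (P_freeAlgebra_commRing A X).main n G

end Pool.Agent.H66.NCL
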