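import Pool.Agent.H66.NCL.Defs

/-!
# Module SkewA: the division ring of skew Laurent series

`σ = α z`. `R = SkewMonoidAlgebra K (Multiplicative ℤ)` is the ring of skew Laurent polynomials
`∑ a_n t^n`, `t a = σ(a) t`, with the norm `|f| = 2^(max degree of f)`, ultrametric and
multiplicative; `D` is its completion.
-/

namespace Pool.Agent.H66.NCL.SkA

universe u

open UniformSpace

section Compl

variable {R : Type u} [NormedRing R] (hmul : ∀ x y : R, ‖x * y‖ = ‖x‖ * ‖y‖)
  (hult : ∀ x y : R, ‖x + y‖ ≤ max ‖x‖ ‖y‖)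
include hmul in
theorem compl_mul (x y : Completion R) : ‖x * y‖ = ‖x‖ * ‖y‖ := by
  induction x, y using Completion.induction_on₂ with
  | hp => apply isClosed_eq <;> fun_prop
  | ih x y => simpa only [← Completion.coe_mul, Completion.norm_coe] using hmul x y

include hult in
theorem compl_ult (x y : Completion R) : ‖x + y‖ ≤ max ‖x‖ ‖y‖ := by
  induction x, y using Completion.induction_on₂ with
  | hp => apply isClosed_le <;> fun_prop
  | ih x y => simpa only [← Completion.coe_add, Completion.norm_coe] using hult x y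

theorem ult_eq {D : Type u} [NormedRing D] (hult : ∀ x y : D, ‖x + y‖ ≤ max ‖x‖ ‖y‖) {x y : D}
    (h : ‖x - y‖ < ‖x‖) : ‖y‖ = ‖x‖ := by
  refine le_antisymm ?_ ?_
  · have h1 := hult x (-(x - y))
    rw [norm_neg, max_eq_left h.le] at h1
    have h2 : x + -(x - y) = y := by abel
    rwa [h2] at h1
  · have h1 := hult y (x - y)
    have h2 : y + (x - y) = x := by abel
    rw [h2] at h1
    rcases le_max_iff.1 h1 with h3 | h3
    · exact h3
    · exact absurd h3 (not_le.2 h)

include hmul hult in
theorem compl_isUnit [Nontrivial R] (hunit : ∀ y : R, y ≠ 0 → ∃ m : Rˣ, ‖y - m‖ < ‖y‖)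
    (x : Completion R) : IsUnit x ∨ x = 0 := by
  by_cases hx : x = 0
  · exact Or.inr hx
  left
  have hx0 : 0 < ‖x‖ := norm_pos_iff.2 hx
  have hnt : Nontrivial (Completion R) := ⟨⟨x, 0, hx⟩⟩
  obtain ⟨a, ha⟩ : ∃ a : R, dist x (a : Completion R) < ‖x‖ :=
    (Completion.denseRange_coe (α := R)).exists_dist_lt x hx0
  rw [dist_eq_norm] at ha
  have ha1 : ‖(a : Completion R)‖ = ‖x‖ := ult_eq (compl_ult hult) ha
  have ha0 : a ≠ 0 := by
    rintro rfl
    rw [Completion.coe_zero, norm_zero] at ha1
    exact hx0.ne ha1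
  obtain ⟨m, hm⟩ := hunit a ha0
  have hm1 : ‖x - ((m : R) : Completion R)‖ < ‖x‖ := by
    have h1 := compl_ult hult (x - a) (a - ((m : R) : Completion R))
    rw [sub_add_sub_cancel] at h1
    refine h1.trans_lt (max_lt ha ?_)
    rw [← ha1, Completion.norm_coe, ← Completion.coe_sub, Completion.norm_coe]
    exact hm
  have hm2 : ‖((m : R) : Completion R)‖ = ‖x‖ := ult_eq (compl_ult hult) hm1
  let M : (Completion R)ˣ := m.map (Completion.coeRingHom : R →+* Completion R).toMonoidHom
  have hM : (M : Completion R) = ((m : R) : Completion R) := rfl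
  have hinv : ‖((M⁻¹ : (Completion R)ˣ) : Completion R)‖ * ‖x‖ = 1 := by
    rw [← hm2, ← hM, ← compl_mul hmul, Units.inv_mul]
    have h1 := compl_mul hmul (1 : Completion R) 1
    rw [mul_one] at h1
    have h2 : ‖(1 : Completion R)‖ ≠ 0 := by
      rw [norm_ne_zero_iff]
      exact one_ne_zero
    field_simp at h1
    exact h1.symm
  have h3 : IsUnit (1 - (M⁻¹ : (Completion R)ˣ) * (M - x)) := by
    apply isUnit_one_sub_of_norm_lt_one
    rw [compl_mul hmul]
    have h4 : ‖(M : Completion R) - x‖ < ‖x‖ := by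
      rw [norm_sub_rev]
      exact hm1
    have h5 : 0 < ‖((M⁻¹ : (Completion R)ˣ) : Completion R)‖ := by
      by_contra h6
      have h7 : ‖((M⁻¹ : (Completion R)ˣ) : Completion R)‖ = 0 :=
        le_antisymm (not_lt.1 h6) (norm_nonneg _)
      rw [h7, zero_mul] at hinv
      exact zero_ne_one hinv
    calc _ < ‖((M⁻¹ : (Completion R)ˣ) : Completion R)‖ * ‖x‖ :=
          mul_lt_mul_of_pos_left h4 h5
      _ = 1 := hinv
  have h6 : x = M * (1 - (M⁻¹ : (Completion R)ˣ) * (M - x)) := by
    rw [mul_sub, mul_one, ← mul_assoc, Units.mul_inv, one_mul]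
    abel
  rw [h6]
  exact M.isUnit.mul h3

end Compl

open SkewMonoidAlgebra

open scoped NNReal

section Skew

variable {K : Type u} [DivisionRing K] [MulSemiringAction (Multiplicative ℤ) K]

/-- the norm of a skew Laurent polynomial -/
noncomputable def nm (f : SkewMonoidAlgebra K (Multiplicative ℤ)) : ℝ≥0 :=
  f.support.sup fun n => (2 : ℝ≥0) ^ (Multiplicative.toAdd n)

omit [MulSemiringAction (Multiplicative ℤ) K] in
theorem nm_zero : nm (0 : SkewMonoidAlgebra K (Multiplicative ℤ)) = 0 := by
  rw [nm, support_zero, Finset.sup_empty]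
  rfl

omit [MulSemiringAction (Multiplicative ℤ) K] in
theorem le_nm {f : SkewMonoidAlgebra K (Multiplicative ℤ)} {n : Multiplicative ℤ}
    (h : f.coeff n ≠ 0) : (2 : ℝ≥0) ^ (Multiplicative.toAdd n) ≤ nm f :=
  Finset.le_sup (f := fun n : Multiplicative ℤ => (2 : ℝ≥0) ^ (Multiplicative.toAdd n))
    (mem_support_iff.2 h)

omit [MulSemiringAction (Multiplicative ℤ) K] in
theorem nm_le_iff {f : SkewMonoidAlgebra K (Multiplicative ℤ)} {c : ℝ≥0} :
    nm f ≤ c ↔ ∀ n, f.coeff n ≠ 0 → (2 : ℝ≥0) ^ (Multiplicative.toAdd n) ≤ c := by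
  rw [nm, Finset.sup_le_iff]
  exact forall_congr' fun n => by rw [mem_support_iff]

omit [MulSemiringAction (Multiplicative ℤ) K] in
theorem nm_lt_iff {f : SkewMonoidAlgebra K (Multiplicative ℤ)} {c : ℝ≥0} (hc : 0 < c) :
    nm f < c ↔ ∀ n, f.coeff n ≠ 0 → (2 : ℝ≥0) ^ (Multiplicative.toAdd n) < c := by
  rw [nm, Finset.sup_lt_iff (by exact hc)]
  exact forall_congr' fun n => by rw [mem_support_iff]

omit [MulSemiringAction (Multiplicative ℤ) K] in
theorem nm_eq_zero {f : SkewMonoidAlgebra K (Multiplicative ℤ)} (h : nm f = 0) : f = 0 := by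
  ext n
  rw [coeff_zero, Finsupp.zero_apply]
  by_contra hn
  have := le_nm hn
  rw [h] at this
  exact absurd (this.antisymm zero_le) (by positivity)

omit [MulSemiringAction (Multiplicative ℤ) K] in
theorem nm_neg (f : SkewMonoidAlgebra K (Multiplicative ℤ)) : nm (-f) = nm f := by
  rw [nm, nm, support_neg]

omit [MulSemiringAction (Multiplicative ℤ) K] in
theorem nm_add (f g : SkewMonoidAlgebra K (Multiplicative ℤ)) : nm (f + g) ≤ max (nm f) (nm g) := by
  rw [nm_le_iff]
  intro n hn
  rw [le_max_iff]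
  by_contra hcon
  push Not at hcon
  apply hn
  have h1 : f.coeff n = 0 := by
    by_contra h
    exact absurd (le_nm h) (not_le.2 hcon.1)
  have h2 : g.coeff n = 0 := by
    by_contra h
    exact absurd (le_nm h) (not_le.2 hcon.2)
  rw [coeff_add, Finsupp.add_apply, h1, h2, add_zero]

theorem nm_mul_le (f g : SkewMonoidAlgebra K (Multiplicative ℤ)) : nm (f * g) ≤ nm f * nm g := by
  classical
  rw [nm_le_iff]
  intro n hn
  have h1 := support_mul f g (mem_support_iff.2 hn)
  obtain ⟨a, ha, b, hb, rfl⟩ := Finset.mem_mul.1 h1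
  rw [toAdd_mul, zpow_add₀ (by norm_num)]
  exact mul_le_mul' (le_nm (mem_support_iff.1 ha)) (le_nm (mem_support_iff.1 hb))

omit [MulSemiringAction (Multiplicative ℤ) K] in
theorem nm_single (n : Multiplicative ℤ) {r : K} (hr : r ≠ 0) :
    nm (single n r) = (2 : ℝ≥0) ^ (Multiplicative.toAdd n) := by
  rw [nm, support_single _ hr, Finset.sup_singleton]

omit [MulSemiringAction (Multiplicative ℤ) K] in
/-- splitting off the top term -/
theorem exists_top {f : SkewMonoidAlgebra K (Multiplicative ℤ)} (hf : f ≠ 0) :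
    ∃ (n : Multiplicative ℤ) (r : K), r ≠ 0 ∧ nm f = (2 : ℝ≥0) ^ (Multiplicative.toAdd n) ∧
      nm (f - single n r) < nm f := by
  have hne : f.support.Nonempty := by
    rw [Finset.nonempty_iff_ne_empty, Ne, support_eq_empty]
    exact hf
  obtain ⟨n, hn, hmax⟩ := f.support.exists_max_image
    (fun n : Multiplicative ℤ => (2 : ℝ≥0) ^ (Multiplicative.toAdd n)) hne
  have h1 : nm f = (2 : ℝ≥0) ^ (Multiplicative.toAdd n) := by
    refine le_antisymm ?_ (le_nm (mem_support_iff.1 hn))
    rw [nm_le_iff]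
    exact fun m hm => hmax m (mem_support_iff.2 hm)
  refine ⟨n, f.coeff n, mem_support_iff.1 hn, h1, ?_⟩
  rw [h1, nm_lt_iff (by positivity)]
  intro m hm
  have hmn : m ≠ n := by
    rintro rfl
    apply hm
    rw [coeff_sub, Finsupp.sub_apply, coeff_single, Finsupp.single_eq_same, sub_self]
  have hm' : f.coeff m ≠ 0 := by
    intro h
    apply hm
    rw [coeff_sub, Finsupp.sub_apply, h, coeff_single, Finsupp.single_eq_of_ne hmn, sub_self]
  refine lt_of_le_of_ne (hmax m (mem_support_iff.2 hm')) ?_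
  intro h
  apply hmn
  have h2 := zpow_right_injective₀ (by norm_num : (0 : ℝ≥0) < 2) (by norm_num) h
  exact Multiplicative.toAdd.injective h2

omit [MulSemiringAction (Multiplicative ℤ) K] in
theorem nm_eq_of_lt {f g : SkewMonoidAlgebra K (Multiplicative ℤ)} (h : nm g < nm f) :
    nm (f + g) = nm f := by
  refine le_antisymm ((nm_add f g).trans (by rw [max_eq_left h.le])) ?_
  have h1 := nm_add (f + g) (-g)
  rw [add_neg_cancel_right, nm_neg] at h1
  rcases le_max_iff.1 h1 with h2 | h2
  · exact h2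
  · exact absurd h2 (not_le.2 h)

theorem nm_mul (f g : SkewMonoidAlgebra K (Multiplicative ℤ)) : nm (f * g) = nm f * nm g := by
  by_cases hf : f = 0
  · rw [hf, zero_mul, nm_zero, zero_mul]
  by_cases hg : g = 0
  · rw [hg, mul_zero, nm_zero, mul_zero]
  obtain ⟨a, r, hr, hfa, hf1⟩ := exists_top hf
  obtain ⟨b, s, hs, hgb, hg1⟩ := exists_top hg
  have h1 : f * g = single a r * single b s + (single a r * (g - single b s) +
      (f - single a r) * g) := by noncomm_ring
  have hrs : r * a • s ≠ 0 := by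
    refine mul_ne_zero hr ?_
    intro h
    apply hs
    rw [← inv_smul_smul a s, h, smul_zero]
  have h2 : nm (single a r * single b s) = nm f * nm g := by
    rw [single_mul_single, nm_single _ hrs, toAdd_mul, zpow_add₀ (by norm_num), hfa, hgb]
  have hfp : 0 < nm f := by
    rw [hfa]
    positivity
  have hgp : 0 < nm g := by
    rw [hgb]
    positivity
  have h3 : nm (single a r * (g - single b s) + (f - single a r) * g) < nm f * nm g := by
    refine (nm_add _ _).trans_lt (max_lt ?_ ?_)
    · refine (nm_mul_le _ _).trans_lt ?_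
      rw [nm_single _ hr, ← hfa]
      exact mul_lt_mul_of_pos_left hg1 hfp
    · refine (nm_mul_le _ _).trans_lt ?_
      exact mul_lt_mul_of_pos_right hf1 hgp
  rw [h1, nm_eq_of_lt (by rw [h2]; exact h3), h2]

/-- the normed ring of skew Laurent polynomials -/
noncomputable abbrev skewNormedRing : NormedRing (SkewMonoidAlgebra K (Multiplicative ℤ)) :=
  RingNorm.toNormedRing
    { toFun := fun f => (nm f : ℝ)
      map_zero' := by rw [nm_zero]; rfl
      add_le' := fun f g => by
        have h1 : nm (f + g) ≤ nm f + nm g :=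
          (nm_add f g).trans (max_le le_self_add le_add_self)
        exact_mod_cast h1
      neg' := fun f => by rw [nm_neg]
      mul_le' := fun f g => by exact_mod_cast nm_mul_le f g
      eq_zero_of_map_eq_zero' := fun f h => nm_eq_zero (by exact_mod_cast h) }

/-- monomials are units -/
noncomputable def monU (n : Multiplicative ℤ) (r : K) (hr : r ≠ 0) :
    (SkewMonoidAlgebra K (Multiplicative ℤ))ˣ where
  val := single n r
  inv := single n⁻¹ (n⁻¹ • r⁻¹)
  val_inv := by
    rw [single_mul_single, mul_inv_cancel, smul_inv_smul, mul_inv_cancel₀ hr]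
    rfl
  inv_val := by
    rw [single_mul_single, inv_mul_cancel, ← smul_mul', inv_mul_cancel₀ hr, smul_one]
    rfl

end Skew


section Phi

variable {K : Type u} [DivisionRing K] [MulSemiringAction (Multiplicative ℤ) K]

/-- the automorphism of the skew Laurent polynomials -/
noncomputable def phi (β : K ≃+* K) (hβ : ∀ (n : Multiplicative ℤ) x, β (n • x) = n • β x) :
    SkewMonoidAlgebra K (Multiplicative ℤ) →+* SkewMonoidAlgebra K (Multiplicative ℤ) :=
  SkewMonoidAlgebra.liftNCRingHom
    ((SkewMonoidAlgebra.singleOneRingHom (k := K) (G := Multiplicative ℤ)).comp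
      (β : K →+* K))
    (SkewMonoidAlgebra.of K (Multiplicative ℤ)) (by
      intro x y
      change single 1 (β (y • x)) * single y 1 = single y 1 * single 1 (β x)
      rw [single_mul_single, single_mul_single, one_mul, mul_one, one_smul, mul_one, one_mul, hβ])

theorem phi_single (β : K ≃+* K) (hβ : ∀ (n : Multiplicative ℤ) x, β (n • x) = n • β x)
    (n : Multiplicative ℤ) (r : K) : phi β hβ (single n r) = single n (β r) := by
  have h1 : phi β hβ (single n r) = single 1 (β r) * single n 1 :=
    liftNC_single _ _ _ _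
  rw [h1, single_mul_single, one_mul, one_smul, mul_one]

theorem phi_coeff (β : K ≃+* K) (hβ : ∀ (n : Multiplicative ℤ) x, β (n • x) = n • β x)
    (f : SkewMonoidAlgebra K (Multiplicative ℤ)) (n : Multiplicative ℤ) :
    (phi β hβ f).coeff n = β (f.coeff n) := by
  classical
  induction f using SkewMonoidAlgebra.induction_on with
  | zero => rw [map_zero, coeff_zero, Finsupp.zero_apply, map_zero]
  | single m r =>
    rw [phi_single, coeff_single, coeff_single, Finsupp.single_apply, Finsupp.single_apply]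
    split_ifs
    · rfl
    · rw [map_zero]
  | add f g hf hg =>
    rw [map_add, coeff_add, coeff_add, Finsupp.add_apply, Finsupp.add_apply, hf, hg, map_add]

theorem nm_phi (β : K ≃+* K) (hβ : ∀ (n : Multiplicative ℤ) x, β (n • x) = n • β x)
    (f : SkewMonoidAlgebra K (Multiplicative ℤ)) : nm (phi β hβ f) = nm f := by
  have h : (phi β hβ f).support = f.support := by
    ext n
    rw [mem_support_iff, mem_support_iff, phi_coeff]
    exact map_ne_zero_iff β β.injective
  rw [nm, nm, h]

theorem phi_phi (β γ δ : K ≃+* K) (hβ : ∀ (n : Multiplicative ℤ) x, β (n • x) = n • β x)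
    (hγ : ∀ (n : Multiplicative ℤ) x, γ (n • x) = n • γ x)
    (hδ : ∀ (n : Multiplicative ℤ) x, δ (n • x) = n • δ x) (h : ∀ x, β (γ x) = δ x)
    (f : SkewMonoidAlgebra K (Multiplicative ℤ)) : phi β hβ (phi γ hγ f) = phi δ hδ f := by
  ext n
  rw [phi_coeff, phi_coeff, phi_coeff, h]

theorem nm_poly (a : ℕ → K) (N : ℕ) (h : a N ≠ 0) :
    nm (∑ i ∈ Finset.range (N + 1), single (Multiplicative.ofAdd (i : ℤ)) (a i)) = 2 ^ N := by
  have h1 : ∀ M : ℕ, ∀ c : ℝ≥0, 0 < c → (∀ i < M, (2 : ℝ≥0) ^ (i : ℕ) < c) →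
      nm (∑ i ∈ Finset.range M, single (Multiplicative.ofAdd (i : ℤ)) (a i)) < c := by
    intro M
    induction M with
    | zero =>
      intro c hc _
      rw [Finset.range_zero, Finset.sum_empty, nm_zero]
      exact hc
    | succ M ih =>
      intro c hc hM
      rw [Finset.sum_range_succ]
      refine (nm_add _ _).trans_lt (max_lt (ih c hc fun i hi => hM i (by omega)) ?_)
      by_cases h2 : a M = 0
      · rw [h2, single_zero, nm_zero]
        exact hc
      · rw [nm_single _ h2, toAdd_ofAdd, zpow_natCast]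
        exact hM M (by omega)
  have h2 : nm (single (Multiplicative.ofAdd (N : ℤ)) (a N)) = 2 ^ N := by
    rw [nm_single _ h, toAdd_ofAdd, zpow_natCast]
  rw [Finset.sum_range_succ, add_comm, nm_eq_of_lt, h2]
  rw [h2]
  refine h1 N _ (by positivity) ?_
  intro i hi
  exact pow_lt_pow_right₀ (by norm_num) hi

end Phi

section Final

variable {K : Type u} [DivisionRing K] [MulSemiringAction (Multiplicative ℤ) K]

attribute [local instance] skewNormedRing

theorem norm_eq_nm (f : SkewMonoidAlgebra K (Multiplicative ℤ)) : ‖f‖ = (nm f : ℝ) := rfl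

theorem norm_mul_skew (f g : SkewMonoidAlgebra K (Multiplicative ℤ)) : ‖f * g‖ = ‖f‖ * ‖g‖ := by
  rw [norm_eq_nm, norm_eq_nm, norm_eq_nm, nm_mul]
  rfl

theorem norm_ult_skew (f g : SkewMonoidAlgebra K (Multiplicative ℤ)) :
    ‖f + g‖ ≤ max ‖f‖ ‖g‖ := by
  rw [norm_eq_nm, norm_eq_nm, norm_eq_nm]
  exact_mod_cast nm_add f g

theorem norm_unit_skew (f : SkewMonoidAlgebra K (Multiplicative ℤ)) (hf : f ≠ 0) :
    ∃ m : (SkewMonoidAlgebra K (Multiplicative ℤ))ˣ, ‖f - m‖ < ‖f‖ := by
  obtain ⟨n, r, hr, -, h⟩ := exists_top hf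
  exact ⟨monU n r hr, by rw [norm_eq_nm, norm_eq_nm]; exact_mod_cast h⟩

theorem cont_phi (β : K ≃+* K) (hβ : ∀ (n : Multiplicative ℤ) x, β (n • x) = n • β x) :
    Continuous (phi β hβ) := by
  refine (AddMonoidHomClass.isometry_of_norm (phi β hβ) fun f => ?_).continuous
  rw [norm_eq_nm, norm_eq_nm, nm_phi]

omit [MulSemiringAction (Multiplicative ℤ) K] in
theorem nontriv_skew : Nontrivial (SkewMonoidAlgebra K (Multiplicative ℤ)) := by
  refine ⟨⟨single 1 1, 0, ?_⟩⟩
  intro h
  have h1 := nm_single (K := K) (1 : Multiplicative ℤ) (one_ne_zero)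
  rw [h, nm_zero] at h1
  exact absurd h1.symm (by positivity)

theorem skew_isUnit (x : Completion (SkewMonoidAlgebra K (Multiplicative ℤ))) :
    IsUnit x ∨ x = 0 := by
  have := nontriv_skew (K := K)
  exact compl_isUnit norm_mul_skew norm_ult_skew norm_unit_skew x

theorem nontriv_compl : Nontrivial (Completion (SkewMonoidAlgebra K (Multiplicative ℤ))) := by
  have := nontriv_skew (K := K)
  obtain ⟨x, y, h⟩ := exists_pair_ne (SkewMonoidAlgebra K (Multiplicative ℤ))
  exact ⟨⟨(x : Completion _), y, fun h1 => h (Completion.coe_injective _ h1)⟩⟩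

/-- the extension of `phi` to the completion -/
noncomputable def phiC (β : K ≃+* K) (hβ : ∀ (n : Multiplicative ℤ) x, β (n • x) = n • β x) :
    Completion (SkewMonoidAlgebra K (Multiplicative ℤ)) →+*
      Completion (SkewMonoidAlgebra K (Multiplicative ℤ)) :=
  Completion.mapRingHom (phi β hβ) (cont_phi β hβ)

theorem phiC_coe (β : K ≃+* K) (hβ : ∀ (n : Multiplicative ℤ) x, β (n • x) = n • β x)
    (f : SkewMonoidAlgebra K (Multiplicative ℤ)) :
    phiC β hβ (f : Completion _) = (phi β hβ f : Completion _) :=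
  Completion.mapRingHom_coe (cont_phi β hβ) f

theorem phiC_phiC (β γ δ : K ≃+* K) (hβ : ∀ (n : Multiplicative ℤ) x, β (n • x) = n • β x)
    (hγ : ∀ (n : Multiplicative ℤ) x, γ (n • x) = n • γ x)
    (hδ : ∀ (n : Multiplicative ℤ) x, δ (n • x) = n • δ x) (h : ∀ x, β (γ x) = δ x) :
    (phiC β hβ).comp (phiC γ hγ) = phiC δ hδ := by
  rw [phiC, phiC, Completion.mapRingHom_comp, phiC]
  congr 1
  exact RingHom.ext fun f => phi_phi β γ δ hβ hγ hδ h f

theorem phiC_id (β : K ≃+* K) (hβ : ∀ (n : Multiplicative ℤ) x, β (n • x) = n • β x)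
    (h : ∀ x, β x = x) : phiC β hβ = RingHom.id _ := by
  rw [phiC, ← Completion.mapRingHom_id]
  congr 1
  refine RingHom.ext fun f => ?_
  ext n
  rw [phi_coeff, h]
  rfl

/-- the constants -/
noncomputable def cHom : K →+* Completion (SkewMonoidAlgebra K (Multiplicative ℤ)) :=
  Completion.coeRingHom.comp SkewMonoidAlgebra.singleOneRingHom

/-- the variable -/
noncomputable def tEl : Completion (SkewMonoidAlgebra K (Multiplicative ℤ)) :=
  ((single (Multiplicative.ofAdd (1 : ℤ)) (1 : K) :
      SkewMonoidAlgebra K (Multiplicative ℤ)) : Completion _)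

theorem cHom_apply (a : K) : cHom a = ((single (1 : Multiplicative ℤ) a :
    SkewMonoidAlgebra K (Multiplicative ℤ)) : Completion _) := rfl

theorem tEl_pow (n : ℕ) : (tEl (K := K)) ^ n = ((single (Multiplicative.ofAdd (n : ℤ)) (1 : K) :
      SkewMonoidAlgebra K (Multiplicative ℤ)) : Completion _) := by
  induction n with
  | zero =>
    rw [pow_zero]
    rfl
  | succ n ih =>
    rw [pow_succ, ih, tEl, ← Completion.coe_mul, single_mul_single, smul_one, mul_one,
      ← ofAdd_add]
    norm_cast

theorem tEl_mul_cHom (a : K) :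
    tEl * cHom a = cHom ((Multiplicative.ofAdd (1 : ℤ)) • a) * tEl := by
  rw [cHom_apply, cHom_apply, tEl, ← Completion.coe_mul, ← Completion.coe_mul, single_mul_single,
    single_mul_single, one_mul, one_mul, mul_one, one_smul, mul_one]

theorem norm_poly (a : ℕ → K) (N : ℕ) (h : a N ≠ 0) :
    ‖∑ i ∈ Finset.range (N + 1), cHom (a i) * tEl ^ i‖ = 2 ^ N := by
  have h1 : ∑ i ∈ Finset.range (N + 1), cHom (a i) * tEl ^ i =
      ((∑ i ∈ Finset.range (N + 1), single (Multiplicative.ofAdd (i : ℤ)) (a i) :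
        SkewMonoidAlgebra K (Multiplicative ℤ)) : Completion _) := by
    have h2 : ∀ i : ℕ, cHom (a i) * tEl ^ i =
        (Completion.coeRingHom (single (Multiplicative.ofAdd (i : ℤ)) (a i) :
        SkewMonoidAlgebra K (Multiplicative ℤ)) : Completion _) := by
      intro i
      rw [tEl_pow, cHom_apply, ← Completion.coe_mul, single_mul_single, one_mul, one_smul, mul_one]
      rfl
    simp_rw [h2]
    rw [← _root_.map_sum]
    rfl
  rw [h1, Completion.norm_coe, norm_eq_nm, nm_poly a N h]
  norm_num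

/-- the automorphism of the completion -/
noncomputable def autC (β γ : K ≃+* K) (hβ : ∀ (n : Multiplicative ℤ) x, β (n • x) = n • β x)
    (hγ : ∀ (n : Multiplicative ℤ) x, γ (n • x) = n • γ x) (h1 : ∀ x, β (γ x) = x)
    (h2 : ∀ x, γ (β x) = x) : RingAut (Completion (SkewMonoidAlgebra K (Multiplicative ℤ))) :=
  RingEquiv.ofRingHom (phiC β hβ) (phiC γ hγ)
    (by
      rw [phiC_phiC β γ (RingEquiv.refl K) hβ hγ (fun _ _ => rfl) h1]
      exact phiC_id _ _ fun _ => rfl)
    (by
      rw [phiC_phiC γ β (RingEquiv.refl K) hγ hβ (fun _ _ => rfl) h2]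
      exact phiC_id _ _ fun _ => rfl)

/-- the action on the completion -/
noncomputable def alC {A : Type} [CommGroup A] (α : A →* RingAut K)
    (hα : ∀ (g : A) (n : Multiplicative ℤ) (x : K), α g (n • x) = n • α g x) :
    A →* RingAut (Completion (SkewMonoidAlgebra K (Multiplicative ℤ))) where
  toFun g := autC (α g) (α g⁻¹) (hα g) (hα g⁻¹)
    (fun x => by rw [← RingAut.mul_apply, ← map_mul, mul_inv_cancel, map_one]; rfl)
    (fun x => by rw [← RingAut.mul_apply, ← map_mul, inv_mul_cancel, map_one]; rfl)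
  map_one' := by
    refine RingEquiv.ext fun x => ?_
    change phiC (α 1) (hα 1) x = x
    rw [phiC_id _ _ fun y => by rw [map_one]; rfl]
    rfl
  map_mul' g h := by
    refine RingEquiv.ext fun x => ?_
    change phiC (α (g * h)) (hα (g * h)) x = phiC (α g) (hα g) (phiC (α h) (hα h) x)
    rw [← phiC_phiC (α g) (α h) (α (g * h)) (hα g) (hα h) (hα (g * h))
      fun y => by rw [map_mul]; rfl]
    rfl

theorem alC_coe {A : Type} [CommGroup A] (α : A →* RingAut K)
    (hα : ∀ (g : A) (n : Multiplicative ℤ) (x : K), α g (n • x) = n • α g x) (g : A)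
    (f : SkewMonoidAlgebra K (Multiplicative ℤ)) :
    alC α hα g (f : Completion _) = (phi (α g) (hα g) f : Completion _) :=
  phiC_coe _ _ _

end Final

end Pool.Agent.H66.NCL.SkA

namespace Pool.Agent.H66.NCL

universe u

open SkA UniformSpace SkewMonoidAlgebra

/-- Let the commutative group `A` act on the division ring `K` through `α`, and `z ∈ A`. There is a
division ring `D` with an ultrametric absolute value, containing `K` (through `c`) and an element
`t` with `t a = (α z)(a) t`, such that `|a_0 + a_1 t + ... + a_N t^N| = 2^N` if `a_N ≠ 0`; the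
action of `A` extends to `D`, fixing `t`. -/
theorem exists_skew (K : Type u) [DivisionRing K] (A : Type) [CommGroup A] (α : A →* RingAut K)
    (z : A) :
    ∃ (D : Type u) (_ : DivisionRing D) (nv : D → ℝ) (c : K →+* D) (t : D) (α' : A →* RingAut D),
      IsUltra nv ∧ (∀ a, t * c a = c (α z a) * t) ∧
      (∀ (N : ℕ) (a : ℕ → K), a N ≠ 0 →
        nv (∑ i ∈ Finset.range (N + 1), c (a i) * t ^ i) = 2 ^ N) ∧
      (∀ g a, α' g (c a) = c (α g a)) ∧ (∀ g, α' g t = t) := by
  let act : MulSemiringAction (Multiplicative ℤ) K :=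
    MulSemiringAction.compHom K (α.comp (zpowersHom A z))
  have hact : ∀ (n : Multiplicative ℤ) (x : K), n • x = α (z ^ (Multiplicative.toAdd n)) x :=
    fun n x => rfl
  let nr : NormedRing (SkewMonoidAlgebra K (Multiplicative ℤ)) := skewNormedRing
  have hα : ∀ (g : A) (n : Multiplicative ℤ) (x : K), α g (n • x) = n • α g x := by
    intro g n x
    rw [hact, hact, ← RingAut.mul_apply, ← RingAut.mul_apply, ← map_mul, ← map_mul, mul_comm]
  have hnt := nontriv_compl (K := K)
  let dr : DivisionRing (Completion (SkewMonoidAlgebra K (Multiplicative ℤ))) :=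
    DivisionRing.ofIsUnitOrEqZero skew_isUnit
  refine ⟨Completion (SkewMonoidAlgebra K (Multiplicative ℤ)), dr, fun x => ‖x‖, cHom, tEl,
    alC α hα, ⟨⟨fun x => norm_nonneg x, fun x => norm_eq_zero, compl_mul norm_mul_skew,
      fun x y => norm_add_le x y⟩, compl_ult norm_ult_skew⟩, ?_, ?_, ?_, ?_⟩
  · intro a
    rw [tEl_mul_cHom, hact, toAdd_ofAdd, zpow_one]
  · intro N a h
    exact norm_poly a N h
  · intro g a
    rw [cHom_apply, cHom_apply]
    refine (alC_coe α hα g _).trans ?_
    rw [phi_single]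
  · intro g
    refine (alC_coe α hα g _).trans ?_
    rw [phi_single, map_one (α g)]
    rfl

end Pool.Agent.H66.NCL
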