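import Pool.Agent.H66.NCL.Basic

/-!
# Module Torus: the averaging argument
-/

namespace Pool.Agent.H66.NCL

universe u x

theorem card_box (N n : ℕ) : (box N n).card = N ^ n := by
  unfold box
  rw [Fintype.card_piFinset]
  simp

theorem card_box_shift {N R n : ℕ} (s : Fin n → ℤ) (hs : ∀ i, |s i| ≤ R) :
    (N - R) ^ n ≤ ((box N n).filter fun t => s + t ∈ box N n).card := by
  classical
  have hsub : (Fintype.piFinset fun i : Fin n =>
      Finset.Ico (max (10 * (N : ℤ) * ((n : ℤ) - (i : ℤ)))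
        (10 * (N : ℤ) * ((n : ℤ) - (i : ℤ)) - s i))
        (min (10 * (N : ℤ) * ((n : ℤ) - (i : ℤ)) + N)
        (10 * (N : ℤ) * ((n : ℤ) - (i : ℤ)) + N - s i))) ⊆
      ((box N n).filter fun t => s + t ∈ box N n) := by
    intro t ht
    rw [Fintype.mem_piFinset] at ht
    simp only [Finset.mem_Ico, max_le_iff, lt_min_iff] at ht
    simp only [box, Finset.mem_filter, Fintype.mem_piFinset, Finset.mem_Ico, Pi.add_apply]
    constructor
    · intro i; exact ⟨(ht i).1.1, (ht i).2.1⟩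
    · intro i
      have := ht i
      constructor <;> linarith [this.1.2, this.2.2]
  refine le_trans ?_ (Finset.card_le_card hsub)
  rw [Fintype.card_piFinset]
  calc (N - R) ^ n = ∏ _i : Fin n, (N - R) := by simp
    _ ≤ _ := by
      apply Finset.prod_le_prod'
      intro i _
      rw [Int.card_Ico]
      have h1 := hs i
      rw [abs_le] at h1
      have h2 : ((N - R : ℕ) : ℤ) ≤ max ((N : ℤ) - R) 0 := by omega
      rcases le_total 0 (s i) with h | h
      · rw [max_eq_left (by linarith), min_eq_right (by linarith)]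
        omega
      · rw [max_eq_right (by linarith), min_eq_left (by linarith)]
        omega

theorem torus {G : Type u} [Group G] (V : ℕ → Set G) (hmono : Monotone V)
    (hex : ∀ x, ∃ a, x ∈ V a) (hinv : ∀ a x, x ∈ V a → x⁻¹ ∈ V a)
    (hmul : ∀ a b, ∃ c, ∀ x ∈ V a, ∀ y ∈ V b, x * y ∈ V c)
    (n : ℕ) (τ : (Fin n → ℤ) → G)
    (b : G → G) (c0 : ℕ) (hb : ∀ g, (b g)⁻¹ * g ∈ V c0)
    {ι : Type x} (φ : G → ι →₀ ℝ) (hφ0 : ∀ g i, 0 ≤ φ g i) (hφ1 : ∀ g, ip (φ g) (φ g) = 1)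
    (h1 : ∃ a, ∀ x y, x⁻¹ * y ∉ V a → ip (φ x) (φ y) = 0)
    (h2 : ∀ x t t', t ≠ t' → ip (φ (x * τ t)) (φ (x * τ t')) = 0)
    (h3 : ∀ (a : ℕ) (ε : ℝ), 0 < ε → ∃ R N0 : ℕ, ∀ N ≥ N0, ∀ g h, (b g)⁻¹ * b h ∈ V a →
      ∃ s : Fin n → ℤ, (∀ i, |s i| ≤ R) ∧
        ∀ t ∈ box N n, 1 - ε ≤ ip (φ (b g * τ (s + t))) (φ (b h * τ t))) :
    Detect.{u, x} G {T | ∃ a, T = V a} := by
  classical
  intro S ε hε
  obtain ⟨ε', hε'0, hε'1, hε'ε⟩ : ∃ ε' : ℝ, 0 < ε' ∧ ε' ≤ 1 ∧ ε' ≤ ε :=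
    ⟨min ε 1, lt_min hε one_pos, min_le_right _ _, min_le_left _ _⟩
  -- all of `S` in one `V a0`
  have hfin : ∀ F : Finset G, ∃ a, ∀ s ∈ F, s ∈ V a := by
    intro F
    choose f hf using hex
    exact ⟨F.sup f, fun s hs => hmono (Finset.le_sup hs) (hf s)⟩
  obtain ⟨a0, ha0⟩ := hfin S
  obtain ⟨a1, ha1⟩ := hmul c0 a0
  obtain ⟨a', ha'⟩ := hmul a1 c0
  have hclose : ∀ g, ∀ s ∈ S, (b g)⁻¹ * b (g * s) ∈ V a' := by
    intro g s hs
    have e : (b g)⁻¹ * b (g * s) = ((b g)⁻¹ * g) * s * ((b (g * s))⁻¹ * (g * s))⁻¹ := by group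
    rw [e]
    exact ha' _ (ha1 _ (hb g) _ (ha0 s hs)) _ (hinv _ _ (hb _))
  obtain ⟨R, N0, hRN⟩ := h3 a' (ε' / 2) (by positivity)
  -- choice of N
  obtain ⟨M, hM⟩ := exists_nat_gt ((n * R : ℝ) * 2 / ε')
  set N : ℕ := max N0 (M + R + 1) with hNdef
  have hN0 : N0 ≤ N := le_max_left _ _
  have hNR : R ≤ N := le_trans (by omega) (le_max_right N0 (M + R + 1))
  have hN1 : 1 ≤ N := le_trans (by omega) (le_max_right N0 (M + R + 1))
  have hNM : (M : ℝ) ≤ N := by
    have : M ≤ N := le_trans (by omega) (le_max_right N0 (M + R + 1))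
    exact_mod_cast this
  have hNpos : (0 : ℝ) < N := by exact_mod_cast hN1
  have hratio : (n : ℝ) * (R / N) ≤ ε' / 2 := by
    rw [mul_div_assoc', div_le_iff₀ hNpos]
    have h4 : (n * R : ℝ) * 2 / ε' < N := lt_of_lt_of_le hM hNM
    rw [div_lt_iff₀ hε'0] at h4
    nlinarith
  set w : ℝ := ((N : ℝ) ^ n)⁻¹ with hw
  have hwpos : 0 < w := by positivity
  set r : ℝ := Real.sqrt w with hr
  have hrr : r * r = w := Real.mul_self_sqrt hwpos.le
  have hr0 : 0 ≤ r := Real.sqrt_nonneg _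
  -- the far set
  obtain ⟨a2, ha2⟩ := h1
  obtain ⟨a3, ha3⟩ := hfin ((box N n).image τ)
  have hτ : ∀ t ∈ box N n, τ t ∈ V a3 := fun t ht => ha3 _ (Finset.mem_image_of_mem _ ht)
  obtain ⟨d1, hd1⟩ := hmul c0 a3
  obtain ⟨d2, hd2⟩ := hmul d1 a2
  obtain ⟨d3, hd3⟩ := hmul d2 a3
  obtain ⟨A, hA⟩ := hmul d3 c0
  have hexp : ∀ g h, ip (r • ∑ t ∈ box N n, φ (b g * τ t)) (r • ∑ t ∈ box N n, φ (b h * τ t)) =
      w * ∑ t ∈ box N n, ∑ t' ∈ box N n, ip (φ (b g * τ t)) (φ (b h * τ t')) := by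
    intro g h
    rw [ip_smul_left, ip_smul_right, ← mul_assoc, hrr, ip_sum_left]
    congr 1
    exact Finset.sum_congr rfl fun t _ => ip_sum_right _ _ _
  refine ⟨ι, fun g => r • ∑ t ∈ box N n, φ (b g * τ t), V A, ⟨A, rfl⟩, ?_, ?_, ?_, ?_⟩
  · intro g i
    simp only [Finsupp.smul_apply, Finsupp.finset_sum_apply, smul_eq_mul]
    exact mul_nonneg hr0 (Finset.sum_nonneg fun t _ => hφ0 _ _)
  · intro g
    rw [hexp]
    have : ∑ t ∈ box N n, ∑ t' ∈ box N n, ip (φ (b g * τ t)) (φ (b g * τ t')) =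
        ∑ t ∈ box N n, (1 : ℝ) := by
      apply Finset.sum_congr rfl
      intro t ht
      rw [Finset.sum_eq_single t]
      · exact hφ1 _
      · intro t' _ htt'
        exact h2 _ _ _ (Ne.symm htt')
      · intro h; exact absurd ht h
    rw [this, Finset.sum_const, card_box, nsmul_eq_mul, mul_one, hw]
    push_cast
    exact inv_mul_cancel₀ (by positivity)
  · intro g s hs
    rw [hexp]
    obtain ⟨s', hs', hst⟩ := hRN N hN0 g (g * s) (hclose g s hs)
    have h5 : ∑ t ∈ (box N n).filter (fun t => s' + t ∈ box N n), (1 - ε' / 2) ≤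
        ∑ t ∈ box N n, ∑ t' ∈ box N n, ip (φ (b g * τ t)) (φ (b (g * s) * τ t')) := by
      rw [Finset.sum_comm]
      calc ∑ t ∈ (box N n).filter (fun t => s' + t ∈ box N n), (1 - ε' / 2)
          ≤ ∑ t' ∈ (box N n).filter (fun t => s' + t ∈ box N n),
              ∑ t ∈ box N n, ip (φ (b g * τ t)) (φ (b (g * s) * τ t')) := by
            apply Finset.sum_le_sum
            intro t' ht'
            rw [Finset.mem_filter] at ht'
            refine le_trans (hst t' ht'.1) ?_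
            exact Finset.single_le_sum
              (f := fun t => ip (φ (b g * τ t)) (φ (b (g * s) * τ t')))
              (fun t _ => ip_nonneg (hφ0 _) (hφ0 _)) ht'.2
        _ ≤ _ := by
            apply Finset.sum_le_sum_of_subset_of_nonneg (Finset.filter_subset _ _)
            intro t' _ _
            exact Finset.sum_nonneg fun t _ => ip_nonneg (hφ0 _) (hφ0 _)
    rw [Finset.sum_const, nsmul_eq_mul] at h5
    have h6 := card_box_shift (N := N) (R := R) s' hs'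
    have h7 : ((N : ℝ) - R) ^ n ≤
        (((box N n).filter fun t => s' + t ∈ box N n).card : ℝ) := by
      have : (((N - R) ^ n : ℕ) : ℝ) ≤ (((box N n).filter fun t => s' + t ∈ box N n).card : ℝ) := by
        exact_mod_cast h6
      rwa [Nat.cast_pow, Nat.cast_sub hNR] at this
    have h8 : 1 - ε' / 2 ≤ w * ((N : ℝ) - R) ^ n := by
      have h9 : w * ((N : ℝ) - R) ^ n = (1 + (-(R / N : ℝ))) ^ n := by
        rw [hw, ← inv_pow, ← mul_pow]
        congr 1
        field_simp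
        ring
      rw [h9]
      have hRN1 : (R : ℝ) / N ≤ 1 := by
        rw [div_le_one hNpos]
        exact_mod_cast hNR
      have := one_add_mul_le_pow (a := -(R / N : ℝ)) (by linarith) n
      linarith
    have h10 : (0 : ℝ) ≤ 1 - ε' / 2 := by linarith
    calc 1 - ε ≤ (1 - ε' / 2) * (1 - ε' / 2) := by nlinarith
      _ ≤ (w * ((N : ℝ) - R) ^ n) * (1 - ε' / 2) := mul_le_mul_of_nonneg_right h8 h10
      _ ≤ w * (((((box N n).filter fun t => s' + t ∈ box N n).card : ℝ)) * (1 - ε' / 2)) := by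
          rw [mul_assoc]
          apply mul_le_mul_of_nonneg_left _ hwpos.le
          exact mul_le_mul_of_nonneg_right h7 h10
      _ ≤ _ := mul_le_mul_of_nonneg_left h5 hwpos.le
  · intro g y hy
    rw [hexp]
    have : ∑ t ∈ box N n, ∑ t' ∈ box N n, ip (φ (b g * τ t)) (φ (b (g * y) * τ t')) = 0 := by
      apply Finset.sum_eq_zero
      intro t ht
      apply Finset.sum_eq_zero
      intro t' ht'
      apply ha2
      intro hmem
      apply hy
      have e : y = ((b g)⁻¹ * g)⁻¹ * τ t * ((b g * τ t)⁻¹ * (b (g * y) * τ t')) * (τ t')⁻¹ *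
          ((b (g * y))⁻¹ * (g * y)) := by group
      rw [e]
      exact hA _ (hd3 _ (hd2 _ (hd1 _ (hinv _ _ (hb g)) _ (hτ t ht)) _ hmem) _
        (hinv _ _ (hτ t' ht'))) _ (hb _)
    rw [this, mul_zero]

end Pool.Agent.H66.NCL
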