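import Pool.Agent.H66.NCL.SkewA

/-!
# Module Tower: iterated skew Laurent series

PLAN. First (`aux`, without the absolute value, any `k`): for `z : Fin k → A` there are `D`, `c`,
`t : Fin k → D`, `α' : A →* RingAut D` with `t i * c a = c (α (z i) a) * t i`, the `t i` commute,
`α' g (c a) = c (α g a)`, `α' g (t i) = t i`, and independence: if
`f.sum (fun m a => c a * (List.ofFn fun i => t i ^ m i).prod) = 0` then `f = 0`.
Induction on `k`: `exists_skew` applied to the division ring `D_k` of the induction hypothesis with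
its action `α'` and `z (Fin.last k)`; new `t = Fin.snoc (c' ∘ t) t_new`
(`t_new * c'(t i) = c'(α' _ (t i)) * t_new = c'(t i) * t_new`). Write
`f.sum … = ∑_j c'(b_j) * t_new^j`, `b_j = ∑_{m, m last = j} c a_m * ∏_{i<k} t i ^ m i` ;
`List.ofFn` over `Fin (k+1)` ends with the last factor (`List.ofFn_succ'`).
Then the theorem: for `k + 1` take `aux` for the first `k` and `exists_skew` for the last one; with
`N` = the largest `j` with `b_j ≠ 0` the absolute value of the sum is `2^N`, and `N ≥ m last` for every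
`m` with `f m ≠ 0` (independence gives `b_{m last} ≠ 0`).
-/

namespace Pool.Agent.H66.NCL

universe u

namespace Tower

variable {K D D' : Type u} [DivisionRing K] [DivisionRing D] [DivisionRing D']

/-- the slice of `f` at last coordinate `j` -/
noncomputable def slice {k : ℕ} (f : (Fin (k + 1) → ℕ) →₀ K) (j : ℕ) : (Fin k → ℕ) →₀ K :=
  f.comapDomain (fun m' : Fin k → ℕ => (Fin.snoc m' j : Fin (k + 1) → ℕ)) (by
    intro a _ b _ hab
    have h := congrArg (fun m : Fin (k + 1) → ℕ => fun i : Fin k => m i.castSucc) hab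
    simpa using h)

theorem slice_apply {k : ℕ} (f : (Fin (k + 1) → ℕ) →₀ K) (j : ℕ) (m' : Fin k → ℕ) :
    slice f j m' = f (Fin.snoc m' j) := rfl

/-- the family of the `t i` with a new last element -/
def ext {k : ℕ} (c' : D →+* D') (t : Fin k → D) (tn : D') : Fin (k + 1) → D' :=
  Fin.snoc (α := fun _ => D') (fun i => c' (t i)) tn

@[simp] theorem ext_castSucc {k : ℕ} (c' : D →+* D') (t : Fin k → D) (tn : D') (i : Fin k) :
    ext c' t tn i.castSucc = c' (t i) := by
  simp [ext]

@[simp] theorem ext_last {k : ℕ} (c' : D →+* D') (t : Fin k → D) (tn : D') :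
    ext c' t tn (Fin.last k) = tn := by
  simp [ext]

theorem prod_ext {k : ℕ} (c' : D →+* D') (t : Fin k → D) (tn : D') (m : Fin (k + 1) → ℕ) :
    (List.ofFn fun i => ext c' t tn i ^ m i).prod =
      c' (List.ofFn fun i : Fin k => t i ^ m i.castSucc).prod * tn ^ m (Fin.last k) := by
  rw [List.ofFn_succ', List.concat_eq_append, List.prod_append, List.prod_singleton, ext_last,
    map_list_prod, List.map_ofFn]
  congr 3
  funext i
  simp

theorem sum_eq {k : ℕ} (c : K →+* D) (c' : D →+* D') (t : Fin k → D) (tn : D')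
    (f : (Fin (k + 1) → ℕ) →₀ K) (N : ℕ) (hN : ∀ m ∈ f.support, m (Fin.last k) ≤ N) :
    (f.sum fun m a => (c'.comp c) a * (List.ofFn fun i => ext c' t tn i ^ m i).prod) =
      ∑ j ∈ Finset.range (N + 1),
        c' ((slice f j).sum fun m a => c a * (List.ofFn fun i => t i ^ m i).prod) * tn ^ j := by
  classical
  rw [Finsupp.sum, ← Finset.sum_fiberwise_of_maps_to (s := f.support)
    (t := Finset.range (N + 1)) (g := fun m => m (Fin.last k))
    (fun m hm => Finset.mem_range.2 (Nat.lt_succ_of_le (hN m hm)))]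
  refine Finset.sum_congr rfl fun j _ => ?_
  rw [Finsupp.sum, map_sum, Finset.sum_mul]
  refine Finset.sum_nbij' (fun m i => m i.castSucc) (fun m' => Fin.snoc m' j) ?_ ?_ ?_ ?_ ?_
  · intro m hm
    obtain ⟨hm1, hm2⟩ := Finset.mem_filter.1 hm
    rw [Finsupp.mem_support_iff, slice_apply]
    have : (Fin.snoc (fun i : Fin k => m i.castSucc) j : Fin (k + 1) → ℕ) = m := by
      rw [← hm2]; exact Fin.snoc_init_self m
    rw [this]
    exact Finsupp.mem_support_iff.1 hm1
  · intro m' hm'
    rw [Finset.mem_filter]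
    refine ⟨?_, by simp⟩
    rw [Finsupp.mem_support_iff, ← slice_apply]
    exact Finsupp.mem_support_iff.1 hm'
  · intro m hm
    obtain ⟨hm1, hm2⟩ := Finset.mem_filter.1 hm
    show (Fin.snoc (fun i : Fin k => m i.castSucc) j : Fin (k + 1) → ℕ) = m
    rw [← hm2]; exact Fin.snoc_init_self m
  · intro m' hm'
    funext i
    simp
  · intro m hm
    obtain ⟨hm1, hm2⟩ := Finset.mem_filter.1 hm
    have h : (Fin.snoc (fun i : Fin k => m i.castSucc) j : Fin (k + 1) → ℕ) = m := by
      rw [← hm2]; exact Fin.snoc_init_self m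
    rw [prod_ext, slice_apply, h, hm2, RingHom.comp_apply, map_mul, mul_assoc]

theorem bound {k : ℕ} (c : K →+* D) (c' : D →+* D') (t : Fin k → D) (tn : D') (nv : D' → ℝ)
    (hind : ∀ f : (Fin k → ℕ) →₀ K,
      (f.sum fun m a => c a * (List.ofFn fun i => t i ^ m i).prod) = 0 → f = 0)
    (hnv : ∀ (N : ℕ) (a : ℕ → D), a N ≠ 0 →
        nv (∑ i ∈ Finset.range (N + 1), c' (a i) * tn ^ i) = 2 ^ N)
    (f : (Fin (k + 1) → ℕ) →₀ K) (m : Fin (k + 1) → ℕ) (hm : f m ≠ 0) :
    (2 : ℝ) ^ m (Fin.last k) ≤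
      nv (f.sum fun m a => (c'.comp c) a * (List.ofFn fun i => ext c' t tn i ^ m i).prod) := by
  classical
  have hms : m ∈ f.support := Finsupp.mem_support_iff.2 hm
  obtain ⟨m0, hm0, hmax⟩ := Finset.exists_max_image f.support (fun m => m (Fin.last k)) ⟨m, hms⟩
  rw [sum_eq c c' t tn f (m0 (Fin.last k)) hmax, hnv]
  · exact pow_le_pow_right₀ (by norm_num) (hmax m hms)
  · intro h0
    have h1 := hind _ h0
    have h2 : slice f (m0 (Fin.last k)) (fun i => m0 i.castSucc) = 0 := by rw [h1]; rfl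
    rw [slice_apply] at h2
    have : (Fin.snoc (fun i : Fin k => m0 i.castSucc) (m0 (Fin.last k)) : Fin (k + 1) → ℕ) = m0 :=
      Fin.snoc_init_self m0
    rw [this] at h2
    exact (Finsupp.mem_support_iff.1 hm0) h2

theorem ext_rel {k : ℕ} {A : Type} [CommGroup A] (α : A →* RingAut K) (z : Fin (k + 1) → A)
    (c : K →+* D) (t : Fin k → D) (α' : A →* RingAut D) (c' : D →+* D') (tn : D')
    (h1 : ∀ i a, t i * c a = c (α (z i.castSucc) a) * t i)
    (h3 : ∀ g a, α' g (c a) = c (α g a))
    (h5 : ∀ a, tn * c' a = c' (α' (z (Fin.last k)) a) * tn) :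
    ∀ i a, ext c' t tn i * (c'.comp c) a = (c'.comp c) (α (z i) a) * ext c' t tn i := by
  intro i a
  refine Fin.lastCases ?_ (fun i => ?_) i
  · rw [ext_last, RingHom.comp_apply, RingHom.comp_apply, h5, h3]
  · rw [ext_castSucc, RingHom.comp_apply, RingHom.comp_apply, ← map_mul, ← map_mul, h1]

theorem ext_comm {k : ℕ} {A : Type} [CommGroup A] (z : Fin (k + 1) → A)
    (t : Fin k → D) (α' : A →* RingAut D) (c' : D →+* D') (tn : D')
    (h2 : ∀ i j, t i * t j = t j * t i)
    (h4 : ∀ g i, α' g (t i) = t i)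
    (h5 : ∀ a, tn * c' a = c' (α' (z (Fin.last k)) a) * tn) :
    ∀ i j, ext c' t tn i * ext c' t tn j = ext c' t tn j * ext c' t tn i := by
  intro i j
  refine Fin.lastCases ?_ (fun i => ?_) i
  · refine Fin.lastCases ?_ (fun j => ?_) j
    · rfl
    · rw [ext_last, ext_castSucc, h5, h4]
  · refine Fin.lastCases ?_ (fun j => ?_) j
    · rw [ext_last, ext_castSucc, h5, h4]
    · rw [ext_castSucc, ext_castSucc, ← map_mul, ← map_mul, h2]

theorem aux (K : Type u) [DivisionRing K] (A : Type) [CommGroup A] (α : A →* RingAut K) (k : ℕ) :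
    ∀ (z : Fin k → A),
    ∃ (D : Type u) (_ : DivisionRing D) (c : K →+* D) (t : Fin k → D) (α' : A →* RingAut D),
      (∀ i a, t i * c a = c (α (z i) a) * t i) ∧ (∀ i j, t i * t j = t j * t i) ∧
      (∀ g a, α' g (c a) = c (α g a)) ∧ (∀ g i, α' g (t i) = t i) ∧
      ∀ f : (Fin k → ℕ) →₀ K,
        (f.sum fun m a => c a * (List.ofFn fun i => t i ^ m i).prod) = 0 → f = 0 := by
  induction k with
  | zero =>
    intro z
    refine ⟨K, inferInstance, RingHom.id K, fun i => i.elim0, α, fun i => i.elim0,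
      fun i => i.elim0, fun _ _ => rfl, fun _ i => i.elim0, ?_⟩
    intro f hf
    have hu : ∀ m : Fin 0 → ℕ, m = default := fun m => Subsingleton.elim _ _
    refine Finsupp.ext fun m => ?_
    rw [hu m]
    have h : f = Finsupp.single default (f default) := by
      refine Finsupp.ext fun m' => ?_
      rw [hu m']
      simp
    rw [h, Finsupp.sum_single_index (by simp)] at hf
    simpa using hf
  | succ k ih =>
    intro z
    obtain ⟨D, iD, c, t, α', h1, h2, h3, h4, hind⟩ := ih (fun i => z i.castSucc)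
    obtain ⟨D', iD', nv, c', tn, α'', hU, h5, hnv, h6, h7⟩ := exists_skew D A α' (z (Fin.last k))
    refine ⟨D', iD', c'.comp c, ext c' t tn, α'', ext_rel α z c t α' c' tn h1 h3 h5,
      ext_comm z t α' c' tn h2 h4 h5, ?_, ?_, ?_⟩
    · intro g a
      rw [RingHom.comp_apply, RingHom.comp_apply, h6, h3]
    · intro g i
      refine Fin.lastCases ?_ (fun i => ?_) i
      · rw [ext_last, h7]
      · rw [ext_castSucc, h6, h4]
    · intro f hf
      by_contra hne
      obtain ⟨m, hm⟩ : ∃ m, f m ≠ 0 := by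
        by_contra h
        push Not at h
        exact hne (Finsupp.ext h)
      have hb := bound c c' t tn nv hind hnv f m hm
      rw [hf, (hU.eq_zero 0).2 rfl] at hb
      exact absurd hb (not_le.2 (by positivity))

end Tower

theorem exists_tower (K : Type u) [DivisionRing K] (A : Type) [CommGroup A] (α : A →* RingAut K)
    (k : ℕ) (z : Fin (k + 1) → A) :
    ∃ (D : Type u) (_ : DivisionRing D) (nv : D → ℝ) (c : K →+* D) (t : Fin (k + 1) → D),
      IsUltra nv ∧ (∀ i a, t i * c a = c (α (z i) a) * t i) ∧ (∀ i j, t i * t j = t j * t i) ∧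
      ∀ (f : (Fin (k + 1) → ℕ) →₀ K) (m : Fin (k + 1) → ℕ), f m ≠ 0 →
        (2 : ℝ) ^ m (Fin.last k) ≤
          nv (f.sum fun m a => c a * (List.ofFn fun i => t i ^ m i).prod) := by
  obtain ⟨D, iD, c, t, α', h1, h2, h3, h4, hind⟩ := Tower.aux K A α k (fun i => z i.castSucc)
  obtain ⟨D', iD', nv, c', tn, α'', hU, h5, hnv, h6, h7⟩ := exists_skew D A α' (z (Fin.last k))
  exact ⟨D', iD', nv, c'.comp c, Tower.ext c' t tn, hU, Tower.ext_rel α z c t α' c' tn h1 h3 h5,
    Tower.ext_comm z t α' c' tn h2 h4 h5, Tower.bound c c' t tn nv hind hnv⟩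

end Pool.Agent.H66.NCL
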